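import Pool.Agent.J4.H67.AW.Nw

/-!
# Even weights: definitions

`T = Ω / β²` is a point of order four; its coordinate is `x(T) = 1 / β`.
-/

set_option autoImplicit false
set_option linter.unusedSectionVars false

open Filter
open scoped Topology PeriodPair

namespace Pool.Agent.J4.H67.EW

open Pool.Agent.Y698 (al bl RR aR bR fR nR cj cX cY e7 LD)
open Pool.Agent.Y698.SG
open H667R3 Pool.Agent.W192.HK Pool.Agent.TH936.CM Pool.Agent.TH936.PU
open Pool.Agent.TH936.CW (E1 ek)
open Pool.Agent.J4.H67.AW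

/-- the point of order four -/
noncomputable def tT (Ω : ℂ) : ℂ := Ω / bl ^ 2

/-- the value of `℘'` at the point of order four -/
noncomputable def td (L : PeriodPair) (Ω : ℂ) : ℂ := ℘'[L] (tT Ω)

open Classical in
/-- the function `1 / (x(T) - x)`, zero at the lattice points -/
noncomputable def mf (L : PeriodPair) (z : ℂ) : ℂ :=
  if z ∈ L.lattice then 0 else 1 / (bl⁻¹ - Pool.Agent.Y698.Xx L z)

/-- the even function which describes the numbers of odd order -/
noncomputable def Jf (L : PeriodPair) (z : ℂ) : ℂ := mf L z + mf L z ^ 2 + mf L z ^ 3 + mf L z ^ 4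

/-- three functions with a distribution relation -/
noncomputable def B1 (L : PeriodPair) (Ω p q w : ℂ) : ℂ :=
  E1 L p q (w + tT Ω) - E1 L p q (w - tT Ω)
/-- the second one -/
noncomputable def B2 (L : PeriodPair) (Ω w : ℂ) : ℂ :=
  Pool.Agent.Y698.Xx L (w + tT Ω) + Pool.Agent.Y698.Xx L (w - tT Ω)
/-- the third one -/
noncomputable def B3 (L : PeriodPair) (Ω w : ℂ) : ℂ := ℘'[L] (w + tT Ω) - ℘'[L] (w - tT Ω)

/-- the odd function: the number of order `e` at `β² w`, plus the combination at `β w` -/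
noncomputable def Hf (L : PeriodPair) (p q : ℂ) (e : ℕ) (w : ℂ) : ℂ :=
  (e.factorial : ℂ) * ek L p q e ((bR : ℂ) * ((bR : ℂ) * w)) + Vv L p q ((bR : ℂ) * w)

/-- the families of inert prime elements used: `k` is the distinguished index -/
structure Fi {ι : Type} (S : Finset ι) (π : ι → RR) (k : ι) : Prop where
  fam : Fam S π
  real : ∀ i ∈ S, ∃ m : ℤ, π i = (m : RR)
  s1 : ∀ i ∈ S, ∀ j ∈ S, i ≠ j → sy (π j) (π i) = 1
  kf : sy (π k) fR = 1
  ka : sy (π k) aR = -1
  ke : e7 (π k) = 1
  k8 : ∃ u : RR, π k = -3 + 8 * u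
  oe : ∀ i ∈ S, i ≠ k → e7 (π i) = -1

end Pool.Agent.J4.H67.EW
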