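import Pool.Agent.J4.H67.EW.Defs
import Pool.Agent.W245.EB.CMz2

/-!
# The distribution relations
-/

set_option autoImplicit false
set_option linter.unusedSectionVars false

open Filter
open scoped Topology PeriodPair

namespace Pool.Agent.J4.H67.EW

open Pool.Agent.Y698 (al bl RR aR bR fR nR cj cX cY e7 e7_mul e7_neg e7_one e7_per e7_eq_zero e7_sq
  fR_ne fin_quot nR_nonneg mul_cj irr_fR not_mem_of_cop LD v_two_lt v_bl bl_ne qch GG)
open Pool.Agent.Y698.SG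
open H667R3 Pool.Agent.W192.HK Pool.Agent.TH936.CM Pool.Agent.TH936.PU
open Pool.Agent.TH936.CW (E1 ek)
open Pool.Agent.J4.H67.AW

namespace Dis

open Pool.Agent.W245.EB (ker mk_mem_ker mk_eq_iff Qt scL mem_scL wp_mul_const
  wp_add_lattice wp'_add_lattice)
open Pool.Agent.TH936.CW (lin_zero q_ne E1_per')

variable {L : PeriodPair} {R : Subring ℂ} {Ω p q : ℂ}

/-- the sum over the kernel is the sum over the residues -/
lemma ker_sum (hL : IsLat L R Ω) {c : R} (hc : c ≠ 0) [Fintype (R ⧸ sp c)]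
    (hα : (c : ℂ) ≠ 0) (hm : ∀ w ∈ L.lattice, (c : ℂ) * w ∈ L.lattice)
    (F : ℂ → ℂ) (hF : ∀ u, ∀ w ∈ L.lattice, F (u + w) = F u) (z : ℂ) :
    ∑ x ∈ ker hα hm, F (z - x.out) = ∑ t : R ⧸ sp c, F (z + Ω * t.out / c) := by
  symm
  refine Finset.sum_bij (fun t _ => (QuotientAddGroup.mk (-(Ω * t.out / c)) : Qt L)) ?_ ?_ ?_ ?_
  · intro t _
    rw [mk_mem_ker]
    have e : (c : ℂ) * -(Ω * t.out / c) = -(Ω * t.out) := by field_simp
    rw [e]
    exact neg_mem (hL.mem_mul _)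
  · intro t _ t' _ h
    rw [mk_eq_iff] at h
    obtain ⟨r, hr⟩ := (hL.mem _).1 h
    apply mk_eq
    rw [Ideal.mem_span_singleton']
    refine ⟨-r, Subtype.ext ?_⟩
    have hΩ := hL.ne
    have h2 : Ω * ((t.out : ℂ) - t'.out + r * c) = 0 := by
      field_simp at hr
      have h3 := hr
      linear_combination (exp := 1) -Ω * h3
    have h3 := (mul_eq_zero.1 h2).resolve_left hΩ
    push_cast
    linear_combination -h3
  · intro x hx
    rw [Pool.Agent.W245.EB.mem_ker] at hx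
    obtain ⟨r, hr⟩ := (hL.mem _).1 hx
    refine ⟨Ideal.Quotient.mk _ (-r), Finset.mem_univ _, ?_⟩
    rw [← QuotientAddGroup.out_eq' x, mk_eq_iff]
    have h1 := out_mk (sp c) (-r)
    rw [Ideal.mem_span_singleton'] at h1
    obtain ⟨b, hb⟩ := h1
    have h2 : ((b : ℂ)) * c = -r - (((Ideal.Quotient.mk (sp c) (-r)).out : R) : ℂ) := by
      have := congrArg (fun r : R => (r : ℂ)) hb
      push_cast at this
      exact this
    have h3 : -(Ω * (((Ideal.Quotient.mk (sp c) (-r)).out : R) : ℂ) / c) - x.out = Ω * b := by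
      have h4 : x.out = Ω * r / c := by
        rw [← hr]
        field_simp
      rw [h4]
      field_simp
      linear_combination -Ω * h2
    rw [h3]
    exact hL.mem_mul _
  · intro t _
    have h1 : -(Ω * t.out / c) - (QuotientAddGroup.mk (-(Ω * t.out / c)) : Qt L).out ∈ L.lattice := by
      rw [← mk_eq_iff, QuotientAddGroup.out_eq']
    have e : z - (QuotientAddGroup.mk (-(Ω * t.out / c)) : Qt L).out = z + Ω * t.out / c +
        (-(Ω * t.out / c) - (QuotientAddGroup.mk (-(Ω * t.out / c)) : Qt L).out) := by ring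
    rw [e, hF _ _ h1]

lemma notMem (hL : IsLat L R Ω) {c : R} (hc : c ≠ 0) {z : ℂ} (hz : (c : ℂ) * z ∉ L.lattice)
    (b : R) : z + Ω * b / c ∉ L.lattice := mul_notMem hL hc hz b

/-- the multiplication formula for `℘` -/
lemma wp_dist (hL : IsLat L R Ω) {c : R} (hc : c ≠ 0) [Fintype (R ⧸ sp c)] :
    ∃ C : ℂ, ∀ z, (c : ℂ) * z ∉ L.lattice →
      (c : ℂ) ^ 2 * ℘[L] (c * z) = ∑ t : R ⧸ sp c, ℘[L] (z + Ω * t.out / c) + C := by
  have hα := coe_ne hc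
  have hm : ∀ w ∈ L.lattice, (c : ℂ) * w ∈ L.lattice := fun w hw => hL.mul c w hw
  have hF : ∀ u, ∀ w ∈ L.lattice, ℘[L] (u + w) = ℘[L] u := fun u w hw => wp_add_lattice L hw
  obtain ⟨z₀, hz₀⟩ : ∃ z₀, (c : ℂ) * z₀ ∉ L.lattice := by
    refine ⟨(c : ℂ)⁻¹ * (L.ω₁ / 2), ?_⟩
    rw [mul_inv_cancel_left₀ hα]
    exact L.ω₁_div_two_notMem_lattice
  refine ⟨(c : ℂ) ^ 2 * ℘[L] (c * z₀) - ∑ x ∈ ker hα hm, ℘[L] (z₀ - x.out), fun z hz => ?_⟩
  have h := wp_mul_const hα hm z z₀ hz hz₀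
  rw [← ker_sum hL hc hα hm _ hF]
  linear_combination h

/-- the multiplication formula for `ζ` -/
lemma zeta_dist (hL : IsLat L R Ω) {c : R} (hc : c ≠ 0) [Fintype (R ⧸ sp c)] {C : ℂ}
    (hC : ∀ z, (c : ℂ) * z ∉ L.lattice →
      (c : ℂ) ^ 2 * ℘[L] (c * z) = ∑ t : R ⧸ sp c, ℘[L] (z + Ω * t.out / c) + C) :
    ∃ c₂ : ℂ, ∀ z, (c : ℂ) * z ∉ L.lattice →
      (c : ℂ) * zeta L (c * z) = ∑ t : R ⧸ sp c, zeta L (z + Ω * t.out / c) - C * z + c₂ := by
  have hα := coe_ne hc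
  set g : ℂ → ℂ := fun z => (c : ℂ) * zeta L (c * z) -
    ∑ t : R ⧸ sp c, zeta L (z + Ω * t.out / c) + C * z with hg
  have hder : ∀ z, z ∉ (scL L (c : ℂ) hα).lattice → HasDerivAt g 0 z := by
    intro z hz
    have hz' : (c : ℂ) * z ∉ L.lattice := fun h => hz (mem_scL.2 h)
    have d1 : HasDerivAt (fun z => (c : ℂ) * zeta L (c * z)) (c * (-℘[L] (c * z) * c)) z := by
      have h0 : HasDerivAt (fun x : ℂ => (c : ℂ) * x) c z := by
        simpa using (hasDerivAt_id z).const_mul (c : ℂ)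
      exact ((hasDerivAt_zeta L hz').comp z h0).const_mul (c : ℂ)
    have d2 : HasDerivAt (fun z => ∑ t : R ⧸ sp c, zeta L (z + Ω * t.out / c))
        (∑ t : R ⧸ sp c, (-℘[L] (z + Ω * t.out / c))) z := by
      apply HasDerivAt.fun_sum
      intro t _
      exact (hasDerivAt_zeta L (notMem hL hc hz' t.out)).comp_add_const z _
    have d3 : HasDerivAt (fun z => C * z) C z := by
      simpa using (hasDerivAt_id z).const_mul C
    refine ((d1.fun_sub d2).fun_add d3).congr_deriv ?_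
    rw [Finset.sum_neg_distrib]
    have := hC z hz'
    linear_combination -this
  obtain ⟨z₀, hz₀⟩ : ∃ z₀, z₀ ∉ (scL L (c : ℂ) hα).lattice :=
    ⟨_, (scL L (c : ℂ) hα).ω₁_div_two_notMem_lattice⟩
  refine ⟨g z₀, fun z hz => ?_⟩
  have h1 : g z = g z₀ :=
    (isOpen_compl (scL L (c : ℂ) hα)).is_const_of_deriv_eq_zero
      (isPreconnected_compl (scL L (c : ℂ) hα))
      (fun x hx => (hder x hx).differentiableAt.differentiableWithinAt)
      (fun x hx => (hder x hx).deriv) (fun h => hz (mem_scL.1 h)) hz₀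
  rw [← h1, hg]
  ring

/-- the constants -/
lemma consts (hL : IsLat L R Ω) (hpq : ∀ l ∈ L.lattice, eta L l = p * l + q * (starRingEnd ℂ) l)
    {c : R} (hc : c ≠ 0) [Fintype (R ⧸ sp c)] {C c₂ : ℂ}
    (hc₂ : ∀ z, (c : ℂ) * z ∉ L.lattice →
      (c : ℂ) * zeta L (c * z) = ∑ t : R ⧸ sp c, zeta L (z + Ω * t.out / c) - C * z + c₂) :
    C = p * ((Fintype.card (R ⧸ sp c) : ℂ) - (c : ℂ) ^ 2) ∧
      (c : ℂ) * (starRingEnd ℂ) (c : ℂ) = Fintype.card (R ⧸ sp c) := by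
  have hα := coe_ne hc
  have hm : ∀ w ∈ L.lattice, (c : ℂ) * w ∈ L.lattice := fun w hw => hL.mul c w hw
  set N : ℂ := (Fintype.card (R ⧸ sp c) : ℂ) with hN
  have h1 : ∀ l ∈ L.lattice, (p * (c : ℂ) ^ 2 - N * p + C) * l +
      q * ((c : ℂ) * (starRingEnd ℂ) (c : ℂ) - N) * (starRingEnd ℂ) l = 0 := by
    intro l hl
    obtain ⟨z, hz⟩ : ∃ z, (c : ℂ) * z ∉ L.lattice := by
      refine ⟨(c : ℂ)⁻¹ * (L.ω₁ / 2), ?_⟩
      rw [mul_inv_cancel_left₀ hα]
      exact L.ω₁_div_two_notMem_lattice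
    have hz' : (c : ℂ) * (z + l) ∉ L.lattice := by
      rw [mul_add]
      intro h
      exact hz ((add_mem_iff L (hm l hl)).1 h)
    have e1 := hc₂ z hz
    have e2 := hc₂ (z + l) hz'
    rw [mul_add, zeta_add_coe L hz (hm l hl), hpq _ (hm l hl)] at e2
    have e3 : ∑ t : R ⧸ sp c, zeta L (z + l + Ω * t.out / c) =
        ∑ t : R ⧸ sp c, zeta L (z + Ω * t.out / c) + N * (p * l + q * (starRingEnd ℂ) l) := by
      rw [hN, ← nsmul_eq_mul, ← Finset.card_univ, ← Finset.sum_const, ← Finset.sum_add_distrib]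
      refine Finset.sum_congr rfl fun t _ => ?_
      have e4 : z + l + Ω * t.out / c = z + Ω * t.out / c + l := by ring
      rw [e4, zeta_add_coe L (notMem hL hc hz _) hl, hpq l hl]
    rw [e3, map_mul] at e2
    linear_combination e2 - e1
  obtain ⟨h2, h3⟩ := lin_zero L h1
  refine ⟨by linear_combination h2, ?_⟩
  have := (mul_eq_zero.1 h3).resolve_left (q_ne hpq)
  linear_combination this

/-- the distribution relation for `E1`, up to a constant -/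
lemma E1_dist (hL : IsLat L R Ω) (hpq : ∀ l ∈ L.lattice, eta L l = p * l + q * (starRingEnd ℂ) l)
    {c : R} (hc : c ≠ 0) [Fintype (R ⧸ sp c)] :
    ∃ K : ℂ, ∀ z, (c : ℂ) * z ∉ L.lattice →
      ∑ t : R ⧸ sp c, E1 L p q (z + Ω * t.out / c) = c * E1 L p q (c * z) + K := by
  obtain ⟨C, hC⟩ := wp_dist hL hc
  obtain ⟨c₂, hc₂⟩ := zeta_dist hL hc hC
  obtain ⟨h1, h2⟩ := consts hL hpq hc hc₂
  set N : ℂ := (Fintype.card (R ⧸ sp c) : ℂ) with hN
  refine ⟨-c₂ - p * ∑ t : R ⧸ sp c, Ω * t.out / c -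
    q * ∑ t : R ⧸ sp c, (starRingEnd ℂ) (Ω * t.out / c), fun z hz => ?_⟩
  have h3 := hc₂ z hz
  have h4 : ∑ t : R ⧸ sp c, E1 L p q (z + Ω * t.out / c) =
      ∑ t : R ⧸ sp c, zeta L (z + Ω * t.out / c) - p * (N * z + ∑ t : R ⧸ sp c, Ω * t.out / c) -
        q * (N * (starRingEnd ℂ) z + ∑ t : R ⧸ sp c, (starRingEnd ℂ) (Ω * t.out / c)) := by
    have e1 : N * z = ∑ _t : R ⧸ sp c, z := by
      rw [Finset.sum_const, Finset.card_univ, nsmul_eq_mul]
    have e2 : N * (starRingEnd ℂ) z = ∑ _t : R ⧸ sp c, (starRingEnd ℂ) z := by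
      rw [Finset.sum_const, Finset.card_univ, nsmul_eq_mul]
    rw [e1, e2, ← Finset.sum_add_distrib, ← Finset.sum_add_distrib, Finset.mul_sum, Finset.mul_sum,
      ← Finset.sum_sub_distrib, ← Finset.sum_sub_distrib]
    refine Finset.sum_congr rfl fun t _ => ?_
    unfold E1 Pool.Agent.TH936.CW.Xx
    rw [map_add]
  rw [h4]
  unfold E1 Pool.Agent.TH936.CW.Xx
  rw [map_mul]
  linear_combination -h3 + z * h1 + q * (starRingEnd ℂ) z * h2

/-- the distribution relation for `x` -/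
lemma Xx_dist (hL : IsLat L R Ω)
    (hpq : ∀ l ∈ L.lattice, eta L l = 1 / 4 * l + q * (starRingEnd ℂ) l)
    {c : R} (hc : c ≠ 0) [Fintype (R ⧸ sp c)] {z : ℂ} (hz : (c : ℂ) * z ∉ L.lattice) :
    ∑ t : R ⧸ sp c, Pool.Agent.Y698.Xx L (z + Ω * t.out / c) =
      (c : ℂ) ^ 2 * Pool.Agent.Y698.Xx L (c * z) := by
  obtain ⟨C, hC⟩ := wp_dist hL hc
  obtain ⟨c₂, hc₂⟩ := zeta_dist hL hc hC
  obtain ⟨h1, h2⟩ := consts hL hpq hc hc₂
  have h3 := hC z hz
  unfold Pool.Agent.Y698.Xx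
  rw [Finset.sum_add_distrib, Finset.sum_const, Finset.card_univ, nsmul_eq_mul]
  linear_combination -h3 - h1

/-- the distribution relation for `℘'` -/
lemma wp'_dist (hL : IsLat L R Ω) {c : R} (hc : c ≠ 0) [Fintype (R ⧸ sp c)] {z : ℂ}
    (hz : (c : ℂ) * z ∉ L.lattice) :
    ∑ t : R ⧸ sp c, ℘'[L] (z + Ω * t.out / c) = (c : ℂ) ^ 3 * ℘'[L] (c * z) := by
  obtain ⟨C, hC⟩ := wp_dist hL hc
  have hα := coe_ne hc
  have d1 : HasDerivAt (fun z => (c : ℂ) ^ 2 * ℘[L] (c * z)) ((c : ℂ) ^ 2 * (℘'[L] (c * z) * c)) z := by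
    have h0 : HasDerivAt (fun x : ℂ => (c : ℂ) * x) c z := by
      simpa using (hasDerivAt_id z).const_mul (c : ℂ)
    exact ((hasDerivAt_weierstrassP L hz).comp z h0).const_mul _
  have d2 : HasDerivAt (fun z => ∑ t : R ⧸ sp c, ℘[L] (z + Ω * t.out / c) + C)
      (∑ t : R ⧸ sp c, ℘'[L] (z + Ω * t.out / c)) z := by
    apply HasDerivAt.add_const
    apply HasDerivAt.fun_sum
    intro t _
    exact (hasDerivAt_weierstrassP L (notMem hL hc hz t.out)).comp_add_const z _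
  have hev : (fun z => (c : ℂ) ^ 2 * ℘[L] (c * z)) =ᶠ[𝓝 z]
      fun z => ∑ t : R ⧸ sp c, ℘[L] (z + Ω * t.out / c) + C := by
    have hcont : Continuous fun z : ℂ => (c : ℂ) * z := by fun_prop
    have h1 : ∀ᶠ w in 𝓝 z, (c : ℂ) * w ∈ (L.lattice : Set ℂ)ᶜ :=
      hcont.continuousAt.eventually_mem ((isOpen_compl L).mem_nhds hz)
    filter_upwards [h1] with w hw
    exact hC w hw
  have h2 := d1.unique (d2.congr_of_eventuallyEq hev)
  rw [← h2]
  ring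

lemma wp_per (L : PeriodPair) {z w : ℂ} (h : w - z ∈ L.lattice) : ℘[L] w = ℘[L] z := by
  have := wp_add_lattice L (u := z) h
  rwa [add_sub_cancel] at this

lemma wp'_per (L : PeriodPair) {z w : ℂ} (h : w - z ∈ L.lattice) : ℘'[L] w = ℘'[L] z := by
  have := wp'_add_lattice L (u := z) h
  rwa [add_sub_cancel] at this

lemma mT {T : ℂ} {c : R} (hT : (c : ℂ) * T - T ∈ L.lattice) {z : ℂ}
    (h1 : (c : ℂ) * z + T ∉ L.lattice) : (c : ℂ) * (z + T) ∉ L.lattice := by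
  intro h
  apply h1
  have := sub_mem h hT
  convert this using 1
  ring

lemma mT' {T : ℂ} {c : R} (hT : (c : ℂ) * T - T ∈ L.lattice) {z : ℂ}
    (h2 : (c : ℂ) * z - T ∉ L.lattice) : (c : ℂ) * (z - T) ∉ L.lattice := by
  intro h
  apply h2
  have := add_mem h hT
  convert this using 1
  ring

end Dis

open Dis

variable {L : PeriodPair} {Ω p q : ℂ}

theorem B1_dist (hL : IsLat L RR Ω)
    (hpq : ∀ l ∈ L.lattice, eta L l = p * l + q * (starRingEnd ℂ) l) {c : RR} (hc : c ≠ 0)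
    (hT : (c : ℂ) * tT Ω - tT Ω ∈ L.lattice) [Fintype (RR ⧸ sp c)] {z : ℂ}
    (h1 : (c : ℂ) * z + tT Ω ∉ L.lattice) (h2 : (c : ℂ) * z - tT Ω ∉ L.lattice) :
    ∑ t : RR ⧸ sp c, B1 L Ω p q (z + Ω * t.out / c) = c * B1 L Ω p q (c * z) := by
  obtain ⟨K, hK⟩ := E1_dist hL hpq hc
  have k1 := hK _ (mT hT h1)
  have k2 := hK _ (mT' hT h2)
  have p1 : E1 L p q ((c : ℂ) * (z + tT Ω)) = E1 L p q (c * z + tT Ω) := by
    refine Pool.Agent.TH936.CW.E1_per' hpq h1 ?_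
    convert hT using 1
    ring
  have p2 : E1 L p q ((c : ℂ) * (z - tT Ω)) = E1 L p q (c * z - tT Ω) := by
    refine Pool.Agent.TH936.CW.E1_per' hpq h2 ?_
    convert neg_mem hT using 1
    ring
  unfold B1
  rw [Finset.sum_sub_distrib]
  have e1 : ∑ t : RR ⧸ sp c, E1 L p q (z + Ω * t.out / c + tT Ω) =
      ∑ t : RR ⧸ sp c, E1 L p q (z + tT Ω + Ω * t.out / c) :=
    Finset.sum_congr rfl fun t _ => by congr 1; ring
  have e2 : ∑ t : RR ⧸ sp c, E1 L p q (z + Ω * t.out / c - tT Ω) =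
      ∑ t : RR ⧸ sp c, E1 L p q (z - tT Ω + Ω * t.out / c) :=
    Finset.sum_congr rfl fun t _ => by congr 1; ring
  rw [e1, e2, k1, k2, p1, p2]
  ring

theorem B2_dist (hL : IsLat L RR Ω)
    (hpq : ∀ l ∈ L.lattice, eta L l = 1 / 4 * l + q * (starRingEnd ℂ) l) {c : RR} (hc : c ≠ 0)
    (hT : (c : ℂ) * tT Ω - tT Ω ∈ L.lattice) [Fintype (RR ⧸ sp c)] {z : ℂ}
    (h1 : (c : ℂ) * z + tT Ω ∉ L.lattice) (h2 : (c : ℂ) * z - tT Ω ∉ L.lattice) :
    ∑ t : RR ⧸ sp c, B2 L Ω (z + Ω * t.out / c) = c ^ 2 * B2 L Ω (c * z) := by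
  have k1 := Xx_dist hL hpq hc (mT hT h1)
  have k2 := Xx_dist hL hpq hc (mT' hT h2)
  have p1 : Pool.Agent.Y698.Xx L ((c : ℂ) * (z + tT Ω)) =
      Pool.Agent.Y698.Xx L (c * z + tT Ω) := by
    unfold Pool.Agent.Y698.Xx
    rw [wp_per L (z := (c : ℂ) * z + tT Ω) (w := (c : ℂ) * (z + tT Ω))]
    convert hT using 1
    ring
  have p2 : Pool.Agent.Y698.Xx L ((c : ℂ) * (z - tT Ω)) =
      Pool.Agent.Y698.Xx L (c * z - tT Ω) := by
    unfold Pool.Agent.Y698.Xx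
    rw [wp_per L (z := (c : ℂ) * z - tT Ω) (w := (c : ℂ) * (z - tT Ω))]
    convert neg_mem hT using 1
    ring
  unfold B2
  rw [Finset.sum_add_distrib]
  have e1 : ∑ t : RR ⧸ sp c, Pool.Agent.Y698.Xx L (z + Ω * t.out / c + tT Ω) =
      ∑ t : RR ⧸ sp c, Pool.Agent.Y698.Xx L (z + tT Ω + Ω * t.out / c) :=
    Finset.sum_congr rfl fun t _ => by congr 1; ring
  have e2 : ∑ t : RR ⧸ sp c, Pool.Agent.Y698.Xx L (z + Ω * t.out / c - tT Ω) =
      ∑ t : RR ⧸ sp c, Pool.Agent.Y698.Xx L (z - tT Ω + Ω * t.out / c) :=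
    Finset.sum_congr rfl fun t _ => by congr 1; ring
  rw [e1, e2, k1, k2, p1, p2]
  ring

theorem B3_dist (hL : IsLat L RR Ω) {c : RR} (hc : c ≠ 0)
    (hT : (c : ℂ) * tT Ω - tT Ω ∈ L.lattice) [Fintype (RR ⧸ sp c)] {z : ℂ}
    (h1 : (c : ℂ) * z + tT Ω ∉ L.lattice) (h2 : (c : ℂ) * z - tT Ω ∉ L.lattice) :
    ∑ t : RR ⧸ sp c, B3 L Ω (z + Ω * t.out / c) = c ^ 3 * B3 L Ω (c * z) := by
  have k1 := wp'_dist hL hc (mT hT h1)
  have k2 := wp'_dist hL hc (mT' hT h2)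
  have p1 : ℘'[L] ((c : ℂ) * (z + tT Ω)) = ℘'[L] (c * z + tT Ω) := by
    refine wp'_per L ?_
    convert hT using 1
    ring
  have p2 : ℘'[L] ((c : ℂ) * (z - tT Ω)) = ℘'[L] (c * z - tT Ω) := by
    refine wp'_per L ?_
    convert neg_mem hT using 1
    ring
  unfold B3
  rw [Finset.sum_sub_distrib]
  have e1 : ∑ t : RR ⧸ sp c, ℘'[L] (z + Ω * t.out / c + tT Ω) =
      ∑ t : RR ⧸ sp c, ℘'[L] (z + tT Ω + Ω * t.out / c) :=
    Finset.sum_congr rfl fun t _ => by congr 1; ring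
  have e2 : ∑ t : RR ⧸ sp c, ℘'[L] (z + Ω * t.out / c - tT Ω) =
      ∑ t : RR ⧸ sp c, ℘'[L] (z - tT Ω + Ω * t.out / c) :=
    Finset.sum_congr rfl fun t _ => by congr 1; ring
  rw [e1, e2, k1, k2, p1, p2]
  ring

end Pool.Agent.J4.H67.EW
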