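import Pool.Agent.J4.H67.EW.Defs
import Pool.Agent.Y279.SG.PI

/-!
# Even weights: the prime elements
-/

set_option autoImplicit false
set_option linter.unusedSectionVars false

namespace Pool.Agent.J4.H67.EW.Pnh

open Pool.Agent.Y698 Pool.Agent.Y698.SG Pool.Agent.Y279.SG
open H667R3 Pool.Agent.W192.HK Pool.Agent.TH936.CM Pool.Agent.TH936.PU

/-- odd primes which are inert in `ℚ(√-7)` -/
structure In2 (q : ℕ) : Prop where
  pr : q.Prime
  ns : ¬ IsSquare (-7 : ZMod q)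
  n2 : q ≠ 2

lemma In2.dvd {q : ℕ} (h : In2 q) (x : RR) : x ∈ sp (q : RR) ↔ (q : ℤ) ∣ nR x := by
  rw [mem_inert_iff h.pr h.ns, ZMod.intCast_zmod_eq_zero_iff_dvd]

/-- every integer is a square modulo an odd inert prime -/
lemma pn_int_sq {q : ℕ} (h : In2 q) (n : ℤ) :
    IsSquare (Ideal.Quotient.mk (sp (q : RR)) (n : RR)) := by
  have _ : Fact q.Prime := ⟨h.pr⟩
  by_cases h1 : IsSquare ((n : ℤ) : ZMod q)
  · obtain ⟨s, hs⟩ := h1
    obtain ⟨s, rfl⟩ := ZMod.intCast_surjective s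
    refine ⟨Ideal.Quotient.mk _ (s : RR), ?_⟩
    rw [← map_mul]
    have := mk_int_of (q := q) (a := n) (b := s * s) (by push_cast; exact hs)
    push_cast at this
    exact this
  · have hn0 : ((n : ℤ) : ZMod q) ≠ 0 := fun h0 => h1 (by rw [h0]; exact ⟨0, by ring⟩)
    have h70 : (-7 : ZMod q) ≠ 0 := fun h0 => h.ns (by rw [h0]; exact ⟨0, by ring⟩)
    have hq2 : ringChar (ZMod q) ≠ 2 := by
      rw [ZMod.ringChar_zmod_n]
      exact h.n2
    have e1 : quadraticChar (ZMod q) (n : ZMod q) = -1 :=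
      (quadraticChar_neg_one_iff_not_isSquare).2 h1
    have e2 : quadraticChar (ZMod q) (-7 : ZMod q) = -1 :=
      (quadraticChar_neg_one_iff_not_isSquare).2 h.ns
    have e3 : IsSquare ((-7 : ZMod q) * (n : ZMod q)) := by
      rw [← quadraticChar_one_iff_isSquare (mul_ne_zero h70 hn0), map_mul, e1, e2]
      norm_num
    obtain ⟨s, hs⟩ := e3
    obtain ⟨s, rfl⟩ := ZMod.intCast_surjective s
    obtain ⟨u, v, huv⟩ := Pool.Agent.Y698.cop_inert h.pr h.ns
    have e4 := mk_int_of (q := q) (a := -7 * n) (b := s * s) (by push_cast; exact hs)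
    push_cast at e4
    have e5 : Ideal.Quotient.mk (sp (q : RR)) (u * fR) = 1 := by
      rw [← map_one (Ideal.Quotient.mk (sp (q : RR))), Ideal.Quotient.eq,
        Ideal.mem_span_singleton']
      exact ⟨-v, by linear_combination -huv⟩
    refine ⟨Ideal.Quotient.mk _ ((s : RR) * u), ?_⟩
    have e6 : (-7 : RR) = fR ^ 2 := fR_sq.symm
    rw [e6] at e4
    simp only [map_mul, map_pow] at e4 e5 ⊢
    linear_combination (Ideal.Quotient.mk (sp (q : RR)) u) ^ 2 * e4 -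
      Ideal.Quotient.mk (sp (q : RR)) (n : RR) *
        (Ideal.Quotient.mk (sp (q : RR)) u * Ideal.Quotient.mk (sp (q : RR)) fR + 1) * e5

lemma pn_sy {q : ℕ} (h : In2 q) (x : RR) : sy (q : RR) x = qch q (nR x) := by
  classical
  have _ : Fact q.Prime := ⟨h.pr⟩
  unfold sy
  by_cases h0 : x ∈ sp (q : RR)
  · rw [if_pos h0]
    rcases qch_val h.pr (nR x) with h1 | h1
    · exact h1.2.symm
    · exact absurd ((h.dvd x).1 h0) h1.1
  have hnd : ¬ (q : ℤ) ∣ nR x := fun h1 => h0 ((h.dvd x).2 h1)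
  have hn0 : ((nR x : ℤ) : ZMod q) ≠ 0 := by
    rwa [Ne, ZMod.intCast_zmod_eq_zero_iff_dvd]
  have key : IsSquare (Ideal.Quotient.mk (sp (q : RR)) x) ↔ IsSquare ((nR x : ℤ) : ZMod q) := by
    constructor
    · rintro ⟨y, hy⟩
      obtain ⟨y, rfl⟩ := Ideal.Quotient.mk_surjective y
      refine ⟨((nR y : ℤ) : ZMod q), ?_⟩
      rw [← map_mul, Ideal.Quotient.eq, Ideal.mem_span_singleton'] at hy
      obtain ⟨c, hc⟩ := hy
      have h1 : x = y * y + (q : RR) * c := by linear_combination -hc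
      have h2 : cX x = cX (y * y) + q * cX c ∧ cY x = cY (y * y) + q * cY c := by
        apply cXY_of
        rw [h1]
        push_cast
        have e1 := co (y * y)
        push_cast at e1
        rw [e1, co c]
        ring
      have h3 : ((nR x : ℤ) : ZMod q) = ((nR (y * y) : ℤ) : ZMod q) := by
        unfold nR
        rw [h2.1, h2.2]
        push_cast
        simp
      rw [h3, nR_mul]
      push_cast
      rfl
    · rintro ⟨s, hs⟩
      obtain ⟨m, rfl⟩ := ZMod.intCast_surjective s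
      have e1 := mk_int_of (q := q) (a := nR x) (b := m * m) (by push_cast; exact hs)
      rw [← mul_cj x] at e1
      push_cast at e1
      have e2 : cj x = ((2 * cX x + cY x : ℤ) : RR) - x := by
        apply RR_ext
        · rw [(cXY_cj x).1, sub_eq_add_neg, (cXY_add _ _).1, (cXY_int _).1, (cXY_neg x).1]
          ring
        · rw [(cXY_cj x).2, sub_eq_add_neg, (cXY_add _ _).2, (cXY_int _).2, (cXY_neg x).2]
          ring
      obtain ⟨t, ht⟩ : ∃ t : ℤ, t = 2 * cX x + cY x := ⟨_, rfl⟩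
      rw [e2, ← ht] at e1
      by_cases h5 : (((t + 2 * m : ℤ)) : ZMod q) = 0
      · -- then `x = -m`
        have e3 : Ideal.Quotient.mk (sp (q : RR)) ((t + 2 * m : ℤ) : RR) = 0 := by
          have := mk_int_of (q := q) (a := t + 2 * m) (b := 0) (by rw [h5]; simp)
          rw [this]
          simp
        have e4 : Ideal.Quotient.mk (sp (q : RR)) ((x + (m : RR)) * (x + (m : RR))) = 0 := by
          push_cast at e3
          simp only [map_mul, map_add, map_sub, map_ofNat] at e1 e3 ⊢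
          linear_combination -e1 + Ideal.Quotient.mk (sp (q : RR)) x * e3
        rw [Ideal.Quotient.eq_zero_iff_mem] at e4
        have hpr : (sp (q : RR)).IsPrime := (maximal_sp (irr_inert h.pr h.ns)).isPrime
        have e5 : x + (m : RR) ∈ sp (q : RR) := by
          rcases hpr.mem_or_mem e4 with h6 | h6 <;> exact h6
        have e6 : Ideal.Quotient.mk (sp (q : RR)) x =
            Ideal.Quotient.mk (sp (q : RR)) ((-m : ℤ) : RR) := by
          rw [Ideal.Quotient.eq]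
          push_cast
          rw [sub_neg_eq_add]
          exact e5
        rw [e6]
        exact pn_int_sq h (-m)
      · obtain ⟨w, hw⟩ := ZMod.intCast_surjective (((t + 2 * m : ℤ) : ZMod q)⁻¹)
        have e3 : Ideal.Quotient.mk (sp (q : RR)) (((t + 2 * m) * w : ℤ) : RR) = 1 := by
          have := mk_int_of (q := q) (a := (t + 2 * m) * w) (b := 1)
            (by rw [Int.cast_mul, hw, mul_inv_cancel₀ h5]; simp)
          rw [this]
          simp
        obtain ⟨r, hr⟩ := pn_int_sq h w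
        refine ⟨Ideal.Quotient.mk _ (x + (m : RR)) * r, ?_⟩
        push_cast at e3
        simp only [map_mul, map_add, map_sub, map_ofNat] at e1 e3 hr ⊢
        generalize Ideal.Quotient.mk (sp (q : RR)) x = X at *
        generalize Ideal.Quotient.mk (sp (q : RR)) (m : RR) = M at *
        generalize Ideal.Quotient.mk (sp (q : RR)) (t : RR) = T at *
        generalize Ideal.Quotient.mk (sp (q : RR)) (w : RR) = W at *
        linear_combination (X + M) ^ 2 * hr - X * e3 + W * e1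
  rw [if_neg h0, qch_eq]
  by_cases h1 : IsSquare ((nR x : ℤ) : ZMod q)
  · rw [if_pos (key.2 h1), (quadraticChar_one_iff_isSquare hn0).2 h1]
    norm_num
  · rw [if_neg (fun h2 => h1 (key.1 h2)), (quadraticChar_neg_one_iff_not_isSquare).2 h1]
    norm_num

lemma sp_neg (ϖ : RR) : sp (-ϖ) = sp ϖ := Ideal.span_singleton_neg ϖ

lemma sq_congr {I J : Ideal RR} (h : I = J) (x : RR) :
    IsSquare (Ideal.Quotient.mk I x) ↔ IsSquare (Ideal.Quotient.mk J x) := by
  subst h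
  rfl

lemma sy_neg (ϖ x : RR) : sy (-ϖ) x = sy ϖ x := by
  have h1 : x ∈ sp (-ϖ) ↔ x ∈ sp ϖ := by rw [sp_neg]
  have h2 := sq_congr (sp_neg ϖ) x
  unfold sy
  by_cases h3 : x ∈ sp ϖ
  · rw [if_pos (h1.2 h3), if_pos h3]
  · rw [if_neg (fun h => h3 (h1.1 h)), if_neg h3]
    by_cases h4 : IsSquare (Ideal.Quotient.mk (sp ϖ) x)
    · rw [if_pos (h2.2 h4), if_pos h4]
    · rw [if_neg (fun h => h4 (h2.1 h)), if_neg h4]

/-- the properties used of the element `± q` -/
lemma pd_of {q : ℕ} (h : In2 q) {ϖ : RR} (hϖ : ϖ = (q : RR) ∨ ϖ = -(q : RR))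
    (h4 : ∃ u : RR, ϖ = 1 + 4 * u) : PD ϖ ∧ (∀ x, sy ϖ x = qch q (nR x)) ∧ sp ϖ = sp (q : RR) := by
  have hs : sp ϖ = sp (q : RR) := by
    rcases hϖ with h1 | h1
    · rw [h1]
    · rw [h1, sp_neg]
  have hsy : ∀ x, sy ϖ x = qch q (nR x) := by
    intro x
    rcases hϖ with h1 | h1
    · rw [h1, pn_sy h]
    · rw [h1, sy_neg, pn_sy h]
  refine ⟨⟨?_, h4, ?_, ?_, ?_⟩, hsy, hs⟩
  · have h1 := (irr_inert h.pr h.ns).prime
    rcases hϖ with h2 | h2
    · rw [h2]; exact h1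
    · rw [h2]; exact h1.neg
  · have h1 := cop_inert h.pr h.ns
    rcases hϖ with h2 | h2
    · rw [h2]; exact h1
    · rw [h2]; exact h1.neg_right
  · intro x y
    rw [hsy, hsy, hsy, nR_mul, qch_mul]
  · rw [hsy]
    have h1 : nR (-1 : RR) = 1 := by
      unfold nR
      rw [(cXY_neg 1).1, (cXY_neg 1).2, cXY_one.1, cXY_one.2]
      norm_num
    rw [h1]
    unfold qch
    rw [jacobiSym.one_left]
    norm_num

lemma nR_pm {q : ℕ} {ϖ : RR} (hϖ : ϖ = (q : RR) ∨ ϖ = -(q : RR)) : nR ϖ = (q : ℤ) * q := by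
  have h0 : nR (q : RR) = (q : ℤ) * q := by
    unfold nR
    rw [(cXY_nat q).1, (cXY_nat q).2]
    ring
  rcases hϖ with h1 | h1
  · rw [h1, h0]
  · rw [h1, ← h0]
    unfold nR
    rw [(cXY_neg _).1, (cXY_neg _).2]
    ring

lemma qch_sq {p q : ℕ} (hp : p.Prime) (hq : q.Prime) (hpq : p ≠ q) :
    qch p ((q : ℤ) * q) = 1 := by
  have h1 : ¬ (p : ℤ) ∣ (q : ℤ) := by
    intro h
    exact hpq ((Nat.prime_dvd_prime_iff_eq hp hq).1 (by exact_mod_cast h))
  rcases qch_val hp (q : ℤ) with h | ⟨-, h⟩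
  · exact absurd h.1 h1
  · rw [qch_mul]
    rcases h with h | h <;> rw [h] <;> norm_num

/-- `q = 3` modulo `8` -/
lemma q3 {q : ℕ} (hr : q.Prime) (hin : ¬ IsSquare (-7 : ZMod q)) (h8 : q % 8 = 3) :
    e7 (q : RR) = -1 ∧ qch q 7 = 1 ∧ qch q 2 = -1 := by
  have : Fact q.Prime := ⟨hr⟩
  have : Fact (Nat.Prime 7) := ⟨by norm_num⟩
  have hq2 : q ≠ 2 := by rintro rfl; omega
  have hq7 : q ≠ 7 := by rintro rfl; omega
  have hch : ringChar (ZMod q) ≠ 2 := by
    rw [ZMod.ringChar_zmod_n]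
    exact hq2
  have h70 : (-7 : ZMod q) ≠ 0 := fun h0 => hin (by rw [h0]; exact ⟨0, by ring⟩)
  have h10 : (-1 : ZMod q) ≠ 0 := by
    intro h0
    exact one_ne_zero (neg_eq_zero.1 h0)
  have h1 : ¬ IsSquare (-1 : ZMod q) := by
    rw [ZMod.exists_sq_eq_neg_one_iff]
    omega
  have e1 : quadraticChar (ZMod q) (-1 : ZMod q) = -1 :=
    (quadraticChar_neg_one_iff_not_isSquare).2 h1
  have e2 : quadraticChar (ZMod q) (-7 : ZMod q) = -1 :=
    (quadraticChar_neg_one_iff_not_isSquare).2 hin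
  have e3 : quadraticChar (ZMod q) (7 : ZMod q) = 1 := by
    have : (7 : ZMod q) = -1 * -7 := by ring
    rw [this, map_mul, e1, e2]
    norm_num
  have h7 : (7 : ZMod q) ≠ 0 := fun h => h70 (by rw [h, neg_zero])
  have h2 : IsSquare ((7 : ℕ) : ZMod q) := by
    push_cast
    exact (quadraticChar_one_iff_isSquare h7).1 e3
  have h3 : ¬ IsSquare (q : ZMod 7) := by
    rwa [ZMod.exists_sq_eq_prime_iff_of_mod_four_eq_three (by omega) (by norm_num) hq7] at h2
  have h20 : (2 : ZMod q) ≠ 0 := by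
    intro h0
    have h0' : ((2 : ℕ) : ZMod q) = 0 := by push_cast; exact h0
    rw [ZMod.natCast_eq_zero_iff] at h0'
    exact hq2 ((Nat.prime_dvd_prime_iff_eq hr Nat.prime_two).1 h0')
  have h4 : ¬ IsSquare (2 : ZMod q) := by
    rw [ZMod.exists_sq_eq_two_iff hq2]
    omega
  refine ⟨?_, ?_, ?_⟩
  · rw [e7_nat, quadraticChar_neg_one_iff_not_isSquare.2 h3]
    norm_num
  · rw [qch_eq]
    push_cast
    rw [e3]
    norm_num
  · rw [qch_eq]
    push_cast
    rw [quadraticChar_neg_one_iff_not_isSquare.2 h4]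
    norm_num

end Pool.Agent.J4.H67.EW.Pnh

open Filter
open scoped Topology PeriodPair

namespace Pool.Agent.J4.H67.EW

open Pool.Agent.Y698 (al bl RR aR bR fR nR cj cX cY e7 e7_mul e7_neg e7_one e7_per e7_eq_zero e7_sq
  fR_ne fin_quot nR_nonneg mul_cj irr_fR not_mem_of_cop LD v_two_lt v_bl bl_ne qch GG)
open Pool.Agent.Y698.SG
open H667R3 Pool.Agent.W192.HK Pool.Agent.TH936.CM Pool.Agent.TH936.PU
open Pool.Agent.TH936.CW (E1 ek)
open Pool.Agent.J4.H67.AW

/-- the primes used: `q0 = 3` modulo `8` and the `p ∈ R`, `p = 1` modulo `4`, inert in `ℚ(√-7)` -/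
structure Nu (q0 : ℕ) (R : Finset ℕ) : Prop where
  pr : q0.Prime
  m8 : q0 % 8 = 3
  ns : ¬ IsSquare (-7 : ZMod q0)
  inq : ∀ p ∈ R, Pool.Agent.Y698.Inq p

/-- the generator which is `1` modulo `4` -/
noncomputable def pz (i : ℕ) : RR := if i % 4 = 1 then (i : RR) else -(i : RR)

lemma Nu.in2 {q0 : ℕ} {R : Finset ℕ} (hN : Nu q0 R) {i : ℕ} (hi : i ∈ insert q0 R) :
    Pnh.In2 i := by
  rcases Finset.mem_insert.1 hi with h | h
  · subst h
    exact ⟨hN.pr, hN.ns, by have := hN.m8; omega⟩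
  · have h1 := hN.inq i h
    exact ⟨h1.pr, h1.ns, by have := h1.m4; omega⟩

lemma pz_pm (i : ℕ) : pz i = (i : RR) ∨ pz i = -(i : RR) := by
  unfold pz
  split_ifs
  · left; rfl
  · right; rfl

lemma Nu.pz4 {q0 : ℕ} {R : Finset ℕ} (hN : Nu q0 R) {i : ℕ} (hi : i ∈ insert q0 R) :
    ∃ u : RR, pz i = 1 + 4 * u := by
  rcases Finset.mem_insert.1 hi with h | h
  · subst h
    have h8 := hN.m8
    refine ⟨-(((i / 4 : ℕ) : RR) + 1), ?_⟩
    unfold pz
    rw [if_neg (by omega)]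
    have h1 : i = 4 * (i / 4) + 3 := by omega
    have h2 : ((i : ℕ) : RR) = ((4 * (i / 4) + 3 : ℕ) : RR) := by rw [← h1]
    rw [h2]
    push_cast
    ring
  · have h4 := (hN.inq i h).m4
    refine ⟨((i / 4 : ℕ) : RR), ?_⟩
    unfold pz
    rw [if_pos h4]
    have h1 : i = 1 + 4 * (i / 4) := by omega
    have h2 : ((i : ℕ) : RR) = ((1 + 4 * (i / 4) : ℕ) : RR) := by rw [← h1]
    rw [h2]
    push_cast
    rfl

theorem fi (hin : Inp) {q0 : ℕ} {R : Finset ℕ} (hN : Nu q0 R) : Fi (insert q0 R) pz q0 := by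
  have h8 := hN.m8
  have hmem : q0 ∈ insert q0 R := Finset.mem_insert_self _ _
  have hq0 : pz q0 = -(q0 : RR) := by
    unfold pz
    rw [if_neg (by omega)]
  have hpd : ∀ i ∈ insert q0 R, PD (pz i) ∧ (∀ x, sy (pz i) x = qch i (nR x)) ∧
      sp (pz i) = sp (i : RR) := fun i hi => Pnh.pd_of (hN.in2 hi) (pz_pm i) (hN.pz4 hi)
  obtain ⟨c1, c2, c3⟩ := Pnh.q3 hN.pr hN.ns h8
  refine ⟨⟨fun i hi => (hpd i hi).1, ?_⟩, ?_, ?_, ?_, ?_, ?_, ?_, ?_⟩
  · intro i hi j hj hij h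
    rw [(hpd j hj).2.2, (hN.in2 hj).dvd, Pnh.nR_pm (pz_pm i)] at h
    have h1 := (Nat.prime_iff_prime_int.1 (hN.in2 hj).pr).dvd_or_dvd h
    have h2 : (j : ℤ) ∣ (i : ℤ) := by rcases h1 with h1 | h1 <;> exact h1
    have h3 : j ∣ i := by exact_mod_cast h2
    exact hij ((Nat.prime_dvd_prime_iff_eq (hN.in2 hj).pr (hN.in2 hi).pr).1 h3).symm
  · intro i _
    rcases pz_pm i with h | h
    · exact ⟨(i : ℤ), by rw [h]; push_cast; rfl⟩
    · exact ⟨-(i : ℤ), by rw [h]; push_cast; rfl⟩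
  · intro i hi j hj hij
    rw [(hpd j hj).2.1, Pnh.nR_pm (pz_pm i)]
    exact Pnh.qch_sq (hN.in2 hj).pr (hN.in2 hi).pr (Ne.symm hij)
  · rw [(hpd q0 hmem).2.1, Pool.Agent.Y698.nR_fR]
    exact c2
  · rw [(hpd q0 hmem).2.1, Pool.Agent.Y698.nR_aR]
    exact c3
  · rw [hq0, e7_neg, c1]
    norm_num
  · refine ⟨-((q0 / 8 : ℕ) : RR), ?_⟩
    rw [hq0]
    have h1 : q0 = 8 * (q0 / 8) + 3 := by omega
    have h2 : ((q0 : ℕ) : RR) = ((8 * (q0 / 8) + 3 : ℕ) : RR) := by rw [← h1]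
    rw [h2]
    push_cast
    ring
  · intro i hi hne
    have h1 : i ∈ R := by
      rcases Finset.mem_insert.1 hi with h | h
      · exact absurd h hne
      · exact h
    have h2 := hN.inq i h1
    unfold pz
    rw [if_pos h2.m4]
    exact h2.e7

theorem prod_sy_qch (hin : Inp) {q0 : ℕ} {R : Finset ℕ} (hN : Nu q0 R) (x : RR) :
    ∏ i ∈ insert q0 R, sy (pz i) x = ∏ i ∈ insert q0 R, qch i (nR x) :=
  Finset.prod_congr rfl fun _ hi => (Pnh.pd_of (hN.in2 hi) (pz_pm _) (hN.pz4 hi)).2.1 x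

end Pool.Agent.J4.H67.EW
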