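import Pool.Agent.J4.H67.EW.Defs
import Pool.Agent.J4.H67.EW.Pn

/-!
# The Euler product for negative discriminants
-/

set_option autoImplicit false
set_option linter.unusedSectionVars false

namespace Pool.Agent.J4.H67.EW

open Pool.Agent.Y698 (RR qch AP EX EX_zero card_AP_EX Aff bc bc_seven ec trace_fin bc_odd count_tw
  qprod_sq)
open Pool.Agent.Y698.SG
open H667R3 Pool.Agent.W192.HK Pool.Agent.TH936.CM Pool.Agent.TH936.PU
open Pool.Agent.J4.H67.AW

open Classical in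
/-- the trace of Frobenius -/
noncomputable def trz (S : Finset ℕ) (j : ℤ) (p : ℕ) : ℤ :=
  if p ∣ 7 * ∏ q ∈ S, q then 0 else
    (p : ℤ) - Nat.card (Pool.Agent.Y698.AP (Pool.Agent.Y698.EX (ZMod p) (j : ZMod p)))

namespace Eu

/-- the product of the quadratic characters -/
lemma Xp_jac {S : Finset ℕ} (hS : ∀ q ∈ S, q.Prime) (m : ℕ) :
    Xp S m = ((jacobiSym (m : ℤ) (∏ q ∈ S, q) : ℤ) : ℂ) := by
  classical
  unfold Xp
  induction S using Finset.induction_on with
  | empty => simp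
  | insert q S hq ih =>
    have ih' := ih fun p hp => hS p (Finset.mem_insert_of_mem hp)
    rw [Finset.prod_insert hq, Finset.prod_insert hq, ih', jacobiSym.mul_right']
    · push_cast
      rfl
    · exact (hS q (Finset.mem_insert_self _ _)).ne_zero
    · exact Finset.prod_ne_zero_iff.2 fun p hp => (hS p (Finset.mem_insert_of_mem hp)).ne_zero

/-- quadratic reciprocity: `(-N / p) = (p / N)` for `N = 3` modulo `4` -/
lemma recip {N p : ℕ} (hp : p.Prime) (hp2 : p ≠ 2) (hN : N % 4 = 3) :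
    jacobiSym (-(N : ℤ)) p = jacobiSym (p : ℤ) N := by
  have hodd : Odd p := hp.odd_of_ne_two hp2
  have hNo : Odd N := Nat.odd_iff.2 (by omega)
  have h1 : jacobiSym (-(N : ℤ)) p = ZMod.χ₄ p * jacobiSym (N : ℤ) p := by
    rw [neg_eq_neg_one_mul, jacobiSym.mul_left, jacobiSym.at_neg_one hodd]
  rw [h1]
  have h2 : p % 4 = 1 ∨ p % 4 = 3 := by
    have := Nat.odd_iff.1 hodd
    omega
  rcases h2 with h2 | h2
  · rw [ZMod.χ₄_nat_one_mod_four h2, one_mul,
      jacobiSym.quadratic_reciprocity_one_mod_four h2 hNo]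
  · rw [ZMod.χ₄_nat_three_mod_four h2,
      jacobiSym.quadratic_reciprocity_three_mod_four hN h2]
    ring

/-- the trace of Frobenius of the twist by `-N = 1 + 4 j` over the prime field -/
theorem trace_neg {p : ℕ} (hp : p.Prime) (hp7 : p ≠ 7) {N : ℕ} (hpN : ¬ p ∣ N) {j : ℤ}
    (hj : -(N : ℤ) = 1 + 4 * j) :
    (((p : ℤ) - Nat.card (AP (EX (ZMod p) (j : ZMod p))) : ℤ) : ℂ) =
      ((jacobiSym (p : ℤ) N : ℤ) : ℂ) * bc p := by
  classical
  have : Fact p.Prime := ⟨hp⟩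
  have hN4 : N % 4 = 3 := by omega
  by_cases hp2 : p = 2
  · subst hp2
    have hNo : Odd N := Nat.odd_iff.2 (by omega)
    rcases Int.even_or_odd j with ⟨m, hm⟩ | ⟨m, hm⟩
    · have h0 : (j : ZMod 2) = 0 := by
        rw [ZMod.intCast_zmod_eq_zero_iff_dvd]
        exact ⟨m, by push_cast; omega⟩
      have he : jacobiSym ((2 : ℕ) : ℤ) N = 1 := by
        push_cast
        rw [jacobiSym.at_two hNo, ZMod.χ₈_nat_eq_if_mod_eight, if_neg (by omega),
          if_pos (Or.inr (by omega))]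
      have h1 := trace_fin (ZMod 2) hp hp7 (f := 1) one_ne_zero (by simp)
      have h2 : W165.CE.pw (bc 2) (ec 2) 1 = bc 2 := rfl
      rw [h2, Nat.card_zmod] at h1
      rw [h0, EX_zero, he, Int.cast_one, one_mul]
      exact h1
    · have h0 : (j : ZMod 2) = ((1 : ℕ) : ZMod 2) := by
        have h3 : ((j - 1 : ℤ) : ZMod 2) = 0 := by
          rw [ZMod.intCast_zmod_eq_zero_iff_dvd]
          exact ⟨m, by push_cast; omega⟩
        push_cast at h3 ⊢
        exact sub_eq_zero.1 h3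
      have he : jacobiSym ((2 : ℕ) : ℤ) N = -1 := by
        push_cast
        rw [jacobiSym.at_two hNo, ZMod.χ₈_nat_eq_if_mod_eight, if_neg (by omega),
          if_neg (by omega)]
      have he5 : jacobiSym ((2 : ℕ) : ℤ) 5 = -1 := by
        push_cast
        rw [jacobiSym.at_two (by decide), ZMod.χ₈_nat_eq_if_mod_eight, if_neg (by norm_num),
          if_neg (by norm_num)]
      have h1 := trace_tw (ZMod 2) hp hp7 (f := 1) one_ne_zero (by simp) (S := {5}) (j := 1)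
        (by
          intro q hq
          rw [Finset.mem_singleton] at hq
          subst hq
          exact ⟨by norm_num, by norm_num⟩)
        (by decide) (by simp)
      have h2 : W165.CE.pw (bc 2) (ec 2) 1 = bc 2 := rfl
      rw [h2, Nat.card_zmod, Finset.prod_singleton, pow_one] at h1
      unfold qch at h1
      rw [he5] at h1
      rw [h0, he]
      exact h1
  · have h2 : (2 : ZMod p) ≠ 0 := by
      intro h0
      have h3 : ((2 : ℕ) : ZMod p) = 0 := by exact_mod_cast h0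
      rw [CharP.cast_eq_zero_iff (ZMod p) p] at h3
      exact hp2 ((Nat.prime_dvd_prime_iff_eq hp Nat.prime_two).1 h3)
    have hpD : ¬ (p : ℤ) ∣ (1 + 4 * j) := by
      intro h
      apply hpN
      rw [← hj, dvd_neg] at h
      exact_mod_cast h
    rw [card_AP_EX (ZMod p) h2 j]
    have hF : ringChar (ZMod p) ≠ 2 := by rwa [ZMod.ringChar_zmod_n]
    have hD0 : ((1 + 4 * j : ℤ) : ZMod p) ≠ 0 := by
      intro h
      exact hpD ((ZMod.intCast_zmod_eq_zero_iff_dvd _ _).1 h)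
    have htw := count_tw hF ((-35 : ℤ) : ZMod p) ((-98 : ℤ) : ZMod p) hD0
    rw [ZMod.card] at htw
    have e1 : ((p : ℤ) - Nat.card {x : ZMod p × ZMod p // x.2 ^ 2 = x.1 ^ 3 +
        ((-35 * (1 + 4 * j) ^ 2 : ℤ) : ZMod p) * x.1 +
        ((-98 * (1 + 4 * j) ^ 3 : ℤ) : ZMod p)}) =
        quadraticChar (ZMod p) ((1 + 4 * j : ℤ) : ZMod p) *
          ((p : ℤ) - Nat.card (Aff (ZMod p))) := by
      unfold Aff
      rw [← htw]
      push_cast
      rfl
    rw [e1]
    have hqc : quadraticChar (ZMod p) ((1 + 4 * j : ℤ) : ZMod p) = jacobiSym (p : ℤ) N := by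
      have h3 : quadraticChar (ZMod p) ((1 + 4 * j : ℤ) : ZMod p) =
          legendreSym p (1 + 4 * j) := rfl
      rw [h3, jacobiSym.legendreSym.to_jacobiSym, ← hj, recip hp hp2 hN4]
    rw [hqc, bc_odd hp hp2 hp7]
    push_cast
    ring


lemma Xp_trz {S : Finset ℕ} (hS : ∀ q ∈ S, q.Prime) {j : ℤ}
    (hj : -((∏ q ∈ S, q : ℕ) : ℤ) = 1 + 4 * j) {p : ℕ}
    (hp : p.Prime) : Xp S p * bc p = ((trz S j p : ℤ) : ℂ) ∧
      Xp S p ^ 2 * ec p = ((nrm (∏ q ∈ S, q) p : ℕ) : ℂ) := by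
  classical
  unfold trz nrm
  by_cases h : p ∣ 7 * ∏ q ∈ S, q
  · rw [if_pos h, if_pos h]
    rcases (hp.dvd_mul).1 h with h1 | h1
    · have h7 : p = 7 := (Nat.prime_dvd_prime_iff_eq hp (by norm_num)).1 h1
      have h2 := bc_seven 0
      rw [zero_add, pow_one] at h2
      have h3 : ec p = 0 := if_pos h7
      rw [h3, h7, h2]
      simp
    · obtain ⟨q, hq, hd⟩ := (Prime.dvd_finsetProd_iff hp.prime _).1 h1
      have h2 : p = q := (Nat.prime_dvd_prime_iff_eq hp (hS q hq)).1 hd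
      have h3 : Xp S p = 0 := by
        unfold Xp
        refine Finset.prod_eq_zero hq ?_
        have : Fact q.Prime := ⟨hS q hq⟩
        unfold qch
        rw [h2, ← jacobiSym.legendreSym.to_jacobiSym, (legendreSym.eq_zero_iff q (q : ℤ)).2
          (by simp)]
        simp
      rw [h3]
      simp
  · rw [if_neg h, if_neg h]
    have h7 : p ≠ 7 := fun h7 => h (h7 ▸ dvd_mul_right _ _)
    have hpN : ¬ p ∣ ∏ q ∈ S, q := fun hd => h (hd.trans (dvd_mul_left _ _))
    have hpS : p ∉ S := fun hS1 => hpN (Finset.dvd_prod_of_mem (fun q : ℕ => q) hS1)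
    have : Fact p.Prime := ⟨hp⟩
    have h1 := trace_neg hp h7 hpN hj
    have h3 : ec p = p := if_neg h7
    have h4 : Xp S p ^ 2 = 1 := qprod_sq hS fun q hq hd => by
      have h1 : q ∣ p := by exact_mod_cast hd
      exact hpS (((Nat.prime_dvd_prime_iff_eq (hS q hq) hp).1 h1) ▸ hq)
    refine ⟨?_, by rw [h3, h4, one_mul]⟩
    rw [Xp_jac hS]
    exact h1.symm

/-- the Euler product for any set of primes with `-∏ S = 1 + 4 j` -/
theorem euler_gen {S : Finset ℕ} (hS : ∀ q ∈ S, q.Prime) {e : ℕ} {j : ℤ}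
    (hj : -((∏ q ∈ S, q : ℕ) : ℤ) = 1 + 4 * j) {z F : ℂ}
    (hF : HasSum (fun I : Ideal RR => tht e S I * (nm I : ℂ) ^ (-z)) F) :
    HasProd (fun p : Nat.Primes =>
      (1 - ((luc (trz S j p) (nrm (∏ q ∈ S, q) p : ℕ) (2 * e + 1) : ℤ) : ℂ) *
        ((p : ℕ) : ℂ) ^ (-z) +
      ((nrm (∏ q ∈ S, q) p : ℕ) : ℂ) ^ (2 * e + 1) * (((p : ℕ) : ℂ) ^ (-z)) ^ 2)⁻¹) F := by
  convert prod_tht hF using 4 with p
  · obtain ⟨h1, h2⟩ := Xp_trz hS hj p.2
    congr 2
    rw [h1, h2]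
    have h3 := lv_luc (trz S j p) ((nrm (∏ q ∈ S, q) p : ℕ) : ℤ) (2 * e + 1)
    rw [Int.cast_natCast] at h3
    exact h3.symm
  · obtain ⟨h1, h2⟩ := Xp_trz hS hj p.2
    congr 1
    rw [← h2, mul_pow, ← pow_mul, show 2 * (2 * e + 1) = (2 * e + 1) * 2 by ring, pow_mul,
      Xp_pow]

end Eu

/-- **The Euler product.** -/
theorem euler {q0 : ℕ} {R : Finset ℕ} (hN : Nu q0 R) {e : ℕ} {j : ℤ}
    (hj : -((∏ q ∈ insert q0 R, q : ℕ) : ℤ) = 1 + 4 * j) {z F : ℂ}
    (hz : ((e + 1 : ℕ) : ℝ) + 1 / 2 < z.re)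
    (hF : HasSum (fun I : Ideal RR => tht e (insert q0 R) I * (nm I : ℂ) ^ (-z)) F) :
    HasProd (fun p : Nat.Primes =>
      (1 - ((luc (trz (insert q0 R) j p) (nrm (∏ q ∈ insert q0 R, q) p : ℕ) (2 * e + 1) : ℤ) : ℂ) *
        ((p : ℕ) : ℂ) ^ (-z) +
      ((nrm (∏ q ∈ insert q0 R, q) p : ℕ) : ℂ) ^ (2 * e + 1) * (((p : ℕ) : ℂ) ^ (-z)) ^ 2)⁻¹) F := by
  refine Eu.euler_gen (fun q hq => ?_) hj hF
  rcases Finset.mem_insert.1 hq with h | h
  · rw [h]
    exact hN.pr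
  · exact (hN.inq q h).pr

end Pool.Agent.J4.H67.EW
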