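import Pool.Agent.J4.H67.EW.N2
import Pool.Agent.J4.H67.EW.Pn
import Pool.Agent.J4.H67.EW.Vl
import Pool.Agent.J4.H67.EW.Eu

/-!
# The central values for the even weights are not zero
-/

set_option autoImplicit false
set_option linter.unusedSectionVars false

open Filter
open scoped Topology PeriodPair

namespace Pool.Agent.J4.H67.EW

open Pool.Agent.Y698 (al bl RR aR bR fR nR cj cX cY e7 e7_mul e7_neg e7_one e7_per e7_eq_zero e7_sq
  fR_ne fin_quot nR_nonneg mul_cj irr_fR not_mem_of_cop LD v_two_lt v_bl bl_ne qch GG nI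
  exists_LD val_one irr_of_prime_norm aR_nR aR_coe maximal_sp)
open Pool.Agent.Y698.SG
open H667R3 Pool.Agent.W192.HK Pool.Agent.TH936.CM Pool.Agent.TH936.PU
open Pool.Agent.TH936.CW (E1 ek)
open Pool.Agent.J4.H67.AW

/-- **The central values for the even weights `k = e + 1` are not zero.** -/
theorem nonvan (hin : Inp) {q0 : ℕ} {R : Finset ℕ} (hN : Nu q0 R) {e : ℕ} (ho : Odd e) {j : ℤ}
    (hj : -((∏ q ∈ insert q0 R, q : ℕ) : ℤ) = 1 + 4 * j) :
    ∃ F : ℂ → ℂ, Differentiable ℂ F ∧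
      (∀ z : ℂ, ((e + 1 : ℕ) : ℝ) + 1 / 2 < z.re → HasProd (fun p : Nat.Primes =>
        (1 - ((luc (trz (insert q0 R) j p) (nrm (∏ q ∈ insert q0 R, q) p : ℕ) (2 * e + 1) : ℤ) : ℂ) *
          ((p : ℕ) : ℂ) ^ (-z) +
        ((nrm (∏ q ∈ insert q0 R, q) p : ℕ) : ℂ) ^ (2 * e + 1) *
          (((p : ℕ) : ℂ) ^ (-z)) ^ 2)⁻¹) (F z)) ∧
      F ((e + 1 : ℕ) : ℂ) ≠ 0 := by
  classical
  have he : 0 < e := ho.pos
  have := fin_quot fR_ne
  let _ : Fintype (RR ⧸ sp fR) := Fintype.ofFinite _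
  obtain ⟨L, Ω, h⟩ := exists_LD
  have hL := h.lat
  obtain ⟨p, q, hpq⟩ := Pool.Agent.TH936.CW.exists_pq L
  obtain ⟨F, g1, g2, g3⟩ := val_LE' hin hN he hL hpq
  refine ⟨F, g1, fun z hz => euler hN hj hz (g2 z hz), fun h0 => ?_⟩
  have hz := g3.1 h0
  have hirrA : Irreducible aR := irr_of_prime_norm (by rw [aR_nR]; norm_num)
  have hp : (sp aR).IsPrime := (maximal_sp hirrA).isPrime
  obtain ⟨B, hB⟩ := Pool.Agent.Y698.exists_vs (sp aR)
  have hv := hB aR (Ideal.mem_span_singleton_self _)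
  rw [aR_coe] at hv
  obtain ⟨F0, -, -, k3⟩ := val_one
  have hT := k3 L Ω hL
  have hvT := h.v_T hv hT
  have hF := fi hin hN
  have hk : q0 ∈ insert q0 R := Finset.mem_insert_self _ _
  have hsy : (fun x : RR => ∏ i ∈ insert q0 R, sy (pz i) x) =
      fun x : RR => ∏ i ∈ insert q0 R, qch i (nR x) :=
    funext fun x => prod_sy_qch hin hN x
  have h20 : B.valuation 2 ≠ 0 := (Valuation.ne_zero_iff B.valuation).2 two_ne_zero
  obtain ⟨m, hm⟩ := ho
  rcases Nat.eq_zero_or_pos m with hm0 | hm0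
  · have he1 : e = 1 := by omega
    subst he1
    have h1 := v_LE1 hin.rec' h hv hpq hT hvT hF hk
    rw [hsy, hz, map_zero] at h1
    exact pow_ne_zero _ h20 h1.symm
  · obtain ⟨m', rfl⟩ : ∃ m', m = m' + 1 := ⟨m - 1, by omega⟩
    have he1 : e = 2 * m' + 3 := by omega
    subst he1
    have h1 := v_LE' hin.rec' h hv hpq hT hvT m' hF hk
    rw [hsy, hz, mul_zero, map_zero] at h1
    exact pow_ne_zero _ h20 h1.symm

end Pool.Agent.J4.H67.EW
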