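import Pool.Agent.J4.H67.EW.Tp

/-!
# Even weights: the three functions in terms of `1 / (x(T) - x)`
-/

set_option autoImplicit false
set_option linter.unusedSectionVars false

open Filter
open scoped Topology PeriodPair

namespace Pool.Agent.J4.H67.EW

open Pool.Agent.Y698 (al bl RR aR bR fR nR cj cX cY e7 e7_mul e7_neg e7_one e7_per e7_eq_zero e7_sq
  fR_ne fin_quot nR_nonneg mul_cj irr_fR not_mem_of_cop LD v_two_lt v_bl bl_ne qch GG)
open Pool.Agent.Y698.SG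
open H667R3 Pool.Agent.W192.HK Pool.Agent.TH936.CM Pool.Agent.TH936.PU
open Pool.Agent.TH936.CW (E1 ek)
open Pool.Agent.J4.H67.AW

variable {Γ : Type*} [LinearOrderedCommGroupWithZero Γ] {v : Valuation ℂ Γ}
variable {L : PeriodPair} {Ω p q : ℂ}

lemma wp_tT (h : LD L Ω) : ℘[L] (tT Ω) = bl⁻¹ - 1 / 4 := by
  have := Xx_tT h
  unfold Pool.Agent.Y698.Xx at this
  linear_combination this

lemma mf_zero {w : ℂ} (hw : w ∈ L.lattice) : mf L w = 0 := by
  unfold mf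
  rw [if_pos hw]

/-- the difference of the coordinates -/
lemma mf_eq (h : LD L Ω) {w : ℂ} (hw : w ∉ L.lattice) (h1 : w + tT Ω ∉ L.lattice)
    (h2 : w - tT Ω ∉ L.lattice) : ℘[L] (tT Ω) - ℘[L] w ≠ 0 ∧
      mf L w = 1 / (℘[L] (tT Ω) - ℘[L] w) := by
  obtain ⟨hT, -, -⟩ := tT_notMem h.lat
  constructor
  · rw [sub_ne_zero, Ne, wp_eq_iff L hT hw]
    rintro (h3 | h3)
    · exact h1 (by rwa [add_comm])
    · refine h2 ?_
      have := neg_mem h3
      rwa [neg_sub] at this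
  · unfold mf
    rw [if_neg hw, wp_tT h]
    unfold Pool.Agent.Y698.Xx
    congr 1
    ring

lemma pts {w : ℂ} (h1 : w + tT Ω ∉ L.lattice) (h2 : w - tT Ω ∉ L.lattice) :
    tT Ω + w ∉ L.lattice ∧ tT Ω - w ∉ L.lattice := by
  refine ⟨by rwa [add_comm], fun h3 => h2 ?_⟩
  have := neg_mem h3
  rwa [neg_sub] at this

lemma t2_eq (h : LD L Ω) : 6 * ℘[L] (tT Ω) ^ 2 - L.g₂ / 2 = -7 := by
  rw [wp_tT h, h.g2]
  linear_combination 3 * inv_sq

theorem B1_eq (h : LD L Ω) (hpq : ∀ l ∈ L.lattice, eta L l = p * l + q * (starRingEnd ℂ) l)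
    {w : ℂ} (h1 : w + tT Ω ∉ L.lattice) (h2 : w - tT Ω ∉ L.lattice) :
    B1 L Ω p q w = 7 / (2 * td L Ω) + td L Ω * mf L w := by
  obtain ⟨hT, -, -⟩ := tT_notMem h.lat
  have ht := (td_sq h).2
  have e0 := E1_tT h hpq
  unfold B1
  by_cases hw : w ∈ L.lattice
  · have e1 : E1 L p q (w + tT Ω) = E1 L p q (tT Ω) :=
      Pool.Agent.TH936.CW.E1_per' hpq hT (by rwa [add_sub_cancel_right])
    have e2 : E1 L p q (w - tT Ω) = E1 L p q (-(tT Ω)) :=
      Pool.Agent.TH936.CW.E1_per' hpq (fun h3 => hT (by simpa using neg_mem h3))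
        (by rwa [sub_neg_eq_add, sub_add_cancel])
    rw [e1, e2, E1_neg, e0, mf_zero hw]
    field_simp
    ring
  · obtain ⟨a1, a2⟩ := pts h1 h2
    obtain ⟨hd, hm⟩ := mf_eq h hw h1 h2
    have hw' : -w ∉ L.lattice := fun h3 => hw (by simpa using neg_mem h3)
    have e1 := Pool.Agent.TH936.CW.E1_add (L := L) (p := p) (q := q) hT hw a1 a2
    have e2 := Pool.Agent.TH936.CW.E1_add (L := L) (p := p) (q := q) hT hw'
      (by rwa [← sub_eq_add_neg]) (by rwa [sub_neg_eq_add])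
    have e3 : E1 L p q (w - tT Ω) = -E1 L p q (tT Ω + -w) := by
      rw [← E1_neg]
      congr 1
      ring
    rw [E1_neg, L.derivWeierstrassP_neg, L.weierstrassP_neg] at e2
    rw [e3, e2, add_comm w, e1, e0, hm]
    unfold td at ht ⊢
    generalize ℘[L] (tT Ω) - ℘[L] w = d at hd ⊢
    field_simp
    ring

theorem B2_eq (h : LD L Ω) {w : ℂ} (h1 : w + tT Ω ∉ L.lattice) (h2 : w - tT Ω ∉ L.lattice) :
    B2 L Ω w = 2 * bl⁻¹ + 7 * mf L w + td L Ω ^ 2 * mf L w ^ 2 := by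
  obtain ⟨hT, hT2, -⟩ := tT_notMem h.lat
  unfold B2
  by_cases hw : w ∈ L.lattice
  · have e1 : Pool.Agent.Y698.Xx L (w + tT Ω) = Pool.Agent.Y698.Xx L (tT Ω) :=
      Pool.Agent.Y698.Xx_per (by rwa [add_sub_cancel_right])
    have e2 : Pool.Agent.Y698.Xx L (w - tT Ω) = Pool.Agent.Y698.Xx L (tT Ω) := by
      rw [← Pool.Agent.Y698.Xx_neg (L := L) (tT Ω)]
      exact Pool.Agent.Y698.Xx_per (by simpa using hw)
    rw [e1, e2, Xx_tT h, mf_zero hw]
    ring
  · obtain ⟨a1, a2⟩ := pts h1 h2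
    obtain ⟨hd, hm⟩ := mf_eq h hw h1 h2
    have hw' : -w ∉ L.lattice := fun h3 => hw (by simpa using neg_mem h3)
    have e1 := wp_add L hT2 hw a1 a2
    have e2 := wp_add L hT2 hw' (by rwa [← sub_eq_add_neg]) (by rwa [sub_neg_eq_add])
    rw [t2_eq h] at e1 e2
    rw [L.derivWeierstrassP_neg, L.weierstrassP_neg] at e2
    have e3 : ℘[L] (w - tT Ω) = ℘[L] (tT Ω + -w) := by
      rw [← L.weierstrassP_neg]
      congr 1
      ring
    have e4 := wp_tT h
    unfold Pool.Agent.Y698.Xx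
    rw [e3, e2, add_comm w, e1, hm]
    unfold td
    generalize ℘[L] (tT Ω) - ℘[L] w = d at hd ⊢
    rw [e4]
    field_simp
    ring

theorem B3_eq (h : LD L Ω) {w : ℂ} (h1 : w + tT Ω ∉ L.lattice) (h2 : w - tT Ω ∉ L.lattice) :
    B3 L Ω w = td L Ω * (2 - (12 * bl⁻¹ - 3) * mf L w - 21 * mf L w ^ 2 -
      2 * td L Ω ^ 2 * mf L w ^ 3) := by
  obtain ⟨hT, hT2, -⟩ := tT_notMem h.lat
  unfold B3
  by_cases hw : w ∈ L.lattice
  · have e1 : ℘'[L] (w + tT Ω) = ℘'[L] (tT Ω) := by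
      rw [add_comm]
      exact Pool.Agent.W245.EB.wp'_add_lattice L hw
    have e2 : ℘'[L] (w - tT Ω) = -℘'[L] (tT Ω) := by
      rw [sub_eq_add_neg, add_comm, Pool.Agent.W245.EB.wp'_add_lattice L hw,
        L.derivWeierstrassP_neg]
    rw [e1, e2, mf_zero hw]
    unfold td
    ring
  · obtain ⟨a1, a2⟩ := pts h1 h2
    obtain ⟨hd, hm⟩ := mf_eq h hw h1 h2
    have hw' : -w ∉ L.lattice := fun h3 => hw (by simpa using neg_mem h3)
    have e1 := wp'_add L hT2 hw a1 a2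
    have e2 := wp'_add L hT2 hw' (by rwa [← sub_eq_add_neg]) (by rwa [sub_neg_eq_add])
    rw [t2_eq h] at e1 e2
    rw [L.derivWeierstrassP_neg, L.weierstrassP_neg] at e2
    have e3 : ℘'[L] (w - tT Ω) = -℘'[L] (tT Ω + -w) := by
      rw [← L.derivWeierstrassP_neg]
      congr 1
      ring
    have e4 := wp_tT h
    rw [e3, e2, add_comm w, e1, hm]
    unfold td
    generalize ℘[L] (tT Ω) - ℘[L] w = d at hd ⊢
    rw [e4]
    generalize ℘'[L] (tT Ω) = t
    generalize ℘'[L] w = t'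
    field_simp
    ring

end Pool.Agent.J4.H67.EW
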