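import Pool.Agent.R384.X.Mq7

/-!
# The vanishing of the Selmer groups: one of the inert primes is `3` modulo `8`
-/

set_option autoImplicit false
set_option linter.unusedSectionVars false

namespace Pool.Agent.J4.H67.EW.SeA

open Pool.Agent.R384
open Pool.Agent.Y715.Red Pool.Agent.Y715.Nr Pool.Agent.W237.RK
open Pool.Agent.Y715.Gi (QB KK GK i₀_mem gk_fix)
open Pool.Agent.Y715.Df (Cmp exists_cmp)
open Pool.Agent.Y715.Lc (norm_two_odd)

open scoped Classical NumberTheorySymbols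

/-! ### The algebra -/

section alg

variable {n : ℕ} {q : Fin n → OO}

theorem alg_neg (hq : ∀ i, Pr (q i)) (hinj : Function.Injective q) {k0 : Fin n}
    (hqq : ∀ i k, i ≠ k → qs (q i) (q k) = 0)
    (ho : qs (q k0) om = 1) (ho' : qs (q k0) (1 - om) = 1) (h70 : qs (q k0) s7 = 0)
    (h71 : ∀ i, i ≠ k0 → qs (q i) s7 = 1)
    {m' δ v : OO} (hv : v = 1 ∨ v = -1) (hm' : m' = v * (s7 * ∏ i, q i))
    {ϖ : OO} (hϖc : ϖ = om ∨ ϖ = 1 - om) (hδ : Squarefree δ)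
    (hsup : ∀ π, Prime π → π ∣ δ → π ∣ ϖ ∨ π ∣ s7 ∨ ∃ i, π ∣ q i)
    (hloc : ∀ i, (¬ q i ∣ δ ∧ Sqm (q i) δ) ∨
      ∃ δ1 m1, δ = q i * δ1 ∧ m' = q i * m1 ∧ Sqm (q i) (δ1 * m1))
    (hloc7 : (¬ s7 ∣ δ ∧ Sqm s7 δ) ∨
      ∃ δ1 m1, δ = s7 * δ1 ∧ m' = s7 * m1 ∧ Sqm s7 (δ1 * m1)) :
    δ = 1 ∨ δ = m' ∨ δ = q k0 ∨ δ * q k0 = m' := by
  have hs70 : s7 ≠ 0 := prime_s7.ne_zero
  -- the part prime to `√-7`
  obtain ⟨f, δ', hf, hδf, hδ7⟩ : ∃ (f : ℕ) (δ' : OO), (f = 0 ∨ f = 1) ∧ δ = s7 ^ f * δ' ∧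
      ¬ s7 ∣ δ' := by
    by_cases h : s7 ∣ δ
    · obtain ⟨δ', h'⟩ := h
      refine ⟨1, δ', Or.inr rfl, by rw [h', pow_one], ?_⟩
      rintro ⟨t, ht⟩
      apply prime_s7.not_isUnit
      apply hδ s7
      rw [h', ht]
      exact ⟨t, by ring⟩
    · exact ⟨0, δ, Or.inl rfl, by rw [pow_zero, one_mul], h⟩
  have hδ' : Squarefree δ' := hδ.squarefree_of_dvd (by rw [hδf]; exact Dvd.intro_left _ rfl)
  have hδd : δ' ∣ δ := by rw [hδf]; exact Dvd.intro_left _ rfl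
  obtain ⟨u, a, S, hu, ha, hS, hδe⟩ := decomp hq hinj hϖc hδ' (by
    intro π hπ hπδ
    rcases hsup π hπ (hπδ.trans hδd) with h | h | h
    · exact Or.inl h
    · exfalso
      exact hδ7 (((hπ.dvd_prime_iff_associated prime_s7).1 h).symm.dvd.trans hπδ)
    · exact Or.inr h)
  have hS' : ∀ i, i ∈ S ↔ q i ∣ δ := by
    intro i
    rw [hS, hδf]
    constructor
    · exact fun h => Dvd.dvd.mul_left h _
    · intro h
      rcases (hq i).prime.dvd_or_dvd h with h1 | h1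
      · exact absurd ((hq i).prime.dvd_of_dvd_pow h1) (hq i).not_s7
      · exact h1
  have hϖ2 : ∀ i, ¬ q i ∣ ϖ := by
    intro i
    rcases hϖc with rfl | rfl
    · exact not_dvd_two_div (hq i) om_mul
    · exact not_dvd_two_div (hq i) (by rw [mul_comm]; exact om_mul)
  have hϖa : ∀ i, ¬ q i ∣ ϖ ^ a ∧ qs (q i) (ϖ ^ a) = a * qs (q i) ϖ := by
    intro i
    rcases ha with rfl | rfl
    · refine ⟨fun h => (hq i).prime.not_isUnit (isUnit_of_dvd_one (by simpa using h)), ?_⟩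
      rw [pow_zero, qs_one]; simp
    · rw [pow_one]
      exact ⟨hϖ2 i, by simp⟩
  have hsf : ∀ i, ¬ q i ∣ s7 ^ f ∧ qs (q i) (s7 ^ f) = f * qs (q i) s7 := by
    intro i
    rcases hf with rfl | rfl
    · refine ⟨fun h => (hq i).prime.not_isUnit (isUnit_of_dvd_one (by simpa using h)), ?_⟩
      rw [pow_zero, qs_one]; simp
    · rw [pow_one]
      exact ⟨(hq i).not_s7, by simp⟩
  have h0ϖ : qs (q k0) ϖ = 1 := by
    rcases hϖc with rfl | rfl
    · exact ho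
    · exact ho'
  -- the conditions
  have c1 : ∀ i, i ∉ S → a * qs (q i) ϖ + f * qs (q i) s7 = 0 := by
    intro i hi
    rcases hloc i with ⟨-, h1⟩ | ⟨δ1, m1, h1, -⟩
    · rw [← qs_zero, hδf, hδe] at h1
      have n1 := nd_prod hq hinj hi
      have n2 : ¬ q i ∣ u * ϖ ^ a := fun h => ((hq i).prime.dvd_or_dvd h).elim
        (nd_unit hq hu).1 (hϖa i).1
      have n3 : ¬ q i ∣ u * ϖ ^ a * ∏ k ∈ S, q k := fun h => ((hq i).prime.dvd_or_dvd h).elim n2 n1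
      have hz : ∑ k ∈ S, qs (q i) (q k) = 0 :=
        Finset.sum_eq_zero fun k hk => hqq i k fun h => hi (h ▸ hk)
      rw [qs_mul (hq i) (hsf i).1 n3, qs_mul (hq i) n2 n1,
        qs_mul (hq i) (nd_unit hq hu).1 (hϖa i).1, (nd_unit hq hu).2,
        (hϖa i).2, (hsf i).2, zero_add, qs_prod (hq i)] at h1
      · rw [hz] at h1
        rw [← h1]
        ring
      · intro k hk
        exact nd hq hinj (fun h => hi (h ▸ hk))
    · exact absurd ((hS' i).2 ⟨δ1, h1⟩) hi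
  have huv : u * v = 1 ∨ u * v = -1 := by
    rcases hu with rfl | rfl <;> rcases hv with rfl | rfl <;> simp
  have c2 : ∀ i, i ∈ S → a * qs (q i) ϖ + (f * qs (q i) s7 + qs (q i) s7) = 0 := by
    intro i hi
    rcases hloc i with ⟨h1, -⟩ | ⟨δ1, m1, h1, h2, h3⟩
    · exact absurd ((hS' i).1 hi) h1
    · have hq0 := (hq i).prime.ne_zero
      have e1 : δ1 = s7 ^ f * (u * ϖ ^ a * ∏ k ∈ S.erase i, q k) := by
        apply mul_left_cancel₀ hq0
        rw [← h1, hδf, hδe, ← Finset.mul_prod_erase S q hi]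
        ring
      have e2 : m1 = v * (s7 * ((∏ k ∈ S.erase i, q k) * ∏ k ∈ Sᶜ, q k)) := by
        apply mul_left_cancel₀ hq0
        rw [← h2, hm', ← Finset.prod_mul_prod_compl S q, ← Finset.mul_prod_erase S q hi]
        ring
      have e3 : δ1 * m1 = (s7 ^ f * (s7 * (u * v * ϖ ^ a * ∏ k ∈ Sᶜ, q k))) *
          (∏ k ∈ S.erase i, q k) ^ 2 := by
        rw [e1, e2]
        ring
      have hi' : i ∉ Sᶜ := by simpa using hi
      have n1 := nd_prod hq hinj hi'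
      have n2 : ¬ q i ∣ u * v * ϖ ^ a := fun h => ((hq i).prime.dvd_or_dvd h).elim
        (nd_unit hq huv).1 (hϖa i).1
      have n3 : ¬ q i ∣ u * v * ϖ ^ a * ∏ k ∈ Sᶜ, q k := fun h =>
        ((hq i).prime.dvd_or_dvd h).elim n2 n1
      have n4 : ¬ q i ∣ s7 * (u * v * ϖ ^ a * ∏ k ∈ Sᶜ, q k) := fun h =>
        ((hq i).prime.dvd_or_dvd h).elim (hq i).not_s7 n3
      have hz : ∑ k ∈ Sᶜ, qs (q i) (q k) = 0 :=
        Finset.sum_eq_zero fun k hk => hqq i k fun h => hi' (h ▸ hk)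
      rw [← qs_zero, e3, qs_mul_sq (hq i) (nd_prod hq hinj (Finset.notMem_erase i S)),
        qs_mul (hq i) (hsf i).1 n4, qs_mul (hq i) (hq i).not_s7 n3, qs_mul (hq i) n2 n1,
        qs_mul (hq i) (nd_unit hq huv).1 (hϖa i).1, (nd_unit hq huv).2,
        (hϖa i).2, (hsf i).2, zero_add, qs_prod (hq i)] at h3
      · rw [hz] at h3
        rw [← h3]
        ring
      · intro k hk
        exact nd hq hinj (fun h => hi' (h ▸ hk))
  -- the exponent of `ϖ`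
  have ha0 : a = 0 := by
    have h1 : (a : ZMod 2) = 0 := by
      by_cases hk : k0 ∈ S
      · have := c2 k0 hk
        rw [h0ϖ, h70] at this
        simpa using this
      · have := c1 k0 hk
        rw [h0ϖ, h70] at this
        simpa using this
    rcases ha with h | h
    · exact h
    · rw [h] at h1
      exact absurd h1 (by decide)
  rw [ha0, pow_zero, mul_one] at hδe
  have h7prod : ∀ T : Finset (Fin n), ¬ s7 ∣ ∏ k ∈ T, q k := by
    intro T h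
    obtain ⟨j, -, h2⟩ := (prime_s7.dvd_finsetProd_iff _).1 h
    exact (hq j).s7_not h2
  -- subsets of `{k0}`
  have hsub : ∀ T : Finset (Fin n), (∀ i, i ≠ k0 → i ∉ T) →
      (T = ∅ ∨ T = {k0}) ∧ qs s7 (∏ k ∈ T, q k) = 0 := by
    intro T hT
    have h1 : T = ∅ ∨ T = {k0} := by
      rw [← Finset.subset_singleton_iff]
      intro i hi
      by_contra hcon
      exact hT i (fun h => hcon (Finset.mem_singleton.2 h)) hi
    refine ⟨h1, ?_⟩
    rcases h1 with h1 | h1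
    · rw [h1, Finset.prod_empty]
      exact qs_zero.2 ⟨1, by simp⟩
    · rw [h1, Finset.prod_singleton, ← recip7 (hq k0), h70]
  have hone : ∀ {U : OO} {T : Finset (Fin n)}, (U = 1 ∨ U = -1) → (∀ i, i ≠ k0 → i ∉ T) →
      Sqm s7 (U * ∏ k ∈ T, q k) → U = 1 := by
    intro U T hU hT h
    rcases hU with h1 | h1
    · exact h1
    · exfalso
      have h2 : ¬ s7 ∣ (-1 : OO) := fun h => prime_s7.not_isUnit (isUnit_of_dvd_one (dvd_neg.1 h))
      rw [h1, ← qs_zero, qs7_mul h2 (h7prod T), qs7_neg_one, (hsub T hT).2] at h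
      exact absurd h (by decide)
  rcases hf with rfl | rfl
  · -- `√-7` does not divide `δ`
    rw [pow_zero, one_mul] at hδf
    have hT : ∀ i, i ≠ k0 → i ∉ S := by
      intro i hi hiS
      have := c2 i hiS
      rw [ha0, h71 i hi] at this
      simp at this
    have h7 : Sqm s7 δ := by
      rcases hloc7 with ⟨-, h⟩ | ⟨δ1, m1, h, -⟩
      · exact h
      · exfalso
        exact hδ7 ⟨δ1, by rw [← hδf, h]⟩
    rw [hδf, hδe] at h7
    have hU := hone hu hT h7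
    rcases (hsub S hT).1 with h | h
    · left
      rw [hδf, hδe, hU, h, Finset.prod_empty, mul_one]
    · right; right; left
      rw [hδf, hδe, hU, h, Finset.prod_singleton, one_mul]
  · -- `√-7` divides `δ`
    rw [pow_one] at hδf
    have hT : ∀ i, i ≠ k0 → i ∉ Sᶜ := by
      intro i hi hiS
      have := c1 i (by simpa using hiS)
      rw [ha0, h71 i hi] at this
      simp at this
    have h7 : Sqm s7 (u * v * ∏ k ∈ Sᶜ, q k) := by
      rcases hloc7 with ⟨h, -⟩ | ⟨δ1, m1, h1, h2, h3⟩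
      · exact absurd ⟨δ', hδf⟩ h
      · have e1 : δ1 = u * ∏ k ∈ S, q k := by
          apply mul_left_cancel₀ hs70
          rw [← h1, hδf, hδe]
        have e2 : m1 = v * ((∏ k ∈ S, q k) * ∏ k ∈ Sᶜ, q k) := by
          apply mul_left_cancel₀ hs70
          rw [← h2, hm', ← Finset.prod_mul_prod_compl S q]
          ring
        have e3 : δ1 * m1 = (u * v * ∏ k ∈ Sᶜ, q k) * (∏ k ∈ S, q k) ^ 2 := by
          rw [e1, e2]
          ring
        have n2 : ¬ s7 ∣ u * v := by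
          intro h
          rcases huv with h4 | h4
          · rw [h4] at h
            exact prime_s7.not_isUnit (isUnit_of_dvd_one h)
          · rw [h4, dvd_neg] at h
            exact prime_s7.not_isUnit (isUnit_of_dvd_one h)
        rw [e3, ← qs_zero, qs7_mul_sq (fun h => (prime_s7.dvd_or_dvd h).elim n2 (h7prod _))
          (h7prod S), qs_zero] at h3
        exact h3
    have hU := hone huv hT h7
    have hv2 : v * v = 1 := by rcases hv with rfl | rfl <;> ring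
    have huv' : u = v := by
      calc u = u * v * v := by rw [mul_assoc, hv2, mul_one]
        _ = v := by rw [hU, one_mul]
    rcases (hsub Sᶜ hT).1 with h | h
    · right; left
      have hSu : S = Finset.univ := by rwa [Finset.compl_eq_empty_iff] at h
      rw [hδf, hδe, huv', hSu, hm']
      ring
    · right; right; right
      rw [hδf, hδe, huv', hm', ← Finset.prod_mul_prod_compl S q, h, Finset.prod_singleton]
      ring

end alg

/-! ### The strict place -/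

section loc

variable {i₀ : QB} (hi : i₀ ^ 2 = i₀ - 2)

variable {χ : GK i₀ →* ℤ_[2]ˣ} {m : OO} {r : QB}

lemma norm_two2 : ‖(2 : PadicAlgCl 2)‖ = 1 / 2 := by
  rw [Pool.Agent.Y715.Gi.norm_two']
  norm_num

lemma norm_one_of3 {x : PadicAlgCl 2} (h : ‖x + 1‖ ≤ 1 / 4) : ‖x‖ = 1 := by
  have e : x = -1 + (x + 1) := by ring
  rw [e, eq_of_lt, norm_neg, norm_one]
  rw [norm_neg, norm_one]
  linarith

lemma norm_sub_of3 {x : PadicAlgCl 2} (h : ‖x + 1‖ ≤ 1 / 4) : ‖x - 1‖ = 1 / 2 := by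
  have e : x - 1 = -2 + (x + 1) := by ring
  rw [e, eq_of_lt, norm_neg, norm_two2]
  rw [norm_neg, norm_two2]
  linarith

/-- there is an element of the decomposition group that moves `√m` -/
lemma exists_dec3 (hr : r ^ 2 = em hi m) (ι : QB →ₐ[ℚ] PadicAlgCl 2)
    (h3 : ‖em (iw hi ι) m + 1‖ ≤ 1 / 4) : ∃ σ ∈ (DD ι : Set (GK i₀)), σ r = -r := by
  by_contra hcon
  push Not at hcon
  have hfix : ∀ τ : Au 2, τ (ι r) = ι r := by
    intro τ
    refine fix_D (fun σ hσ => ?_) τ (two_fix (iw hi ι) τ)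
    rcases rt_or hi hr σ with h | h
    · exact h
    · exact absurd h (hcon σ hσ)
  have h1 : (ι r) ^ 2 = em (iw hi ι) m := by rw [← map_pow, hr, ι_em]
  have h2 : ‖ι r‖ = 1 := by
    have h3 := norm_one_of3 h3
    rw [← h1, norm_pow] at h3
    exact (pow_eq_one_iff_of_nonneg (norm_nonneg _) two_ne_zero).1 h3
  have h4 := sq_mod_eight h2 hfix
  rw [h1, norm_sub_of3 h3] at h4
  norm_num at h4

/-- the local condition at the strict place -/
lemma loc_strict3 (cd : ChiD hi χ m r) {c : GK i₀ → ℚ_[2]} (hc1 : ∀ σ, ‖c σ‖ ≤ 1)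
    {ϖ : OO} (hϖ : Prime ϖ)
    {ι : QB →ₐ[ℚ] PadicAlgCl 2} (hι : ‖em (iw hi ι) ϖ‖ < 1) (h3 : ‖em (iw hi ι) m + 1‖ ≤ 1 / 4)
    (hD : CobOn χ (DD ι) c) {δ : OO} (hδ : Squarefree δ) {s : QB}
    (hs : s ^ 2 = em hi δ) (hk : ∀ σ : GK i₀, σ s = s ↔ md c σ = 0) :
    ¬ ϖ ∣ δ ∧ (‖em (iw hi ι) δ - 1‖ ≤ 1 / 8 ∨ ‖em (iw hi ι) (δ * m) - 1‖ ≤ 1 / 8) := by
  obtain ⟨σ₀, h0, h2⟩ := exists_dec3 hi cd.hr ι h3
  have hm1 := norm_one_of3 h3
  have hϖm : ¬ ϖ ∣ m := by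
    rw [dvd_iff (iw hi ι) hϖ hι, hm1]
    exact lt_irrefl _
  have hsq : (ι s) ^ 2 = em (iw hi ι) δ := by rw [← map_pow, hs, ι_em]
  have key : ∀ {x : OO} {y : PadicAlgCl 2}, y ^ 2 = em (iw hi ι) x → ¬ ϖ ∣ x →
      (∀ τ : Au 2, τ y = y) → ‖em (iw hi ι) x - 1‖ ≤ 1 / 8 := by
    intro x y hy hx hfix
    have h3 := eq_one_of_not_lt (iw hi ι) ((dvd_iff (iw hi ι) hϖ hι x).not.1 hx)
    rw [← hy, norm_pow] at h3
    rw [← hy]
    exact sq_mod_eight ((pow_eq_one_iff_of_nonneg (norm_nonneg _) two_ne_zero).1 h3) hfix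
  rcases loc_dich hi cd hc1 hD h0 h2 hs hk with h | h
  · have h3 := not_dvd_of_fix (iw hi ι) hϖ hι hδ hsq fun τ _ hτ => fix_D h τ hτ
    exact ⟨h3, Or.inl (key hsq h3 fun τ => fix_D h τ (two_fix (iw hi ι) τ))⟩
  · have hsr : (ι (s * r)) ^ 2 = em (iw hi ι) (δ * m) := by
      rw [← map_pow, mul_pow, hs, cd.hr, ← map_mul, ι_em]
    have h3 : ¬ ϖ ∣ δ := by
      rintro ⟨t, ht⟩
      have h4 : ¬ ϖ ∣ t := by
        rintro ⟨v, rfl⟩
        exact hϖ.not_isUnit (hδ ϖ ⟨v, by rw [ht]; ring⟩)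
      refine no_simple (iw hi ι) hϖ hι (t := t * m) (s := ι (s * r))
        (fun h => (hϖ.dvd_or_dvd h).elim h4 hϖm) ?_ fun τ _ hτ => fix_D h τ hτ
      rw [hsr, ht]
      congr 1
      ring
    exact ⟨h3, Or.inr (key hsr (fun h => (hϖ.dvd_or_dvd h).elim h3 hϖm)
      fun τ => fix_D h τ (two_fix (iw hi ι) τ))⟩

/-- the excluded elements -/
lemma excl {w : PadicAlgCl 2} (hw : w ^ 2 = w - 2) {δ m e : OO} (he1 : ‖em hw e - 1‖ = 1 / 4)
    (he2 : ‖em hw e + 1‖ = 1 / 2) (hm : ‖em hw m + 1‖ ≤ 1 / 4)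
    (h : ‖em hw δ - 1‖ ≤ 1 / 8 ∨ ‖em hw (δ * m) - 1‖ ≤ 1 / 8) : δ ≠ e ∧ δ * e ≠ m := by
  have hsm := norm_sub_of3 hm
  have hel := em_le hw e
  constructor
  · rintro rfl
    rcases h with h | h
    · rw [he1] at h
      norm_num at h
    · have e1 : em hw δ + 1 = em hw δ * (em hw m + 1) - (em hw (δ * m) - 1) := by
        rw [map_mul]
        ring
      have h1 : ‖em hw δ + 1‖ ≤ 1 / 4 := by
        rw [e1]
        refine sub_le ?_ (h.trans (by norm_num))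
        rw [norm_mul]
        nlinarith [norm_nonneg (em hw δ), norm_nonneg (em hw m + 1)]
      rw [he2] at h1
      norm_num at h1
  · intro hδ
    have hδ' : em hw δ * em hw e = em hw m := by rw [← map_mul, hδ]
    rcases h with h | h
    · have e1 : em hw e + 1 = (em hw m + 1) - em hw e * (em hw δ - 1) := by
        rw [← hδ']
        ring
      have h1 : ‖em hw e + 1‖ ≤ 1 / 4 := by
        rw [e1]
        refine sub_le hm ?_
        rw [norm_mul]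
        nlinarith [norm_nonneg (em hw e), norm_nonneg (em hw δ - 1)]
      rw [he2] at h1
      norm_num at h1
    · have e1 : em hw e - 1 = (em hw m - 1) * (em hw m + 1) - em hw e * (em hw (δ * m) - 1) := by
        rw [map_mul]
        linear_combination (em hw m) * hδ'
      have h1 : ‖em hw e - 1‖ ≤ 1 / 8 := by
        rw [e1]
        refine sub_le ?_ ?_
        · rw [norm_mul, hsm]
          linarith
        · rw [norm_mul]
          nlinarith [norm_nonneg (em hw e), norm_nonneg (em hw (δ * m) - 1)]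
      rw [he1] at h1
      norm_num at h1

/-- **The main theorem.** -/
theorem main_neg {n : ℕ} {q : Fin n → OO} (hq : ∀ i, Pr (q i)) (hinj : Function.Injective q)
    {k0 : Fin n} (hqq : ∀ i k, i ≠ k → qs (q i) (q k) = 0)
    (ho : qs (q k0) om = 1) (ho' : qs (q k0) (1 - om) = 1) (h70 : qs (q k0) s7 = 0)
    (h71 : ∀ i, i ≠ k0 → qs (q i) s7 = 1)
    (hk1 : ∀ ι : QB →ₐ[ℚ] PadicAlgCl 2, ‖em (iw hi ι) (q k0) - 1‖ = 1 / 4)
    (hk2 : ∀ ι : QB →ₐ[ℚ] PadicAlgCl 2, ‖em (iw hi ι) (q k0) + 1‖ = 1 / 2)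
    {v : OO} (hv : v = 1 ∨ v = -1)
    (hm : m = v * (s7 * ∏ i, q i)) (cd : ChiD hi χ m r) {ϖ ϖ' : OO}
    (hϖ : (ϖ = om ∧ ϖ' = 1 - om) ∨ (ϖ = 1 - om ∧ ϖ' = om))
    (hm3 : ∀ ι : QB →ₐ[ℚ] PadicAlgCl 2, ‖em (iw hi ι) ϖ‖ < 1 → ‖em (iw hi ι) m + 1‖ ≤ 1 / 4)
    {c : GK i₀ → ℚ_[2]} (hc : Coc χ c)
    (hodd : ∀ (p : ℕ) [Fact p.Prime] (ι : QB →ₐ[ℚ] PadicAlgCl p), p ≠ 2 → CobOn χ (II ι) c)
    (hstr : ∀ ι : QB →ₐ[ℚ] PadicAlgCl 2, ‖ι (em hi ϖ)‖ < 1 → CobOn χ (DD ι) c) :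
    ∃ y : ℚ_[2], ∀ σ, c σ = (vl χ σ - 1) * y := by
  by_contra hn
  have hϖp : Prime ϖ := by
    rcases hϖ with ⟨rfl, -⟩ | ⟨rfl, -⟩
    · exact prime_om
    · exact prime_om'
  have hϖ2 : ϖ * ϖ' = 2 := by
    rcases hϖ with ⟨rfl, rfl⟩ | ⟨rfl, rfl⟩
    · exact om_mul
    · rw [mul_comm]; exact om_mul
  have hϖc : ϖ' = om ∨ ϖ' = 1 - om := by
    rcases hϖ with ⟨-, h⟩ | ⟨-, h⟩
    · exact Or.inr h
    · exact Or.inl h
  -- the strict place
  obtain ⟨p, hpf, ι, hι⟩ := exists_emb hi hϖp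
  have hp2 : p = 2 := by
    rw [ι_em] at hι
    exact (two_of_dvd hϖp (iw hi ι) hι).2 ⟨_, hϖ2.symm⟩
  subst hp2
  have hι' : ‖em (iw hi ι) ϖ‖ < 1 := by rwa [ι_em] at hι
  have h3 := hm3 ι hι'
  obtain ⟨σ₀, -, hσ₀⟩ := exists_dec3 hi cd.hr ι h3
  -- normalization
  obtain ⟨a, y, ha, hint, hmin⟩ := normalize hc (cd.big hi hσ₀) hn
  set c' : GK i₀ → ℚ_[2] := fun σ => a * c σ + (vl χ σ - 1) * y with hc'
  have hcc : Coc χ c' := hc.twist cd.cont a y
  have hodd' : ∀ (p : ℕ) [Fact p.Prime] (ι : QB →ₐ[ℚ] PadicAlgCl p), p ≠ 2 →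
      CobOn χ (II ι) c' := fun p _ ι hp => (hodd p ι hp).twist a y
  have hstr' : CobOn χ (DD ι) c' := (hstr ι hι).twist a y
  -- Kummer theory
  obtain ⟨δ, hδ, hkum⟩ := kum hi (md c') (md_cont hcc) (md_mul hcc hint)
  obtain ⟨s, hs⟩ : ∃ s : QB, s ^ 2 = em hi δ := IsAlgClosed.exists_pow_nat_eq _ (by norm_num)
  have hk : ∀ σ : GK i₀, σ s = s ↔ md c' σ = 0 := hkum s hs
  obtain ⟨hst1, hst2⟩ := loc_strict3 hi cd hint hϖp hι' h3 hstr' hδ hs hk
  -- the prime divisors of `δ`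
  have hsup : ∀ π, Prime π → π ∣ δ → π ∣ ϖ' ∨ π ∣ s7 ∨ ∃ i, π ∣ q i := by
    intro π hπ hπδ
    by_cases hπ2 : π ∣ 2
    · rw [← hϖ2] at hπ2
      rcases hπ.dvd_or_dvd hπ2 with h | h
      · exfalso
        exact hst1 (((hπ.dvd_prime_iff_associated hϖp).1 h).symm.dvd.trans hπδ)
      · exact Or.inl h
    · by_cases hπm : π ∣ m
      · right
        have h1 : π ∣ s7 * ∏ i, q i := by
          rcases hv with h | h
          · rwa [hm, h, one_mul] at hπm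
          · rwa [hm, h, neg_one_mul, dvd_neg] at hπm
        rcases hπ.dvd_or_dvd h1 with h2 | h2
        · exact Or.inl h2
        · right
          obtain ⟨i, -, h3⟩ := (hπ.dvd_finsetProd_iff _).1 h2
          exact ⟨i, h3⟩
      · exfalso
        obtain ⟨l, hl, κ, hκ⟩ := exists_emb hi hπ
        rw [ι_em] at hκ
        have hl2 : l ≠ 2 := fun h => hπ2 ((two_of_dvd hπ (iw hi κ) hκ).1 h)
        have h1 := unram hi cd hl2 (hodd' l κ hl2) ((dvd_iff (iw hi κ) hπ hκ m).not.1 hπm)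
        refine not_dvd_of_fix (iw hi κ) hπ hκ hδ (s := κ s) ?_ ?_ hπδ
        · rw [← map_pow, hs, ι_em]
        · intro τ hin hτ
          exact fix_I (fun σ hσ => (hk σ).2 (h1 σ hσ)) τ hin hτ
  have hv' : ∀ {π : OO}, Prime π → ¬ π ∣ v := by
    intro π hπ h
    rcases hv with h1 | h1
    · rw [h1] at h
      exact hπ.not_isUnit (isUnit_of_dvd_one h)
    · rw [h1, dvd_neg] at h
      exact hπ.not_isUnit (isUnit_of_dvd_one h)
  -- the prime divisors of `m`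
  have hloc : ∀ i, (¬ q i ∣ δ ∧ Sqm (q i) δ) ∨
      ∃ δ1 m1, δ = q i * δ1 ∧ m = q i * m1 ∧ Sqm (q i) (δ1 * m1) := by
    intro i
    obtain ⟨m1, hm1, hm1'⟩ : ∃ m1, m = q i * m1 ∧ ¬ q i ∣ m1 := by
      have h1 := Finset.mul_prod_erase Finset.univ q (Finset.mem_univ i)
      have h2 := nd_prod hq hinj (Finset.notMem_erase i Finset.univ)
      refine ⟨v * (s7 * ∏ k ∈ Finset.univ.erase i, q k), by rw [hm, ← h1]; ring, fun h => ?_⟩
      rcases (hq i).prime.dvd_or_dvd h with h3 | h3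
      · exact hv' (hq i).prime h3
      · rcases (hq i).prime.dvd_or_dvd h3 with h4 | h4
        · exact (hq i).not_s7 h4
        · exact h2 h4
    obtain ⟨l, hl, κ, hκ⟩ := exists_emb hi (hq i).prime
    rw [ι_em] at hκ
    have hl2 : l ≠ 2 := fun h => (hq i).two ((two_of_dvd (hq i).prime (iw hi κ) hκ).1 h)
    exact loc_q hi cd hcc hint (hq i) hm1 hm1' hκ (hodd' l κ hl2) hδ hs hk
  have hloc7 : (¬ s7 ∣ δ ∧ Sqm s7 δ) ∨
      ∃ δ1 m1, δ = s7 * δ1 ∧ m = s7 * m1 ∧ Sqm s7 (δ1 * m1) := by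
    obtain ⟨l, hl, κ, hκ⟩ := exists_emb hi prime_s7
    rw [ι_em] at hκ
    have hl7 := p_seven (iw hi κ) hκ
    have hl2 : l ≠ 2 := by rw [hl7]; norm_num
    refine loc_7 hi cd hcc hint (m1 := v * ∏ i, q i) (by rw [hm]; ring) (fun h => ?_) hκ
      (hodd' l κ hl2) hδ hs hk
    rcases prime_s7.dvd_or_dvd h with h1 | h1
    · exact hv' prime_s7 h1
    · obtain ⟨j, -, h2⟩ := (prime_s7.dvd_finsetProd_iff _).1 h1
      exact (hq j).s7_not h2
  have hδ2 := alg_neg hq hinj hqq ho ho' h70 h71 hv hm hϖc hδ hsup hloc hloc7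
  have hex := excl (iw hi ι) (hk1 ι) (hk2 ι) h3 hst2
  rcases hδ2 with h | h | h | h
  · -- `δ = 1`
    rw [h, map_one] at hs
    obtain ⟨σ, hσ⟩ := hmin 0
    rw [mul_zero, sub_zero] at hσ
    apply hσ
    have h1 : σ s = s := by
      rcases sq_eq_one_iff.1 hs with h2 | h2
      · rw [h2, map_one]
      · rw [h2, map_neg, map_one]
    have h5 : ‖c' σ‖ < 1 := md_zero.1 ((hk σ).1 h1)
    exact h5
  · -- `δ = m`
    rw [h] at hs
    have hsr : ∀ σ : GK i₀, σ s = s ↔ σ r = r := by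
      intro σ
      have h1 : s ^ 2 = r ^ 2 := by rw [hs, cd.hr]
      rcases sq_eq_sq_iff_eq_or_eq_neg.1 h1 with h2 | h2
      · rw [h2]
      · rw [h2, map_neg, neg_inj]
    obtain ⟨σ, hσ⟩ := hmin (1 / 2)
    apply hσ
    have h2n : ‖(2 : ℚ_[2])‖ = 1 / 2 := norm_two'
    have h3 : ‖(vl χ σ - 1) * (1 / 2)‖ = 2 * ‖vl χ σ - 1‖ := by
      rw [norm_mul, norm_div, norm_one, h2n]
      ring
    by_cases h4 : md c' σ = 0
    · have h5 : ‖c' σ‖ < 1 := md_zero.1 h4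
      have h6 := (cd.iff hi σ).2 ((hsr σ).1 ((hk σ).2 h4))
      have e : c' σ - (vl χ σ - 1) * (1 / 2) = c' σ + -((vl χ σ - 1) * (1 / 2)) := by ring
      have h7 : ‖c' σ - (vl χ σ - 1) * (1 / 2)‖ < 1 := by
        rw [e]
        refine add_lt' h5 ?_
        rw [norm_neg, h3]
        linarith
      exact h7
    · have h5 : ¬ ‖c' σ‖ < 1 := fun h => h4 (md_zero.2 h)
      have h6 := (md_eq (hint σ)).1 h5
      have h7 : σ r = -r := by
        rcases rt_or hi cd.hr σ with h7 | h7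
        · exact absurd ((hk σ).1 ((hsr σ).2 h7)) h4
        · exact h7
      have h8 := cd.big hi h7
      have h9 : ¬ ‖(vl χ σ - 1) * (1 / 2)‖ < 1 := by
        rw [h3, h8]
        norm_num
      have h10 := (md_eq (by rw [h3, h8]; norm_num)).1 h9
      have e : c' σ - (vl χ σ - 1) * (1 / 2) = (c' σ - 1) + -((vl χ σ - 1) * (1 / 2) - 1) := by ring
      rw [e]
      exact add_lt' h6 (by rwa [norm_neg])
  · exact hex.1 h
  · exact hex.2 h

end loc

/-! ### The primes -/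

section primes

variable {l : ℕ} {e : ℤ}

lemma pr_of (hl : l.Prime) (hns : ¬ IsSquare (-7 : ZMod l)) (he : e = l ∨ e = -l)
    (h4 : (4 : ℤ) ∣ e - 1) : Pr ((e : ℤ) : OO) := by
  have : Fact l.Prime := ⟨hl⟩
  have h1 : J(-7 | l) = -1 := by
    rw [← jacobiSym.legendreSym.to_jacobiSym, legendreSym.eq_neg_one_iff]
    push_cast
    exact hns
  have h2 := inert_prime h1
  refine ⟨?_, ?_⟩
  · rcases he with h | h
    · rw [h]; exact h2
    · rw [h, Int.cast_neg]; exact h2.neg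
  · obtain ⟨t, ht⟩ := h4
    refine ⟨(t : OO), ?_⟩
    have h5 := congrArg (fun a : ℤ => (a : OO)) ht
    push_cast at h5
    exact h5

lemma qs_s7_of (hl : l.Prime) (hl2 : l ≠ 2) (hns : ¬ IsSquare (-7 : ZMod l))
    (he : e = l ∨ e = -l) (h4 : (4 : ℤ) ∣ e - 1) :
    qs ((e : ℤ) : OO) s7 = if l % 4 = 1 then 1 else 0 := by
  have : Fact l.Prime := ⟨hl⟩
  have hpr := pr_of hl hns he h4
  have h1 : J(-7 | l) = -1 := by
    rw [← jacobiSym.legendreSym.to_jacobiSym, legendreSym.eq_neg_one_iff]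
    push_cast
    exact hns
  have hodd : Odd l := hl.odd_of_ne_two hl2
  have h2 : J(7 | l) = ZMod.χ₄ l * J(-7 | l) := by
    have h3 := jacobiSym.neg (7 : ℤ) hodd
    rw [h3, ← mul_assoc]
    have h4' : ZMod.χ₄ l * ZMod.χ₄ l = 1 := by
      rw [← map_mul, ← pow_two]
      rcases (by have := Nat.odd_iff.1 hodd; omega : l % 4 = 1 ∨ l % 4 = 3) with h5 | h5
      · rw [map_pow, ZMod.χ₄_nat_one_mod_four h5, one_pow]
      · rw [map_pow, ZMod.χ₄_nat_three_mod_four h5]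
        norm_num
    rw [h4', one_mul]
  have h5 := inert_symb he hl2 hpr.prime h4 hpr.not_s7
  rw [nn_s7, h2, h1] at h5
  have h01 : ∀ a : ZMod 2, ¬ a = 0 → a = 1 := by decide
  split_ifs with h6
  · apply h01
    rw [qs_zero, h5, ZMod.χ₄_nat_one_mod_four h6]
    norm_num
  · rw [qs_zero, h5, ZMod.χ₄_nat_three_mod_four (by have := Nat.odd_iff.1 hodd; omega)]
    norm_num

end primes

/-! ### The family -/

section fam

/-- the integers `-q0` and `p ∈ R` -/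
noncomputable def fz (q0 : ℕ) (R : Finset ℕ) : Fin (R.card + 1) → ℤ :=
  Fin.cons (-(q0 : ℤ)) fun i => ((R.equivFin.symm i : ℕ) : ℤ)

lemma fz_zero (q0 : ℕ) (R : Finset ℕ) : fz q0 R 0 = -(q0 : ℤ) := rfl

lemma fz_succ (q0 : ℕ) (R : Finset ℕ) (i : Fin R.card) :
    fz q0 R i.succ = ((R.equivFin.symm i : ℕ) : ℤ) := by
  unfold fz
  rw [Fin.cons_succ]

variable {q0 : ℕ} {R : Finset ℕ}

lemma prod_fz : ∏ i, ((fz q0 R i : ℤ) : OO) = -((q0 : OO) * ((∏ p ∈ R, p : ℕ) : OO)) := by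
  rw [Fin.prod_univ_succ, fz_zero]
  have h1 : ∏ i : Fin R.card, ((fz q0 R i.succ : ℤ) : OO) = ((∏ p ∈ R, p : ℕ) : OO) := by
    have h2 : ∀ i : Fin R.card, ((fz q0 R i.succ : ℤ) : OO) =
        (fun x : R => (((x : ℕ) : ℕ) : OO)) (R.equivFin.symm i) := by
      intro i
      rw [fz_succ, Int.cast_natCast]
    rw [Finset.prod_congr rfl fun i _ => h2 i, Equiv.prod_comp R.equivFin.symm
      (fun x : R => (((x : ℕ) : ℕ) : OO)), Finset.prod_coe_sort R (fun p : ℕ => (p : OO)),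
      Nat.cast_prod]
  rw [h1, Int.cast_neg, Int.cast_natCast, neg_mul]

lemma fz_inj (h08 : q0 % 8 = 3) : Function.Injective (fz q0 R) := by
  have h0 : 0 < q0 := by omega
  unfold fz
  rw [Fin.cons_injective_iff]
  constructor
  · rintro ⟨i, hi⟩
    simp only at hi
    omega
  · intro a b h
    simp only at h
    have h1 : ((R.equivFin.symm a : R) : ℕ) = ((R.equivFin.symm b : R) : ℕ) := by exact_mod_cast h
    exact R.equivFin.symm.injective (Subtype.ext h1)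

/-- the properties of the integers -/
lemma fz_cases (h0 : q0.Prime) (h08 : q0 % 8 = 3) (h0n : ¬ IsSquare (-7 : ZMod q0))
    (hR : ∀ p ∈ R, p.Prime ∧ p % 4 = 1 ∧ ¬ IsSquare (-7 : ZMod p)) (i : Fin (R.card + 1)) :
    ∃ l : ℕ, l.Prime ∧ l ≠ 2 ∧ ¬ IsSquare (-7 : ZMod l) ∧ (fz q0 R i = l ∨ fz q0 R i = -l) ∧
      (4 : ℤ) ∣ fz q0 R i - 1 ∧ (i = 0 → l % 4 = 3) ∧ (i ≠ 0 → l % 4 = 1) := by
  refine Fin.cases ?_ (fun i => ?_) i
  · refine ⟨q0, h0, by omega, h0n, Or.inr (fz_zero q0 R), ?_, fun _ => by omega,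
      fun h => absurd rfl h⟩
    rw [fz_zero]
    omega
  · have hm := (R.equivFin.symm i).2
    obtain ⟨h1, h2, h3⟩ := hR _ hm
    refine ⟨_, h1, by omega, h3, Or.inl (fz_succ q0 R i), ?_, fun h => absurd h (Fin.succ_ne_zero i),
      fun _ => h2⟩
    rw [fz_succ]
    omega

end fam

section final

variable {i₀ : QB} (hi : i₀ ^ 2 = i₀ - 2)

/-- the sizes at the two places above two -/
lemma s7_three {ι : QB →ₐ[ℚ] PadicAlgCl 2} {P : OO} (h4 : (4 : OO) ∣ P - 1) :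
    (‖em (iw hi ι) om‖ < 1 → ‖em (iw hi ι) (s7 * P) + 1‖ ≤ 1 / 4) ∧
    (‖em (iw hi ι) (1 - om)‖ < 1 → ‖em (iw hi ι) (-(s7 * P)) + 1‖ ≤ 1 / 4) := by
  have hom : em (iw hi ι) om = ι i₀ := by
    rw [em_apply]
    simp [om]
  have hs : em (iw hi ι) s7 = 2 * ι i₀ - 1 := by
    rw [em_apply]
    show ((-1 : ℤ) : PadicAlgCl 2) + ((2 : ℤ) : PadicAlgCl 2) * ι i₀ = _
    push_cast
    ring
  obtain ⟨t, ht⟩ := h4
  have hP : P = 1 + 4 * t := by linear_combination ht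
  have hPe : em (iw hi ι) P = 1 + 4 * em (iw hi ι) t := by
    rw [hP, map_add, map_mul, map_one, map_ofNat]
  have h4t : ‖(4 : PadicAlgCl 2) * (em (iw hi ι) s7 * em (iw hi ι) t)‖ ≤ 1 / 4 := by
    rw [norm_mul, norm_four', ← map_mul]
    have := em_le (iw hi ι) (s7 * t)
    linarith
  have hw := iw hi ι
  constructor
  · intro h
    rw [hom] at h
    have h1 : ‖ι i₀‖ = 1 / 2 := half_norm (by linear_combination -hw) h
    have e : em (iw hi ι) (s7 * P) + 1 = 2 * ι i₀ + 4 * (em (iw hi ι) s7 * em (iw hi ι) t) := by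
      rw [map_mul, hPe]
      linear_combination hs
    rw [e]
    refine add_le ?_ h4t
    rw [norm_mul, norm_two2, h1]
    norm_num
  · intro h
    rw [map_sub, map_one, hom] at h
    have h1 : ‖1 - ι i₀‖ = 1 / 2 := half_norm (by linear_combination -hw) h
    have e : em (iw hi ι) (-(s7 * P)) + 1 = 2 * (1 - ι i₀) -
        4 * (em (iw hi ι) s7 * em (iw hi ι) t) := by
      rw [map_neg, map_mul, hPe]
      linear_combination -hs
    rw [e]
    refine sub_le ?_ h4t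
    rw [norm_mul, norm_two2, h1]
    norm_num

/-- **The vanishing theorem.** -/
theorem vanish_neg' {κ κ' : GK i₀ →* ℤ_[2]ˣ} {D : OO} {r I : QB} (kd : KD hi κ κ' D r I)
    {q0 : ℕ} {R : Finset ℕ} (h0 : q0.Prime) (h08 : q0 % 8 = 3) (h0n : ¬ IsSquare (-7 : ZMod q0))
    (hR : ∀ p ∈ R, p.Prime ∧ p % 4 = 1 ∧ ¬ IsSquare (-7 : ZMod p))
    (hD : D = s7 * ((∏ i ∈ insert q0 R, i : ℕ) : OO)) (j : ℤ) {ϖ ϖ' : OO}
    (hϖ : (Even j ∧ ϖ = 1 - om ∧ ϖ' = om) ∨ (Odd j ∧ ϖ = om ∧ ϖ' = 1 - om)) :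
    VanOn hi ϖ (κ ^ j * κ' ^ (1 - j)) ⊤ := by
  have h0R : q0 ∉ R := by
    intro h
    have := (hR q0 h).2.1
    omega
  set q : Fin (R.card + 1) → OO := fun i => ((fz q0 R i : ℤ) : OO) with hq'
  have hq : ∀ i, Pr (q i) := by
    intro i
    obtain ⟨l, hl, hl2, hns, he, h4, -, -⟩ := fz_cases h0 h08 h0n hR i
    exact pr_of hl hns he h4
  have hinj : Function.Injective q := by
    intro a b h
    have h1 := congrArg QuadraticAlgebra.re h
    simp only [hq'] at h1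
    rw [QuadraticAlgebra.re_intCast, QuadraticAlgebra.re_intCast] at h1
    exact fz_inj h08 (by simpa using h1)
  have hqq : ∀ i k, i ≠ k → qs (q i) (q k) = 0 := by
    intro i k hik
    obtain ⟨l, hl, hl2, hns, he, h4, -, -⟩ := fz_cases h0 h08 h0n hR i
    have : Fact l.Prime := ⟨hl⟩
    exact recip_ii (hq i) (hq k) (fun h => hik (hinj h)) hl2 he h4 rfl rfl
  have h01 : ∀ a : ZMod 2, ¬ a = 0 → a = 1 := by decide
  have hre : (q 0).re = -(q0 : ℤ) := by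
    show (((fz q0 R 0 : ℤ) : OO)).re = _
    rw [QuadraticAlgebra.re_intCast, fz_zero]
    simp
  have him : (q 0).im = 0 := by
    show (((fz q0 R 0 : ℤ) : OO)).im = _
    rw [QuadraticAlgebra.im_intCast]
  have ho : qs (q 0) om = 1 := by
    apply h01
    rw [om_symb (hq 0), hre]
    omega
  have ho' : qs (q 0) (1 - om) = 1 := by
    apply h01
    rw [om_symb' (hq 0), hre, him]
    omega
  have h70 : qs (q 0) s7 = 0 := by
    obtain ⟨l, hl, hl2, hns, he, h4, h5, -⟩ := fz_cases h0 h08 h0n hR 0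
    have h6 := h5 rfl
    show qs (((fz q0 R 0 : ℤ) : OO)) s7 = 0
    rw [qs_s7_of hl hl2 hns he h4, if_neg (by omega)]
  have h71 : ∀ i, i ≠ 0 → qs (q i) s7 = 1 := by
    intro i hi0
    obtain ⟨l, hl, hl2, hns, he, h4, -, h5⟩ := fz_cases h0 h08 h0n hR i
    have h6 := h5 hi0
    show qs (((fz q0 R i : ℤ) : OO)) s7 = 1
    rw [qs_s7_of hl hl2 hns he h4, if_pos h6]
  have hk : ∀ ι : QB →ₐ[ℚ] PadicAlgCl 2, em (iw hi ι) (q 0) = ((-(q0 : ℤ) : ℤ) : PadicAlgCl 2) := by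
    intro ι
    show em (iw hi ι) (((fz q0 R 0 : ℤ) : OO)) = _
    rw [map_intCast, fz_zero]
  have hk1 : ∀ ι : QB →ₐ[ℚ] PadicAlgCl 2, ‖em (iw hi ι) (q 0) - 1‖ = 1 / 4 := by
    intro ι
    have e : em (iw hi ι) (q 0) - 1 = ((-(q0 : ℤ) - 1 : ℤ) : PadicAlgCl 2) := by
      rw [hk]
      push_cast
      ring
    rw [e, even_norm (z := -(q0 : ℤ) - 1) (k := (-(q0 : ℤ) - 1) / 4) (n := 2) (by omega) (by omega)]
    norm_num
  have hk2 : ∀ ι : QB →ₐ[ℚ] PadicAlgCl 2, ‖em (iw hi ι) (q 0) + 1‖ = 1 / 2 := by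
    intro ι
    have e : em (iw hi ι) (q 0) + 1 = ((-(q0 : ℤ) + 1 : ℤ) : PadicAlgCl 2) := by
      rw [hk]
      push_cast
      ring
    rw [e, even_norm (z := -(q0 : ℤ) + 1) (k := (-(q0 : ℤ) + 1) / 2) (n := 1) (by omega) (by omega)]
    norm_num
  have hP4 : (4 : OO) ∣ ∏ i, q i - 1 := by
    apply Finset.prod_induction q (fun x : OO => (4 : OO) ∣ x - 1)
    · rintro a b ⟨x, hx⟩ ⟨y, hy⟩
      exact ⟨a * y + x, by linear_combination a * hy + hx⟩
    · exact ⟨0, by ring⟩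
    · exact fun i _ => (hq i).one
  have hD' : D = -(s7 * ∏ i, q i) := by
    rw [hD, Finset.prod_insert h0R, hq', prod_fz]
    push_cast
    ring
  obtain ⟨m, s, hm, cd⟩ := chiD7 hi kd j
  intro c hc hodd hstr
  have hc' : Coc (κ ^ j * κ' ^ (1 - j)) c := ⟨by
      have := hc.cont
      rwa [Subgroup.coe_top, continuousOn_univ] at this, fun σ τ => hc.mul σ trivial τ trivial⟩
  have hodd' : ∀ (p : ℕ) [Fact p.Prime] (ι : QB →ₐ[ℚ] PadicAlgCl p), p ≠ 2 →
      CobOn (κ ^ j * κ' ^ (1 - j)) (II ι) c := fun p _ ι hp => by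
    obtain ⟨y, hy⟩ := hodd p ι hp
    exact ⟨y, fun σ hσ => hy σ hσ trivial⟩
  have hstr' : ∀ ι : QB →ₐ[ℚ] PadicAlgCl 2, ‖ι (em hi ϖ)‖ < 1 →
      CobOn (κ ^ j * κ' ^ (1 - j)) (DD ι) c := fun ι hι => by
    obtain ⟨y, hy⟩ := hstr ι hι
    exact ⟨y, fun σ hσ => hy σ hσ trivial⟩
  have hmain : ∃ y : ℚ_[2], ∀ σ, c σ = (vl (κ ^ j * κ' ^ (1 - j)) σ - 1) * y := by
    rcases hϖ with ⟨hj, h1, h2⟩ | ⟨hj, h1, h2⟩
    · have hm' : m = D := by
        rcases hm with ⟨-, h⟩ | ⟨h, -⟩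
        · exact h
        · exact absurd hj (Int.not_even_iff_odd.2 h)
      refine main_neg hi hq hinj hqq ho ho' h70 h71 hk1 hk2 (v := -1) (Or.inr rfl)
        (by rw [hm', hD']; ring) cd (Or.inr ⟨h1, h2⟩) (fun ι hι => ?_) hc' hodd' hstr'
      rw [h1] at hι
      rw [hm', hD']
      exact (s7_three hi hP4).2 hι
    · have hm' : m = -D := by
        rcases hm with ⟨h, -⟩ | ⟨-, h⟩
        · exact absurd h (Int.not_even_iff_odd.2 hj)
        · exact h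
      refine main_neg hi hq hinj hqq ho ho' h70 h71 hk1 hk2 (v := 1) (Or.inl rfl)
        (by rw [hm', hD']; ring) cd (Or.inl ⟨h1, h2⟩) (fun ι hι => ?_) hc' hodd' hstr'
      rw [h1] at hι
      rw [hm', hD', neg_neg]
      exact (s7_three hi hP4).1 hι
  obtain ⟨y, hy⟩ := hmain
  exact ⟨y, fun σ _ => hy σ⟩

end final

end Pool.Agent.J4.H67.EW.SeA
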