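import Pool.Agent.J4.H67.EW.Pn
import Pool.Agent.J4.H67.EW.SeA

/-!
# The Selmer side: the vanishing theorem
-/

set_option autoImplicit false
set_option linter.unusedSectionVars false

namespace Pool.Agent.J4.H67.EW

/-- **The vanishing theorem, negative twists.** -/
theorem vanish_neg {i₀ : Pool.Agent.Y715.Gi.QB} (hi : i₀ ^ 2 = i₀ - 2)
    {κ κ' : Pool.Agent.Y715.Gi.GK i₀ →* ℤ_[2]ˣ} {D : Pool.Agent.R384.OO}
    {r I : Pool.Agent.Y715.Gi.QB} (kd : Pool.Agent.R384.KD hi κ κ' D r I) {q0 : ℕ} {R : Finset ℕ}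
    (hN : Nu q0 R)
    (hD : D = Pool.Agent.R384.s7 * ((∏ i ∈ insert q0 R, i : ℕ) : Pool.Agent.R384.OO))
    (j : ℤ) {ϖ ϖ' : Pool.Agent.R384.OO}
    (hϖ : (Even j ∧ ϖ = 1 - Pool.Agent.R384.om ∧ ϖ' = Pool.Agent.R384.om) ∨
      (Odd j ∧ ϖ = Pool.Agent.R384.om ∧ ϖ' = 1 - Pool.Agent.R384.om)) :
    Pool.Agent.R384.VanOn hi ϖ (κ ^ j * κ' ^ (1 - j)) ⊤ :=
  SeA.vanish_neg' hi kd hN.pr hN.m8 hN.ns
    (fun p hp => ⟨(hN.inq p hp).pr, (hN.inq p hp).m4, (hN.inq p hp).ns⟩) hD j hϖ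

end Pool.Agent.J4.H67.EW
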