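import Pool.Agent.R384.Y.Kdt
import Pool.Agent.J4.H67.AW.Gl
import Pool.Agent.J4.H67.EW.Se

/-!
# The Galois side for the negative twists
-/

set_option autoImplicit false
set_option linter.unusedSectionVars false

namespace Pool.Agent.J4.H67.EW

open Pool.Agent.Results.MP_787500_nt.AllWeightsMultiquadraticX49
open Pool.Agent.Results.MP_6e2fc3_nt.CMFormsAllWeights
open WeierstrassCurve Filter Topology
open Pool.Agent.J4.H67.AW (NoInv exists_tau tau_w)
open scoped Classical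

/-- the characters -/
theorem exists_tate' {w : QBar} (hw : w ^ 2 = w - 2) {D : OK} (hD : D ≠ 0) :
    ∃ κ κ' : Chr w, TateModule D κ κ' ∧ ∃ r I : QBar,
      Pool.Agent.R384.KD hw κ κ' D r I := by
  have h : Pool.Agent.R384.WD w (Pool.Agent.R384.em hw D) := ⟨hw, Pool.Agent.R384.em_ne hw hD⟩
  obtain ⟨r, hr⟩ : ∃ r : QBar, r ^ 2 = Pool.Agent.R384.em hw D :=
    IsAlgClosed.exists_pow_nat_eq _ (by norm_num)
  obtain ⟨I, hI⟩ : ∃ I : QBar, I ^ 2 = -1 := IsAlgClosed.exists_pow_nat_eq _ (by norm_num)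
  have fx : ∀ σ : Gal w, Pool.Agent.R384.Fx w (Pool.Agent.R384.em hw D)
      (Pool.Agent.R384.rh σ) := fun σ =>
    ⟨Pool.Agent.Y715.Gi.gk_fix σ, Pool.Agent.R384.gk_em hw σ D⟩
  obtain ⟨κ, κ', x, y, kd, hx, hy, ax, ay⟩ := Pool.Agent.R384.exists_kd hw hD h hr hI fx
  have td := Pool.Agent.R384.td h
  set T := tr (curve_eq hw (D := D)) with hT
  have hor : ∀ {p : ℕ} [Fact p.Prime] (ι : QBar →ₐ[ℚ] PadicAlgCl p) (s : QBar) (z : OK),
      s ^ 2 = Pool.Agent.R384.em hw z → ∀ σ : Gal w, σ s = s ∨ σ s = -s := fun ι s z hs σ =>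
    Pool.Agent.R384.rt_or hw hs σ
  have hIr : (I * r) ^ 2 = Pool.Agent.R384.em hw (-D) := by rw [mul_pow, hI, hr, map_neg]; ring
  refine ⟨κ, κ', ⟨⟨fun n => T.symm (y n), fun n => T.symm (x n), ⟨?_, ?_, ?_, ?_⟩,
    ⟨Units.continuous_val.comp kd.cont, fun σ => ?_⟩,
    ⟨Units.continuous_val.comp kd.cont', fun σ => ?_⟩⟩, ?_, ?_⟩, ⟨r, I, kd⟩⟩
  · show T.symm (y 0) = 0 ∧ T.symm (x 0) = 0
    rw [hx.zero, hy.zero, map_zero]
    exact ⟨rfl, rfl⟩
  · intro n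
    show T.symm (y (n + 1)) + T.symm (y (n + 1)) = T.symm (y n) ∧
      T.symm (x (n + 1)) + T.symm (x (n + 1)) = T.symm (x n)
    rw [← map_add, ← map_add, hx.dbl, hy.dbl]
    exact ⟨rfl, rfl⟩
  · intro n P hP
    have h1 : (2 ^ n : ℤ) • T P = 0 := by rw [← map_zsmul, hP, map_zero]
    obtain ⟨a, b, hab⟩ := Pool.Agent.R384.Tow.basis td hx hy h1
    refine ⟨b, a, ?_⟩
    apply T.injective
    show T P = T (b • T.symm (y n) + a • T.symm (x n))
    rw [map_add, map_zsmul, map_zsmul, T.apply_symm_apply, T.apply_symm_apply, hab, add_comm]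
  · intro n a b hab
    have h1 : T (a • T.symm (y n) + b • T.symm (x n)) = 0 := by
      show T ((fun n => a • T.symm (y n) + b • T.symm (x n)) n) = 0
      rw [show (fun n => a • T.symm (y n) + b • T.symm (x n)) n = 0 from hab, map_zero]
    rw [map_add, map_zsmul, map_zsmul, T.apply_symm_apply, T.apply_symm_apply, add_comm] at h1
    exact (Pool.Agent.R384.Tow.uniq td hx hy h1).symm
  · intro n k hk
    show act σ (T.symm (y n)) = k • T.symm (y n)
    apply T.injective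
    rw [hT, tr_act hw h fx σ, ← hT, T.apply_symm_apply, map_zsmul, T.apply_symm_apply]
    exact ay σ n k hk
  · intro n k hk
    show act σ (T.symm (x n)) = k • T.symm (x n)
    apply T.injective
    rw [hT, tr_act hw h fx σ, ← hT, T.apply_symm_apply, map_zsmul, T.apply_symm_apply]
    exact ax σ n k hk
  · rintro p _ ι hn σ ⟨τ, hτ, hin⟩
    have h1 := kd.inert p ι τ σ hτ hin hn
    unfold zv
    rcases hor ι _ _ hIr σ with h2 | h2
    · rw [h1.1 h2, Units.val_one, one_pow]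
    · rw [h1.2 h2, Units.val_neg, Units.val_one, neg_one_sq]
  · rintro p _ ι hn σ ⟨τ, hτ, hin⟩
    have h1 := kd.inert' p ι τ σ hτ hin hn
    unfold zv
    rcases hor ι _ _ hr σ with h2 | h2
    · rw [h1.1 h2, Units.val_one, one_pow]
    · rw [h1.2 h2, Units.val_neg, Units.val_one, neg_one_sq]


/-- the element `√-7 m` -/
def tn (m : ℕ) : OK := ⟨-m, 2 * m⟩

lemma tn_ne {m : ℕ} (hm : m ≠ 0) : tn m ≠ 0 := by
  intro h
  have h1 := congrArg QuadraticAlgebra.re h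
  have h2 : -(m : ℤ) = 0 := h1
  exact hm (by exact_mod_cast neg_eq_zero.1 h2)

lemma tn_eq (m : ℕ) : tn m = Pool.Agent.R384.s7 * ((m : ℤ) : OK) := by
  ext
  · simp [tn, Pool.Agent.R384.s7]
  · simp [tn, Pool.Agent.R384.s7]

section

variable {w : QBar} {hw : w ^ 2 = w - 2} {M : ℕ} {κ κ' : Chr w} {r I : QBar}

lemma tau_sq' (kd : Pool.Agent.R384.KD hw κ κ' (tn M) r I) {τ : GQ} (h1 : τ w = 1 - w)
    (h2 : τ I = I) : (τ * τ) r = -r := by
  have hr : r ^ 2 = M * (2 * w - 1) := by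
    rw [kd.hr, Pool.Agent.R384.em_apply]
    unfold tn
    push_cast
    ring
  have h3 : (τ r) ^ 2 = (I * r) ^ 2 := by
    rw [← map_pow, hr, map_mul, map_sub, map_mul, map_ofNat, map_one, map_natCast, h1, mul_pow I,
      hr, kd.hI]
    ring
  rw [AlgEquiv.mul_apply]
  rcases sq_eq_sq_iff_eq_or_eq_neg.1 h3 with h4 | h4
  · rw [h4, map_mul, h2, h4]
    linear_combination r * kd.hI
  · rw [h4, map_neg, map_mul, h2, h4]
    linear_combination r * kd.hI

lemma val_ne_one' (kd : Pool.Agent.R384.KD hw κ κ' (tn M) r I) {τ : GQ} (h1 : τ w = 1 - w)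
    (h2 : τ I = I) {k : ℤ} (hk : Even k) : val (chi κ κ' k) (τ * τ) ≠ 1 := by
  have h3 := tau_sq' kd h1 h2
  have h4 : (up w (τ * τ)) r = -r := by
    rw [up_apply (tau_w h1)]
    exact h3
  have h4' : (up w (τ * τ)) (I * r) = -(I * r) := by
    rw [up_apply (tau_w h1), map_mul, h3, AlgEquiv.mul_apply, h2, h2]
    ring
  have h5 := kd.neg _ h4'
  have h5' := kd.neg' _ h4
  set σ := up w (τ * τ) with hσ
  have h6 : Pool.Agent.R384.ph ((chi κ κ' k) σ) = -1 := by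
    have e : (chi κ κ' k) σ = (κ σ) ^ k * (κ' σ) ^ (1 - k) := rfl
    obtain ⟨m, hm⟩ := hk
    rw [e, map_mul, map_zpow, map_zpow, h5', hm, show m + m = 2 * m by ring,
      Pool.Agent.R384.zpow_even (Pool.Agent.R384.sq_four _),
      show (1 : ℤ) - 2 * m = 2 * (-m) + 1 by ring, zpow_add, zpow_one,
      Pool.Agent.R384.zpow_even (Pool.Agent.R384.sq_four _), one_mul, one_mul]
  intro h7
  have h8 : (chi κ κ' k) σ = 1 := by
    apply Units.ext
    have h9 : (((((chi κ κ' k) σ : ℤ_[2]ˣ) : ℤ_[2])) : ℚ_[2]) = ((1 : ℤ_[2]) : ℚ_[2]) := by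
      rw [PadicInt.coe_one]
      exact h7
    exact Subtype.ext h9
  rw [h8, map_one] at h6
  exact absurd h6 (by decide)

/-- **There are no invariants.** -/
theorem noInv' (kd : Pool.Agent.R384.KD hw κ κ' (tn M) r I) {n : ℕ} {d : Fin n → ℕ}
    {s : Fin n → QBar} (hs : ∀ i, s i ^ 2 = (d i : QBar)) {c₀ : GQ} (hc₀ : c₀ w = 1 - w) {k : ℤ}
    (hk : Even k) : NoInv s (chi κ κ' k) c₀ := by
  intro y hy
  obtain ⟨τ, h1, h2⟩ := exists_tau hw kd.hI
  have hmem : τ * τ ∈ GF s := by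
    rw [mem_GF]
    intro i
    rw [AlgEquiv.mul_apply]
    rcases sgn hs τ i with h3 | h3
    · rw [h3, h3]
    · rw [h3, map_neg, h3, neg_neg]
  have h3 := hy _ hmem
  unfold ind at h3
  rw [if_pos (tau_w h1)] at h3
  have hinv : c₀⁻¹ w = 1 - w := inv_w hc₀
  have h4 : (c₀ * τ * c₀⁻¹) w = 1 - w := by
    rw [AlgEquiv.mul_apply, AlgEquiv.mul_apply, hinv, map_sub, map_one, h1,
      show 1 - (1 - w) = w by ring, hc₀]
  have h5 : (c₀ * τ * c₀⁻¹) I = I := by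
    have hsg : c₀⁻¹ I = I ∨ c₀⁻¹ I = -I := by
      have h2 : (c₀⁻¹ I) ^ 2 = I ^ 2 := by rw [← map_pow, kd.hI, map_neg, map_one]
      exact sq_eq_sq_iff_eq_or_eq_neg.1 h2
    have h6 : τ (c₀⁻¹ I) = c₀⁻¹ I := by
      rcases hsg with h | h
      · rw [h, h2]
      · rw [h, map_neg, h2]
    rw [AlgEquiv.mul_apply, AlgEquiv.mul_apply, h6, ← AlgEquiv.mul_apply, mul_inv_cancel,
      AlgEquiv.one_apply]
  have e1 := val_ne_one' kd h1 h2 hk
  have e2 := val_ne_one' kd h4 h5 hk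
  rw [show c₀ * τ * c₀⁻¹ * (c₀ * τ * c₀⁻¹) = c₀ * (τ * τ) * c₀⁻¹ by group] at e2
  have f1 := congrArg Prod.fst h3
  have f2 := congrArg Prod.snd h3
  simp only at f1 f2
  ext
  · have : (val (chi κ κ' k) (τ * τ) - 1) * y.1 = 0 := by linear_combination f1
    exact (mul_eq_zero.1 this).resolve_left (sub_ne_zero.2 e1)
  · have : (val (chi κ κ' k) (c₀ * (τ * τ) * c₀⁻¹) - 1) * y.2 = 0 := by linear_combination f2
    exact (mul_eq_zero.1 this).resolve_left (sub_ne_zero.2 e2)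

end

end Pool.Agent.J4.H67.EW

namespace Pool.Agent.J4.H67.EW

open Pool.Agent.R384
open Pool.Agent.Y715.Gi (QB GK)

section

variable {i₀ : QB} (hi : i₀ ^ 2 = i₀ - 2) {n : ℕ} {s : Fin n → QB}
variable {κ κ' : GK i₀ →* ℤ_[2]ˣ} {D : OO} {r I : QB}

open scoped Classical in
/-- **The vanishing theorem over multiquadratic fields, negative twists.** -/
theorem vanish_mq_neg {E : Fin n → OO} (hE : ∀ i, s i ^ 2 = em hi (E i)) (kd : KD hi κ κ' D r I)
    (hD : D ≠ 0) (hE0 : ∀ i, E i ≠ 0)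
    (hgood : ∀ T : Finset (Fin n), ∃ (q0 : ℕ) (R : Finset ℕ) (z : OO), Nu q0 R ∧ z ≠ 0 ∧
      D * ∏ i ∈ T, E i = (s7 * ((∏ i ∈ insert q0 R, i : ℕ) : OO)) * z ^ 2) (j : ℤ) {ϖ ϖ' : OO}
    (hϖ : (Even j ∧ ϖ = 1 - om ∧ ϖ' = om) ∨ (Odd j ∧ ϖ = om ∧ ϖ' = 1 - om)) :
    VanOn hi ϖ (κ ^ j * κ' ^ (1 - j)) (fixs s Finset.univ) := by
  have hs0 : ∀ i, s i ≠ 0 := by
    intro i h
    have h1 := hE i
    rw [h, zero_pow two_ne_zero] at h1
    exact hE0 i (em_inj hi h1.symm)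
  have hs : ∀ (i) (σ : GK i₀), σ (s i) = s i ∨ σ (s i) = -s i := fun i σ => rt_or hi (hE i) σ
  refine van_all hi hs0 hs ϖ Finset.univ _ fun T _ => ?_
  obtain ⟨q0, R, z, hN, hz, hprod⟩ := hgood T
  have kd1 := KD.twists hi hs0 hs hE kd hD hE0 T
  have hz0 : em hi z ≠ 0 := em_ne hi hz
  have kd2 := KD.resc hi kd1 (D' := s7 * ((∏ i ∈ insert q0 R, i : ℕ) : OO)) (u := (em hi z)⁻¹)
    (inv_ne_zero hz0) (fun σ => by rw [map_inv₀, gk_em]) (by
      rw [mul_pow, kd1.hr, hprod, map_mul, map_pow]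
      field_simp)
  set S := ∏ i ∈ T, sgc (es (hs0 i) (hs i)) with hS
  have e : κ ^ j * κ' ^ (1 - j) * S = (κ * S) ^ j * (κ' * S) ^ (1 - j) := by
    refine MonoidHom.ext fun σ => ?_
    have key : ∀ a b c : ℤ_[2]ˣ, a ^ j * b ^ (1 - j) * c = (a * c) ^ j * (b * c) ^ (1 - j) :=
      fun a b c => by
        rw [mul_zpow, mul_zpow, mul_mul_mul_comm, ← zpow_add, add_sub_cancel, zpow_one]
    exact key _ _ _
  rw [e]
  exact vanish_neg hi kd2 hN rfl j hϖ

end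

end Pool.Agent.J4.H67.EW
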