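import Pool.Agent.J4.H67.EW.Va

/-!
# Pairing
-/

set_option autoImplicit false
set_option linter.unusedSectionVars false

open Filter
open scoped Topology PeriodPair

namespace Pool.Agent.J4.H67.EW

open Pool.Agent.Y698 (al bl RR aR bR fR nR cj cX cY e7 e7_mul e7_neg e7_one e7_per e7_eq_zero e7_sq
  fR_ne fin_quot nR_nonneg mul_cj irr_fR not_mem_of_cop LD v_two_lt v_bl bl_ne qch GG)
open Pool.Agent.Y698.SG
open H667R3 Pool.Agent.W192.HK Pool.Agent.TH936.CM Pool.Agent.TH936.PU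
open Pool.Agent.TH936.CW (E1 ek)
open Pool.Agent.J4.H67.AW

variable {Γ : Type*} [LinearOrderedCommGroupWithZero Γ] {v : Valuation ℂ Γ}
variable {L : PeriodPair} {Ω p q : ℂ}

/-- weighted sums of even functions -/
theorem Wg_even_le (hL : IsLat L RR Ω) {g : ℂ → ℂ}
    (hp : ∀ z w : ℂ, w - z ∈ L.lattice → g w = g z) (he : ∀ z, g (-z) = g z) {K : ℂ} (hK : K ≠ 0)
    {n : RR} (hn : Go n) (hb : ∀ x : RR, x ∉ sp n → v (g (Ω * x / (n : ℂ))) ≤ v K) {φ : RR → ℂ}
    (hφ : Pe n φ) (hφe : ∀ x, φ (-x) = φ x) (hφb : ∀ x, v (φ x) ≤ 1) (hφ0 : ∀ x ∈ sp n, φ x = 0) :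
    v (Wg Ω g n φ) ≤ v K * v 2 := by
  classical
  have f1 := fin_quot hn.gd.ne
  let _ : Fintype (RR ⧸ sp n) := Fintype.ofFinite _
  set F : (RR ⧸ sp n) → ℂ := fun a => φ a.out * g (Ω * a.out / n) / K with hF
  have hKv : v K ≠ 0 := (Valuation.ne_zero_iff v).2 hK
  have h0 : Wg Ω g n φ = K * ∑ a : RR ⧸ sp n, F a := by
    rw [Wg_eq, Finset.mul_sum]
    refine Finset.sum_congr rfl fun x _ => ?_
    rw [hF]
    field_simp
  have hne : ∀ x : RR ⧸ sp n, x.out ∈ sp n ↔ x = 0 := by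
    intro y
    rw [← Ideal.Quotient.eq_zero_iff_mem, Ideal.Quotient.mk_out]
  have h1 : ∑ a : RR ⧸ sp n, F a =
      ∑ a ∈ Finset.univ.filter (fun a : RR ⧸ sp n => a ≠ 0), F a := by
    rw [Finset.sum_filter]
    refine Finset.sum_congr rfl fun a _ => ?_
    split_ifs with h
    · rfl
    · rw [hF]
      beta_reduce
      rw [hφ0 _ ((hne a).2 (not_not.1 h))]
      ring
  rw [h0, map_mul, h1]
  refine mul_le_mul' le_rfl ?_
  refine Pool.Agent.Y698.v_sum_pair' _ ?_ ?_ F ?_ ?_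
  · intro a ha
    rw [Finset.mem_filter] at ha ⊢
    exact ⟨Finset.mem_univ _, neg_ne_zero.2 ha.2⟩
  · intro a ha hcon
    rw [Finset.mem_filter] at ha
    apply ha.2
    have h3 : (2 : RR ⧸ sp n) * a = 0 := by
      rw [two_mul]
      nth_rewrite 1 [← hcon]
      rw [neg_add_cancel]
    obtain ⟨u, hu⟩ := hn.m4
    have h4 : Ideal.Quotient.mk (sp n) (1 + 4 * u) = 0 :=
      Ideal.Quotient.eq_zero_iff_mem.2 (by rw [← hu]; exact Ideal.mem_span_singleton_self _)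
    rw [map_add, map_one, map_mul, map_ofNat] at h4
    linear_combination a * h4 - 2 * Ideal.Quotient.mk (sp n) u * h3
  · intro a ha
    have n1 : (-a).out - -a.out ∈ sp n := by
      rw [← Ideal.Quotient.mk_eq_mk_iff_sub_mem, Ideal.Quotient.mk_out, map_neg,
        Ideal.Quotient.mk_out]
    have e2 : g (Ω * (-a).out / n) = g (Ω * a.out / n) := by
      rw [← he (Ω * a.out / n)]
      refine hp _ _ ?_
      have m1 := (div_mem_iff hL hn.gd.ne _).2 n1
      convert m1 using 1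
      push_cast
      ring
    rw [hF]
    beta_reduce
    rw [hφ _ _ n1, hφe, e2]
  · intro a ha
    rw [Finset.mem_filter] at ha
    rw [hF]
    beta_reduce
    rw [map_div₀, map_mul]
    refine (div_le_one₀ (zero_lt_iff.2 hKv)).2 ?_
    exact (mul_le_of_le_one_left' (hφb _)).trans (hb _ (fun hm => ha.2 ((hne a).1 hm)))

/-- change of variables -/
theorem Wg_ch (hL : IsLat L RR Ω) {g : ℂ → ℂ}
    (hp : ∀ z w : ℂ, w - z ∈ L.lattice → g w = g z) {n c : RR} (hn : n ≠ 0) (hc : IsCoprime c n)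
    {φ : RR → ℂ} (hφ : Pe n φ) :
    Wg Ω (fun z => g ((c : ℂ) * z)) n (fun x => φ (c * x)) = Wg Ω g n φ := by
  have f1 := fin_quot hn
  let _ : Fintype (RR ⧸ sp n) := Fintype.ofFinite _
  rw [Wg_eq, Wg_eq, sum_rep _ (bij_unit hc) (fun x : RR => φ x * g (Ω * x / (n : ℂ)))]
  · refine Finset.sum_congr rfl fun y _ => ?_
    beta_reduce
    congr 2
    push_cast
    ring
  · intro x y hxy
    beta_reduce
    rw [hφ _ _ hxy]
    congr 1
    refine hp _ _ ?_
    have h1 := (div_mem_iff hL hn (x - y)).2 hxy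
    convert h1 using 1
    push_cast
    ring

lemma Jf_per (L : PeriodPair) {z w : ℂ} (hw : w - z ∈ L.lattice) : Jf L w = Jf L z := by
  unfold Jf
  rw [mf_per L hw]

lemma Jf_neg (L : PeriodPair) (z : ℂ) : Jf L (-z) = Jf L z := by
  unfold Jf
  rw [mf_neg]

lemma v_Jf (h : LD L Ω) (hv : v al < 1) {z : ℂ} (hz : Od L z) : v (Jf L z) ≤ 1 := by
  have h1 := (v_mf h hv hz).1
  have h2 : ∀ k : ℕ, v (mf L z ^ k) ≤ 1 := fun k => by
    rw [map_pow]
    exact pow_le_one' h1 k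
  unfold Jf
  exact v.map_add_le (v.map_add_le (v.map_add_le h1 (h2 2)) (h2 3)) (h2 4)

lemma Hf_per (hL : IsLat L RR Ω) (hpq : ∀ l ∈ L.lattice, eta L l = p * l + q * (starRingEnd ℂ) l)
    {e : ℕ} (he : 0 < e) {z w : ℂ} (hz : Od L z) (hw : w - z ∈ L.lattice) :
    Hf L p q e w = Hf L p q e z := by
  have f1 := (((os_ek hL hpq he).comp hL bR_dvd).comp hL bR_dvd).per z w hz hw
  have f2 := ((os_V hL hpq).comp hL bR_dvd).per z w hz hw
  beta_reduce at f1 f2
  unfold Hf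
  rw [f1, f2]

lemma Vv_neg (z : ℂ) : Vv L p q (-z) = -Vv L p q z := by
  unfold Vv
  rw [mul_neg, mul_neg, mul_neg, E1_neg, E1_neg, E1_neg, E1_neg]
  ring

lemma Hf_neg (hL : IsLat L RR Ω) {e : ℕ} (he : 0 < e) {z : ℂ} (hz : Od L z) :
    Hf L p q e (-z) = -Hf L p q e z := by
  have f1 := ek_neg (p := p) (q := q) ((hz.mul_dvd hL bR_dvd).mul_dvd hL bR_dvd).ne he
  unfold Hf
  rw [mul_neg, mul_neg, f1, Vv_neg]
  ring

/-- the odd function and the even function -/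
theorem H_J [Fintype (RR ⧸ sp fR)] (h : LD L Ω) (hv : v al < 1)
    (hpq : ∀ l ∈ L.lattice, eta L l = p * l + q * (starRingEnd ℂ) l) (m : ℕ)
    {n : RR} (hn : Go n) {φ : RR → ℂ} (hφ : Pe n φ) (hφe : ∀ x, φ (-x) = φ x)
    (hφb : ∀ x, v (φ x) ≤ 1) :
    v (Wg Ω (Gx Ω (Hf L p q (2 * m + 3))) n φ -
      2 * Wg Ω (fun u => ∑ y : RR ⧸ sp fR, Jf L (Ω * y.out / fR + u) - Jf L u) n φ) ≤ v 8 := by
  classical
  have hL := h.lat
  have f1 := fin_quot hn.gd.ne
  have he : 0 < 2 * m + 3 := by omega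
  let _ : Fintype (RR ⧸ sp n) := Fintype.ofFinite _
  set pt : (RR ⧸ sp n) → (RR ⧸ sp fR) → ℂ := fun x y => Ω * y.out / fR + Ω * x.out / n with hpt
  set F : (RR ⧸ sp n) × (RR ⧸ sp fR) → ℂ := fun a =>
    φ a.1.out * (e7 a.2.out * Hf L p q (2 * m + 3) (pt a.1 a.2) - 2 * Jf L (pt a.1 a.2)) / 4
    with hF
  have h0out : (0 : RR ⧸ sp fR).out ∈ sp fR := by
    rw [← Ideal.Quotient.eq_zero_iff_mem, Ideal.Quotient.mk_out]
  have h0 : Wg Ω (Gx Ω (Hf L p q (2 * m + 3))) n φ -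
      2 * Wg Ω (fun u => ∑ y : RR ⧸ sp fR, Jf L (Ω * y.out / fR + u) - Jf L u) n φ =
      4 * ∑ a ∈ (Finset.univ : Finset (RR ⧸ sp n)) ×ˢ
        ((Finset.univ : Finset (RR ⧸ sp fR)).erase 0), F a := by
    rw [Wg_eq, Wg_eq, Finset.sum_product, Finset.mul_sum, Finset.mul_sum,
      ← Finset.sum_sub_distrib]
    refine Finset.sum_congr rfl fun x _ => ?_
    have e1 : Gx Ω (Hf L p q (2 * m + 3)) (Ω * x.out / n) =
        ∑ y ∈ (Finset.univ : Finset (RR ⧸ sp fR)).erase 0,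
          e7 y.out * Hf L p q (2 * m + 3) (pt x y) := by
      unfold Gx
      rw [← Finset.add_sum_erase _ _ (Finset.mem_univ (0 : RR ⧸ sp fR)), e7_eq_zero.2 h0out,
        zero_mul, zero_add]
    have e2 : ∑ y : RR ⧸ sp fR, Jf L (Ω * y.out / fR + Ω * x.out / n) - Jf L (Ω * x.out / n) =
        ∑ y ∈ (Finset.univ : Finset (RR ⧸ sp fR)).erase 0, Jf L (pt x y) := by
      have e3 : Jf L (Ω * (0 : RR ⧸ sp fR).out / fR + Ω * x.out / n) =
          Jf L (Ω * x.out / n) := by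
        refine Jf_per L ?_
        rw [add_sub_cancel_right]
        exact (div_mem_iff hL fR_ne _).2 h0out
      rw [← Finset.add_sum_erase _ _ (Finset.mem_univ (0 : RR ⧸ sp fR)), e3, add_sub_cancel_left]
    rw [e1, e2, Finset.mul_sum, Finset.mul_sum, Finset.mul_sum, Finset.mul_sum,
      ← Finset.sum_sub_distrib]
    refine Finset.sum_congr rfl fun y _ => ?_
    rw [hF]
    beta_reduce
    ring
  have h8 : v 8 = v 4 * v 2 := by
    rw [← map_mul]
    norm_num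
  have h4 : v (4 : ℂ) ≠ 0 := (Valuation.ne_zero_iff v).2 (by norm_num)
  have hne : ∀ y : RR ⧸ sp fR, y ≠ 0 → y.out ∉ sp fR := by
    intro y hy hm
    apply hy
    rw [← Ideal.Quotient.mk_out y]
    exact Ideal.Quotient.eq_zero_iff_mem.2 hm
  have hmem : ∀ a : (RR ⧸ sp n) × (RR ⧸ sp fR), a ∈ (Finset.univ : Finset (RR ⧸ sp n)) ×ˢ
        ((Finset.univ : Finset (RR ⧸ sp fR)).erase 0) ↔ a.2 ≠ 0 := by
    intro a
    rw [Finset.mem_product, Finset.mem_erase]
    exact ⟨fun h => h.2.1, fun h => ⟨Finset.mem_univ _, h, Finset.mem_univ _⟩⟩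
  rw [h0, map_mul, h8]
  refine mul_le_mul' le_rfl ?_
  refine Pool.Agent.Y698.v_sum_pair' _ ?_ ?_ F ?_ ?_
  · intro a ha
    rw [hmem] at ha ⊢
    rw [Prod.snd_neg]
    exact neg_ne_zero.2 ha
  · intro a ha hcon
    rw [hmem] at ha
    have h2 : -a.2 = a.2 := congrArg Prod.snd hcon
    apply ha
    have h3 : (2 : RR ⧸ sp fR) * a.2 = 0 := by
      rw [two_mul]
      nth_rewrite 1 [← h2]
      rw [neg_add_cancel]
    have h4 : Ideal.Quotient.mk (sp fR) (fR ^ 2) = 0 :=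
      Ideal.Quotient.eq_zero_iff_mem.2 (Ideal.pow_mem_of_mem _ (Ideal.mem_span_singleton_self _) 2
        (by norm_num))
    rw [Pool.Agent.Y698.fR_sq, map_neg] at h4
    have h5 : (7 : RR ⧸ sp fR) = 0 := by
      have : Ideal.Quotient.mk (sp fR) (7 : RR) = (7 : RR ⧸ sp fR) := map_ofNat _ 7
      rw [← this]
      exact neg_eq_zero.1 h4
    linear_combination a.2 * h5 - 3 * h3
  · intro a ha
    rw [hmem] at ha
    have hy := hne _ ha
    have n1 : (-a).1.out - -a.1.out ∈ sp n := by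
      rw [Prod.fst_neg, ← Ideal.Quotient.mk_eq_mk_iff_sub_mem, Ideal.Quotient.mk_out, map_neg,
        Ideal.Quotient.mk_out]
    have n2 : (-a).2.out - -a.2.out ∈ sp fR := by
      rw [Prod.snd_neg, ← Ideal.Quotient.mk_eq_mk_iff_sub_mem, Ideal.Quotient.mk_out, map_neg,
        Ideal.Quotient.mk_out]
    have hod : Od L (pt a.1 a.2) := od_pt hL hn hy a.1.out
    have hl : pt (-a).1 (-a).2 - -(pt a.1 a.2) ∈ L.lattice := by
      have m1 := (div_mem_iff hL hn.gd.ne _).2 n1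
      have m2 := (div_mem_iff hL fR_ne _).2 n2
      rw [hpt]
      convert add_mem m2 m1 using 1
      push_cast
      ring
    rw [hF]
    beta_reduce
    rw [hφ _ _ n1, hφe, e7_per n2, e7_neg, Hf_per hL hpq he hod.neg hl, Hf_neg hL he hod,
      Jf_per L hl, Jf_neg]
    ring
  · intro a ha
    rw [hmem] at ha
    have hod : Od L (pt a.1 a.2) := od_pt hL hn (hne _ ha) a.1.out
    rw [hF]
    beta_reduce
    rw [map_div₀, map_mul]
    refine (div_le_one₀ (zero_lt_iff.2 h4)).2 ?_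
    refine (mul_le_of_le_one_left' (hφb _)).trans ?_
    have g1 := Hf_mod h hv hpq hod m
    have g2 := v_Jf h hv hod
    have h9 : e7 a.2.out ^ 2 = 1 := e7_sq (hne _ ha)
    rcases sq_eq_one_iff.1 h9 with h | h
    · rw [h, one_mul]
      exact g1
    · rw [h]
      have e : -1 * Hf L p q (2 * m + 3) (pt a.1 a.2) - 2 * Jf L (pt a.1 a.2) =
          -(Hf L p q (2 * m + 3) (pt a.1 a.2) - 2 * Jf L (pt a.1 a.2)) +
            -(4 * Jf L (pt a.1 a.2)) := by ring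
      rw [e]
      refine v.map_add_le ?_ ?_
      · rw [Valuation.map_neg]
        exact g1
      · rw [Valuation.map_neg, map_mul]
        exact mul_le_of_le_one_right' g2

end Pool.Agent.J4.H67.EW
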