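import Pool.Agent.J4.H67.EW.Defs

/-!
# The Eisenstein-Kronecker number of order three modulo four
-/

set_option autoImplicit false
set_option linter.unusedSectionVars false
set_option linter.unusedSimpArgs false

open Filter
open scoped Topology PeriodPair

namespace Pool.Agent.J4.H67.EW

open Pool.Agent.Y698 (LD Tb Yy al bl RR v_bl v_two_lt v_two al_mul_bl al_ne bl_ne al_sq tB tA
  two_coe tB_notMem tA_notMem dwp_half two_tA two_tB conj_al s7)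
open H667R3 Pool.Agent.W192.HK Pool.Agent.TH936.CM Pool.Agent.TH936.PU
open Pool.Agent.TH936.CW (Rw Rw_eq Rw_an near hasDerivAt_wp'_all zreg_an zreg_zero zreg_deriv
  Mm Mm_an Mm_deriv Dv Dv_C Dv_X0 Dv_X1 Dv_X2 Uu Aa Pp PP evz ev ev_add ev_mul ev_C ev_sum ev_X0
  ev_X1 ev_X2 rh ek E1 Tt Tt_zero)
open Pool.Agent.J4.H67.AW

variable {Γ : Type*} [LinearOrderedCommGroupWithZero Γ] {v : Valuation ℂ Γ}
variable {L : PeriodPair} {Ω p q : ℂ}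

open MvPolynomial in
lemma Dv_nat (p g : ℂ) (n : ℕ) [n.AtLeastTwo] : Dv p g (OfNat.ofNat n : PP) = 0 := by
  have : (OfNat.ofNat n : PP) = C (OfNat.ofNat n : ℂ) := (map_ofNat C n).symm
  rw [this, Dv_C]

open MvPolynomial in
lemma Uu_four (p g : ℂ) : Uu p g 4 = X 0 ^ 4 - 6 * (X 0 ^ 2 * X 1) - 6 * (C p * X 0 ^ 2) -
    4 * (X 0 * X 2) - 3 * X 1 ^ 2 + 6 * (C p * X 1) + 3 * C p ^ 2 + C (g / 2) := by
  have : Uu p g 4 = Dv p g (Uu p g 3) + X 0 * Uu p g 3 := rfl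
  have h6 : (C (6 : ℂ) : PP) = 6 := map_ofNat C 6
  have k3 : Dv p g (3 : PP) = 0 := Dv_nat p g 3
  rw [this, Uu_three]
  simp only [map_sub, map_add, map_neg, Dv_mul, k3, Dv_C, Dv_X0, Dv_X1, Dv_X2, h6]
  ring

open MvPolynomial in
lemma Aa_four (L : PeriodPair) (p : ℂ) : ∃ k : ℂ, Aa L p 4 = X 0 ^ 4 - 6 * (X 0 ^ 2 * X 1) -
    4 * (X 0 * X 2) - 3 * X 1 ^ 2 + C k := by
  unfold Aa
  have e0 : rh L p (4 - 4) = 1 := rh_zero
  have e1 : rh L p (4 - 3) = 0 := rh_odd (by decide)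
  have e2 : rh L p (4 - 2) = p := rh_two
  have e3 : rh L p (4 - 1) = 0 := rh_odd (by decide)
  have c2 : (4 : ℕ).choose 2 = 6 := rfl
  have c4 : (4 : ℕ).choose 4 = 1 := rfl
  have h6 : (C (6 : ℂ) : PP) = 6 := map_ofNat C 6
  refine ⟨rh L p 4 + 3 * p ^ 2 - 6 * p ^ 2 + L.g₂ / 2, ?_⟩
  have h0 : Uu p L.g₂ 0 = 1 := rfl
  rw [Finset.sum_range_succ, Finset.sum_range_succ, Finset.sum_range_succ, Finset.sum_range_succ,
    Finset.sum_range_one, e0, e1, e2, e3, Uu_two, Uu_four, h0, c2, c4]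
  have c0 : (4 : ℕ).choose 0 = 1 := rfl
  rw [c0]
  simp only [mul_zero, map_zero, zero_mul, Nat.cast_one, mul_one, map_one, one_mul, Nat.cast_ofNat,
    map_mul, zero_add, add_zero, Nat.sub_zero, map_add, map_sub, map_pow, h6]
  have h3 : (C (3 : ℂ) : PP) = 3 := map_ofNat C 3
  rw [h3]
  ring

open MvPolynomial in
/-- the polynomial of the number of order three -/
lemma DDDA (L : PeriodPair) (p : ℂ) : (Dv p L.g₂)^[3] (Aa L p 4) =
    -24 * (X 0 * (X 1 + C p) ^ 3) + 36 * (X 0 ^ 2 * (X 1 + C p) * X 2) -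
      72 * (X 0 ^ 2 * X 1 * X 2) - 4 * (X 0 ^ 3 * (6 * X 1 ^ 2 - C (L.g₂ / 2))) +
      108 * ((X 1 + C p) * X 1 * X 2) - 36 * ((X 1 + C p) ^ 2 * X 2) - 72 * (X 1 ^ 2 * X 2) -
      12 * (X 0 * X 2 ^ 2) - 36 * (X 0 * X 1 * (6 * X 1 ^ 2 - C (L.g₂ / 2))) +
      36 * (X 0 * (X 1 + C p) * (6 * X 1 ^ 2 - C (L.g₂ / 2))) -
      2 * (X 2 * (6 * X 1 ^ 2 - C (L.g₂ / 2))) := by
  obtain ⟨k, hk⟩ := Aa_four L p
  have h6 : (C (6 : ℂ) : PP) = 6 := map_ofNat C 6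
  have k2 : Dv p L.g₂ (2 : PP) = 0 := Dv_nat p L.g₂ 2
  have k3 : Dv p L.g₂ (3 : PP) = 0 := Dv_nat p L.g₂ 3
  have k4 : Dv p L.g₂ (4 : PP) = 0 := Dv_nat p L.g₂ 4
  have k6 : Dv p L.g₂ (6 : PP) = 0 := Dv_nat p L.g₂ 6
  have k8 : Dv p L.g₂ (8 : PP) = 0 := Dv_nat p L.g₂ 8
  have k12 : Dv p L.g₂ (12 : PP) = 0 := Dv_nat p L.g₂ 12
  have k24 : Dv p L.g₂ (24 : PP) = 0 := Dv_nat p L.g₂ 24
  have k36 : Dv p L.g₂ (36 : PP) = 0 := Dv_nat p L.g₂ 36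
  show Dv p L.g₂ (Dv p L.g₂ (Dv p L.g₂ (Aa L p 4))) = _
  rw [hk]
  have e1 : Dv p L.g₂ (X 0 ^ 4 - 6 * (X 0 ^ 2 * X 1) - 4 * (X 0 * X 2) - 3 * X 1 ^ 2 + C k) =
      -4 * (X 0 ^ 3 * (X 1 + C p)) + 12 * (X 0 * (X 1 + C p) * X 1) - 6 * (X 0 ^ 2 * X 2) +
        4 * ((X 1 + C p) * X 2) - 4 * (X 0 * (6 * X 1 ^ 2 - C (L.g₂ / 2))) - 6 * (X 1 * X 2) := by
    simp only [map_sub, map_add, map_neg, Dv_mul, k2, k3, k4, k6, Dv_C, Dv_X0, Dv_X1, Dv_X2, h6,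
      pow_succ, pow_zero, one_mul]
    ring
  have e2 : Dv p L.g₂ (-4 * (X 0 ^ 3 * (X 1 + C p)) + 12 * (X 0 * (X 1 + C p) * X 1) -
      6 * (X 0 ^ 2 * X 2) + 4 * ((X 1 + C p) * X 2) - 4 * (X 0 * (6 * X 1 ^ 2 - C (L.g₂ / 2))) -
      6 * (X 1 * X 2)) =
      12 * (X 0 ^ 2 * (X 1 + C p) ^ 2) - 4 * (X 0 ^ 3 * X 2) - 12 * ((X 1 + C p) ^ 2 * X 1) -
        36 * (X 0 * X 1 * X 2) + 24 * (X 0 * (X 1 + C p) * X 2) -
        6 * (X 0 ^ 2 * (6 * X 1 ^ 2 - C (L.g₂ / 2))) - 2 * X 2 ^ 2 +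
        8 * ((X 1 + C p) * (6 * X 1 ^ 2 - C (L.g₂ / 2))) -
        6 * (X 1 * (6 * X 1 ^ 2 - C (L.g₂ / 2))) := by
    simp only [map_sub, map_add, map_neg, Dv_mul, k2, k3, k4, k6, k8, k12, k24, k36, Dv_C, Dv_X0,
      Dv_X1, Dv_X2, h6, pow_succ, pow_zero, one_mul, neg_mul]
    ring
  rw [e1, e2]
  simp only [map_sub, map_add, map_neg, Dv_mul, k2, k3, k4, k6, k8, k12, k24, k36, Dv_C, Dv_X0,
    Dv_X1, Dv_X2, h6, pow_succ, pow_zero, one_mul, neg_mul]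
  ring

/-- **The number of order three.** -/
theorem ek_three (h : LD L Ω) (hp : p = 1 / 4) {z : ℂ} (hz : z ∉ L.lattice) :
    8 * (6 * ek L p q 3 z) =
    (2 * E1 L p q z) ^ 3 * (-6 * Pool.Agent.Y698.Xx L z ^ 2 + 3 * Pool.Agent.Y698.Xx L z + 4) -
      9 * (2 * E1 L p q z) ^ 2 * ℘'[L] z * (2 * Pool.Agent.Y698.Xx L z - 1) +
      2 * E1 L p q z * (-72 * Pool.Agent.Y698.Xx L z ^ 3 + 90 * Pool.Agent.Y698.Xx L z ^ 2 +
        69 * Pool.Agent.Y698.Xx L z + 12) +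
      ℘'[L] z * (-24 * Pool.Agent.Y698.Xx L z ^ 2 + 30 * Pool.Agent.Y698.Xx L z + 7) := by
  have e1 : ek L p q 3 z = 1 / 24 * evz L p q ((starRingEnd ℂ) z) z ((Dv p L.g₂)^[3] (Aa L p 4)) := by
    unfold ek Pp evz
    rw [ev_mul, ev_C]
    congr 2
  have o := h.ode hz
  rw [e1, DDDA, h.g2, hp]
  unfold E1 evz ev
  simp only [map_add, map_sub, map_mul, map_pow, map_neg, MvPolynomial.eval_X, MvPolynomial.eval_C,
    map_ofNat]
  simp only [Matrix.cons_val_zero, Matrix.cons_val_one, Matrix.cons_val]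
  unfold Pool.Agent.Y698.Xx at *
  generalize Pool.Agent.TH936.CW.Xx L (1 / 4) q ((starRingEnd ℂ) z) z = E at *
  linear_combination (-24 * E) * o

/-- the form -/
def FF {A : Type*} [CommRing A] (c s x Y Q : A) : A :=
  ((c ^ 3 * (4 * Y + 2 * s + 3) ^ 3 * (-6 * (c ^ 2 * Q) ^ 2 + 3 * (c ^ 2 * Q) + 4) -
    9 * c ^ 2 * (4 * Y + 2 * s + 3) ^ 2 * (c ^ 3 * (2 * s + 1) * (2 * x - Q)) *
      (2 * (c ^ 2 * Q) - 1) +
    c * (4 * Y + 2 * s + 3) * (-72 * (c ^ 2 * Q) ^ 3 + 90 * (c ^ 2 * Q) ^ 2 + 69 * (c ^ 2 * Q) + 12) +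
    (c ^ 3 * (2 * s + 1) * (2 * x - Q)) * (-24 * (c ^ 2 * Q) ^ 2 + 30 * (c ^ 2 * Q) + 7)) *
      (x - 2) - 8 * ((c - 2) * c ^ 4 * (2 * s + 1))) * x ^ 2 -
    16 * (s * (x - 2 * c ^ 3) - c ^ 3 + x * Y) * (x - 2)

set_option maxHeartbeats 4000000 in
lemma FF_zero {B : Type*} [CommRing B] (h32 : (32 : B) = 0) {s x Y Q : B}
    (hQ : Q = s ^ 2 + s + 1 - 2 * 19 ^ 3)
    (hrel : x ^ 2 - Q * (x - 2 * 19 ^ 3) + (2 * 19 - 1) = 0) : FF 19 s x Y Q = 0 := by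
  subst hQ
  unfold FF
  linear_combination (
    16 * x + 8 * x ^ 2 + 16 * x ^ 2 * Y + 16 * s * x ^ 2 + 16 * s ^ 2 * x ^ 2) * hrel + (
    (-6859) + 94088314 * x + 1 * x * Y + (-27684327502694445937183) * x ^ 2 +
    (-41524220723771073170769) * x ^ 2 * Y + 6054747388566728526 * x ^ 2 * Y ^ 2 +
    4036498259044540556 * x ^ 2 * Y ^ 3 + 13842668065415939635041 * x ^ 3 +
    20762109699778629997693 * x ^ 3 * Y + (-3027815098919113113) * x ^ 3 * Y ^ 2 +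
    (-2018249129522270278) * x ^ 3 * Y ^ 3 + (-252157034346714510) * x ^ 4 +
    331053476811637 * x ^ 4 * Y + 220702317874425 * x ^ 4 * Y ^ 2 + (-13718) * s + 1 * s * x +
    (-13838379533821582104110) * s * x ^ 2 + 6054416946470205074 * s * x ^ 2 * Y +
    (-882809227092534) * s * x ^ 2 * Y ^ 2 + (-588539484618612) * s * x ^ 2 * Y ^ 3 +
    6920197990445407332627 * s * x ^ 3 + (-3028974043509027460) * s * x ^ 3 * Y +
    (-441372478568829) * s * x ^ 3 * Y ^ 2 + 294269742309306 * s * x ^ 3 * Y ^ 3 +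
    (-504111767284900284) * s * x ^ 4 + 882785136960747 * s * x ^ 4 * Y +
    441388546057548 * s * x ^ 4 * Y ^ 2 + (-6859) * s ^ 2 * x +
    6054637648856326531 * s ^ 2 * x ^ 2 + 6054196256208621296 * s ^ 2 * x ^ 2 * Y +
    (-882777047545314) * s ^ 2 * x ^ 2 * Y ^ 2 + (-588518031696876) * s ^ 2 * x ^ 2 * Y ^ 3 +
    (-3028311903698278646) * s ^ 2 * x ^ 3 + (-3027980760389207455) * s ^ 2 * x ^ 3 * Y +
    441485061920469 * s ^ 2 * x ^ 3 * Y ^ 2 + 294259015848438 * s ^ 2 * x ^ 3 * Y ^ 3 +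
    496539658572910 * s ^ 2 * x ^ 4 + 441316142446689 * s ^ 2 * x ^ 4 * Y +
    (-48269073906) * s ^ 2 * x ^ 4 * Y ^ 2 + 2017918278472097392 * s ^ 3 * x ^ 2 +
    (-441380523496788) * s ^ 3 * x ^ 2 * Y + 64358765208 * s ^ 3 * x ^ 2 * Y ^ 2 +
    42905843472 * s ^ 3 * x ^ 2 * Y ^ 3 + (-1009326849059504270) * s ^ 3 * x ^ 3 +
    220883338044018 * s ^ 3 * x ^ 3 * Y + 32179382604 * s ^ 3 * x ^ 3 * Y ^ 2 +
    (-21452921736) * s ^ 3 * x ^ 3 * Y ^ 3 + 183854911724358 * s ^ 3 * x ^ 4 +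
    (-96538147812) * s ^ 3 * x ^ 4 * Y + (-32179382604) * s ^ 3 * x ^ 4 * Y ^ 2 +
    (-294272453644570) * s ^ 4 * x ^ 2 + (-220690261748394) * s ^ 4 * x ^ 2 * Y +
    32179382604 * s ^ 4 * x ^ 2 * Y ^ 2 + 21452921736 * s ^ 4 * x ^ 2 * Y ^ 3 +
    147222038505800 * s ^ 4 * x ^ 3 + 110409489639405 * s ^ 4 * x ^ 3 * Y +
    (-16089691302) * s ^ 4 * x ^ 3 * Y ^ 2 + (-10726460868) * s ^ 4 * x ^ 3 * Y ^ 3 +
    (-42905843472) * s ^ 4 * x ^ 4 + (-32179382604) * s ^ 4 * x ^ 4 * Y +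
    (-73568783813232) * s ^ 5 * x ^ 2 + 36805844828352 * s ^ 5 * x ^ 3 +
    (-10726460868) * s ^ 5 * x ^ 4) * h32

lemma map_FF {A B : Type*} [CommRing A] [CommRing B] (f : A →+* B) (c s x Y Q : A) :
    f (FF c s x Y Q) = FF (f c) (f s) (f x) (f Y) (f Q) := by
  unfold FF
  simp only [map_add, map_sub, map_mul, map_pow, map_neg, map_ofNat, map_one]

/-! ### the values at `β u` -/

lemma vr_sub {n m : ℂ} (hv : v al < 1) (h : v n ≤ 1) (hm : v m = 1) : v (m + 2 * n) = 1 := by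
  have h1 : v (2 * n) < 1 := by
    rw [map_mul]
    exact (mul_le_of_le_one_right' h).trans_lt (v_two_lt hv)
  rw [Valuation.map_add_eq_of_lt_left v (by rwa [hm]), hm]

lemma ci_rel : 2 * bl⁻¹ ^ 2 - bl⁻¹ + 1 = 0 := by
  rw [inv_bl]
  linear_combination (1 / 2 : ℂ) * bl_sq

lemma xR_ci : (bl - 3) / 4 = 2 * bl⁻¹ ^ 3 := by
  rw [xR_eq, inv_pow]
  rfl

lemma v_ci_sub (hv : v al < 1) : v (bl⁻¹ - 19) ≤ v 32 := by
  have e1 : (bl⁻¹ - 19) * (-1 + 2 * (bl⁻¹ + 19)) = -(32 * 22) := by linear_combination ci_rel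
  have e2 : v (-1 + 2 * (bl⁻¹ + 19)) = 1 :=
    vr_sub hv (v_add_le (v_inv_bl hv).le (v_num v 19)) (by rw [Valuation.map_neg, map_one])
  have e3 := congrArg v e1
  rw [map_mul, e2, mul_one, Valuation.map_neg, map_mul] at e3
  rw [e3]
  exact mul_le_of_le_one_right' (v_num v 22)

theorem FF_v (hv : v al < 1) {s x Y Q : ℂ} (hs : v s ≤ 1) (hx : v x ≤ 1) (hY : v Y ≤ 1)
    (hQ : Q = s ^ 2 + s + 1 - 2 * bl⁻¹ ^ 3)
    (hrel : x ^ 2 - Q * (x - 2 * bl⁻¹ ^ 3) + (2 * bl⁻¹ - 1) = 0) :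
    v (FF bl⁻¹ s x Y Q) ≤ v 32 := by
  have h32 : (32 : ℂ) ≠ 0 := by norm_num
  have v32 : v (32 : ℂ) ≠ 0 := (Valuation.ne_zero_iff v).2 h32
  have hc := (v_inv_bl hv).le
  have hQi : v Q ≤ 1 := by
    rw [hQ]
    refine v_sub_le (v_add_le (v_add_le (v_pow_le hs 2) hs) (by rw [map_one])) ?_
    exact v_mul_le (v_num v 2) (v_pow_le hc 3)
  have hd : v ((bl⁻¹ - 19) / 32) ≤ 1 := by
    rw [map_div₀]
    exact div_le_one_of_le₀ (v_ci_sub hv) zero_le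
  set c' : v.integer := ⟨bl⁻¹, hc⟩ with hc'
  set s' : v.integer := ⟨s, hs⟩ with hs'
  set x' : v.integer := ⟨x, hx⟩ with hx'
  set Y' : v.integer := ⟨Y, hY⟩ with hY'
  set Q' : v.integer := ⟨Q, hQi⟩ with hQ'
  set d' : v.integer := ⟨(bl⁻¹ - 19) / 32, hd⟩ with hd'
  have e1 : c' = 19 + 32 * d' := by
    apply Subtype.ext
    rw [hc', hd']
    push_cast
    change bl⁻¹ = 19 + 32 * ((bl⁻¹ - 19) / 32)
    ring
  have e2 : Q' = s' ^ 2 + s' + 1 - 2 * c' ^ 3 := by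
    apply Subtype.ext
    rw [hQ', hs', hc']
    push_cast
    exact hQ
  have e3 : x' ^ 2 - Q' * (x' - 2 * c' ^ 3) + (2 * c' - 1) = 0 := by
    apply Subtype.ext
    rw [hQ', hx', hc']
    push_cast
    exact hrel
  let J : Ideal v.integer := Ideal.span {(32 : v.integer)}
  let π := Ideal.Quotient.mk J
  have h0 : (32 : v.integer ⧸ J) = 0 := by
    have h1 : π 32 = 0 := Ideal.Quotient.eq_zero_iff_mem.2 (Ideal.mem_span_singleton_self _)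
    rwa [map_ofNat] at h1
  have hcq : π c' = 19 := by
    rw [e1, map_add, map_mul, map_ofNat, map_ofNat, h0, zero_mul, add_zero]
  have e4 : FF 19 (π s') (π x') (π Y') (π Q') = 0 := by
    refine FF_zero h0 ?_ ?_
    · rw [e2, map_sub, map_add, map_add, map_pow, map_mul, map_pow, map_one, map_ofNat, hcq]
    · have := congrArg π e3
      rw [map_add, map_sub, map_sub, map_mul, map_sub, map_mul, map_mul, map_pow, map_pow, map_one,
        map_ofNat, hcq, map_zero] at this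
      exact this
  have e5 : π (FF c' s' x' Y' Q') = 0 := by
    rw [map_FF, hcq]
    exact e4
  obtain ⟨a, ha⟩ := Ideal.mem_span_singleton'.1 (Ideal.Quotient.eq_zero_iff_mem.1 e5)
  have e6 : FF bl⁻¹ s x Y Q = (a : ℂ) * 32 := by
    have h1 := congrArg (fun t : v.integer => (t : ℂ)) ha
    have h2 : ((FF c' s' x' Y' Q' : v.integer) : ℂ) = FF bl⁻¹ s x Y Q :=
      map_FF (v.integer).subtype c' s' x' Y' Q'
    have h3 : ((a * 32 : v.integer) : ℂ) = (a : ℂ) * 32 := by push_cast; rfl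
    rw [← h2, ← h3]
    exact h1.symm
  rw [e6, map_mul]
  exact mul_le_of_le_one_left' a.2

/-- the values at `β u` -/
lemma at_bl (h : LD L Ω) (hp : p = 1 / 4) {u : ℂ} (hub : bl * u ∉ L.lattice) {Q : ℂ}
    (hQ : Q = ss L Ω u ^ 2 + ss L Ω u + 1 - 2 * bl⁻¹ ^ 3) :
    Pool.Agent.Y698.Xx L (bl * u) = bl⁻¹ ^ 2 * Q ∧
    ℘'[L] (bl * u) = bl⁻¹ ^ 3 * (2 * ss L Ω u + 1) * (2 * Pool.Agent.Y698.Xx L u - Q) ∧
    2 * E1 L p q (bl * u) = bl⁻¹ * (4 * yh L p q u + 2 * ss L Ω u + 3) ∧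
    Pool.Agent.Y698.Xx L u ^ 2 - Q * (Pool.Agent.Y698.Xx L u - 2 * bl⁻¹ ^ 3) + (2 * bl⁻¹ - 1) = 0 := by
  have hb := bl_ne
  have hbc : bl * bl⁻¹ = 1 := mul_inv_cancel₀ hb
  obtain ⟨s1, s2, s3⟩ := ss_eq h hub
  have hX := x_bl h hub
  have hD := deriv_bl h hub
  have hE := E1_bl (q := q) h hp hub
  refine ⟨?_, ?_, ?_, ?_⟩
  · rw [xR_ci, ← hQ] at hX
    rw [← hX]
    linear_combination (-(bl * bl⁻¹ + 1) * Pool.Agent.Y698.Xx L (bl * u)) * hbc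
  · have g1 : bl ^ 2 * Pool.Agent.Y698.Xx L u - al = bl ^ 2 * (Pool.Agent.Y698.Xx L u - (bl - 3) / 4) := by
      rw [al_eq]
      linear_combination (1 / 4 : ℂ) * (bl - 2) * bl_sq
    rw [g1, ← s2] at hD
    have g2 : (2 * Pool.Agent.Y698.Xx L u + (bl - 3) / 4 - 1 - ss L Ω u ^ 2 - ss L Ω u) *
        (Pool.Agent.Y698.Xx L u - (bl - 3) / 4) * bl = bl * Pool.Agent.Y698.Xx L u ^ 2 - al ^ 2 * Pool.Agent.Y698.Xx L u + bl ^ 2 := by
      rw [al_eq]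
      linear_combination (-bl) * s3 + (-1 / 8 * bl + Pool.Agent.Y698.Xx L u / 2) * bl_sq
    rw [← g2] at hD
    have g3 : (Pool.Agent.Y698.Xx L u - (bl - 3) / 4) ^ 2 * bl ^ 4 ≠ 0 :=
      mul_ne_zero (pow_ne_zero _ s1) (pow_ne_zero _ hb)
    apply mul_right_cancel₀ g3
    have g4 : ℘'[L] (bl * u) * ((Pool.Agent.Y698.Xx L u - (bl - 3) / 4) ^ 2 * bl ^ 4) =
        ℘'[L] (bl * u) * (bl ^ 2 * (Pool.Agent.Y698.Xx L u - (bl - 3) / 4)) ^ 2 := by ring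
    rw [g4, hD]
    have g6 : 2 * Pool.Agent.Y698.Xx L u - Q =
        2 * Pool.Agent.Y698.Xx L u + (bl - 3) / 4 - 1 - ss L Ω u ^ 2 - ss L Ω u := by
      rw [hQ, xR_ci]
      ring
    rw [g6]
    have g5 : bl⁻¹ ^ 3 * (2 * ss L Ω u + 1) * (2 * Pool.Agent.Y698.Xx L u + (bl - 3) / 4 - 1 -
      ss L Ω u ^ 2 - ss L Ω u) * ((Pool.Agent.Y698.Xx L u - (bl - 3) / 4) ^ 2 * bl ^ 4) =
      (2 * ss L Ω u + 1) * (2 * Pool.Agent.Y698.Xx L u + (bl - 3) / 4 - 1 -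
      ss L Ω u ^ 2 - ss L Ω u) * (bl * bl⁻¹) ^ 3 *
      ((Pool.Agent.Y698.Xx L u - (bl - 3) / 4) ^ 2 * bl) := by ring
    rw [g5, hbc]
    ring
  · unfold yh
    linear_combination (2 * bl⁻¹) * hE - (2 * E1 L p q (bl * u)) * hbc
  · rw [xR_ci] at s3
    have k1 : 8 * bl⁻¹ ^ 6 - 3 * bl⁻¹ ^ 3 - 2 = 2 * bl⁻¹ - 1 := by
      have := ci_rel
      generalize bl⁻¹ = c at *
      linear_combination (4 * c ^ 4 + 2 * c ^ 3 - c ^ 2 - 3 * c - 1) * this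
    rw [hQ]
    linear_combination -s3 - k1

/-- **The number of order three at `β u`.** -/
theorem ek3_at (h : LD L Ω) (hv : v al < 1)
    (hpq : ∀ l ∈ L.lattice, eta L l = p * l + q * (starRingEnd ℂ) l) {u : ℂ} (hu : Od L u) :
    v ((6 * ek L p q 3 (bl * u) + Vv L p q u) * Pool.Agent.Y698.Xx L u ^ 2 -
      2 * (Yy L u + Pool.Agent.Y698.Xx L u * yh L p q u)) ≤ v 4 := by
  have hp := p_quarter h hpq
  have hub := hu.not_bl h
  have h2 := hu.two.ne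
  have hT := hu.tb hv
  have ix := hT.int h hv
  obtain ⟨iP, ix1⟩ := hT.deriv h hv h2
  have iY := yh_int h hv hpq hu
  obtain ⟨s1, s2, s3⟩ := ss_eq h hub
  have hx2 : v (Pool.Agent.Y698.Xx L u - 2) = 1 := by
    rw [Valuation.map_sub_eq_of_lt_left v (by rw [ix1]; exact v_two_lt hv), ix1]
  have hr : v ((bl - 3) / 4) < 1 := by
    rw [xR_eq, map_div₀, map_pow, v_bl hv, one_pow, div_one]
    exact v_two_lt hv
  have hxr : v (Pool.Agent.Y698.Xx L u - (bl - 3) / 4) = 1 := by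
    rw [Valuation.map_sub_eq_of_lt_left v (by rw [ix1]; exact hr), ix1]
  have is : v (ss L Ω u) ≤ 1 := by
    have iy := hT.y_int h hv
    unfold ss lam
    rw [x_tB h, y_tB h, map_div₀, hxr, div_one]
    exact v_sub_le iy (v_yR hv)
  have e1 := ek_three (q := q) h hp hub
  have hV := Vv_eq (q := q) h hp h2
  rw [← inv_bl] at hV
  obtain ⟨a1, a2, a3, a4⟩ := at_bl (q := q) h hp hub rfl
  have hy : Yy L u = ss L Ω u * (Pool.Agent.Y698.Xx L u - 2 * bl⁻¹ ^ 3) - bl⁻¹ ^ 3 := by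
    have k1 : ℘'[L] u = 2 * Yy L u + Pool.Agent.Y698.Xx L u := by
      unfold Yy
      ring
    rw [k1, xR_ci] at s2
    linear_combination (-1 / 2 : ℂ) * s2
  rw [a1, a2, a3] at e1
  set Q := ss L Ω u ^ 2 + ss L Ω u + 1 - 2 * bl⁻¹ ^ 3 with hQ
  have hF := FF_v hv is ix iY hQ a4
  have hbc : bl * bl⁻¹ = 1 := mul_inv_cancel₀ bl_ne
  have k5 : (1 - 2 * bl) * bl⁻¹ ^ 5 = (bl⁻¹ - 2) * bl⁻¹ ^ 4 := by
    linear_combination (-2 * bl⁻¹ ^ 4) * hbc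
  rw [k5] at hV
  have key : 8 * (((6 * ek L p q 3 (bl * u) + Vv L p q u) * Pool.Agent.Y698.Xx L u ^ 2 -
      2 * (Yy L u + Pool.Agent.Y698.Xx L u * yh L p q u)) * (Pool.Agent.Y698.Xx L u - 2)) =
      FF bl⁻¹ (ss L Ω u) (Pool.Agent.Y698.Xx L u) (yh L p q u) Q := by
    rw [hy]
    unfold FF
    linear_combination ((Pool.Agent.Y698.Xx L u - 2) * Pool.Agent.Y698.Xx L u ^ 2) * e1 +
      (8 * Pool.Agent.Y698.Xx L u ^ 2) * hV
  have k6 := congrArg v key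
  rw [map_mul, map_mul, hx2, mul_one] at k6
  rw [← k6] at hF
  have e32 : v (32 : ℂ) = v 8 * v 4 := by
    rw [← map_mul]
    norm_num
  rw [e32] at hF
  have v8 : (0 : Γ) < v (8 : ℂ) := zero_lt_iff.2 ((Valuation.ne_zero_iff v).2 (by norm_num))
  exact (mul_le_mul_iff_right₀ v8).1 hF

/-- the second half of the congruence -/
theorem mod_of_at (h : LD L Ω) (hv : v al < 1)
    (hpq : ∀ l ∈ L.lattice, eta L l = p * l + q * (starRingEnd ℂ) l) {w : ℂ} (hw : Od L w) {K : ℂ}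
    (key : v (K * Pool.Agent.Y698.Xx L (bl * w) ^ 2 -
      2 * (Yy L (bl * w) + Pool.Agent.Y698.Xx L (bl * w) * yh L p q (bl * w))) ≤ v 4) :
    v (K - 2 * (Pool.Agent.Y698.Xx L w ^ 3 / (Pool.Agent.Y698.Xx L w + 1) ^ 4)) ≤ v 4 := by
  have hp := p_quarter h hpq
  have hL := h.lat
  have hwb := hw.not_bl h
  have hu : Od L (bl * w) := by
    have := hw.mul_dvd hL (b := Pool.Agent.Y698.bR) ⟨Pool.Agent.Y698.aR, by
      rw [mul_comm]
      exact Pool.Agent.Y698.aR_mul_bR.symm⟩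
    rwa [Pool.Agent.Y698.bR_coe] at this
  have v2 := v_two_lt hv
  have hc := v_inv_bl hv
  have ixw := ((hw.tb hv).deriv h hv hw.two.ne).2
  have ixu := ((hu.tb hv).deriv h hv hu.two.ne).2
  have iYw := yh_int h hv hpq hw
  have hr : v ((bl - 3) / 4) < 1 := by
    rw [xR_eq, map_div₀, map_pow, v_bl hv, one_pow, div_one]
    exact v_two_lt hv
  have hxr : v (Pool.Agent.Y698.Xx L w - (bl - 3) / 4) = 1 := by
    rw [Valuation.map_sub_eq_of_lt_left v (by rw [ixw]; exact hr), ixw]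
  have is : v (ss L Ω w) ≤ 1 := by
    have iy := (hw.tb hv).y_int h hv
    unfold ss lam
    rw [x_tB h, y_tB h, map_div₀, hxr, div_one]
    exact v_sub_le iy (v_yR hv)
  obtain ⟨a1, a2, a3, a4⟩ := at_bl (q := q) h hp hwb rfl
  have iQ : v (ss L Ω w ^ 2 + ss L Ω w + 1 - 2 * bl⁻¹ ^ 3) ≤ 1 :=
    v_sub_le (v_add_le (v_add_le (v_pow_le is 2) is) (by rw [map_one]))
      (v_mul_le (v_num v 2) (v_pow_le hc.le 3))
  have cr := ci_rel
  have hP : ℘'[L] (bl * w) = 2 * Yy L (bl * w) + Pool.Agent.Y698.Xx L (bl * w) := by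
    unfold Yy
    ring
  have hE : 2 * E1 L p q (bl * w) = 2 * yh L p q (bl * w) + 1 := by
    unfold yh
    ring
  rw [hP] at a2
  rw [hE] at a3
  set Q := ss L Ω w ^ 2 + ss L Ω w + 1 - 2 * bl⁻¹ ^ 3 with hQ
  set X := Pool.Agent.Y698.Xx L w with hX
  set x := Pool.Agent.Y698.Xx L (bl * w) with hx
  set s := ss L Ω w with hs
  set Y := yh L p q w with hY
  set y := Yy L (bl * w) with hy
  set Z := yh L p q (bl * w) with hZ
  clear_value Q X x s Y y Z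
  set c := bl⁻¹ with hcd
  clear_value c
  -- the first relation
  have b1 : y + x * Z = c ^ 3 * X + 2 * (c ^ 3 * (s * X + Q * (Y + c))) := by
    have k1 : 2 * y = c ^ 3 * (2 * s + 1) * (2 * X - Q) - x := by linear_combination a2
    have k2 : 2 * Z = c * (4 * Y + 2 * s + 3) - 1 := by linear_combination a3
    have k3 : 2 * (y + x * Z) = 2 * (c ^ 3 * X + 2 * (c ^ 3 * (s * X + Q * (Y + c)))) := by
      linear_combination k1 + x * k2 + (c * (4 * Y + 2 * s + 3) - 2) * a1 - 2 * c ^ 2 * Q * cr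
    exact mul_left_cancel₀ two_ne_zero k3
  have b2 : Q * X = (X + 1) ^ 2 + 2 * (c - 1 - X + c ^ 3 * Q) := by linear_combination -a4
  have iB : v (c - 1 - X + c ^ 3 * Q) ≤ 1 :=
    v_add_le (v_sub_le (v_sub_le hc.le (by rw [map_one])) ixw.le)
      (v_mul_le (v_pow_le hc.le 3) iQ)
  have vQ : v Q = 1 := by
    have := ixu
    rw [a1, map_mul, map_pow, hc, one_pow, one_mul] at this
    exact this
  have vX1 : v (X + 1) = 1 := by
    have k1 : v ((X + 1) ^ 2) = 1 := by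
      have e : (X + 1) ^ 2 = Q * X + 2 * (-(c - 1 - X + c ^ 3 * Q)) := by linear_combination -b2
      rw [e]
      refine vr_sub hv ?_ ?_
      · rw [Valuation.map_neg]
        exact iB
      · rw [map_mul, vQ, ixw, one_mul]
    rw [map_pow] at k1
    exact (pow_eq_one_iff_of_nonneg zero_le two_ne_zero).1 k1
  have hX1 : X + 1 ≠ 0 := by
    intro h0
    rw [h0, map_zero] at vX1
    exact zero_ne_one vX1
  have hx0 : x ≠ 0 := by
    intro h0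
    rw [h0, map_zero] at ixu
    exact zero_ne_one ixu
  have b3 : 2 * ((y + x * Z) * (X + 1) ^ 4 - X ^ 3 * x ^ 2) =
      4 * (c ^ 3 * (s * X + Q * (Y + c)) * (X + 1) ^ 4 - c ^ 5 * X * (X + 1) ^ 4 -
        2 * X * c ^ 4 * ((c - 1 - X + c ^ 3 * Q) * (X + 1) ^ 2 + (c - 1 - X + c ^ 3 * Q) ^ 2)) := by
    rw [b1, a1]
    have k4 : X ^ 3 * (c ^ 2 * Q) ^ 2 = X * c ^ 4 * (Q * X) ^ 2 := by ring
    rw [k4, b2]
    linear_combination (2 * c ^ 3 * X * (X + 1) ^ 4) * cr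
  have iC : v (c ^ 3 * (s * X + Q * (Y + c)) * (X + 1) ^ 4 - c ^ 5 * X * (X + 1) ^ 4 -
        2 * X * c ^ 4 * ((c - 1 - X + c ^ 3 * Q) * (X + 1) ^ 2 + (c - 1 - X + c ^ 3 * Q) ^ 2)) ≤ 1 := by
    have i1 := vX1.le
    have i2 := ixw.le
    have i3 := hc.le
    refine v_sub_le (v_sub_le ?_ ?_) ?_
    · exact v_mul_le (v_mul_le (v_pow_le i3 3) (v_add_le (v_mul_le is i2)
        (v_mul_le iQ (v_add_le iYw i3)))) (v_pow_le i1 4)
    · exact v_mul_le (v_mul_le (v_pow_le i3 5) i2) (v_pow_le i1 4)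
    · exact v_mul_le (v_mul_le (v_mul_le (v_num v 2) i2) (v_pow_le i3 4))
        (v_add_le (v_mul_le iB (v_pow_le i1 2)) (v_pow_le iB 2))
  have b4 : v (2 * ((y + x * Z) * (X + 1) ^ 4 - X ^ 3 * x ^ 2)) ≤ v 4 := by
    rw [b3, map_mul]
    exact mul_le_of_le_one_right' iC
  have b5 : (K - 2 * (X ^ 3 / (X + 1) ^ 4)) * (x ^ 2 * (X + 1) ^ 4) =
      (K * x ^ 2 - 2 * (y + x * Z)) * (X + 1) ^ 4 +
        2 * ((y + x * Z) * (X + 1) ^ 4 - X ^ 3 * x ^ 2) := by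
    field_simp
    ring
  have b6 := congrArg v b5
  rw [map_mul, map_mul, map_pow, map_pow, ixu, vX1, one_pow, one_pow, mul_one, mul_one] at b6
  rw [b6]
  refine v_add_le ?_ b4
  rw [map_mul, map_pow, vX1, one_pow, mul_one]
  exact key

/-- **The number of order three modulo four.** -/
theorem ek3_mod (h : LD L Ω) (hv : v al < 1)
    (hpq : ∀ l ∈ L.lattice, eta L l = p * l + q * (starRingEnd ℂ) l) {w : ℂ} (hw : Od L w) :
    v (6 * ek L p q 3 (bl * (bl * w)) + Vv L p q (bl * w) -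
      2 * (Pool.Agent.Y698.Xx L w ^ 3 / (Pool.Agent.Y698.Xx L w + 1) ^ 4)) ≤ v 4 := by
  have hu : Od L (bl * w) := by
    have := hw.mul_dvd h.lat (b := Pool.Agent.Y698.bR) ⟨Pool.Agent.Y698.aR, by
      rw [mul_comm]
      exact Pool.Agent.Y698.aR_mul_bR.symm⟩
    rwa [Pool.Agent.Y698.bR_coe] at this
  exact mod_of_at h hv hpq hw (ek3_at h hv hpq hu)

end Pool.Agent.J4.H67.EW
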