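import Pool.Agent.J4.H67.EW.Defs

/-!
# The Eisenstein-Kronecker numbers of odd order are congruent modulo four
-/

set_option autoImplicit false
set_option linter.unusedSectionVars false

open Filter
open scoped Topology PeriodPair

namespace Pool.Agent.J4.H67.EW

open Pool.Agent.Y698 (al bl RR aR bR fR nR cj cX cY e7 e7_mul e7_neg e7_one e7_per e7_eq_zero e7_sq
  fR_ne fin_quot nR_nonneg mul_cj irr_fR not_mem_of_cop LD v_two_lt v_bl bl_ne qch GG)
open Pool.Agent.Y698.SG
open H667R3 Pool.Agent.W192.HK Pool.Agent.TH936.CM Pool.Agent.TH936.PU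
open Pool.Agent.TH936.CW (E1 ek)
open Pool.Agent.J4.H67.AW

variable {Γ : Type*} [LinearOrderedCommGroupWithZero Γ] {v : Valuation ℂ Γ}
variable {L : PeriodPair} {Ω p q : ℂ}

lemma Bz_odd (m : ℕ) : ∃ C : PZ, Bz (2 * m + 3) = Bz 3 + 4 * C := by
  induction m with
  | zero => exact ⟨0, by simp⟩
  | succ m ih =>
    obtain ⟨C, hC⟩ := ih
    obtain ⟨g, hg⟩ := Pz_four (Bz (2 * m + 1))
    refine ⟨C + g, ?_⟩
    have e1 : Bz (2 * (m + 1) + 3) = Pz^[4] (Bz (2 * m + 1)) := by
      unfold Bz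
      rw [← Function.iterate_add_apply]
      congr 1
      ring
    have e2 : Bz (2 * m + 3) = Pz^[2] (Bz (2 * m + 1)) := by
      unfold Bz
      rw [← Function.iterate_add_apply]
      congr 1
      ring
    rw [e1, hg, ← e2, hC]
    ring

/-- the odd derivatives at `0` are congruent modulo four -/
theorem II_odd {τ : ℂ → ℂ} {F : ℂ → ℂ} (h : II v τ F) (hF : AnalyticAt ℂ F 0) (hτ : Co τ)
    (hd : II v τ (_root_.deriv τ))
    (hdd : II v τ (fun w => (_root_.deriv (_root_.deriv τ) w - _root_.deriv τ w) / 2)) (m : ℕ) :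
    v (iteratedDeriv (2 * m + 3) F 0 - iteratedDeriv 3 F 0) ≤ v 4 := by
  induction m with
  | zero =>
    rw [mul_zero, zero_add, sub_self, map_zero]
    exact zero_le
  | succ m ih =>
    have h1 := h.iter4 hF hτ hd hdd (2 * m + 1)
    have e : iteratedDeriv (2 * (m + 1) + 3) F 0 - iteratedDeriv 3 F 0 =
        (iteratedDeriv (2 * m + 1 + 4) F 0 - iteratedDeriv (2 * m + 1 + 2) F 0) +
        (iteratedDeriv (2 * m + 3) F 0 - iteratedDeriv 3 F 0) := by
      have e1 : 2 * (m + 1) + 3 = 2 * m + 1 + 4 := by ring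
      have e2 : 2 * m + 3 = 2 * m + 1 + 2 := by ring
      rw [e1, e2]
      ring
    rw [e]
    exact Valuation.map_add_le v h1 ih

/-- **The Eisenstein-Kronecker numbers of odd order at a point of odd order are congruent modulo
four.** -/
theorem ek_mod_odd (h : LD L Ω) (hv : v al < 1)
    (hpq : ∀ l ∈ L.lattice, eta L l = p * l + q * (starRingEnd ℂ) l) {z : ℂ} (hz : Od L z) (m : ℕ) :
    v (((2 * m + 3).factorial : ℂ) * ek L p q (2 * m + 3) z - 6 * ek L p q 3 z) ≤ v 4 := by
  have hp := p_quarter h hpq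
  have hτ := tt_co L
  have hT := hz.tb hv
  have ix := hT.int h hv
  have iy := hT.y_int h hv
  set c := (starRingEnd ℂ) z with hc
  have hth : LL v (tt L) (fun w => th L p q c z w) :=
    ⟨1, (th_int h hv hpq hz).congr (Eventually.of_forall fun w => by simp [hc])⟩
  have hd := tt_dint v h
  have hdd := tt_ddint v h
  have hF2a := Fz_an (L := L) (p := p) (q := q) c z 3
  have hFa := Fz_an (L := L) (p := p) (q := q) c z (2 * m + 3)
  have hF2e := Fz_eq (q := q) h hp c hz.ne (n := 3) (by norm_num)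
  have hFe := Fz_eq (q := q) h hp c hz.ne (n := 2 * m + 3) (by omega)
  have hF2 : II v (tt L) (Fz L p q c z 3) :=
    ((hth.mul hτ (evp_ll h hv ix iy (Bz 3))).congr hF2e).reg hτ hF2a (EventuallyEq.refl _ _)
  obtain ⟨C, hC⟩ := Bz_odd m
  -- the difference
  set E : ℂ → ℂ := fun w => (Fz L p q c z (2 * m + 3) w - Fz L p q c z 3 w) / 4 with hE
  have hEa : AnalyticAt ℂ E 0 := (hFa.sub hF2a).div_const
  have hEe : E =ᶠ[𝓝[≠] 0] fun w => th L p q c z w * evp L z w C := by
    filter_upwards [hF2e, hFe] with w a1 a2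
    simp only [hE]
    rw [a1, a2, hC, map_add, map_mul, map_ofNat]
    ring
  have hEI : II v (tt L) E :=
    ((hth.mul hτ (evp_ll h hv ix iy C)).congr hEe).reg hτ hEa (EventuallyEq.refl _ _)
  have i1 : v (iteratedDeriv (2 * m + 3) E 0) ≤ 1 :=
    (hEI.iter hτ hd (2 * m + 3)).value hτ (iter_an hEa _) (EventuallyEq.refl _ _)
  have i2 := II_odd hF2 hF2a hτ hd hdd m
  have e1 : iteratedDeriv (2 * m + 3) (Fz L p q c z (2 * m + 3)) 0 =
      iteratedDeriv (2 * m + 3) (Fz L p q c z 3) 0 + 4 * iteratedDeriv (2 * m + 3) E 0 := by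
    have e2 : Fz L p q c z (2 * m + 3) = fun w => Fz L p q c z 3 w + 4 * E w := by
      funext w
      simp only [hE]
      ring
    have e3 : iteratedDeriv (2 * m + 3) (fun w => Fz L p q c z 3 w + 4 * E w) 0 =
        iteratedDeriv (2 * m + 3) (Fz L p q c z 3) 0 +
          iteratedDeriv (2 * m + 3) (fun w => 4 * E w) 0 :=
      iteratedDeriv_add hF2a.contDiffAt (analyticAt_const.mul hEa).contDiffAt
    rw [iteratedDeriv_const_mul_field] at e3
    rw [← e3, ← e2]
  have e4 := ek_iter (p := p) (q := q) hz.ne (n := 3) (by norm_num)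
  have e5 := ek_iter (p := p) (q := q) hz.ne (n := 2 * m + 3) (by omega)
  have e0 : Nat.factorial 3 = 6 := rfl
  rw [e0] at e4
  push_cast at e4
  rw [e4, e5, ← hc, e1]
  have e6 : iteratedDeriv (2 * m + 3) (Fz L p q c z 3) 0 + 4 * iteratedDeriv (2 * m + 3) E 0 -
      iteratedDeriv 3 (Fz L p q c z 3) 0 = (iteratedDeriv (2 * m + 3) (Fz L p q c z 3) 0 -
      iteratedDeriv 3 (Fz L p q c z 3) 0) + 4 * iteratedDeriv (2 * m + 3) E 0 := by ring
  rw [e6]
  refine Valuation.map_add_le v i2 ?_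
  rw [map_mul]
  exact mul_le_of_le_one_right' i1

end Pool.Agent.J4.H67.EW
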