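import Pool.Agent.J4.H67.EW.Defs

/-!
# Even weights: the point of order four
-/

set_option autoImplicit false
set_option linter.unusedSectionVars false

open Filter
open scoped Topology PeriodPair

namespace Pool.Agent.J4.H67.EW

open Pool.Agent.Y698 (al bl RR aR bR fR nR cj cX cY e7 e7_mul e7_neg e7_one e7_per e7_eq_zero e7_sq
  fR_ne fin_quot nR_nonneg mul_cj irr_fR not_mem_of_cop LD v_two_lt v_bl bl_ne qch GG)
open Pool.Agent.Y698.SG
open H667R3 Pool.Agent.W192.HK Pool.Agent.TH936.CM Pool.Agent.TH936.PU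
open Pool.Agent.TH936.CW (E1 ek)
open Pool.Agent.J4.H67.AW

variable {Γ : Type*} [LinearOrderedCommGroupWithZero Γ] {v : Valuation ℂ Γ}
variable {L : PeriodPair} {Ω p q : ℂ}

lemma bl_tT (Ω : ℂ) : bl * tT Ω = Pool.Agent.Y698.tB Ω := by
  unfold tT Pool.Agent.Y698.tB
  have := bl_ne
  field_simp

lemma two_tT (hL : IsLat L RR Ω) : 2 * tT Ω - Pool.Agent.Y698.tB Ω ∈ L.lattice := by
  have h := Pool.Agent.Y698.al_tB hL
  rw [← bl_tT, ← mul_assoc, Pool.Agent.Y698.al_mul_bl] at h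
  rwa [← bl_tT]

theorem tT_notMem (hL : IsLat L RR Ω) : tT Ω ∉ L.lattice ∧ 2 * tT Ω ∉ L.lattice ∧
    4 * tT Ω ∈ L.lattice := by
  have h2 : 2 * tT Ω ∉ L.lattice := fun h => Pool.Agent.Y698.tB_notMem hL (by
    have := sub_mem h (two_tT hL)
    rwa [sub_sub_cancel] at this)
  refine ⟨fun h => h2 ?_, h2, ?_⟩
  · rw [two_mul]
    exact add_mem h h
  · have e : 4 * tT Ω = Ω * ((aR ^ 2 : RR) : ℂ) := by
      unfold tT
      have h1 : (al * bl) ^ 2 = 4 := by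
        rw [Pool.Agent.Y698.al_mul_bl]
        norm_num
      push_cast
      rw [Pool.Agent.Y698.aR_coe, mul_div_assoc', div_eq_iff (pow_ne_zero 2 bl_ne)]
      linear_combination -Ω * h1
    rw [e]
    exact hL.mem_mul _

theorem tT_cong (hL : IsLat L RR Ω) {c : RR} (hc : ∃ u : RR, c = 1 + 4 * u) :
    (c : ℂ) * tT Ω - tT Ω ∈ L.lattice := by
  obtain ⟨u, rfl⟩ := hc
  have h := hL.mul u _ (tT_notMem hL).2.2
  have h4 : ((4 : RR) : ℂ) = 4 := rfl
  convert h using 1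
  push_cast
  rw [h4]
  ring

theorem tT_fR (hL : IsLat L RR Ω) : (fR : ℂ) * tT Ω - tT Ω ∈ L.lattice := by
  have h := neg_mem (Pool.Agent.Y698.two_tB hL)
  convert h using 1
  rw [← bl_tT, Pool.Agent.Y698.fR_coe]
  unfold bl al
  ring

lemma inv_sq : 2 * bl⁻¹ ^ 2 = bl⁻¹ - 1 := by
  rw [inv_bl]
  linear_combination (1 / 2 : ℂ) * bl_sq

theorem Xx_tT (h : LD L Ω) : Pool.Agent.Y698.Xx L (tT Ω) = bl⁻¹ := by
  have hb : bl * tT Ω ∉ L.lattice := by
    rw [bl_tT]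
    exact Pool.Agent.Y698.tB_notMem h.lat
  have h1 := x_bl h hb
  rw [bl_tT, x_tB h] at h1
  obtain ⟨-, -, h2⟩ := ss_eq h hb
  have hc := inv_bl
  have h3 : (Pool.Agent.Y698.Xx L (tT Ω) - bl⁻¹) ^ 2 = 0 := by
    rw [hc]
    generalize ss L Ω (tT Ω) = s at h1 h2
    generalize Pool.Agent.Y698.Xx L (tT Ω) = x at h2 ⊢
    linear_combination (-1 : ℂ) * h2 - (x - (bl - 3) / 4) * h1 +
      ((bl - 2) / 4 * x + (-bl ^ 2 + 5 * bl) / 16) * bl_sq
  have h4 := pow_eq_zero_iff (two_ne_zero) |>.1 h3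
  linear_combination h4

theorem td_sq (h : LD L Ω) : td L Ω ^ 2 = -(7 / 2) * (3 * bl⁻¹ + 1) ∧ td L Ω ≠ 0 := by
  obtain ⟨h1, h2, -⟩ := tT_notMem h.lat
  refine ⟨?_, dwp_ne h2⟩
  unfold td
  rw [h.ode h1, Xx_tT h]
  have h3 := inv_sq
  generalize bl⁻¹ = c at *
  linear_combination (2 * c - 1 / 2 : ℂ) * h3

theorem E1_tT (h : LD L Ω) (hpq : ∀ l ∈ L.lattice, eta L l = p * l + q * (starRingEnd ℂ) l) :
    E1 L p q (tT Ω) = 7 / (4 * td L Ω) := by
  obtain ⟨h1, h2, -⟩ := tT_notMem h.lat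
  have hB := Pool.Agent.Y698.tB_notMem h.lat
  have e1 := E1_two (p := p) (q := q) h h2
  have e2 : E1 L p q (2 * tT Ω) = E1 L p q (Pool.Agent.Y698.tB Ω) :=
    Pool.Agent.TH936.CW.E1_per' hpq hB (two_tT h.lat)
  have e3 : E1 L p q (-(Pool.Agent.Y698.tB Ω)) = E1 L p q (Pool.Agent.Y698.tB Ω) := by
    refine Pool.Agent.TH936.CW.E1_per' hpq hB ?_
    have := neg_mem (Pool.Agent.Y698.two_tB h.lat)
    convert this using 1
    ring
  rw [E1_neg] at e3
  have e4 : E1 L p q (Pool.Agent.Y698.tB Ω) = 0 := by linear_combination (-1 / 2 : ℂ) * e3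
  have ht := (td_sq h).2
  have h3 := inv_sq
  rw [e2, e4, Xx_tT h] at e1
  change 0 = 2 * E1 L p q (tT Ω) + (6 * bl⁻¹ ^ 2 - 3 * bl⁻¹ - 4) / (2 * td L Ω) at e1
  have e5 : 6 * bl⁻¹ ^ 2 - 3 * bl⁻¹ - 4 = -7 := by linear_combination 3 * h3
  rw [e5] at e1
  have e6 : (-7 : ℂ) / (2 * td L Ω) = -2 * (7 / (4 * td L Ω)) := by
    field_simp
    norm_num
  rw [e6] at e1
  linear_combination (-1 / 2 : ℂ) * e1

theorem v_td (h : LD L Ω) (hv : v al < 1) : v (td L Ω) = 1 ∧ v (td L Ω - 1) ≤ v 2 := by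
  have t2 : v 2 < 1 := v_two_lt hv
  have t20 : v 2 ≠ 0 := (map_ne_zero v).2 two_ne_zero
  have hb : v bl = 1 := v_bl hv
  have hb0 := bl_ne
  have o (n : ℕ) (hn : Odd n) : v (n : ℂ) = 1 := v_odd hv hn
  have o3 : v (3 : ℂ) = 1 := o 3 (by decide)
  have o7 : v (7 : ℂ) = 1 := o 7 (by decide)
  have o11 : v (11 : ℂ) = 1 := o 11 (by decide)
  have hal : al = 1 - bl := by
    unfold bl
    ring
  have a3 : v (al + 3) = 1 := by
    rw [Valuation.map_add_eq_of_lt_right v (by rwa [o3]), o3]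
  have a7 : v (7 + 3 * al) = 1 := by
    rw [Valuation.map_add_eq_of_lt_left v (by rwa [map_mul, o3, one_mul, o7]), o7]
  have b3 : v (bl + 3) = v 2 := by
    have e : (bl + 3) * (al + 3) = 2 * 7 := by
      rw [hal]
      linear_combination (-1 : ℂ) * bl_sq
    have e2 := congrArg v e
    rwa [map_mul, map_mul, a3, o7, mul_one, mul_one] at e2
  have b7 : v (7 + 3 * bl) = v 2 * v 4 := by
    have e : (7 + 3 * bl) * (7 + 3 * al) = 2 * 4 * 11 := by
      rw [hal]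
      linear_combination (-9 : ℂ) * bl_sq
    have e2 := congrArg v e
    rwa [map_mul, map_mul, map_mul, a7, o11, mul_one, mul_one] at e2
  obtain ⟨hs, -⟩ := td_sq h
  have e1 : 2 * bl * td L Ω ^ 2 = -(7 * (bl + 3)) := by
    rw [hs]
    field_simp
    ring
  have s1 : v (td L Ω) ^ 2 = 1 := by
    have e2 := congrArg v e1
    rw [map_mul, map_mul, hb, mul_one, Valuation.map_neg, map_mul, o7, one_mul, b3, map_pow] at e2
    exact mul_left_cancel₀ t20 (e2.trans (mul_one _).symm)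
  have s2 : v (td L Ω) = 1 := by
    rcases lt_trichotomy (v (td L Ω)) 1 with hh | hh | hh
    · exact absurd s1 (ne_of_lt (pow_lt_one₀ zero_le hh two_ne_zero))
    · exact hh
    · exact absurd s1 (ne_of_gt (one_lt_pow₀ hh two_ne_zero))
  refine ⟨s2, ?_⟩
  have e3 : 2 * bl * ((td L Ω - 1) * (td L Ω + 1)) = -(3 * (7 + 3 * bl)) := by
    linear_combination e1
  have s3 : v (td L Ω - 1) * v (td L Ω + 1) = v 4 := by
    have e4 := congrArg v e3
    rw [map_mul, map_mul, hb, mul_one, Valuation.map_neg, map_mul, map_mul, o3, one_mul, b7] at e4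
    exact mul_left_cancel₀ t20 e4
  have f4 : v (4 : ℂ) = v 2 * v 2 := by
    rw [← map_mul]
    norm_num
  by_contra hlt
  rw [not_le] at hlt
  have s4 : v (td L Ω + 1) = v (td L Ω - 1) := by
    have e5 : td L Ω + 1 = (td L Ω - 1) + 2 := by ring
    rw [e5, Valuation.map_add_eq_of_lt_left v hlt]
  rw [s4, f4] at s3
  exact absurd s3 (ne_of_gt (mul_lt_mul'' hlt hlt zero_le zero_le))

end Pool.Agent.J4.H67.EW
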