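import Pool.Agent.J4.H67.EW.Va0
import Pool.Agent.J4.H67.EW.Ko
import Pool.Agent.J4.H67.EW.K3
import Pool.Agent.J4.H67.EW.Tp

/-!
# The values of `mf` at the points of odd order, and the numbers of odd order
-/

set_option autoImplicit false
set_option linter.unusedSectionVars false

open Filter
open scoped Topology PeriodPair

namespace Pool.Agent.J4.H67.EW

open Pool.Agent.Y698 (al bl RR aR bR fR nR cj cX cY e7 e7_mul e7_neg e7_one e7_per e7_eq_zero e7_sq
  fR_ne fin_quot nR_nonneg mul_cj irr_fR not_mem_of_cop LD v_two_lt v_bl bl_ne qch GG)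
open Pool.Agent.Y698.SG
open H667R3 Pool.Agent.W192.HK Pool.Agent.TH936.CM Pool.Agent.TH936.PU
open Pool.Agent.TH936.CW (E1 ek)
open Pool.Agent.J4.H67.AW

variable {Γ : Type*} [LinearOrderedCommGroupWithZero Γ] {v : Valuation ℂ Γ}
variable {L : PeriodPair} {Ω p q : ℂ}

/-- points of odd order are not `± T` -/
theorem Od.ne_T (hL : IsLat L RR Ω) {z : ℂ} (hz : ∃ N : ℕ, Odd N ∧ (N : ℂ) * z ∈ L.lattice) :
    z + tT Ω ∉ L.lattice ∧ z - tT Ω ∉ L.lattice := Va.ne_T_of (tT_notMem hL) hz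

/-- (uses A, B) -/
theorem Hf_mod (h : LD L Ω) (hv : v al < 1)
    (hpq : ∀ l ∈ L.lattice, eta L l = p * l + q * (starRingEnd ℂ) l) {w : ℂ} (hw : Od L w) (m : ℕ) :
    v (Hf L p q (2 * m + 3) w - 2 * Jf L w) ≤ v 4 :=
  Va.Hf_mod_of h hv hw m (fun _ hz => ek_mod_odd h hv hpq hz m) (ek3_mod h hv hpq hw)

end Pool.Agent.J4.H67.EW
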