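import Pool.Agent.J4.H67.EW.Tp
import Pool.Agent.J4.H67.EW.Fo
import Pool.Agent.J4.H67.EW.Di
import Pool.Agent.J4.H67.EW.Va
import Pool.Agent.J4.H67.EW.S1

/-!
# Even weights: flipping the signs
-/

set_option autoImplicit false
set_option linter.unusedSectionVars false

open Filter
open scoped Topology PeriodPair

namespace Pool.Agent.J4.H67.EW

open Pool.Agent.Y698 (al bl RR aR bR fR nR cj cX cY e7 e7_mul e7_neg e7_one e7_per e7_eq_zero e7_sq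
  fR_ne fin_quot nR_nonneg mul_cj irr_fR not_mem_of_cop LD v_two_lt v_bl bl_ne qch GG)
open Pool.Agent.Y698.SG
open H667R3 Pool.Agent.W192.HK Pool.Agent.TH936.CM Pool.Agent.TH936.PU
open Pool.Agent.TH936.CW (E1 ek)
open Pool.Agent.J4.H67.AW

variable {Γ : Type*} [LinearOrderedCommGroupWithZero Γ] {v : Valuation ℂ Γ}
variable {L : PeriodPair} {Ω p q : ℂ}

/-- points of odd order, possibly zero -/
def Ot (L : PeriodPair) (z : ℂ) : Prop := ∃ N : ℕ, Odd N ∧ (N : ℂ) * z ∈ L.lattice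

lemma ot_pt (hL : IsLat L RR Ω) {n : RR} (hn : Go n) (x : RR) : Ot L (Ω * x / (n : ℂ)) := by
  obtain ⟨N, hN, d, hd⟩ := go_norm hn
  have hn0 := coe_ne hn.gd.ne
  refine ⟨N, hN, ?_⟩
  have hd' : (n : ℂ) * (d : ℂ) = N := by
    have := congrArg (fun t : RR => (t : ℂ)) hd
    push_cast at this
    exact this
  have e : (N : ℂ) * (Ω * x / (n : ℂ)) = Ω * ((d * x : RR) : ℂ) := by
    rw [← hd']
    push_cast
    field_simp
  rw [e]
  exact hL.mem_mul _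

lemma od_of (hL : IsLat L RR Ω) {n : RR} (hn : Go n) {x : RR} (hx : x ∉ sp n) :
    Od L (Ω * x / (n : ℂ)) :=
  ⟨fun h => hx ((div_mem_iff hL hn.gd.ne x).1 h), ot_pt hL hn x⟩

/-- the three functions in terms of `mf` -/
noncomputable def b1 (L : PeriodPair) (Ω w : ℂ) : ℂ := 7 / (2 * td L Ω) + td L Ω * mf L w
/-- the second one -/
noncomputable def b2 (L : PeriodPair) (Ω w : ℂ) : ℂ :=
  2 * bl⁻¹ + 7 * mf L w + td L Ω ^ 2 * mf L w ^ 2
/-- the third one -/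
noncomputable def b3 (L : PeriodPair) (Ω w : ℂ) : ℂ :=
  td L Ω * (2 - (12 * bl⁻¹ - 3) * mf L w - 21 * mf L w ^ 2 - 2 * td L Ω ^ 2 * mf L w ^ 3)

lemma gs_of (hL : IsLat L RR Ω) {κ : RR → ℂ} {F f : ℂ → ℂ}
    (hper : ∀ z w : ℂ, w - z ∈ L.lattice → f w = f z) (hFf : ∀ w, Ot L w → F w = f w)
    (hdist : ∀ c : RR, Go c → ∀ [Fintype (RR ⧸ sp c)] (z : ℂ), Ot L ((c : ℂ) * z) →
      ∑ t : RR ⧸ sp c, F (z + Ω * t.out / c) = κ c * F (c * z)) : Gs Ω κ f := by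
  refine ⟨fun n hn x y hxy => hper _ _ ?_, fun n c hn hc _ y => ?_⟩
  · have e : Ω * (x : ℂ) / n - Ω * (y : ℂ) / n = Ω * ((x - y : RR) : ℂ) / n := by
      push_cast
      ring
    rw [e, div_mem_iff hL hn.gd.ne]
    exact hxy
  · have hn0 := coe_ne hn.gd.ne
    have hc0 := coe_ne hc.gd.ne
    have e1 : (c : ℂ) * (Ω * y / ((c * n : RR) : ℂ)) = Ω * y / n := by
      push_cast
      field_simp
    have h1 := hdist c hc (Ω * y / ((c * n : RR) : ℂ)) (by rw [e1]; exact ot_pt hL hn y)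
    rw [e1, hFf _ (ot_pt hL hn y)] at h1
    rw [← h1]
    refine Finset.sum_congr rfl fun t _ => ?_
    have e2 : Ω * ((y + n * t.out : RR) : ℂ) / ((c * n : RR) : ℂ) =
        Ω * y / ((c * n : RR) : ℂ) + Ω * t.out / c := by
      push_cast
      field_simp
    rw [← e2, hFf _ (ot_pt hL (hc.mul hn) _)]

lemma gs_b1 (h : LD L Ω) (hpq : ∀ l ∈ L.lattice, eta L l = p * l + q * (starRingEnd ℂ) l) :
    Gs Ω (fun c => (c : ℂ)) (b1 L Ω) := by
  have hL := h.lat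
  refine gs_of hL (F := B1 L Ω p q) (fun z w hw => ?_) (fun w hw => ?_) fun c hc _ z hz => ?_
  · unfold b1
    rw [mf_per L hw]
  · obtain ⟨h1, h2⟩ := Od.ne_T hL hw
    exact B1_eq h hpq h1 h2
  · obtain ⟨h1, h2⟩ := Od.ne_T hL hz
    exact B1_dist hL hpq hc.gd.ne (tT_cong hL hc.m4) h1 h2

lemma gs_b2 (h : LD L Ω) (hpq : ∀ l ∈ L.lattice, eta L l = p * l + q * (starRingEnd ℂ) l) :
    Gs Ω (fun c => (c : ℂ) ^ 2) (b2 L Ω) := by
  have hL := h.lat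
  have hp : p = 1 / 4 := p_quarter h hpq
  subst hp
  refine gs_of hL (F := B2 L Ω) (fun z w hw => ?_) (fun w hw => ?_) fun c hc _ z hz => ?_
  · unfold b2
    rw [mf_per L hw]
  · obtain ⟨h1, h2⟩ := Od.ne_T hL hw
    exact B2_eq h h1 h2
  · obtain ⟨h1, h2⟩ := Od.ne_T hL hz
    exact B2_dist hL hpq hc.gd.ne (tT_cong hL hc.m4) h1 h2

lemma gs_b3 (h : LD L Ω) : Gs Ω (fun c => (c : ℂ) ^ 3) (b3 L Ω) := by
  have hL := h.lat
  refine gs_of hL (F := B3 L Ω) (fun z w hw => ?_) (fun w hw => ?_) fun c hc _ z hz => ?_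
  · unfold b3
    rw [mf_per L hw]
  · obtain ⟨h1, h2⟩ := Od.ne_T hL hw
    exact B3_eq h h1 h2
  · obtain ⟨h1, h2⟩ := Od.ne_T hL hz
    exact B3_dist hL hc.gd.ne (tT_cong hL hc.m4) h1 h2

lemma card_sp {c : RR} [Fintype (RR ⧸ sp c)] :
    (Fintype.card (RR ⧸ sp c) : ℂ) = (Complex.normSq (c : ℂ) : ℂ) := by
  have h6 := (Pool.Agent.W287.HK.h_basic RR al Pool.Agent.Y698.qr).2.2.2.2.1 c
  unfold nm at h6
  rw [Nat.card_eq_fintype_card] at h6
  exact_mod_cast congrArg (fun r : ℝ => (r : ℂ)) h6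

lemma gs_one : Gs Ω (fun c => (Complex.normSq (c : ℂ) : ℂ)) (fun _ => (1 : ℂ)) := by
  refine ⟨fun _ _ _ _ _ => rfl, fun n c hn hc _ y => ?_⟩
  rw [Finset.sum_const, Finset.card_univ, nsmul_eq_mul, card_sp]

/-- the number of points, with weights -/
noncomputable def ct (n : RR) (φ : RR → ℂ) : ℂ := Wg 0 (fun _ => (1 : ℂ)) n φ

lemma ct_eq (n : RR) [Fintype (RR ⧸ sp n)] (φ : RR → ℂ) : ct n φ = ∑ x : RR ⧸ sp n, φ x.out := by
  unfold ct
  rw [Wg_eq]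
  exact Finset.sum_congr rfl fun x _ => by rw [mul_one]

/-- linear combinations -/
lemma Wg_b1 {n : RR} (hn : n ≠ 0) (φ : RR → ℂ) :
    Wg Ω (b1 L Ω) n φ = 7 / (2 * td L Ω) * ct n φ + td L Ω * Wg Ω (mf L) n φ := by
  have f1 := fin_quot hn
  let _ : Fintype (RR ⧸ sp n) := Fintype.ofFinite _
  rw [Wg_eq, Wg_eq, ct_eq, Finset.mul_sum, Finset.mul_sum, ← Finset.sum_add_distrib]
  refine Finset.sum_congr rfl fun x _ => ?_
  unfold b1
  ring

lemma Wg_mf3 {n : RR} (hn : n ≠ 0) (ht : td L Ω ≠ 0) (φ : RR → ℂ) :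
    2 * td L Ω ^ 2 * Wg Ω (fun z => mf L z ^ 3) n φ =
      (2 + 42 * bl⁻¹ / td L Ω ^ 2) * ct n φ +
      (147 / td L Ω ^ 2 + 3 - 12 * bl⁻¹) * Wg Ω (mf L) n φ -
      21 / td L Ω ^ 2 * Wg Ω (b2 L Ω) n φ - 1 / td L Ω * Wg Ω (b3 L Ω) n φ := by
  have f1 := fin_quot hn
  let _ : Fintype (RR ⧸ sp n) := Fintype.ofFinite _
  rw [Wg_eq, Wg_eq, Wg_eq, Wg_eq, ct_eq, Finset.mul_sum, Finset.mul_sum, Finset.mul_sum,
    Finset.mul_sum, Finset.mul_sum, ← Finset.sum_add_distrib, ← Finset.sum_sub_distrib,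
    ← Finset.sum_sub_distrib]
  refine Finset.sum_congr rfl fun x _ => ?_
  unfold b2 b3
  field_simp
  ring

/-! ### the numbers of points -/

lemma bij_aff {b n : RR} (h : IsCoprime b n) (a : RR) :
    Function.Bijective (fun y : RR ⧸ sp n => Ideal.Quotient.mk (sp n) (a + b * y.out)) := by
  have h1 := bij_unit h
  have e : (fun y : RR ⧸ sp n => Ideal.Quotient.mk (sp n) (a + b * y.out)) =
      fun y => (Equiv.addLeft (Ideal.Quotient.mk (sp n) a))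
        (Ideal.Quotient.mk (sp n) (b * y.out)) := by
    funext y
    rw [map_add]
    rfl
  rw [e]
  exact (Equiv.addLeft _).bijective.comp h1

lemma ct_mul {a n : RR} (ha : a ≠ 0) (hn : n ≠ 0) (hc : IsCoprime n a) {φ φ' : RR → ℂ}
    (hφ : Pe a φ) (hφ' : Pe n φ') : ct (a * n) (fun x => φ x * φ' x) = ct a φ * ct n φ' := by
  have f1 := fin_quot hn
  have f2 := fin_quot ha
  have f3 := fin_quot (mul_ne_zero ha hn)
  let _ : Fintype (RR ⧸ sp n) := Fintype.ofFinite _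
  let _ : Fintype (RR ⧸ sp a) := Fintype.ofFinite _
  let _ : Fintype (RR ⧸ sp (a * n)) := Fintype.ofFinite _
  rw [ct_eq, ct_eq, ct_eq]
  have hb := bij_mul (R := RR) (a := a) (f := n) hn
  rw [sum_rep _ hb (fun x : RR => φ x * φ' x)
    (fun x y h => by
      rw [hφ.mono (Dvd.intro n rfl) x y h, hφ'.mono (Dvd.intro_left a rfl) x y h]),
    Fintype.sum_prod_type, Finset.mul_sum]
  refine Finset.sum_congr rfl fun y _ => ?_
  rw [sum_rep _ (bij_aff hc y.out) φ hφ, Finset.sum_mul]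
  refine Finset.sum_congr rfl fun t _ => ?_
  congr 1
  refine hφ' _ _ ?_
  rw [add_sub_cancel_left, Ideal.mem_span_singleton']
  exact ⟨t.out, mul_comm _ _⟩

/-- the functions used -/
structure Nc (v : Valuation ℂ Γ) (ϖ : RR) (f : RR → ℂ) : Prop where
  per : Pe ϖ f
  ev : ∀ x, f (-x) = f x
  b : ∀ x, v (f x) ≤ 1
  z : ∀ x ∈ sp ϖ, f x = 0
  ct : v (ct ϖ f) ≤ v 4
  mu : ∀ y, sy ϖ y = 1 → ∀ x, f (y * x) = f x

lemma v_four (v : Valuation ℂ Γ) : v 4 = v 2 * v 2 := by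
  rw [← map_mul]
  norm_num

lemma v_eight (v : Valuation ℂ Γ) : v 8 = v 4 * v 2 := by
  rw [← map_mul]
  norm_num

lemma v_int_le (v : Valuation ℂ Γ) (m : ℤ) : v (m : ℂ) ≤ 1 := by
  induction m using Int.induction_on with
  | zero => simp
  | succ i ih =>
    push_cast at ih ⊢
    exact v.map_add_le ih (by rw [map_one])
  | pred i ih =>
    push_cast at ih ⊢
    exact v.map_sub_le ih (by rw [map_one])

/-- real elements which are `1` modulo `4` -/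
lemma v_real (hv : v al < 1) {ϖ : RR} (h4 : ∃ u : RR, ϖ = 1 + 4 * u)
    (hr : ∃ m : ℤ, ϖ = (m : RR)) :
    (Complex.normSq (ϖ : ℂ) : ℂ) = (ϖ : ℂ) ^ 2 ∧ v ((ϖ : ℂ) - 1) ≤ v 4 ∧
      v ((ϖ : ℂ) ^ 2 - 1) ≤ v 8 ∧ v ((ϖ : ℂ) ^ 3 - 1) ≤ v 4 := by
  obtain ⟨u, hu⟩ := h4
  have e : (ϖ : ℂ) = 1 + 4 * (u : ℂ) := by
    rw [hu]
    push_cast
    rfl
  have hu1 := v_RR hv u
  have h2 : v 2 < 1 := v_two_lt hv
  have h4' : v (4 : ℂ) ≤ 1 := by rw [v_four]; exact mul_le_one' h2.le h2.le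
  have h1 : v ((ϖ : ℂ) - 1) ≤ v 4 := by
    have e1 : (ϖ : ℂ) - 1 = 4 * (u : ℂ) := by rw [e]; ring
    rw [e1, map_mul]
    exact mul_le_of_le_one_right' hu1
  refine ⟨?_, h1, ?_, ?_⟩
  · obtain ⟨m, hm⟩ := hr
    have e2 : (ϖ : ℂ) = (m : ℂ) := by rw [hm]; push_cast; rfl
    rw [e2, Complex.normSq_intCast]
    push_cast
    ring
  · have e1 : (ϖ : ℂ) ^ 2 - 1 = ((ϖ : ℂ) - 1) * (2 * (1 + 2 * (u : ℂ))) := by rw [e]; ring
    rw [e1, map_mul, map_mul, v_eight]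
    refine mul_le_mul' h1 (mul_le_of_le_one_right' (v.map_add_le (by rw [map_one]) ?_))
    rw [map_mul]
    exact mul_le_one' h2.le hu1
  · have e1 : (ϖ : ℂ) ^ 3 - 1 = ((ϖ : ℂ) - 1) * ((ϖ : ℂ) ^ 2 + (ϖ : ℂ) + 1) := by ring
    rw [e1, map_mul]
    refine mul_le_of_le_of_le_one h1 ?_
    have hϖ := v_RR hv ϖ
    refine v.map_add_le (v.map_add_le ?_ hϖ) (by rw [map_one])
    rw [map_pow]
    exact pow_le_one' hϖ 2

lemma cop_of {ϖ x : RR} (hP : Prime ϖ) (hx : x ∉ sp ϖ) : IsCoprime x ϖ :=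
  (hP.irreducible.coprime_iff_not_dvd.2 fun h => hx (Ideal.mem_span_singleton.2 h)).symm

lemma ct_one : ct 1 (fun _ => (1 : ℂ)) = 1 := by
  have f1 := fin_quot (one_ne_zero : (1 : RR) ≠ 0)
  let _ : Fintype (RR ⧸ sp (1 : RR)) := Fintype.ofFinite _
  rw [ct_eq, Finset.sum_const, Finset.card_univ, nsmul_eq_mul, card_sp, mul_one]
  have e : ((1 : RR) : ℂ) = 1 := rfl
  rw [e, map_one]
  norm_num

lemma fl_rem {κ : RR → ℂ} {W : RR → (RR → ℂ) → ℂ} (hW : Fl κ W) {n q : RR} (hn : Go n)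
    (hq : Go q) {φ : RR → ℂ} (hφ : Pe n φ) (hφq : ∀ m : RR, φ (q * m) = φ m) :
    W (q * n) (fun m => tr q m * φ m) = (κ q - 1) * W n φ := by
  classical
  have h1 := hW.rem hn hq (c := 1) hφ (fun m => by rw [hφq, one_mul])
  rw [← h1]
  congr 1
  funext m
  unfold tr
  split_ifs <;> ring

lemma ct_rem {n q : RR} (hn : Go n) (hq : Go q) {φ : RR → ℂ} (hφ : Pe n φ)
    (hφq : ∀ m : RR, φ (q * m) = φ m) :
    ct (q * n) (fun m => tr q m * φ m) = ((Complex.normSq (q : ℂ) : ℂ) - 1) * ct n φ :=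
  fl_rem (gs_one (Ω := 0)).fl hn hq hφ hφq

lemma ct_tr {ϖ : RR} (hq : Go ϖ) : ct ϖ (tr ϖ) = (Complex.normSq (ϖ : ℂ) : ℂ) - 1 := by
  have h1 := ct_rem (n := 1) Go.one hq (φ := fun _ => 1) (fun _ _ _ => rfl) (fun _ => rfl)
  rw [ct_one, mul_one, mul_one] at h1
  rw [← h1]
  congr 1
  funext m
  rw [mul_one]

lemma ct_add {n : RR} (hn : n ≠ 0) (φ φ' : RR → ℂ) :
    ct n (fun m => φ m + φ' m) = ct n φ + ct n φ' := Wg_add _ hn _ _

lemma ct_smul {n : RR} (hn : n ≠ 0) (a : ℂ) (φ : RR → ℂ) :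
    ct n (fun m => a * φ m) = a * ct n φ := Wg_smul _ hn _ _

/-- the sum of the symbol -/
lemma ct_sy {ϖ : RR} (hP : PD ϖ) : ct ϖ (sy ϖ) = ct ϖ (tr ϖ) ∨ ct ϖ (sy ϖ) = 0 := by
  have f1 := fin_quot hP.gd.ne
  let _ : Fintype (RR ⧸ sp ϖ) := Fintype.ofFinite _
  by_cases h : ∃ b, sy ϖ b = -1
  · right
    obtain ⟨b, hb⟩ := h
    have hbm : b ∉ sp ϖ := by
      intro hm
      rcases sy_val ϖ b with h1 | h1
      · rw [h1.2] at hb
        norm_num at hb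
      · exact h1.1 hm
    have h1 : ∑ x : RR ⧸ sp ϖ, sy ϖ x.out = ∑ x : RR ⧸ sp ϖ, sy ϖ (b * x.out) :=
      sum_rep _ (bij_unit (cop_of hP.pr hbm)) (sy ϖ) (sy_per ϖ)
    have h2 : ∑ x : RR ⧸ sp ϖ, sy ϖ (b * x.out) = -∑ x : RR ⧸ sp ϖ, sy ϖ x.out := by
      rw [← Finset.sum_neg_distrib]
      refine Finset.sum_congr rfl fun x _ => ?_
      rw [hP.mul, hb]
      ring
    rw [h2] at h1
    rw [ct_eq]
    linear_combination (1 / 2 : ℂ) * h1
  · left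
    push Not at h
    congr 1
    funext x
    unfold tr
    rcases sy_val ϖ x with h1 | h1
    · rw [if_pos h1.1, h1.2]
    · rw [if_neg h1.1]
      exact h1.2.resolve_right (h x)

lemma v_half {a : ℂ} {b : Γ} (h : v (2 * a) ≤ v 2 * b) : v a ≤ b := by
  rw [map_mul] at h
  exact le_of_mul_le_mul_left h (zero_lt_iff.2 ((Valuation.ne_zero_iff v).2 two_ne_zero))

lemma v_le84 (hv : v al < 1) : v 8 ≤ v 4 := by
  rw [v_eight]
  exact mul_le_of_le_one_right' (v_two_lt hv).le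

lemma ct_hc (hv : v al < 1) {ϖ : RR} (hP : PD ϖ) (hr : ∃ m : ℤ, ϖ = (m : RR)) :
    v (ct ϖ (tr ϖ)) ≤ v 8 ∧ v (ct ϖ (hc ϖ)) ≤ v 4 := by
  obtain ⟨r1, -, r3, -⟩ := v_real hv hP.m4 hr
  have h1 : v (ct ϖ (tr ϖ)) ≤ v 8 := by
    rw [ct_tr hP.go, r1]
    exact r3
  refine ⟨h1, ?_⟩
  have h2 : 2 * ct ϖ (hc ϖ) = ct ϖ (sy ϖ) + ct ϖ (tr ϖ) := by
    rw [← ct_smul hP.gd.ne, ← ct_add hP.gd.ne]
    congr 1
    funext m
    unfold hc
    ring
  refine v_half ?_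
  rw [h2, mul_comm (v 2), ← v_eight]
  rcases ct_sy hP with h3 | h3
  · rw [h3]
    exact v.map_add_le h1 h1
  · rw [h3, zero_add]
    exact h1

lemma nc_hc (hv : v al < 1) {ϖ : RR} (hP : PD ϖ) (hr : ∃ m : ℤ, ϖ = (m : RR)) :
    Nc v ϖ (hc ϖ) := by
  refine ⟨hc_per ϖ, hc_neg hP, fun x => ?_, fun x hx => (hc_val ϖ x).2 hx, (ct_hc hv hP hr).2,
    fun y hy x => ?_⟩
  · rcases (hc_val ϖ x).1 with h | h <;> rw [h]
    · rw [map_zero]; exact zero_le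
    · rw [map_one]
  · have hym : y ∉ sp ϖ := by
      intro hm
      rcases sy_val ϖ y with h1 | h1
      · rw [h1.2] at hy
        norm_num at hy
      · exact h1.1 hm
    unfold hc
    rw [hP.mul, hy, one_mul, tr_mul hP.pr hym]

lemma nc_hc' (hv : v al < 1) {ϖ : RR} (hP : PD ϖ) (hr : ∃ m : ℤ, ϖ = (m : RR)) :
    Nc v ϖ (fun x => tr ϖ x - hc ϖ x) := by
  have h0 := nc_hc hv hP hr
  refine ⟨fun x y hxy => ?_, fun x => ?_, fun x => ?_, fun x hx => ?_, ?_, fun y hy x => ?_⟩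
  · show tr ϖ x - hc ϖ x = tr ϖ y - hc ϖ y
    rw [tr_per ϖ x y hxy, hc_per ϖ x y hxy]
  · show tr ϖ (-x) - hc ϖ (-x) = _
    rw [tr_neg, hc_neg hP]
  · refine v.map_sub_le ?_ (h0.b x)
    unfold tr
    split_ifs
    · rw [map_zero]; exact zero_le
    · rw [map_one]
  · rw [h0.z x hx, sub_zero]
    unfold tr
    rw [if_pos hx]
  · have h1 : ct ϖ (fun x => tr ϖ x - hc ϖ x) = ct ϖ (tr ϖ) - ct ϖ (hc ϖ) := by
      have h2 := ct_add hP.gd.ne (fun x => tr ϖ x - hc ϖ x) (hc ϖ)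
      have e : (fun m => tr ϖ m - hc ϖ m + hc ϖ m) = tr ϖ := by
        funext m
        ring
      rw [e] at h2
      rw [h2]
      ring
    rw [h1]
    exact v.map_sub_le ((ct_hc hv hP hr).1.trans (v_le84 hv)) (ct_hc hv hP hr).2
  · have hym : y ∉ sp ϖ := by
      intro hm
      rcases sy_val ϖ y with h1 | h1
      · rw [h1.2] at hy
        norm_num at hy
      · exact h1.1 hm
    rw [h0.mu y hy, tr_mul hP.pr hym]

lemma hc_c {ϖ : RR} (hP : PD ϖ) {c : RR} (hc0 : sy ϖ c = 1 ∨ sy ϖ c = -1) :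
    (fun x => hc ϖ (c * x)) = hc ϖ ∨ (fun x => hc ϖ (c * x)) = fun x => tr ϖ x - hc ϖ x := by
  have hym : c ∉ sp ϖ := by
    intro hm
    rcases sy_val ϖ c with h1 | h1
    · rw [h1.2] at hc0
      norm_num at hc0
    · exact h1.1 hm
  rcases hc0 with h | h
  · left
    funext x
    unfold hc
    rw [hP.mul, h, one_mul, tr_mul hP.pr hym]
  · right
    funext x
    unfold hc
    rw [hP.mul, h, tr_mul hP.pr hym]
    ring

lemma nc_c (hv : v al < 1) {ϖ : RR} (hP : PD ϖ) (hr : ∃ m : ℤ, ϖ = (m : RR)) {c : RR}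
    (hc0 : sy ϖ c = 1 ∨ sy ϖ c = -1) : Nc v ϖ (fun x => hc ϖ (c * x)) := by
  rcases hc_c hP hc0 with h | h
  · rw [h]
    exact nc_hc hv hP hr
  · rw [h]
    exact nc_hc' hv hP hr

/-! ### products -/

section prod

variable {ι : Type} {A : Finset ι} {π : ι → RR} {f : ι → RR → ℂ}

lemma ct_prod (hA : Fam A π) (hf : ∀ i ∈ A, Nc v (π i) (f i)) :
    ct (∏ i ∈ A, π i) (fun m => ∏ i ∈ A, f i m) = ∏ i ∈ A, ct (π i) (f i) := by
  classical
  induction A using Finset.induction_on with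
  | empty =>
    simp only [Finset.prod_empty]
    exact ct_one
  | insert a B ha ih =>
    have hB : Fam B π := hA.mono (Finset.subset_insert _ _)
    have ih' := ih hB fun i hi => hf i (Finset.mem_insert_of_mem hi)
    rw [Finset.prod_insert ha, Finset.prod_insert ha, ← ih']
    have hpa := hA.pd a (Finset.mem_insert_self _ _)
    rw [← ct_mul hpa.gd.ne (Gd.prod fun i hi => (hB.pd i hi).gd).ne ?_
      (hf a (Finset.mem_insert_self _ _)).per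
      (Pe.prod fun i hi => (hf i (Finset.mem_insert_of_mem hi)).per)]
    · congr 1
      funext m
      rw [Finset.prod_insert ha]
    · refine IsCoprime.prod_left fun i hi => cop_of hpa.pr ?_
      exact hA.ne i (Finset.mem_insert_of_mem hi) a (Finset.mem_insert_self _ _)
        (fun h => ha (h ▸ hi))

lemma prod_ev (hf : ∀ i ∈ A, Nc v (π i) (f i)) (x : RR) : ∏ i ∈ A, f i (-x) = ∏ i ∈ A, f i x :=
  Finset.prod_congr rfl fun i hi => (hf i hi).ev x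

lemma prod_b (hf : ∀ i ∈ A, Nc v (π i) (f i)) (x : RR) : v (∏ i ∈ A, f i x) ≤ 1 := by
  rw [map_prod]
  exact Finset.prod_le_one' fun i hi => (hf i hi).b x

lemma prod_z (hA : A.Nonempty) (hf : ∀ i ∈ A, Nc v (π i) (f i)) (x : RR)
    (hx : x ∈ sp (∏ i ∈ A, π i)) : ∏ i ∈ A, f i x = 0 := by
  obtain ⟨i, hi⟩ := hA
  refine Finset.prod_eq_zero hi ((hf i hi).z x ?_)
  rw [Ideal.mem_span_singleton] at hx ⊢
  exact (Finset.dvd_prod_of_mem π hi).trans hx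

lemma prod_ct (hv : v al < 1) (hA : Fam A π) (hne : A.Nonempty)
    (hf : ∀ i ∈ A, Nc v (π i) (f i)) :
    v (ct (∏ i ∈ A, π i) (fun m => ∏ i ∈ A, f i m)) ≤ v 4 := by
  classical
  obtain ⟨i, hi⟩ := hne
  have h4 : v (4 : ℂ) ≤ 1 := by
    rw [v_four]
    exact mul_le_one' (v_two_lt hv).le (v_two_lt hv).le
  rw [ct_prod hA hf, ← Finset.mul_prod_erase A _ hi, map_mul, map_prod]
  exact mul_le_of_le_of_le_one (hf i hi).ct (Finset.prod_le_one' fun j hj =>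
    (hf j (Finset.mem_of_mem_erase hj)).ct.trans h4)

lemma prod_mu (hf : ∀ i ∈ A, Nc v (π i) (f i)) {y : RR} (hy : ∀ i ∈ A, sy (π i) y = 1) (x : RR) :
    ∏ i ∈ A, f i (y * x) = ∏ i ∈ A, f i x :=
  Finset.prod_congr rfl fun i hi => (hf i hi).mu y (hy i hi) x

end prod

/-! ### the estimates -/

section est

variable (h : LD L Ω) (hv : v al < 1)
include h hv

lemma mf_le {n : RR} (hn : Go n) {x : RR} (hx : x ∉ sp n) : v (mf L (Ω * x / (n : ℂ))) ≤ 1 :=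
  (v_mf h hv (od_of h.lat hn hx)).1

lemma Wmf_le {n : RR} (hn : Go n) {φ : RR → ℂ} (hφ : Pe n φ) (hφe : ∀ x, φ (-x) = φ x)
    (hφb : ∀ x, v (φ x) ≤ 1) (hφ0 : ∀ x ∈ sp n, φ x = 0) {g : ℂ → ℂ} {G : ℂ → ℂ}
    (hg : ∀ z, g z = G (mf L z)) (hG : ∀ y, v y ≤ 1 → v (G y) ≤ 1) :
    v (Wg Ω g n φ) ≤ v 2 := by
  have h1 := Wg_even_le (v := v) h.lat (g := g) (fun z w hw => by rw [hg, hg, mf_per L hw])
    (fun z => by rw [hg, hg, mf_neg]) (K := 1) one_ne_zero hn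
    (fun x hx => by
      rw [hg, map_one]
      exact hG _ (mf_le h hv hn hx)) hφ hφe hφb hφ0
  rwa [map_one, one_mul] at h1

/-- removing a real prime element -/
lemma tr_le (hpq : ∀ l ∈ L.lattice, eta L l = p * l + q * (starRingEnd ℂ) l) {n c : RR}
    (hn : Go n) (hc : Go c) (hcr : ∃ m : ℤ, c = (m : RR)) {ψ : RR → ℂ} (hψ : Pe n ψ)
    (hψe : ∀ x, ψ (-x) = ψ x) (hψb : ∀ x, v (ψ x) ≤ 1) (hψ0 : ∀ x ∈ sp n, ψ x = 0)
    (hψc : v (ct n ψ) ≤ v 4) (hψq : ∀ m, ψ (c * m) = ψ m) :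
    v (Wg Ω (mf L) (c * n) (fun m => tr c m * ψ m)) ≤ v 8 ∧
    v (Wg Ω (fun z => mf L z ^ 3) (c * n) (fun m => tr c m * ψ m)) ≤ v 4 := by
  obtain ⟨r1, r2, r3, r4⟩ := v_real hv hc.m4 hcr
  obtain ⟨t1, -⟩ := v_td h hv
  have t0 := (td_sq h).2
  have h2 : v 2 < 1 := v_two_lt hv
  have h42 : v (4 : ℂ) ≤ v 2 := by
    rw [v_four]
    exact mul_le_of_le_one_right' h2.le
  have hbl : v (bl⁻¹) = 1 := by rw [map_inv₀, v_bl hv, inv_one]
  have hcn := hc.mul hn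
  have hI : ∀ m : ℤ, v (m : ℂ) ≤ 1 := v_int_le v
  have h7 : v (7 : ℂ) ≤ 1 := by exact_mod_cast hI 7
  have ht2 : v (td L Ω ^ 2) = 1 := by rw [map_pow, t1, one_pow]
  have ht02 : td L Ω ^ 2 ≠ 0 := pow_ne_zero 2 t0
  have a1 : v (Wg Ω (mf L) n ψ) ≤ v 2 :=
    Wmf_le h hv hn hψ hψe hψb hψ0 (g := mf L) (G := fun y => y) (fun _ => rfl) (fun _ hy => hy)
  have a2 : v (Wg Ω (b1 L Ω) n ψ) ≤ v 2 := by
    rw [Wg_b1 hn.gd.ne]
    refine v.map_add_le ?_ ?_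
    · refine v_half ?_
      have e : 2 * (7 / (2 * td L Ω) * ct n ψ) = 7 / td L Ω * ct n ψ := by field_simp
      rw [e, map_mul, map_div₀, t1, div_one, ← v_four]
      exact (mul_le_of_le_one_left' h7).trans hψc
    · rw [map_mul, t1, one_mul]
      exact a1
  set φ : RR → ℂ := fun m => tr c m * ψ m with hφd
  have a3 : v (Wg Ω (b1 L Ω) (c * n) φ) ≤ v 8 := by
    rw [hφd, fl_rem (gs_b1 h hpq).fl hn hc hψ hψq, map_mul, v_eight]
    exact mul_le_mul' r2 a2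
  have a4 : v (ct (c * n) φ) ≤ v 8 * v 4 := by
    rw [hφd, ct_rem hn hc hψ hψq, r1, map_mul]
    exact mul_le_mul' r3 hψc
  have a5 : v (Wg Ω (mf L) (c * n) φ) ≤ v 8 := by
    have e1 := Wg_b1 (L := L) (Ω := Ω) hcn.gd.ne φ
    have e2 : td L Ω * Wg Ω (mf L) (c * n) φ =
        Wg Ω (b1 L Ω) (c * n) φ - 7 / (2 * td L Ω) * ct (c * n) φ := by
      linear_combination -e1
    have e3 : v (td L Ω * Wg Ω (mf L) (c * n) φ) ≤ v 8 := by
      rw [e2]
      refine v.map_sub_le a3 (v_half ?_)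
      have e : 2 * (7 / (2 * td L Ω) * ct (c * n) φ) = 7 / td L Ω * ct (c * n) φ := by
        field_simp
      rw [e, map_mul, map_div₀, t1, div_one]
      refine (mul_le_of_le_one_left' h7).trans (a4.trans ?_)
      rw [mul_comm (v 2)]
      exact mul_le_mul' le_rfl h42
    rwa [map_mul, t1, one_mul] at e3
  have h1n : ∀ y : ℂ, v y ≤ 1 → v (y ^ 2) ≤ 1 ∧ v (y ^ 3) ≤ 1 := fun y hy =>
    ⟨by rw [map_pow]; exact pow_le_one' hy 2, by rw [map_pow]; exact pow_le_one' hy 3⟩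
  have hm : ∀ a b : ℂ, v a ≤ 1 → v b ≤ 1 → v (a * b) ≤ 1 := fun a b ha hb => by
    rw [map_mul]
    exact mul_le_one' ha hb
  have i2 : v (2 : ℂ) ≤ 1 := h2.le
  have i3 : v (3 : ℂ) ≤ 1 := by exact_mod_cast hI 3
  have i12 : v (12 : ℂ) ≤ 1 := by exact_mod_cast hI 12
  have i21 : v (21 : ℂ) ≤ 1 := by exact_mod_cast hI 21
  have i42 : v (42 : ℂ) ≤ 1 := by exact_mod_cast hI 42
  have i147 : v (147 : ℂ) ≤ 1 := by exact_mod_cast hI 147
  have a6 : v (Wg Ω (b2 L Ω) n ψ) ≤ 1 := by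
    refine (Wmf_le h hv hn hψ hψe hψb hψ0 (g := b2 L Ω)
      (G := fun y => 2 * bl⁻¹ + 7 * y + td L Ω ^ 2 * y ^ 2) (fun _ => rfl) fun y hy => ?_).trans i2
    refine v.map_add_le (v.map_add_le (hm _ _ i2 hbl.le) (hm _ _ h7 hy)) ?_
    exact hm _ _ ht2.le (h1n y hy).1
  have a7 : v (Wg Ω (b3 L Ω) n ψ) ≤ v 2 := by
    refine Wmf_le h hv hn hψ hψe hψb hψ0 (g := b3 L Ω)
      (G := fun y => td L Ω * (2 - (12 * bl⁻¹ - 3) * y - 21 * y ^ 2 - 2 * td L Ω ^ 2 * y ^ 3))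
      (fun _ => rfl) fun y hy => ?_
    refine hm _ _ t1.le (v.map_sub_le (v.map_sub_le (v.map_sub_le i2 ?_) ?_) ?_)
    · exact hm _ _ (v.map_sub_le (hm _ _ i12 hbl.le) i3) hy
    · exact hm _ _ i21 (h1n y hy).1
    · exact hm _ _ (hm _ _ i2 ht2.le) (h1n y hy).2
  refine ⟨a5, ?_⟩
  have e4 := Wg_mf3 (L := L) (Ω := Ω) hcn.gd.ne t0 φ
  rw [hφd, fl_rem (gs_b2 h hpq).fl hn hc hψ hψq, fl_rem (gs_b3 h).fl hn hc hψ hψq, ← hφd] at e4
  have e5 : v (td L Ω ^ 2 * Wg Ω (fun z => mf L z ^ 3) (c * n) φ) ≤ v 4 := by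
    refine v_half ?_
    rw [← mul_assoc, e4, mul_comm (v 2), ← v_eight]
    have d2 : ∀ a : ℂ, v a ≤ 1 → v (a / td L Ω ^ 2) ≤ 1 := fun a ha => by
      rw [map_div₀, ht2, div_one]
      exact ha
    refine v.map_sub_le (v.map_sub_le (v.map_add_le ?_ ?_) ?_) ?_
    · rw [map_mul]
      refine (mul_le_of_le_one_left' (v.map_add_le i2 (d2 _ (hm _ _ i42 hbl.le)))).trans
        (a4.trans ?_)
      exact mul_le_of_le_one_right' (h42.trans i2)
    · rw [map_mul]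
      exact (mul_le_of_le_one_left' (v.map_sub_le (v.map_add_le (d2 _ i147) i3)
        (hm _ _ i12 hbl.le))).trans a5
    · rw [map_mul, map_mul]
      refine (mul_le_of_le_one_left' (d2 _ i21)).trans ?_
      exact mul_le_of_le_of_le_one r3 a6
    · rw [map_mul, map_mul, map_div₀, t1, div_one, map_one, one_mul, v_eight]
      exact mul_le_mul' r4 a7
  rwa [map_mul, ht2, one_mul] at e5

end est

open Classical in
/-- the factors during the change -/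
noncomputable def Ff {ι : Type} (π : ι → RR) (c : RR) (T : Finset ι) (i : ι) (x : RR) : ℂ :=
  if i ∈ T then hc (π i) (c * x) else hc (π i) x

/-- one step -/
lemma flip_step (h : LD L Ω) (hv : v al < 1)
    (hpq : ∀ l ∈ L.lattice, eta L l = p * l + q * (starRingEnd ℂ) l)
    {ι : Type} [DecidableEq ι] {S : Finset ι} {π : ι → RR} {k : ι} (hS : Fi S π k)
    (h2 : 2 ≤ S.card) {c : RR} (hcc : ∀ i ∈ S, sy (π i) c = 1 ∨ sy (π i) c = -1)
    {T : Finset ι} {i : ι} (hi : i ∈ S) (hiT : i ∉ T) {g G : ℂ → ℂ}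
    (hg : ∀ z, g z = G (mf L z)) (hG : ∀ y, v y ≤ 1 → v (G y) ≤ 1)
    (htr : ∀ {n d : RR} (_ : Go n) (_ : Go d) (_ : ∃ m : ℤ, d = (m : RR)) {ψ : RR → ℂ}
      (_ : Pe n ψ) (_ : ∀ x, ψ (-x) = ψ x) (_ : ∀ x, v (ψ x) ≤ 1) (_ : ∀ x ∈ sp n, ψ x = 0)
      (_ : v (ct n ψ) ≤ v 4) (_ : ∀ m, ψ (d * m) = ψ m),
      v (Wg Ω g (d * n) (fun m => tr d m * ψ m)) ≤ v 4) :
    v (Wg Ω g (∏ j ∈ S, π j) (fun x => ∏ j ∈ S, Ff π c (insert i T) j x) -
      Wg Ω g (∏ j ∈ S, π j) (fun x => ∏ j ∈ S, Ff π c T j x)) ≤ v 4 := by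
  have hFn : ∀ j ∈ S, Nc v (π j) (Ff π c T j) := by
    intro j hj
    by_cases hjT : j ∈ T
    · have e : Ff π c T j = fun x => hc (π j) (c * x) := funext fun x => if_pos hjT
      rw [e]
      exact nc_c hv (hS.fam.pd j hj) (hS.real j hj) (hcc j hj)
    · have e : Ff π c T j = hc (π j) := funext fun x => if_neg hjT
      rw [e]
      exact nc_hc hv (hS.fam.pd j hj) (hS.real j hj)
  set A := S.erase i with hA
  have hAS : A ⊆ S := Finset.erase_subset _ _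
  have hAn : A.Nonempty := by
    rw [← Finset.card_pos, hA, Finset.card_erase_of_mem hi]
    omega
  have hAF : Fam A π := hS.fam.mono hAS
  have hFA : ∀ j ∈ A, Nc v (π j) (Ff π c T j) := fun j hj => hFn j (hAS hj)
  set n := ∏ j ∈ A, π j with hn
  set ψ : RR → ℂ := fun x => ∏ j ∈ A, Ff π c T j x with hψ
  have hng : Go n := Go.prod fun j hj => (hAF.pd j hj).go
  have hpi := hS.fam.pd i hi
  have e0 : ∏ j ∈ S, π j = π i * n := (Finset.mul_prod_erase S π hi).symm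
  have e1 : (fun x => ∏ j ∈ S, Ff π c T j x) = fun x => hc (π i) x * ψ x := by
    funext x
    rw [← Finset.mul_prod_erase S _ hi]
    congr 1
    exact if_neg hiT
  have e2 : (fun x => ∏ j ∈ S, Ff π c (insert i T) j x) = fun x => hc (π i) (c * x) * ψ x := by
    funext x
    rw [← Finset.mul_prod_erase S _ hi]
    congr 1
    · exact if_pos (Finset.mem_insert_self _ _)
    · refine Finset.prod_congr rfl fun j hj => ?_
      have hji : j ≠ i := (Finset.mem_erase.1 hj).1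
      unfold Ff
      by_cases hjT : j ∈ T
      · rw [if_pos hjT, if_pos (Finset.mem_insert_of_mem hjT)]
      · rw [if_neg hjT, if_neg fun hm => ?_]
        rcases Finset.mem_insert.1 hm with h3 | h3
        · exact hji h3
        · exact hjT h3
  rcases hc_c hpi (hcc i hi) with h3 | h3
  · have e3 : (fun x => hc (π i) (c * x) * ψ x) = fun x => hc (π i) x * ψ x := by
      funext x
      rw [congrFun h3 x]
    rw [e2, e1, e3, sub_self, map_zero]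
    exact zero_le
  · have hN0 : π i * n ≠ 0 := (hpi.go.mul hng).gd.ne
    have e3 : (fun x => hc (π i) (c * x) * ψ x) =
        fun x => tr (π i) x * ψ x + (-1) * (hc (π i) x * ψ x) := by
      funext x
      have := congrFun h3 x
      beta_reduce at this
      rw [this]
      ring
    rw [e2, e1, e0, e3, Wg_add g hN0 (fun x => tr (π i) x * ψ x)
      (fun x => (-1) * (hc (π i) x * ψ x)), Wg_smul g hN0 (-1) (fun x => hc (π i) x * ψ x)]
    have e4 : ∀ a b : ℂ, a + -1 * b - b = a - 2 * b := fun a b => by ring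
    rw [e4]
    refine v.map_sub_le ?_ ?_
    · refine htr hng hpi.go (hS.real i hi) (Pe.prod fun j hj => (hFA j hj).per)
        (prod_ev hFA) (prod_b hFA) (prod_z hAn hFA) (prod_ct hv hAF hAn hFA)
        (prod_mu hFA fun j hj => ?_)
      exact hS.s1 i hi j (hAS hj) (Finset.mem_erase.1 hj).1.symm
    · rw [map_mul, v_four]
      refine mul_le_mul' le_rfl ?_
      have h5 := Wmf_le h hv (n := ∏ j ∈ S, π j) (Go.prod fun j hj => (hS.fam.pd j hj).go)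
        (φ := fun x => ∏ j ∈ S, Ff π c T j x) (Pe.prod fun j hj => (hFn j hj).per)
        (prod_ev hFn) (prod_b hFn) (prod_z ⟨i, hi⟩ hFn) hg hG
      rwa [e1, e0] at h5

/-- **Flipping the signs.** -/
theorem flip [Fintype (RR ⧸ sp fR)] (h : LD L Ω) (hv : v al < 1)
    (hpq : ∀ l ∈ L.lattice, eta L l = p * l + q * (starRingEnd ℂ) l)
    {ι : Type} [DecidableEq ι] {S : Finset ι} {π : ι → RR} {k : ι} (hk : k ∈ S) (hS : Fi S π k)
    (h2 : 2 ≤ S.card) {c : RR} (hcc : ∀ i ∈ S, sy (π i) c = 1 ∨ sy (π i) c = -1) :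
    v (Wg Ω (mf L) (∏ i ∈ S, π i) (fun x => ∏ i ∈ S, hc (π i) (c * x)) -
      Wg Ω (mf L) (∏ i ∈ S, π i) (fun x => ∏ i ∈ S, hc (π i) x)) ≤ v 4 ∧
    v (Wg Ω (fun z => mf L z ^ 3) (∏ i ∈ S, π i) (fun x => ∏ i ∈ S, hc (π i) (c * x)) -
      Wg Ω (fun z => mf L z ^ 3) (∏ i ∈ S, π i) (fun x => ∏ i ∈ S, hc (π i) x)) ≤ v 4 := by
  have key : ∀ (g G : ℂ → ℂ) (hg : ∀ z, g z = G (mf L z)) (hG : ∀ y, v y ≤ 1 → v (G y) ≤ 1)
      (htr : ∀ {n d : RR} (_ : Go n) (_ : Go d) (_ : ∃ m : ℤ, d = (m : RR)) {ψ : RR → ℂ}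
        (_ : Pe n ψ) (_ : ∀ x, ψ (-x) = ψ x) (_ : ∀ x, v (ψ x) ≤ 1) (_ : ∀ x ∈ sp n, ψ x = 0)
        (_ : v (ct n ψ) ≤ v 4) (_ : ∀ m, ψ (d * m) = ψ m),
        v (Wg Ω g (d * n) (fun m => tr d m * ψ m)) ≤ v 4),
      v (Wg Ω g (∏ i ∈ S, π i) (fun x => ∏ i ∈ S, hc (π i) (c * x)) -
        Wg Ω g (∏ i ∈ S, π i) (fun x => ∏ i ∈ S, hc (π i) x)) ≤ v 4 := by
    intro g G hg hG htr
    have main : ∀ T : Finset ι, T ⊆ S →
        v (Wg Ω g (∏ j ∈ S, π j) (fun x => ∏ j ∈ S, Ff π c T j x) -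
          Wg Ω g (∏ j ∈ S, π j) (fun x => ∏ j ∈ S, hc (π j) x)) ≤ v 4 := by
      intro T
      induction T using Finset.induction_on with
      | empty =>
        intro _
        have e : (fun x => ∏ j ∈ S, Ff π c ∅ j x) = fun x => ∏ j ∈ S, hc (π j) x := by
          funext x
          exact Finset.prod_congr rfl fun j _ => if_neg (Finset.notMem_empty j)
        rw [e, sub_self, map_zero]
        exact zero_le
      | insert i T hiT ih =>
        intro hT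
        have h3 := flip_step h hv hpq hS h2 hcc (hT (Finset.mem_insert_self _ _)) hiT hg hG htr
        have h4 := v.map_add_le h3 (ih ((Finset.subset_insert _ _).trans hT))
        rwa [sub_add_sub_cancel] at h4
    have h5 := main S (Finset.Subset.refl S)
    have e : (fun x => ∏ j ∈ S, Ff π c S j x) = fun x => ∏ j ∈ S, hc (π j) (c * x) := by
      funext x
      exact Finset.prod_congr rfl fun j hj => if_pos hj
    rwa [e] at h5
  refine ⟨key (mf L) (fun y => y) (fun _ => rfl) (fun _ hy => hy) ?_,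
    key (fun z => mf L z ^ 3) (fun y => y ^ 3) (fun _ => rfl)
      (fun y hy => by rw [map_pow]; exact pow_le_one' hy 3) ?_⟩
  · intro n d hn hd hr ψ h3 h4 h5 h6 h7 h8
    exact (tr_le h hv hpq hn hd hr h3 h4 h5 h6 h7 h8).1.trans (v_le84 hv)
  · intro n d hn hd hr ψ h3 h4 h5 h6 h7 h8
    exact (tr_le h hv hpq hn hd hr h3 h4 h5 h6 h7 h8).2

/-- the case of one prime -/
theorem single (h : LD L Ω) (hv : v al < 1)
    (hpq : ∀ l ∈ L.lattice, eta L l = p * l + q * (starRingEnd ℂ) l) {ϖ : RR} (hP : PD ϖ)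
    (hr : ∃ m : ℤ, ϖ = (m : RR)) (h8 : ∃ u : RR, ϖ = -3 + 8 * u) :
    v (Wg Ω (mf L) ϖ (fun x => tr ϖ x) - 2) ≤ v 4 := by
  have hL := h.lat
  obtain ⟨r1, -, -, -⟩ := v_real hv hP.m4 hr
  obtain ⟨t1, t2⟩ := v_td h hv
  have t0 := (td_sq h).2
  have h2 : v 2 < 1 := v_two_lt hv
  obtain ⟨u, hu⟩ := h8
  have hu' : (ϖ : ℂ) = -3 + 8 * (u : ℂ) := by
    rw [hu]
    push_cast
    rfl
  have hu1 := v_RR hv u
  have hI : ∀ m : ℤ, v (m : ℂ) ≤ 1 := v_int_le v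
  -- the value at the point zero
  have w1 : Wg Ω (mf L) 1 (fun _ => 1) = 0 := by
    have f1 := fin_quot (one_ne_zero : (1 : RR) ≠ 0)
    let _ : Fintype (RR ⧸ sp (1 : RR)) := Fintype.ofFinite _
    rw [Wg_eq]
    refine Finset.sum_eq_zero fun x _ => ?_
    have e : ((1 : RR) : ℂ) = 1 := rfl
    unfold mf
    rw [if_pos, mul_zero]
    rw [e, div_one]
    exact hL.mem_mul _
  have e1 := fl_rem (gs_b1 h hpq).fl Go.one hP.go (φ := fun _ => 1) (fun _ _ _ => rfl)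
    (fun _ => rfl)
  rw [Wg_b1 (hP.go.mul Go.one).gd.ne, Wg_b1 one_ne_zero, w1, ct_one, ct_rem Go.one hP.go
    (φ := fun _ => 1) (fun _ _ _ => rfl) (fun _ => rfl), ct_one, r1, mul_one] at e1
  have e2 : (fun m => tr ϖ m * (1 : ℂ)) = fun m => tr ϖ m := funext fun m => mul_one _
  rw [e2, mul_one ϖ] at e1
  set Wt := Wg Ω (mf L) ϖ fun m => tr ϖ m with hWt
  have e3 : td L Ω ^ 2 * (Wt - 2) = 4 * (-11 + 49 * (u : ℂ) - 56 * (u : ℂ) ^ 2) -
      2 * ((td L Ω - 1) * (td L Ω - 1 + 2)) := by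
    have e4 : 7 / (2 * td L Ω) * (2 * td L Ω) = 7 := div_mul_cancel₀ _ (mul_ne_zero two_ne_zero t0)
    rw [hu'] at e1
    linear_combination td L Ω * e1 + (1 / 2 : ℂ) * (4 * (-3 + 8 * (u : ℂ)) * (1 - 2 * (u : ℂ))) * e4
  have e5 : v (td L Ω ^ 2 * (Wt - 2)) ≤ v 4 := by
    rw [e3]
    refine v.map_sub_le ?_ ?_
    · rw [map_mul]
      refine mul_le_of_le_one_right' ?_
      have i11 : v (-11 : ℂ) ≤ 1 := by exact_mod_cast hI (-11)
      have i49 : v (49 : ℂ) ≤ 1 := by exact_mod_cast hI 49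
      have i56 : v (56 : ℂ) ≤ 1 := by exact_mod_cast hI 56
      refine v.map_sub_le (v.map_add_le i11 ?_) ?_
      · rw [map_mul]; exact mul_le_one' i49 hu1
      · rw [map_mul, map_pow]; exact mul_le_one' i56 (pow_le_one' hu1 2)
    · rw [map_mul, map_mul, v_four]
      refine mul_le_mul' le_rfl (mul_le_of_le_of_le_one t2 ?_)
      exact v.map_add_le (t2.trans h2.le) h2.le
  rwa [map_mul, map_pow, t1, one_pow, one_mul] at e5

end Pool.Agent.J4.H67.EW
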