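import Pool.Agent.J4.H67.EW.S2
import Pool.Agent.J4.H67.EW.S3

/-!
# The induction over the subsets of the set of primes
-/

set_option autoImplicit false
set_option linter.unusedSectionVars false

open Filter
open scoped Topology PeriodPair

namespace Pool.Agent.J4.H67.EW

open Pool.Agent.Y698 (al bl RR aR bR fR nR cj cX cY e7 e7_mul e7_neg e7_one e7_per e7_eq_zero e7_sq
  fR_ne fin_quot nR_nonneg mul_cj irr_fR not_mem_of_cop LD v_two_lt v_bl bl_ne qch GG)
open Pool.Agent.Y698.SG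
open H667R3 Pool.Agent.W192.HK Pool.Agent.TH936.CM Pool.Agent.TH936.PU
open Pool.Agent.TH936.CW (E1 ek)
open Pool.Agent.J4.H67.AW

variable {Γ : Type*} [LinearOrderedCommGroupWithZero Γ] {v : Valuation ℂ Γ}
variable {L : PeriodPair} {Ω p q : ℂ}

lemma iv_four (v : Valuation ℂ Γ) : v 4 = v 2 ^ 2 := by
  rw [← map_pow]
  norm_num

lemma iv_eight (v : Valuation ℂ Γ) : v 8 = v 2 ^ 3 := by
  rw [← map_pow]
  norm_num

/-- products of numbers which are `2` modulo `4` -/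
lemma iprod_two {ι : Type} [DecidableEq ι] (s : Finset ι) {f : ι → ℂ}
    (hf : ∀ i ∈ s, v (f i - 2) ≤ v 4) :
    v (∏ i ∈ s, f i - 2 ^ s.card) ≤ v 2 ^ (s.card + 1) ∧ v (∏ i ∈ s, f i) ≤ v 2 ^ s.card := by
  have t21 : v (2 : ℂ) ≤ 1 := v_num v 2
  induction s using Finset.induction_on with
  | empty => simp
  | insert a s ha ih =>
    obtain ⟨i1, i2⟩ := ih fun i hi => hf i (Finset.mem_insert_of_mem hi)
    rw [Finset.prod_insert ha, Finset.card_insert_of_notMem ha]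
    set P := ∏ i ∈ s, f i
    have h1 : v (f a * P - 2 ^ (s.card + 1)) ≤ v 2 ^ (s.card + 1 + 1) := by
      have e : f a * P - 2 ^ (s.card + 1) = (f a - 2) * P + 2 * (P - 2 ^ s.card) := by ring
      rw [e]
      refine v_add_le ?_ ?_
      · rw [map_mul]
        calc v (f a - 2) * v P ≤ v 4 * v 2 ^ s.card :=
              mul_le_mul' (hf a (Finset.mem_insert_self _ _)) i2
          _ = v 2 ^ (s.card + 1 + 1) := by rw [iv_four, ← pow_add]; congr 1; ring
      · rw [map_mul, pow_succ' (v 2) (s.card + 1)]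
        exact mul_le_mul' le_rfl i1
    refine ⟨h1, ?_⟩
    have e : f a * P = (f a * P - 2 ^ (s.card + 1)) + 2 ^ (s.card + 1) := by ring
    rw [e]
    refine v_add_le (h1.trans ?_) (by rw [map_pow])
    rw [pow_succ (v 2) (s.card + 1)]
    exact mul_le_of_le_one_right' t21

/-- the multipliers -/
lemma k0_k {ϖ : RR} (he : e7 ϖ = 1) (h8 : ∃ u : RR, ϖ = -3 + 8 * u) (hv : v al < 1) :
    v (k0 ϖ - 1) ≤ v 4 := by
  obtain ⟨u, hu⟩ := h8
  unfold k0
  have e : (ϖ : ℂ) * e7 ϖ - 1 = 4 * (((-1 + 2 * u : RR)) : ℂ) := by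
    rw [he, hu]
    push_cast
    have e3 : ((3 : RR) : ℂ) = 3 := rfl
    have e8 : ((8 : RR) : ℂ) = 8 := rfl
    have e2 : ((2 : RR) : ℂ) = 2 := rfl
    have e1 : ((1 : RR) : ℂ) = 1 := rfl
    rw [e3, e8, e2]
    ring
  rw [e, map_mul]
  exact mul_le_of_le_one_right' (v_RR hv _)

lemma k0_o {ϖ : RR} (he : e7 ϖ = -1) (h4 : ∃ u : RR, ϖ = 1 + 4 * u) (hv : v al < 1) :
    v (k0 ϖ - 1 - 2 * (-1)) ≤ v 4 ∧ v ((k0 ϖ - 1) - 2) ≤ v 4 := by
  obtain ⟨u, hu⟩ := h4
  unfold k0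
  have e : (ϖ : ℂ) * e7 ϖ - 1 - 2 = 4 * (((-1 - u : RR)) : ℂ) := by
    rw [he, hu]
    push_cast
    have e4 : ((4 : RR) : ℂ) = 4 := rfl
    rw [e4]
    ring
  have e' : (ϖ : ℂ) * e7 ϖ - 1 - 2 * (-1) = 4 * (((- u : RR)) : ℂ) := by
    rw [he, hu]
    push_cast
    have e4 : ((4 : RR) : ℂ) = 4 := rfl
    rw [e4]
    ring
  rw [e, e', map_mul, map_mul]
  exact ⟨mul_le_of_le_one_right' (v_RR hv _), mul_le_of_le_one_right' (v_RR hv _)⟩

lemma Pk_one {ι : Type} [DecidableEq ι] {S0 S A : Finset ι} {π : ι → RR} {k : ι}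
    (hF : Fi S0 π k) (hS : S ⊆ S0) (hA : A ⊆ S) : Pk k0 π S A = ∏ i ∈ S \ A, (k0 (π i) - 1) := by
  unfold Pk
  refine Finset.prod_congr rfl fun i hi => ?_
  rw [Finset.mem_sdiff] at hi
  congr 1
  refine Finset.prod_eq_one fun j hj => ?_
  exact hF.s1 i (hS hi.1) j (hS (hA hj)) (fun h => hi.2 (h ▸ hj))

/-- **The induction.** -/
theorem ind_c (hv : v al < 1) {ι : Type} [DecidableEq ι] {S0 : Finset ι} {π : ι → RR} {k : ι}
    (hF : Fi S0 π k) {c Y : Finset ι → ℂ}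
    (R : ∀ S ⊆ S0, ∑ A ∈ S.powerset, Pk k0 π S A * c A = 2 ^ S.card * Y S)
    (Y1 : ∀ S ⊆ S0, v (Y S) ≤ v 4)
    (Y2 : ∀ S ⊆ S0, k ∈ S → 2 ≤ S.card → v (Y S) ≤ v 8)
    (Y3 : k ∈ S0 → v (Y {k} - 4) ≤ v 8) :
    ∀ S : Finset ι, S ⊆ S0 → v (c S) ≤ v 2 ^ (S.card + 2) ∧
      (k ∈ S → v (c S - 2 ^ (S.card + 2)) ≤ v 2 ^ (S.card + 3)) := by
  have t2 := v_two_lt hv
  intro S
  induction S using Finset.strongInduction with
  | H S ih =>
    intro hSS
    have hS := hF.fam.mono hSS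
    have s1 := R S hSS
    have pS : Pk k0 π S S = 1 := by
      unfold Pk
      rw [Finset.sdiff_self, Finset.prod_empty]
    have hA : ∀ A ∈ S.powerset.erase S, v (Pk k0 π S A) ≤ v 2 ^ (S \ A).card ∧
        v (c A) ≤ v 2 ^ (A.card + 2) ∧ S.card = (S \ A).card + A.card := by
      intro A hA
      rw [Finset.mem_erase, Finset.mem_powerset] at hA
      have hss : A ⊂ S := hA.2.ssubset_of_ne hA.1
      exact ⟨v_Pk hA.2 hS fun i hi => v_k0 hv (hS.pd i hi), (ih A hss (hA.2.trans hSS)).1,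
        (Finset.card_sdiff_add_card_eq_card hA.2).symm⟩
    refine ⟨?_, fun hk => ?_⟩
    · rw [← Finset.add_sum_erase _ _ (Finset.mem_powerset_self S), pS, one_mul] at s1
      have e : c S = 2 ^ S.card * Y S - ∑ A ∈ S.powerset.erase S, Pk k0 π S A * c A := by
        linear_combination s1
      rw [e]
      refine v_sub_le ?_ (v.map_sum_le fun A hA' => ?_)
      · rw [map_mul, map_pow, pow_add, ← iv_four]
        exact mul_le_mul' le_rfl (Y1 S hSS)
      · obtain ⟨a1, a2, a3⟩ := hA A hA'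
        rw [map_mul]
        calc v (Pk k0 π S A) * v (c A) ≤ v 2 ^ (S \ A).card * v 2 ^ (A.card + 2) :=
              mul_le_mul' a1 a2
          _ = v 2 ^ (S.card + 2) := by rw [← pow_add, a3, add_assoc]
    · set B := S.erase k with hB
      have hkB : k ∉ B := Finset.notMem_erase _ _
      have hSB : insert k B = S := Finset.insert_erase hk
      have hcB : S.card = B.card + 1 := by rw [← hSB, Finset.card_insert_of_notMem hkB]
      have hBS : B ⊆ S := Finset.erase_subset _ _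
      set g : ℂ := 2 ^ (S.card + 2) with hg
      have vg : v g = v 2 ^ (S.card + 2) := by rw [hg, map_pow]
      have s2 : ∑ A ∈ S.powerset, Pk k0 π S A * c A =
          ∑ t ∈ B.powerset, Pk k0 π S t * c t +
            ∑ t ∈ B.powerset, Pk k0 π S (insert k t) * c (insert k t) := by
        have := Finset.sum_powerset_insert hkB (fun A => Pk k0 π S A * c A)
        rw [hSB] at this
        exact this
      have s3 : ∑ t ∈ B.powerset, Pk k0 π S (insert k t) * c (insert k t) =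
          c S + ∑ t ∈ B.powerset.erase B, Pk k0 π S (insert k t) * c (insert k t) := by
        rw [← Finset.add_sum_erase _ (fun t => Pk k0 π S (insert k t) * c (insert k t))
          (Finset.mem_powerset_self B), hSB, pS, one_mul]
      rw [s2, s3] at s1
      -- the first sum
      have T1 : v (∑ t ∈ B.powerset, Pk k0 π S t * c t) ≤ v 2 ^ (S.card + 3) := by
        refine v.map_sum_le fun t ht => ?_
        rw [Finset.mem_powerset] at ht
        have htS : t ⊆ S := ht.trans hBS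
        have hkt : k ∉ t := fun h => hkB (ht h)
        have hne : t ≠ S := fun h => hkt (h ▸ hk)
        obtain ⟨a1, a2, a3⟩ := hA t (Finset.mem_erase.2 ⟨hne, Finset.mem_powerset.2 htS⟩)
        have hkd : k ∈ S \ t := Finset.mem_sdiff.2 ⟨hk, hkt⟩
        have hc1 : (S \ t).card = ((S \ t).erase k).card + 1 := by
          rw [Finset.card_erase_of_mem hkd]
          have := Finset.card_pos.2 ⟨k, hkd⟩
          omega
        have b1 : v (Pk k0 π S t) ≤ v 2 ^ ((S \ t).card + 1) := by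
          rw [Pk_one hF hSS htS, ← Finset.mul_prod_erase _ _ hkd, map_mul, hc1]
          have b2 : v (k0 (π k) - 1) ≤ v 2 ^ 2 := by
            rw [← iv_four]
            exact k0_k hF.ke hF.k8 hv
          have b3 : v (∏ i ∈ (S \ t).erase k, (k0 (π i) - 1)) ≤ v 2 ^ ((S \ t).erase k).card := by
            rw [map_prod, ← Finset.prod_const]
            refine Finset.prod_le_prod' fun i hi => ?_
            exact v_k0 hv (hS.pd i (Finset.mem_sdiff.1 (Finset.mem_of_mem_erase hi)).1)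
          calc _ ≤ v 2 ^ 2 * v 2 ^ ((S \ t).erase k).card := mul_le_mul' b2 b3
            _ = _ := by rw [← pow_add]; congr 1; ring
        rw [map_mul]
        calc v (Pk k0 π S t) * v (c t) ≤ v 2 ^ ((S \ t).card + 1) * v 2 ^ (t.card + 2) :=
              mul_le_mul' b1 a2
          _ = v 2 ^ (S.card + 3) := by rw [← pow_add, a3]; congr 1; ring
      -- the second sum
      have T2 : v (∑ t ∈ B.powerset.erase B, (Pk k0 π S (insert k t) * c (insert k t) - g)) ≤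
          v 2 ^ (S.card + 3) := by
        refine v.map_sum_le fun t ht => ?_
        rw [Finset.mem_erase, Finset.mem_powerset] at ht
        have hkt : k ∉ t := fun h => hkB (ht.2 h)
        have hiS : insert k t ⊆ S := by
          rw [← hSB]
          exact Finset.insert_subset_insert _ ht.2
        have hne : insert k t ≠ S := by
          intro h
          apply ht.1
          rw [← Finset.erase_insert hkt, h]
        have hss : insert k t ⊂ S := hiS.ssubset_of_ne hne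
        obtain ⟨a1, a2, a3⟩ := hA _ (Finset.mem_erase.2 ⟨hne, Finset.mem_powerset.2 hiS⟩)
        have a4 := (ih _ hss (hiS.trans hSS)).2 (Finset.mem_insert_self _ _)
        set A := insert k t with hAd
        have b1 : v (Pk k0 π S A - 2 ^ (S \ A).card) ≤ v 2 ^ ((S \ A).card + 1) := by
          rw [Pk_one hF hSS hiS]
          refine (iprod_two _ fun i hi => ?_).1
          rw [Finset.mem_sdiff] at hi
          have hik : i ≠ k := fun h => hi.2 (h ▸ Finset.mem_insert_self _ _)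
          exact (k0_o (hF.oe i (hSS hi.1) hik) (hS.pd i hi.1).m4 hv).2
        have e : Pk k0 π S A * c A - g = (Pk k0 π S A - 2 ^ (S \ A).card) * c A +
            2 ^ (S \ A).card * (c A - 2 ^ (A.card + 2)) := by
          rw [hg, a3, add_assoc, pow_add]
          ring
        rw [e]
        refine v_add_le ?_ ?_
        · rw [map_mul]
          calc _ ≤ v 2 ^ ((S \ A).card + 1) * v 2 ^ (A.card + 2) := mul_le_mul' b1 a2
            _ = _ := by rw [← pow_add, a3]; congr 1; ring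
        · rw [map_mul, map_pow]
          calc _ ≤ v 2 ^ (S \ A).card * v 2 ^ (A.card + 3) := mul_le_mul' le_rfl a4
            _ = _ := by rw [← pow_add, a3, add_assoc]
      -- the number of terms
      have hn : ∑ t ∈ B.powerset.erase B, (Pk k0 π S (insert k t) * c (insert k t) - g) =
          ∑ t ∈ B.powerset.erase B, Pk k0 π S (insert k t) * c (insert k t) -
            (2 ^ B.card - 1) * g := by
        rw [Finset.sum_sub_distrib, Finset.sum_const, Finset.card_erase_of_mem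
          (Finset.mem_powerset_self B), Finset.card_powerset, nsmul_eq_mul,
          Nat.cast_sub Nat.one_le_two_pow]
        push_cast
        ring
      have e : c S - g = (2 ^ S.card * Y S - 2 ^ B.card * g) -
          ∑ t ∈ B.powerset, Pk k0 π S t * c t -
          ∑ t ∈ B.powerset.erase B, (Pk k0 π S (insert k t) * c (insert k t) - g) := by
        rw [hn]
        linear_combination s1
      rw [e]
      refine v_sub_le (v_sub_le ?_ T1) T2
      rcases Nat.eq_zero_or_pos B.card with h0 | h0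
      · have hB0 : B = ∅ := Finset.card_eq_zero.1 h0
        have hS1 : S = {k} := by rw [← hSB, hB0]; rfl
        have hS1c : S.card = 1 := by rw [hcB, h0]
        have e2 : 2 ^ S.card * Y S - 2 ^ B.card * g = 2 * (Y {k} - 4) := by
          rw [hg, hS1c, h0, hS1]
          ring
        rw [e2, map_mul, hS1c]
        calc _ ≤ v 2 * v 8 := mul_le_mul' le_rfl (Y3 (hSS hk))
          _ = v 2 ^ (1 + 3) := by rw [iv_eight, ← pow_succ']
      · refine v_sub_le ?_ ?_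
        · rw [map_mul, map_pow, pow_add, ← iv_eight]
          exact mul_le_mul' le_rfl (Y2 S hSS hk (by omega))
        · rw [map_mul, map_pow, vg, ← pow_add]
          exact pow_le_pow_right_of_le_one' t2.le (by omega)

/-! ### the bounds -/

lemma icop_not {ϖ c : RR} (hP : PD ϖ) (h : IsCoprime c ϖ) : c ∉ sp ϖ := by
  intro hm
  rw [Ideal.mem_span_singleton] at hm
  exact hP.pr.not_isUnit (h.symm.isUnit_of_dvd' dvd_rfl hm)

lemma ihc_c {ϖ c : RR} (hP : PD ϖ) (h : IsCoprime c ϖ) (x : RR) :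
    hc ϖ (c * (c * x)) = hc ϖ x ∧ hc ϖ (c * x) = (sy ϖ c * sy ϖ x + tr ϖ x) / 2 := by
  have h1 := icop_not hP h
  have h2 : sy ϖ c ^ 2 = 1 := sq_eq_one_iff.2 (sy_sgn h1)
  unfold hc
  rw [hP.mul, hP.mul, tr_mul hP.pr h1, tr_mul hP.pr h1]
  refine ⟨?_, rfl⟩
  linear_combination (sy ϖ x / 2) * h2

lemma Fi.mono {ι : Type} {S0 S : Finset ι} {π : ι → RR} {k : ι} (hF : Fi S0 π k) (hS : S ⊆ S0) :
    Fi S π k := by
  refine ⟨hF.fam.mono hS, fun i hi => hF.real i (hS hi), fun i hi j hj => hF.s1 i (hS hi) j (hS hj),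
    hF.kf, hF.ka, hF.ke, hF.k8, fun i hi => hF.oe i (hS hi)⟩

lemma iod_x (hL : IsLat L RR Ω) {n : RR} (hn : Go n) {x : RR} (hx : x ∉ sp n) :
    Od L (Ω * x / (n : ℂ)) := by
  refine ⟨fun h => hx ((div_mem_iff hL hn.gd.ne x).1 h), ?_⟩
  obtain ⟨N, hN, d, hd⟩ := go_norm hn
  refine ⟨N, hN, ?_⟩
  have hn0 := coe_ne hn.gd.ne
  have h2 : (n : ℂ) * (d : ℂ) = N := by
    have := congrArg (fun t : RR => (t : ℂ)) hd
    push_cast at this
    exact this
  have e : (N : ℂ) * (Ω * x / (n : ℂ)) = Ω * ((d * x : RR) : ℂ) := by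
    rw [← h2]
    push_cast
    field_simp
  rw [e]
  exact hL.mem_mul _

section
variable [Fintype (RR ⧸ sp fR)]

omit [Fintype (RR ⧸ sp fR)] in
/-- the sums of the even functions are even -/
lemma iWmf_le (h : LD L Ω) (hv : v al < 1) {n : RR} (hn : Go n) {φ : RR → ℂ}
    (hφ : Pe n φ) (hφe : ∀ x, φ (-x) = φ x) (hφb : ∀ x, v (φ x) ≤ 1) (hφ0 : ∀ x ∈ sp n, φ x = 0) :
    v (Wg Ω (mf L) n φ) ≤ v 2 ∧ v (Wg Ω (fun z => mf L z ^ 3) n φ) ≤ v 2 := by
  have hL := h.lat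
  have h1 := Wg_even_le (v := v) hL (g := mf L) (fun z w hw => mf_per L hw) (mf_neg L)
    (K := 1) one_ne_zero hn (fun x hx => by
      rw [map_one]
      exact (v_mf h hv (iod_x hL hn hx)).1) hφ hφe hφb hφ0
  have h2 := Wg_even_le (v := v) hL (g := fun z => mf L z ^ 3)
    (fun z w hw => by rw [mf_per L hw]) (fun z => by rw [mf_neg L])
    (K := 1) one_ne_zero hn (fun x hx => by
      rw [map_one]
      exact v_pow_le (v_mf h hv (iod_x hL hn hx)).1 3) hφ hφe hφb hφ0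
  rw [map_one, one_mul] at h1 h2
  exact ⟨h1, h2⟩

/-- **The main theorem of the induction.** -/
theorem ind_main (h : LD L Ω) (hv : v al < 1)
    (hpq : ∀ l ∈ L.lattice, eta L l = p * l + q * (starRingEnd ℂ) l) {H : ℂ → ℂ}
    (hle : ∀ n : RR, Go n → ∀ φ : RR → ℂ, Pe n φ → (∀ x, φ (-x) = φ x) → (∀ x, v (φ x) ≤ 1) →
      v (Wg Ω (Gx Ω H) n φ) ≤ v 4)
    (hJ : ∀ n : RR, Go n → ∀ φ : RR → ℂ, Pe n φ → (∀ x, φ (-x) = φ x) → (∀ x, v (φ x) ≤ 1) →
      v (Wg Ω (Gx Ω H) n φ -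
        2 * Wg Ω (fun u => ∑ y : RR ⧸ sp fR, Jf L (Ω * y.out / fR + u) - Jf L u) n φ) ≤ v 8)
    {ι : Type} [DecidableEq ι] {S0 : Finset ι} {π : ι → RR} {k : ι} (hF : Fi S0 π k)
    (hk : k ∈ S0) {D : RR → (RR → ℂ) → ℂ}
    (hD : ∀ n : RR, Go n → ∀ φ : RR → ℂ, Pe n φ →
      D n φ = Wg Ω (Gx Ω H) n (fun x => φ (bR * (bR * x))))
    (hR : ∀ S ⊆ S0, ∑ A ∈ S.powerset, Pk k0 π S A *
      D (∏ i ∈ A, π i) (fun x => ∏ i ∈ A, sy (π i) x) =
      2 ^ S.card * D (∏ i ∈ S, π i) (fun x => ∏ i ∈ S, hc (π i) x)) :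
    v (D (∏ i ∈ S0, π i) (fun x => ∏ i ∈ S0, sy (π i) x) - 2 ^ (S0.card + 2)) ≤
      v 2 ^ (S0.card + 3) := by
  classical
  have hL := h.lat
  have facts : ∀ S ⊆ S0, Go (∏ i ∈ S, π i) ∧
      Pe (∏ i ∈ S, π i) (fun x => ∏ i ∈ S, hc (π i) x) ∧
      (∀ x, ∏ i ∈ S, hc (π i) (-x) = ∏ i ∈ S, hc (π i) x) ∧
      (∀ x, v (∏ i ∈ S, hc (π i) x) ≤ 1) ∧
      (∀ c : RR, (∀ i ∈ S, IsCoprime c (π i)) → ∀ x,
        ∏ i ∈ S, hc (π i) (c * (c * x)) = ∏ i ∈ S, hc (π i) x) ∧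
      D (∏ i ∈ S, π i) (fun x => ∏ i ∈ S, hc (π i) x) =
        Wg Ω (Gx Ω H) (∏ i ∈ S, π i) (fun x => ∏ i ∈ S, hc (π i) x) := by
    intro S hS
    have hf := hF.fam.mono hS
    have f1 : Go (∏ i ∈ S, π i) := Go.prod fun i hi => (hf.pd i hi).go
    have f2 : Pe (∏ i ∈ S, π i) (fun x => ∏ i ∈ S, hc (π i) x) := Pe.prod fun q _ => hc_per (π q)
    have f5 : ∀ c : RR, (∀ i ∈ S, IsCoprime c (π i)) → ∀ x,
        ∏ i ∈ S, hc (π i) (c * (c * x)) = ∏ i ∈ S, hc (π i) x := fun c hc' x =>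
      Finset.prod_congr rfl fun i hi => (ihc_c (hf.pd i hi) (hc' i hi) x).1
    refine ⟨f1, f2, fun x => Finset.prod_congr rfl fun i hi => hc_neg (hf.pd i hi) x,
      fun x => (hcprod S π x).1, f5, ?_⟩
    rw [hD _ f1 _ f2]
    congr 1
    funext x
    exact f5 bR (fun i hi => go_two (hf.pd i hi).go bR_dvd) x
  have red : ∀ S ⊆ S0, k ∈ S → v (D (∏ i ∈ S, π i) (fun x => ∏ i ∈ S, hc (π i) x) -
      2 * (Wg Ω (fun z => mf L z ^ 3) (∏ i ∈ S, π i) (fun x => ∏ i ∈ S, hc (π i) x) +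
        Wg Ω (fun z => mf L z ^ 3) (∏ i ∈ S, π i) (fun x => ∏ i ∈ S, hc (π i) (fR * x)) +
        Wg Ω (mf L) (∏ i ∈ S, π i) (fun x => ∏ i ∈ S, hc (π i) (fR * x)) +
        Wg Ω (mf L) (∏ i ∈ S, π i) (fun x => ∏ i ∈ S, hc (π i) (aR * x)))) ≤ v 8 ∧
      v (Wg Ω (mf L) (∏ i ∈ S, π i) (fun x => ∏ i ∈ S, hc (π i) x)) ≤ v 2 ∧
      v (Wg Ω (fun z => mf L z ^ 3) (∏ i ∈ S, π i) (fun x => ∏ i ∈ S, hc (π i) x)) ≤ v 2 := by
    intro S hS hkS
    have hf := hF.fam.mono hS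
    obtain ⟨f1, f2, f3, f4, f5, f6⟩ := facts S hS
    have f0 : ∀ x ∈ sp (∏ i ∈ S, π i), ∏ i ∈ S, hc (π i) x = 0 := by
      intro x hx
      refine Finset.prod_eq_zero hkS ((hc_val (π k) x).2 ?_)
      rw [Ideal.mem_span_singleton] at hx ⊢
      exact (Finset.dvd_prod_of_mem π hkS).trans hx
    have h1 := hJ _ f1 _ f2 f3 f4
    have h2 := J_red (v := v) h hv hpq f1 f2 f3 f4 f0
      (f5 aR fun i hi => go_two (hf.pd i hi).go aR_dvd) (f5 fR fun i hi => (hf.pd i hi).cop)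
    rw [f6]
    refine ⟨?_, iWmf_le h hv f1 f2 f3 f4 f0⟩
    set W := Wg Ω (Gx Ω H) (∏ i ∈ S, π i) (fun x => ∏ i ∈ S, hc (π i) x)
    set W1 := Wg Ω (fun u => ∑ y : RR ⧸ sp fR, Jf L (Ω * y.out / fR + u) - Jf L u) (∏ i ∈ S, π i)
      (fun x => ∏ i ∈ S, hc (π i) x)
    set Sg := Wg Ω (fun z => mf L z ^ 3) (∏ i ∈ S, π i) (fun x => ∏ i ∈ S, hc (π i) x) +
        Wg Ω (fun z => mf L z ^ 3) (∏ i ∈ S, π i) (fun x => ∏ i ∈ S, hc (π i) (fR * x)) +
        Wg Ω (mf L) (∏ i ∈ S, π i) (fun x => ∏ i ∈ S, hc (π i) (fR * x)) +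
        Wg Ω (mf L) (∏ i ∈ S, π i) (fun x => ∏ i ∈ S, hc (π i) (aR * x))
    have e : W - 2 * Sg = (W - 2 * W1) + 2 * (W1 - Sg) := by ring
    rw [e]
    refine v_add_le h1 ?_
    rw [map_mul, iv_eight, pow_succ']
    refine mul_le_mul' le_rfl ?_
    rw [← iv_four]
    exact h2
  refine ((ind_c hv hF (c := fun A => D (∏ i ∈ A, π i) (fun x => ∏ i ∈ A, sy (π i) x))
    (Y := fun A => D (∏ i ∈ A, π i) (fun x => ∏ i ∈ A, hc (π i) x)) hR ?_ ?_ ?_ S0 le_rfl).2 hk)
  · intro S hS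
    obtain ⟨f1, f2, f3, f4, f5, f6⟩ := facts S hS
    rw [f6]
    exact hle _ f1 _ f2 f3 f4
  · intro S hS hkS h2
    obtain ⟨r1, r2, r3⟩ := red S hS hkS
    have hf := hF.fam.mono hS
    obtain ⟨g1, g2⟩ := flip h hv hpq hkS (hF.mono hS) h2 (c := fR) (v := v)
      fun i hi => sy_sgn (icop_not (hf.pd i hi) (hf.pd i hi).cop)
    obtain ⟨g3, -⟩ := flip h hv hpq hkS (hF.mono hS) h2 (c := aR) (v := v)
      fun i hi => sy_sgn (icop_not (hf.pd i hi) (go_two (hf.pd i hi).go aR_dvd))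
    set W := D (∏ i ∈ S, π i) (fun x => ∏ i ∈ S, hc (π i) x)
    set a := Wg Ω (fun z => mf L z ^ 3) (∏ i ∈ S, π i) (fun x => ∏ i ∈ S, hc (π i) x)
    set b := Wg Ω (fun z => mf L z ^ 3) (∏ i ∈ S, π i) (fun x => ∏ i ∈ S, hc (π i) (fR * x))
    set c := Wg Ω (mf L) (∏ i ∈ S, π i) (fun x => ∏ i ∈ S, hc (π i) (fR * x))
    set d := Wg Ω (mf L) (∏ i ∈ S, π i) (fun x => ∏ i ∈ S, hc (π i) (aR * x))
    set f := Wg Ω (mf L) (∏ i ∈ S, π i) (fun x => ∏ i ∈ S, hc (π i) x)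
    have e : W = (W - 2 * (a + b + c + d)) + 2 * ((b - a) + (c - f) + (d - f)) +
        2 * (2 * a) + 2 * (2 * f) := by ring
    have k1 : ∀ z : ℂ, v z ≤ v 4 → v (2 * z) ≤ v 8 := by
      intro z hz
      rw [map_mul, iv_eight, pow_succ']
      refine mul_le_mul' le_rfl ?_
      rw [← iv_four]
      exact hz
    have k2 : ∀ z : ℂ, v z ≤ v 2 → v (2 * z) ≤ v 4 := by
      intro z hz
      rw [map_mul, iv_four, pow_two]
      exact mul_le_mul' le_rfl hz
    rw [e]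
    exact v_add_le (v_add_le (v_add_le r1 (k1 _ (v_add_le (v_add_le g2 g1) g3)))
      (k1 _ (k2 _ r3))) (k1 _ (k2 _ r2))
  · intro _
    obtain ⟨r1, r2, r3⟩ := red {k} (Finset.singleton_subset_iff.2 hk) (Finset.mem_singleton_self k)
    have hP := hF.fam.pd k hk
    have hs := single (v := v) h hv hpq hP (hF.real k hk) hF.k8
    simp only [Finset.prod_singleton] at r1 r2 r3 ⊢
    have e1 : (fun x => hc (π k) (fR * x)) = fun x => hc (π k) x := by
      funext x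
      rw [(ihc_c hP hP.cop x).2, hF.kf]
      unfold hc
      ring
    have e2 : (fun x => tr (π k) x) = fun x => hc (π k) x + hc (π k) (aR * x) := by
      funext x
      rw [(ihc_c hP (go_two hP.go aR_dvd) x).2, hF.ka]
      unfold hc
      ring
    rw [e2, Wg_add _ hP.pr.ne_zero] at hs
    rw [e1] at r1
    set W := D (π k) (fun x => hc (π k) x)
    set a := Wg Ω (fun z => mf L z ^ 3) (π k) (fun x => hc (π k) x)
    set d := Wg Ω (mf L) (π k) (fun x => hc (π k) (aR * x))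
    set f := Wg Ω (mf L) (π k) (fun x => hc (π k) x)
    have e : W - 4 = (W - 2 * (a + a + f + d)) + 2 * (f + d - 2) + 2 * (2 * a) := by ring
    have k1 : ∀ z : ℂ, v z ≤ v 4 → v (2 * z) ≤ v 8 := by
      intro z hz
      rw [map_mul, iv_eight, pow_succ']
      refine mul_le_mul' le_rfl ?_
      rw [← iv_four]
      exact hz
    have k2 : ∀ z : ℂ, v z ≤ v 2 → v (2 * z) ≤ v 4 := by
      intro z hz
      rw [map_mul, iv_four, pow_two]
      exact mul_le_mul' le_rfl hz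
    rw [e]
    exact v_add_le (v_add_le r1 (k1 _ hs)) (k1 _ (k2 _ r3))

end

/-! ### the numbers of odd order `e = 2 m + 3` -/

lemma iv_Jf (h : LD L Ω) (hv : v al < 1) {z : ℂ} (hz : Od L z) : v (Jf L z) ≤ 1 := by
  have h1 := (v_mf h hv hz).1
  unfold Jf
  exact v_add_le (v_add_le (v_add_le h1 (v_pow_le h1 2)) (v_pow_le h1 3)) (v_pow_le h1 4)

lemma ke_real {ϖ : RR} (hr : ∃ m : ℤ, ϖ = (m : RR)) (h0 : ϖ ≠ 0) (e : ℕ) : ke e ϖ = k0 ϖ := by
  obtain ⟨m, hm⟩ := hr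
  have hc : (starRingEnd ℂ) (ϖ : ℂ) = (ϖ : ℂ) := by
    rw [hm]
    have : ((m : RR) : ℂ) = (m : ℂ) := by push_cast; rfl
    rw [this]
    exact map_intCast _ m
  have h1 : (ϖ : ℂ) ≠ 0 := coe_ne h0
  unfold ke k0
  rw [mu_eq, hc, pow_succ']
  field_simp

lemma gd_zero {ι : Type} [DecidableEq ι] {S : Finset ι} {π : ι → RR} {k : ι} (hF : Fi S π k)
    (hk : k ∈ S) : gd (mc π) (mr π) S = 0 := by
  unfold gd
  have hr : ∀ i ∈ S, ∀ j ∈ S, i ≠ j → mr π i j = 0 := by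
    intro i hi j hj hij
    unfold mr
    rw [hF.s1 i hi j hj hij]
    exact lg_one
  refine Matrix.det_eq_zero_of_row_eq_zero ⟨k, hk⟩ fun j => ?_
  rw [Matrix.of_apply]
  split_ifs with hkj
  · have h1 : mc π k = 0 := by
      unfold mc
      rw [hF.ke]
      exact lg_one
    rw [h1, zero_add]
    refine Finset.sum_eq_zero fun i hi => ?_
    rw [Finset.mem_erase] at hi
    exact hr k hk i hi.2 hi.1.symm
  · exact hr k hk j j.2 fun h => hkj (Subtype.ext h)

section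
variable [Fintype (RR ⧸ sp fR)]

/-- the weighted sum of the combination is smaller -/
theorem LV_lt (hrec : S_REC) (h : LD L Ω) (hv : v al < 1)
    (hpq : ∀ l ∈ L.lattice, eta L l = p * l + q * (starRingEnd ℂ) l) {T : ℂ}
    (hT : Tendsto (fun δ : ℝ => GG Ω δ 1) (𝓝[>] 0) (𝓝 T)) (hvT : v T = 1)
    {ι : Type} [DecidableEq ι] {S : Finset ι} {π : ι → RR} {k : ι} (hF : Fi S π k) (hk : k ∈ S) :
    v (LV L Ω p q (∏ i ∈ S, π i) (fun m => ∏ i ∈ S, sy (π i) m)) < v 2 ^ (S.card + 2) := by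
  have hL := h.lat
  have hS := hF.fam
  obtain ⟨f1, f2, f3⟩ := prod_sy_facts hS
  have hn : Go (∏ i ∈ S, π i) := Go.prod fun i hi => (hS.pd i hi).go
  have sq1 : ∀ c : RR, c ∣ 2 → (∏ i ∈ S, sy (π i) c) ^ 2 = 1 := fun c hc =>
    sq_eq_one_iff.2 (f3 c hc)
  rw [LV_eq hL hpq hn f1 f2 (sq1 _ aR_dvd) (sq1 _ bR_dvd), ← Bg_eq_Wg hL hpq hT hn, map_mul, map_mul]
  have h1 := v_quad0 hrec h hv hT hvT hS (gd_zero hF hk)
  have h2 := mul_le_mul' (v_fac hv (f3 _ aR_dvd)) (v_fac hv (f3 _ bR_dvd))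
  have h20 : (0 : Γ) < v 2 := zero_lt_iff.2 ((Valuation.ne_zero_iff v).2 two_ne_zero)
  calc _ ≤ (v 2 * v 2) * v (Pool.Agent.Y698.SG.Bg L Ω T (∏ i ∈ S, π i)
        (fun m => ∏ i ∈ S, sy (π i) m)) := mul_le_mul' h2 le_rfl
    _ < (v 2 * v 2) * v 2 ^ S.card := mul_lt_mul_of_pos_left h1 (mul_pos h20 h20)
    _ = v 2 ^ (S.card + 2) := by rw [← pow_two, ← pow_add, add_comm]

/-- the combined functional -/
lemma CE_eq (hL : IsLat L RR Ω) (hpq : ∀ l ∈ L.lattice, eta L l = p * l + q * (starRingEnd ℂ) l)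
    {e : ℕ} (he : 0 < e) {n : RR} (hn : Go n) {φ : RR → ℂ} (hφ : Pe n φ) :
    (e.factorial : ℂ) * LE L Ω p q e n φ + LV L Ω p q n φ =
      Wg Ω (Gx Ω (Hf L p q e)) n (fun x => φ (bR * (bR * x))) := by
  have o1 := os_ek hL hpq he
  have o2 := os_V hL hpq
  have hb := cop_of_e7 e7_bR
  have h1 := Wg_change hL o1 bR_dvd hb hn hφ
  have h2 := Wg_change hL (o1.comp hL bR_dvd) bR_dvd hb hn (Pe.comp_mul hφ bR)
  have h3 := Wg_change hL o2 bR_dvd hb hn (Pe.comp_mul hφ bR)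
  rw [e7_bR, one_mul] at h1 h2 h3
  have e1 : Hf L p q e = fun z => (e.factorial : ℂ) * ek L p q e ((bR : ℂ) * ((bR : ℂ) * z)) +
      1 * Vv L p q ((bR : ℂ) * z) := by
    funext z
    unfold Hf
    ring
  rw [e1, Wx_add _ _ hn.gd.ne, Wx_smul _ _ hn.gd.ne, Wx_smul _ _ hn.gd.ne, ← h2, ← h3, ← h1]
  unfold Pool.Agent.J4.H67.AW.LE LV
  ring

/-- **The valuation of the central value.** -/
theorem v_LE' (hrec : S_REC) (h : LD L Ω) (hv : v al < 1)
    (hpq : ∀ l ∈ L.lattice, eta L l = p * l + q * (starRingEnd ℂ) l) {T : ℂ}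
    (hT : Tendsto (fun δ : ℝ => GG Ω δ 1) (𝓝[>] 0) (𝓝 T)) (hvT : v T = 1) (m : ℕ)
    {ι : Type} [DecidableEq ι] {S : Finset ι} {π : ι → RR} {k : ι} (hF : Fi S π k) (hk : k ∈ S) :
    v (((2 * m + 3).factorial : ℂ) *
      LE L Ω p q (2 * m + 3) (∏ i ∈ S, π i) (fun x => ∏ i ∈ S, sy (π i) x)) =
      v 2 ^ (S.card + 2) := by
  have hL := h.lat
  have t2 := v_two_lt hv
  have he : 0 < 2 * m + 3 := by omega
  have h20 : v 2 ≠ 0 := (Valuation.ne_zero_iff v).2 two_ne_zero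
  have o1 := os_ek hL hpq he
  have o2 := os_V hL hpq
  have key := ind_main (v := v) (H := Hf L p q (2 * m + 3)) (D := fun n φ =>
    ((2 * m + 3).factorial : ℂ) * LE L Ω p q (2 * m + 3) n φ + LV L Ω p q n φ) h hv hpq ?_ ?_ hF hk
    (fun n hn φ hφ => CE_eq hL hpq he hn hφ) ?_
  · have h1 := LV_lt (v := v) hrec h hv hpq hT hvT hF hk
    set X := ((2 * m + 3).factorial : ℂ) *
      LE L Ω p q (2 * m + 3) (∏ i ∈ S, π i) (fun x => ∏ i ∈ S, sy (π i) x)
    set Y := LV L Ω p q (∏ i ∈ S, π i) (fun x => ∏ i ∈ S, sy (π i) x)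
    have h3 : v ((X + Y - 2 ^ (S.card + 2)) - Y) < v ((2 : ℂ) ^ (S.card + 2)) := by
      rw [map_pow]
      refine (v.map_sub _ _).trans_lt (max_lt (lt_of_le_of_lt key ?_) h1)
      rw [pow_succ (v 2) (S.card + 2)]
      exact mul_lt_of_lt_one_right (zero_lt_iff.2 (pow_ne_zero _ h20)) t2
    have e : X = ((X + Y - 2 ^ (S.card + 2)) - Y) + 2 ^ (S.card + 2) := by ring
    rw [e, Valuation.map_add_eq_of_lt_right v h3, map_pow]
  · intro n hn φ hφ hφe hφb
    rw [iv_four, pow_two]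
    refine pair_le hL ?_ ?_ two_ne_zero ?_ hn hφ hφe hφb
    · intro z w hz hzw
      have f1 := ((o1.comp hL bR_dvd).comp hL bR_dvd).per z w hz hzw
      have f2 := (o2.comp hL bR_dvd).per z w hz hzw
      beta_reduce at f1 f2
      unfold Hf
      rw [f1, f2]
    · intro z hz
      have hb := hz.mul_dvd hL bR_dvd
      have f1 := ek_neg (p := p) (q := q) (hb.mul_dvd hL bR_dvd).ne he
      have f2 : Vv L p q (-((bR : ℂ) * z)) = -Vv L p q ((bR : ℂ) * z) := by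
        unfold Vv
        rw [mul_neg, mul_neg, mul_neg, E1_neg, E1_neg, E1_neg, E1_neg]
        ring
      unfold Hf
      rw [mul_neg, mul_neg, f1, f2]
      ring
    · intro z hz
      have f1 := Hf_mod h hv hpq hz m
      have e : Hf L p q (2 * m + 3) z = (Hf L p q (2 * m + 3) z - 2 * Jf L z) + 2 * Jf L z := by
        ring
      rw [e]
      refine v_add_le (f1.trans ?_) ?_
      · rw [iv_four, pow_two]
        exact mul_le_of_le_one_right' t2.le
      · rw [map_mul]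
        exact mul_le_of_le_one_right' (iv_Jf h hv hz)
  · intro n hn φ hφ hφe hφb
    exact H_J h hv hpq m hn hφ hφe hφb
  · intro A hA
    have hfA := hF.fam.mono hA
    have s1 := (fl_LE (Ω := Ω) (p := p) (q := q) hL hpq he).subsets A hfA
    have s2 := (fl_LV (Ω := Ω) (p := p) (q := q) hL hpq).subsets A hfA
    have hPk : ∀ B : Finset ι, Pk (ke (2 * m + 3)) π A B = Pk k0 π A B := by
      intro B
      unfold Pk
      refine Finset.prod_congr rfl fun i hi => ?_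
      have hi' := (Finset.mem_sdiff.1 hi).1
      rw [ke_real (hF.real i (hA hi')) (hfA.pd i hi').pr.ne_zero]
    simp only [hPk] at s1
    have e1 : ∑ B ∈ A.powerset, Pk k0 π A B * (((2 * m + 3).factorial : ℂ) *
        LE L Ω p q (2 * m + 3) (∏ i ∈ B, π i) (fun x => ∏ i ∈ B, sy (π i) x) +
          LV L Ω p q (∏ i ∈ B, π i) (fun x => ∏ i ∈ B, sy (π i) x)) =
        ((2 * m + 3).factorial : ℂ) * ∑ B ∈ A.powerset, Pk k0 π A B *
          LE L Ω p q (2 * m + 3) (∏ i ∈ B, π i) (fun x => ∏ i ∈ B, sy (π i) x) +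
        ∑ B ∈ A.powerset, Pk k0 π A B *
          LV L Ω p q (∏ i ∈ B, π i) (fun x => ∏ i ∈ B, sy (π i) x) := by
      rw [Finset.mul_sum, ← Finset.sum_add_distrib]
      exact Finset.sum_congr rfl fun B _ => by ring
    rw [e1, s1, s2]
    ring

end

end Pool.Agent.J4.H67.EW
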