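import Pool.Agent.J4.H67.EW.Va

/-!
# The Eisenstein-Kronecker number of order one modulo four
-/

set_option autoImplicit false
set_option linter.unusedSectionVars false

open Filter
open scoped Topology PeriodPair

namespace Pool.Agent.J4.H67.EW

open Pool.Agent.Y698 (LD Tb Yy al bl RR aR bR v_bl v_two_lt v_two al_mul_bl al_ne bl_ne al_sq tB tA
  two_coe tB_notMem tA_notMem dwp_half two_tA two_tB conj_al s7)
open H667R3 Pool.Agent.W192.HK Pool.Agent.TH936.CM Pool.Agent.TH936.PU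
open Pool.Agent.TH936.CW (Dv Dv_C Dv_X0 Dv_X1 Dv_X2 Uu Aa Pp PP evz ev ev_add ev_mul ev_C ev_sum
  ev_X0 ev_X1 ev_X2 rh ek E1)
open Pool.Agent.J4.H67.AW

variable {Γ : Type*} [LinearOrderedCommGroupWithZero Γ] {v : Valuation ℂ Γ}
variable {L : PeriodPair} {Ω p q : ℂ}

open MvPolynomial in
lemma Aa_two (L : PeriodPair) (p : ℂ) : Aa L p 2 = X 0 * X 0 - X 1 := by
  unfold Aa
  have e0 : rh L p (2 - 2) = 1 := rh_zero
  have e1 : rh L p (2 - 1) = 0 := rh_odd (by decide)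
  have e2 : rh L p (2 - 0) = p := rh_two
  have h0 : Uu p L.g₂ 0 = 1 := rfl
  have c0 : (2 : ℕ).choose 0 = 1 := rfl
  have c2 : (2 : ℕ).choose 2 = 1 := rfl
  rw [Finset.sum_range_succ, Finset.sum_range_succ, Finset.sum_range_one, e0, e1, e2, Uu_two, h0,
    c0, c2]
  simp only [mul_zero, map_zero, zero_mul, Nat.cast_one, mul_one, map_one, one_mul]
  ring

open MvPolynomial in
lemma DA (L : PeriodPair) (p : ℂ) : (Dv p L.g₂)^[1] (Aa L p 2) =
    -2 * (X 0 * (X 1 + C p)) - X 2 := by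
  show Dv p L.g₂ (Aa L p 2) = _
  rw [Aa_two]
  simp only [map_sub, Dv_mul, Dv_X0, Dv_X1]
  ring

/-- **The number of order one.** -/
theorem ek_one (h : LD L Ω) (hpq : ∀ l ∈ L.lattice, eta L l = p * l + q * (starRingEnd ℂ) l)
    (z : ℂ) : ek L p q 1 z = -(E1 L p q z * Pool.Agent.Y698.Xx L z) - ℘'[L] z / 2 := by
  have hp := p_quarter h hpq
  have e1 : ek L p q 1 z = 1 / 2 * evz L p q ((starRingEnd ℂ) z) z ((Dv p L.g₂)^[1] (Aa L p 2)) := by
    unfold ek Pp evz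
    rw [ev_mul, ev_C]
    congr 2
  rw [e1, DA, hp]
  unfold E1 evz ev
  simp only [map_add, map_sub, map_mul, map_neg, MvPolynomial.eval_X, MvPolynomial.eval_C,
    map_ofNat]
  simp only [Matrix.cons_val_zero, Matrix.cons_val_one, Matrix.cons_val]
  unfold Pool.Agent.Y698.Xx
  ring

/-- the quotient which appears -/
noncomputable def Qk (L : PeriodPair) (Ω z : ℂ) : ℂ := ss L Ω z ^ 2 + ss L Ω z + 1 - 2 * bl⁻¹ ^ 3

lemma Fq (h : LD L Ω) (hpq : ∀ l ∈ L.lattice, eta L l = p * l + q * (starRingEnd ℂ) l) {z : ℂ}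
    (hb : bl * z ∉ L.lattice) : ek L p q 1 (bl * z) - 2 * bl⁻¹ ^ 3 * ek L p q 1 z =
      -bl⁻¹ ^ 3 * (2 * yh L p q z + 1) * (Qk L Ω z - Pool.Agent.Y698.Xx L z) -
        2 * bl⁻¹ ^ 6 * (2 * ss L Ω z + 1) := by
  have hp := p_quarter h hpq
  obtain ⟨a1, a2, a3, a4⟩ := at_bl (q := q) h hp hb rfl
  obtain ⟨s1, s2, s3⟩ := ss_eq h hb
  rw [xR_ci] at s2
  rw [ek_one h hpq, ek_one h hpq, a1, a2, ← s2]
  have e3 : E1 L p q (bl * z) = bl⁻¹ * (4 * yh L p q z + 2 * ss L Ω z + 3) / 2 := by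
    rw [← a3]
    ring
  have e4 : E1 L p q z = yh L p q z + 1 / 2 := by
    unfold yh
    ring
  rw [e3, e4]
  unfold Qk
  ring

lemma int_facts (h : LD L Ω) (hv : v al < 1)
    (hpq : ∀ l ∈ L.lattice, eta L l = p * l + q * (starRingEnd ℂ) l) {u : ℂ} (hu : Od L u) :
    v (ss L Ω u) ≤ 1 ∧ v (Qk L Ω u) ≤ 1 ∧ v (Pool.Agent.Y698.Xx L u) = 1 ∧ v (yh L p q u) ≤ 1 ∧
      Pool.Agent.Y698.Xx L u ^ 2 - Qk L Ω u * (Pool.Agent.Y698.Xx L u - 2 * bl⁻¹ ^ 3) +
        (2 * bl⁻¹ - 1) = 0 := by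
  have hp := p_quarter h hpq
  have hub := hu.not_bl h
  have h2 := hu.two.ne
  have hT := hu.tb hv
  obtain ⟨iP, ix1⟩ := hT.deriv h hv h2
  have iY := yh_int h hv hpq hu
  have hr : v ((bl - 3) / 4) < 1 := by
    rw [xR_eq, map_div₀, map_pow, v_bl hv, one_pow, div_one]
    exact v_two_lt hv
  have hxr : v (Pool.Agent.Y698.Xx L u - (bl - 3) / 4) = 1 := by
    rw [Valuation.map_sub_eq_of_lt_left v (by rw [ix1]; exact hr), ix1]
  have is : v (ss L Ω u) ≤ 1 := by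
    have iy := hT.y_int h hv
    unfold ss lam
    rw [x_tB h, y_tB h, map_div₀, hxr, div_one]
    exact v_sub_le iy (v_yR hv)
  obtain ⟨a1, a2, a3, a4⟩ := at_bl (q := q) h hp hub rfl
  refine ⟨is, ?_, ix1, iY, a4⟩
  exact v_sub_le (v_add_le (v_add_le (v_pow_le is 2) is) (by rw [map_one]))
      (v_mul_le (v_num v 2) (v_pow_le (v_inv_bl hv).le 3))

/-- the form -/
def GG1 {A : Type*} [CommRing A] (c s x Y Q sa xa Ya Qa : A) : A :=
  ((-c ^ 3 * (2 * Y + 1) * (Q - x) - 2 * c ^ 6 * (2 * s + 1) +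
      2 * c ^ 6 * (2 * Ya + 1) * (Qa - xa) + 4 * c ^ 9 * (2 * sa + 1)) * (x - 2) -
    (c - 2) * c ^ 4 * (2 * s + 1)) * x ^ 2 -
    2 * (s * (x - 2 * c ^ 3) - c ^ 3 + x * Y) * (x - 2)

lemma map_GG1 {A B : Type*} [CommRing A] [CommRing B] (f : A →+* B) (c s x Y Q sa xa Ya Qa : A) :
    f (GG1 c s x Y Q sa xa Ya Qa) = GG1 (f c) (f s) (f x) (f Y) (f Q) (f sa) (f xa) (f Ya) (f Qa) := by
  unfold GG1
  simp only [map_add, map_sub, map_mul, map_pow, map_neg, map_ofNat, map_one]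

lemma GG1_zero {B : Type*} [CommRing B] (h4 : (4 : B) = 0) {s x Y Q sa xa Ya Qa t : B}
    (hrel : x ^ 2 - Q * (x + 2) + 1 = 0) (hrela : xa ^ 2 - Qa * (xa + 2) + 1 = 0)
    (ht : xa = x ^ 2 + 2 * t) : GG1 (-1) s x Y Q sa xa Ya Qa = 0 := by
  have k1 : 2 * (Qa - xa) * x ^ 2 = 2 := by
    linear_combination (-2) * hrela + (2 * (xa - Qa)) * ht + (t * (xa - Qa) - Qa) * h4
  have k2 : (Q - x) * (x - 2) = 1 + 2 * x := by
    linear_combination -hrel - (Q) * h4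
  unfold GG1
  linear_combination (x ^ 2 * (2 * Y + 1)) * k2 + ((2 * Ya + 1) * (x - 2)) * k1 +
    (x ^ 3 * Y - s * x ^ 3 + (x * Y + x * Ya + 4 * x ^ 2 + 3 * x ^ 2 * s + 4 * x ^ 2 * sa - x ^ 3 -
      2 * x ^ 3 * sa + 2 * s - 2 * Ya)) * h4

/-- the function for the number of order one -/
noncomputable def H1 (L : PeriodPair) (p q w : ℂ) : ℂ :=
  (ek L p q 1 ((bR : ℂ) * ((bR : ℂ) * w)) - al / bl ^ 2 * ek L p q 1 (2 * ((bR : ℂ) * w)) -
    al / bl ^ 2 * ek L p q 1 ((bR : ℂ) * w) + (al / bl ^ 2) ^ 2 * ek L p q 1 (2 * w)) +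
    Vv L p q ((bR : ℂ) * w)

lemma al_ci : al / bl ^ 2 = 2 * bl⁻¹ ^ 3 := by
  have hb := bl_ne
  have h1 := al_mul_bl
  field_simp
  linear_combination h1

lemma dupl_mod (h : LD L Ω) (hv : v al < 1) {w : ℂ} (hw : Od L w) :
    ∃ t : ℂ, v t ≤ 1 ∧ Pool.Agent.Y698.Xx L (2 * w) = Pool.Agent.Y698.Xx L (bl * w) ^ 2 + 2 * t := by
  have hz := Va.Od_bl h hw
  have hz2 := Va.Od_al h hv hz
  have t2 := v_two_lt hv
  obtain ⟨d1, d2⟩ := Va.v_x h hv hz
  obtain ⟨d3, d4⟩ := Va.v_x h hv hz2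
  obtain ⟨e1, -⟩ := h.mul_al hz2.ne
  have e0 : al * (bl * w) = 2 * w := by rw [← mul_assoc, al_mul_bl]
  rw [e0] at d3 e1
  set x := Pool.Agent.Y698.Xx L (bl * w)
  set x' := Pool.Agent.Y698.Xx L (2 * w)
  have hal : v al = v 2 := (Pool.Agent.Y698.v_two hv).symm
  have h1 : v (x' - x ^ 2) ≤ v 2 := by
    have e : x' - x ^ 2 = -al - (al * (al * (x * x')) + al * (al * x')) := by
      have h2 : bl = 1 - al := rfl
      have h3 := Pool.Agent.Y698.al_sq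
      rw [h2] at e1
      linear_combination e1 + x' * h3
    rw [e]
    refine Valuation.map_sub_le v ?_ (Valuation.map_add_le v ?_ ?_)
    · rw [Valuation.map_neg, hal]
    · exact Va.v_le_mul hal.le (v_mul_le hv.le (v_mul_le d1.le d3.le))
    · exact Va.v_le_mul hal.le (v_mul_le hv.le d3.le)
  refine ⟨(x' - x ^ 2) / 2, ?_, by ring⟩
  rw [map_div₀]
  exact div_le_one_of_le₀ h1 zero_le

/-- **The number of order one at `β u`.** -/
theorem ek1_at (h : LD L Ω) (hv : v al < 1)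
    (hpq : ∀ l ∈ L.lattice, eta L l = p * l + q * (starRingEnd ℂ) l) {w : ℂ} (hw : Od L w) :
    v (H1 L p q w * Pool.Agent.Y698.Xx L (bl * w) ^ 2 -
      2 * (Yy L (bl * w) + Pool.Agent.Y698.Xx L (bl * w) * yh L p q (bl * w))) ≤ v 4 := by
  have hp := p_quarter h hpq
  have hL := h.lat
  have hwb := hw.not_bl h
  have hu : Od L (bl * w) := by
    have := hw.mul_dvd hL (b := Pool.Agent.Y698.bR) ⟨Pool.Agent.Y698.aR, by
      rw [mul_comm]
      exact Pool.Agent.Y698.aR_mul_bR.symm⟩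
    rwa [Pool.Agent.Y698.bR_coe] at this
  have ha : Od L (2 * w) := hw.two
  have hub := hu.not_bl h
  have hab := ha.not_bl h
  obtain ⟨is, iQ, ix1, iY, rel⟩ := int_facts h hv hpq hu
  obtain ⟨isa, iQa, ixa1, iYa, rela⟩ := int_facts h hv hpq ha
  obtain ⟨t, it, ht⟩ := dupl_mod h hv hw
  have f1 := Fq h hpq hub
  have f2 := Fq h hpq hab
  have hV := Vv_eq (q := q) h hp hu.two.ne
  obtain ⟨s1, s2, s3⟩ := ss_eq h hub
  have hy : Yy L (bl * w) = ss L Ω (bl * w) * (Pool.Agent.Y698.Xx L (bl * w) - 2 * bl⁻¹ ^ 3) -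
      bl⁻¹ ^ 3 := by
    have k1 : ℘'[L] (bl * w) = 2 * Yy L (bl * w) + Pool.Agent.Y698.Xx L (bl * w) := by
      unfold Yy
      ring
    rw [k1, xR_ci] at s2
    linear_combination (-1 / 2 : ℂ) * s2
  have hbc : bl * bl⁻¹ = 1 := mul_inv_cancel₀ bl_ne
  have k5 : (1 - 2 * bl) * bl⁻¹ ^ 5 = (bl⁻¹ - 2) * bl⁻¹ ^ 4 := by
    linear_combination (-2 * bl⁻¹ ^ 4) * hbc
  rw [← inv_bl, k5] at hV
  have e1 : H1 L p q w = (-bl⁻¹ ^ 3 * (2 * yh L p q (bl * w) + 1) *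
      (Qk L Ω (bl * w) - Pool.Agent.Y698.Xx L (bl * w)) -
        2 * bl⁻¹ ^ 6 * (2 * ss L Ω (bl * w) + 1)) - 2 * bl⁻¹ ^ 3 *
      (-bl⁻¹ ^ 3 * (2 * yh L p q (2 * w) + 1) *
      (Qk L Ω (2 * w) - Pool.Agent.Y698.Xx L (2 * w)) -
        2 * bl⁻¹ ^ 6 * (2 * ss L Ω (2 * w) + 1)) + Vv L p q (bl * w) := by
    rw [← f1, ← f2]
    unfold H1
    rw [al_ci, Pool.Agent.Y698.bR_coe]
    have e2 : 2 * (bl * w) = bl * (2 * w) := by ring
    rw [e2]
    ring
  have hx2 : v (Pool.Agent.Y698.Xx L (bl * w) - 2) = 1 := by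
    rw [Valuation.map_sub_eq_of_lt_left v (by rw [ix1]; exact v_two_lt hv), ix1]
  rw [e1, hy]
  have h32 : v (32 : ℂ) ≤ v 4 := by
    have e : (32 : ℂ) = 4 * 8 := by norm_num
    rw [e, map_mul]
    exact mul_le_of_le_one_right' (v_num v 8)
  have hc := (v_inv_bl hv).le
  have h40 : v (4 : ℂ) ≠ 0 := (Valuation.ne_zero_iff v).2 (by norm_num)
  have hd : v ((bl⁻¹ - 19) / 4) ≤ 1 := by
    rw [map_div₀]
    exact div_le_one_of_le₀ ((v_ci_sub hv).trans h32) zero_le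
  generalize Vv L p q (bl * w) = V at hV ⊢
  generalize Pool.Agent.Y698.Xx L (bl * w) = x at *
  generalize Pool.Agent.Y698.Xx L (2 * w) = xa at *
  generalize yh L p q (bl * w) = Y at *
  generalize yh L p q (2 * w) = Ya at *
  generalize Qk L Ω (bl * w) = Q at *
  generalize Qk L Ω (2 * w) = Qa at *
  generalize ss L Ω (bl * w) = s at *
  generalize ss L Ω (2 * w) = sa at *
  generalize bl⁻¹ = c at *
  have key : (((-c ^ 3 * (2 * Y + 1) * (Q - x) - 2 * c ^ 6 * (2 * s + 1)) - 2 * c ^ 3 *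
      (-c ^ 3 * (2 * Ya + 1) * (Qa - xa) - 2 * c ^ 6 * (2 * sa + 1)) + V) * x ^ 2 -
      2 * ((s * (x - 2 * c ^ 3) - c ^ 3) + x * Y)) * (x - 2) = GG1 c s x Y Q sa xa Ya Qa := by
    unfold GG1
    linear_combination (x ^ 2) * hV
  have key2 := congrArg v key
  rw [map_mul, hx2, mul_one] at key2
  rw [key2]
  have ix := ix1.le
  have ixa := ixa1.le
  let c' : v.integer := ⟨c, hc⟩
  let s' : v.integer := ⟨s, is⟩
  let x' : v.integer := ⟨x, ix⟩
  let Y' : v.integer := ⟨Y, iY⟩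
  let Q' : v.integer := ⟨Q, iQ⟩
  let sa' : v.integer := ⟨sa, isa⟩
  let xa' : v.integer := ⟨xa, ixa⟩
  let Ya' : v.integer := ⟨Ya, iYa⟩
  let Qa' : v.integer := ⟨Qa, iQa⟩
  let t' : v.integer := ⟨t, it⟩
  let d' : v.integer := ⟨(c - 19) / 4, hd⟩
  have e2 : c' = 19 + 4 * d' := by
    apply Subtype.ext
    change c = 19 + 4 * ((c - 19) / 4)
    ring
  have e3 : x' ^ 2 - Q' * (x' - 2 * c' ^ 3) + (2 * c' - 1) = 0 := by
    apply Subtype.ext
    exact rel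
  have e4 : xa' ^ 2 - Qa' * (xa' - 2 * c' ^ 3) + (2 * c' - 1) = 0 := by
    apply Subtype.ext
    exact rela
  have e5 : xa' = x' ^ 2 + 2 * t' := by
    apply Subtype.ext
    exact ht
  let J : Ideal v.integer := Ideal.span {(4 : v.integer)}
  let π := Ideal.Quotient.mk J
  have h0 : (4 : v.integer ⧸ J) = 0 := by
    have h1 : π 4 = 0 := Ideal.Quotient.eq_zero_iff_mem.2 (Ideal.mem_span_singleton_self _)
    rwa [map_ofNat] at h1
  have hcq : π c' = -1 := by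
    rw [e2, map_add, map_mul, map_ofNat, map_ofNat, h0, zero_mul, add_zero]
    linear_combination 5 * h0
  have e6 : GG1 (-1) (π s') (π x') (π Y') (π Q') (π sa') (π xa') (π Ya') (π Qa') = 0 := by
    refine GG1_zero h0 (t := π t') ?_ ?_ ?_
    · have := congrArg π e3
      rw [map_add, map_sub, map_sub, map_mul, map_sub, map_mul, map_mul, map_pow, map_pow, map_one,
        map_ofNat, hcq, map_zero] at this
      linear_combination this + h0
    · have := congrArg π e4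
      rw [map_add, map_sub, map_sub, map_mul, map_sub, map_mul, map_mul, map_pow, map_pow, map_one,
        map_ofNat, hcq, map_zero] at this
      linear_combination this + h0
    · rw [e5, map_add, map_mul, map_pow, map_ofNat]
  have e7 : π (GG1 c' s' x' Y' Q' sa' xa' Ya' Qa') = 0 := by
    rw [map_GG1, hcq]
    exact e6
  obtain ⟨a, ha'⟩ := Ideal.mem_span_singleton'.1 (Ideal.Quotient.eq_zero_iff_mem.1 e7)
  have e8 : GG1 c s x Y Q sa xa Ya Qa = (a : ℂ) * 4 := by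
    have h1 := congrArg (fun t : v.integer => (t : ℂ)) ha'
    have h2 : ((GG1 c' s' x' Y' Q' sa' xa' Ya' Qa' : v.integer) : ℂ) =
        GG1 c s x Y Q sa xa Ya Qa := map_GG1 (v.integer).subtype c' s' x' Y' Q' sa' xa' Ya' Qa'
    rw [← h2]
    exact h1.symm
  rw [e8, map_mul]
  exact mul_le_of_le_one_left' a.2

/-- **The number of order one modulo four.** -/
theorem H1_mod (h : LD L Ω) (hv : v al < 1)
    (hpq : ∀ l ∈ L.lattice, eta L l = p * l + q * (starRingEnd ℂ) l) {w : ℂ} (hw : Od L w) :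
    v (H1 L p q w - 2 * Jf L w) ≤ v 4 := by
  have h1 := mod_of_at h hv hpq hw (ek1_at h hv hpq hw)
  have h2 := Hf_mod h hv hpq hw 0
  have h3 := ek3_mod h hv hpq hw
  have e0 : Hf L p q (2 * 0 + 3) w =
      6 * ek L p q 3 (bl * (bl * w)) + Vv L p q (bl * w) := by
    unfold Hf
    rw [Pool.Agent.Y698.bR_coe]
    have : ((2 * 0 + 3).factorial : ℂ) = 6 := by norm_num [Nat.factorial]
    rw [this]
  rw [e0] at h2
  have e : H1 L p q w - 2 * Jf L w = (H1 L p q w -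
      2 * (Pool.Agent.Y698.Xx L w ^ 3 / (Pool.Agent.Y698.Xx L w + 1) ^ 4)) +
      (6 * ek L p q 3 (bl * (bl * w)) + Vv L p q (bl * w) - 2 * Jf L w) -
      (6 * ek L p q 3 (bl * (bl * w)) + Vv L p q (bl * w) -
        2 * (Pool.Agent.Y698.Xx L w ^ 3 / (Pool.Agent.Y698.Xx L w + 1) ^ 4)) := by ring
  rw [e]
  exact v_sub_le (v_add_le h1 h2) h3

end Pool.Agent.J4.H67.EW
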