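import Pool.Agent.J4.H67.EW.S1

/-!
# Pairing, a general odd function
-/

set_option autoImplicit false
set_option linter.unusedSectionVars false

open Filter
open scoped Topology PeriodPair

namespace Pool.Agent.J4.H67.EW

open Pool.Agent.Y698 (al bl RR aR bR fR nR cj cX cY e7 e7_mul e7_neg e7_one e7_per e7_eq_zero e7_sq
  fR_ne fin_quot nR_nonneg mul_cj irr_fR not_mem_of_cop LD v_two_lt v_bl bl_ne qch GG)
open Pool.Agent.Y698.SG
open H667R3 Pool.Agent.W192.HK Pool.Agent.TH936.CM Pool.Agent.TH936.PU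
open Pool.Agent.TH936.CW (E1 ek)
open Pool.Agent.J4.H67.AW

variable {Γ : Type*} [LinearOrderedCommGroupWithZero Γ] {v : Valuation ℂ Γ}
variable {L : PeriodPair} {Ω p q : ℂ}

/-- a general odd function and the even function -/
theorem H_J_gen [Fintype (RR ⧸ sp fR)] (h : LD L Ω) (hv : v al < 1) {H : ℂ → ℂ}
    (hper : ∀ z w : ℂ, Od L z → w - z ∈ L.lattice → H w = H z)
    (hodd : ∀ z, Od L z → H (-z) = -H z)
    (hmod : ∀ z, Od L z → v (H z - 2 * Jf L z) ≤ v 4)
    {n : RR} (hn : Go n) {φ : RR → ℂ} (hφ : Pe n φ) (hφe : ∀ x, φ (-x) = φ x)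
    (hφb : ∀ x, v (φ x) ≤ 1) :
    v (Wg Ω (Gx Ω H) n φ -
      2 * Wg Ω (fun u => ∑ y : RR ⧸ sp fR, Jf L (Ω * y.out / fR + u) - Jf L u) n φ) ≤ v 8 := by
  classical
  have hL := h.lat
  have f1 := fin_quot hn.gd.ne
  let _ : Fintype (RR ⧸ sp n) := Fintype.ofFinite _
  set pt : (RR ⧸ sp n) → (RR ⧸ sp fR) → ℂ := fun x y => Ω * y.out / fR + Ω * x.out / n with hpt
  set F : (RR ⧸ sp n) × (RR ⧸ sp fR) → ℂ := fun a =>
    φ a.1.out * (e7 a.2.out * H (pt a.1 a.2) - 2 * Jf L (pt a.1 a.2)) / 4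
    with hF
  have h0out : (0 : RR ⧸ sp fR).out ∈ sp fR := by
    rw [← Ideal.Quotient.eq_zero_iff_mem, Ideal.Quotient.mk_out]
  have h0 : Wg Ω (Gx Ω H) n φ -
      2 * Wg Ω (fun u => ∑ y : RR ⧸ sp fR, Jf L (Ω * y.out / fR + u) - Jf L u) n φ =
      4 * ∑ a ∈ (Finset.univ : Finset (RR ⧸ sp n)) ×ˢ
        ((Finset.univ : Finset (RR ⧸ sp fR)).erase 0), F a := by
    rw [Wg_eq, Wg_eq, Finset.sum_product, Finset.mul_sum, Finset.mul_sum,
      ← Finset.sum_sub_distrib]
    refine Finset.sum_congr rfl fun x _ => ?_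
    have e1 : Gx Ω H (Ω * x.out / n) =
        ∑ y ∈ (Finset.univ : Finset (RR ⧸ sp fR)).erase 0,
          e7 y.out * H (pt x y) := by
      unfold Gx
      rw [← Finset.add_sum_erase _ _ (Finset.mem_univ (0 : RR ⧸ sp fR)), e7_eq_zero.2 h0out,
        zero_mul, zero_add]
    have e2 : ∑ y : RR ⧸ sp fR, Jf L (Ω * y.out / fR + Ω * x.out / n) - Jf L (Ω * x.out / n) =
        ∑ y ∈ (Finset.univ : Finset (RR ⧸ sp fR)).erase 0, Jf L (pt x y) := by
      have e3 : Jf L (Ω * (0 : RR ⧸ sp fR).out / fR + Ω * x.out / n) =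
          Jf L (Ω * x.out / n) := by
        refine Jf_per L ?_
        rw [add_sub_cancel_right]
        exact (div_mem_iff hL fR_ne _).2 h0out
      rw [← Finset.add_sum_erase _ _ (Finset.mem_univ (0 : RR ⧸ sp fR)), e3, add_sub_cancel_left]
    rw [e1, e2, Finset.mul_sum, Finset.mul_sum, Finset.mul_sum, Finset.mul_sum,
      ← Finset.sum_sub_distrib]
    refine Finset.sum_congr rfl fun y _ => ?_
    rw [hF]
    beta_reduce
    ring
  have h8 : v 8 = v 4 * v 2 := by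
    rw [← map_mul]
    norm_num
  have h4 : v (4 : ℂ) ≠ 0 := (Valuation.ne_zero_iff v).2 (by norm_num)
  have hne : ∀ y : RR ⧸ sp fR, y ≠ 0 → y.out ∉ sp fR := by
    intro y hy hm
    apply hy
    rw [← Ideal.Quotient.mk_out y]
    exact Ideal.Quotient.eq_zero_iff_mem.2 hm
  have hmem : ∀ a : (RR ⧸ sp n) × (RR ⧸ sp fR), a ∈ (Finset.univ : Finset (RR ⧸ sp n)) ×ˢ
        ((Finset.univ : Finset (RR ⧸ sp fR)).erase 0) ↔ a.2 ≠ 0 := by
    intro a
    rw [Finset.mem_product, Finset.mem_erase]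
    exact ⟨fun h => h.2.1, fun h => ⟨Finset.mem_univ _, h, Finset.mem_univ _⟩⟩
  rw [h0, map_mul, h8]
  refine mul_le_mul' le_rfl ?_
  refine Pool.Agent.Y698.v_sum_pair' _ ?_ ?_ F ?_ ?_
  · intro a ha
    rw [hmem] at ha ⊢
    rw [Prod.snd_neg]
    exact neg_ne_zero.2 ha
  · intro a ha hcon
    rw [hmem] at ha
    have h2 : -a.2 = a.2 := congrArg Prod.snd hcon
    apply ha
    have h3 : (2 : RR ⧸ sp fR) * a.2 = 0 := by
      rw [two_mul]
      nth_rewrite 1 [← h2]
      rw [neg_add_cancel]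
    have h4 : Ideal.Quotient.mk (sp fR) (fR ^ 2) = 0 :=
      Ideal.Quotient.eq_zero_iff_mem.2 (Ideal.pow_mem_of_mem _ (Ideal.mem_span_singleton_self _) 2
        (by norm_num))
    rw [Pool.Agent.Y698.fR_sq, map_neg] at h4
    have h5 : (7 : RR ⧸ sp fR) = 0 := by
      have : Ideal.Quotient.mk (sp fR) (7 : RR) = (7 : RR ⧸ sp fR) := map_ofNat _ 7
      rw [← this]
      exact neg_eq_zero.1 h4
    linear_combination a.2 * h5 - 3 * h3
  · intro a ha
    rw [hmem] at ha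
    have hy := hne _ ha
    have n1 : (-a).1.out - -a.1.out ∈ sp n := by
      rw [Prod.fst_neg, ← Ideal.Quotient.mk_eq_mk_iff_sub_mem, Ideal.Quotient.mk_out, map_neg,
        Ideal.Quotient.mk_out]
    have n2 : (-a).2.out - -a.2.out ∈ sp fR := by
      rw [Prod.snd_neg, ← Ideal.Quotient.mk_eq_mk_iff_sub_mem, Ideal.Quotient.mk_out, map_neg,
        Ideal.Quotient.mk_out]
    have hod : Od L (pt a.1 a.2) := od_pt hL hn hy a.1.out
    have hl : pt (-a).1 (-a).2 - -(pt a.1 a.2) ∈ L.lattice := by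
      have m1 := (div_mem_iff hL hn.gd.ne _).2 n1
      have m2 := (div_mem_iff hL fR_ne _).2 n2
      rw [hpt]
      convert add_mem m2 m1 using 1
      push_cast
      ring
    rw [hF]
    beta_reduce
    rw [hφ _ _ n1, hφe, e7_per n2, e7_neg, hper _ _ hod.neg hl, hodd _ hod,
      Jf_per L hl, Jf_neg]
    ring
  · intro a ha
    rw [hmem] at ha
    have hod : Od L (pt a.1 a.2) := od_pt hL hn (hne _ ha) a.1.out
    rw [hF]
    beta_reduce
    rw [map_div₀, map_mul]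
    refine (div_le_one₀ (zero_lt_iff.2 h4)).2 ?_
    refine (mul_le_of_le_one_left' (hφb _)).trans ?_
    have g1 := hmod _ hod
    have g2 := v_Jf h hv hod
    have h9 : e7 a.2.out ^ 2 = 1 := e7_sq (hne _ ha)
    rcases sq_eq_one_iff.1 h9 with h | h
    · rw [h, one_mul]
      exact g1
    · rw [h]
      have e : -1 * H (pt a.1 a.2) - 2 * Jf L (pt a.1 a.2) =
          -(H (pt a.1 a.2) - 2 * Jf L (pt a.1 a.2)) +
            -(4 * Jf L (pt a.1 a.2)) := by ring
      rw [e]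
      refine v.map_add_le ?_ ?_
      · rw [Valuation.map_neg]
        exact g1
      · rw [Valuation.map_neg, map_mul]
        exact mul_le_of_le_one_right' g2

end Pool.Agent.J4.H67.EW
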