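import Pool.Agent.J4.H67.EW.In
import Pool.Agent.J4.H67.EW.K1
import Pool.Agent.J4.H67.EW.N3

/-!
# The valuation of the central value for the weight two
-/

set_option autoImplicit false
set_option linter.unusedSectionVars false

open Filter
open scoped Topology PeriodPair

namespace Pool.Agent.J4.H67.EW

open Pool.Agent.Y698 (al bl RR aR bR fR nR cj cX cY e7 e7_mul e7_neg e7_one e7_per e7_eq_zero e7_sq
  fR_ne fin_quot nR_nonneg mul_cj irr_fR not_mem_of_cop LD v_two_lt v_bl bl_ne qch GG)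
open Pool.Agent.Y698.SG
open H667R3 Pool.Agent.W192.HK Pool.Agent.TH936.CM Pool.Agent.TH936.PU
open Pool.Agent.TH936.CW (E1 ek)
open Pool.Agent.J4.H67.AW

variable {Γ : Type*} [LinearOrderedCommGroupWithZero Γ] {v : Valuation ℂ Γ}
variable {L : PeriodPair} {Ω p q : ℂ}



namespace N2

lemma ab_C : (aR : ℂ) * (bR : ℂ) = 2 := by
  rw [Pool.Agent.Y698.aR_coe, Pool.Agent.Y698.bR_coe, Pool.Agent.Y698.al_mul_bl]

/-- the coefficient -/
noncomputable def κ : ℂ := al / bl ^ 2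

lemma v_kappa (hv : v al < 1) : v κ = v 2 := by
  unfold κ
  rw [map_div₀, map_pow, v_bl hv, one_pow, div_one, v_al_eq hv]

lemma v_unit (hv : v al < 1) {s : ℂ} (hs : s = 1 ∨ s = -1) : v (1 - κ * s) = 1 := by
  apply Valuation.map_one_sub_of_lt
  have hs' : v s = 1 := by
    rcases hs with h | h <;> rw [h]
    · exact map_one v
    · rw [Valuation.map_neg, map_one]
  rw [map_mul, hs', mul_one, v_kappa hv]
  exact v_two_lt hv

section
variable [Fintype (RR ⧸ sp fR)]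

/-- multiplicative functions -/
lemma W_mul' (hL : IsLat L RR Ω) {μ : RR → ℂ} {f : ℂ → ℂ} (hf : Os L Ω μ f)
    {n : RR} (hn : Go n) {φ : RR → ℂ} (hφ : Pe n φ) (hm : ∀ x y, φ (x * y) = φ x * φ y)
    {c : RR} (hc : c ∣ 2) (he : e7 c = 1) (h1 : φ c ^ 2 = 1) :
    Wg Ω (Gx Ω (fun z => f ((c : ℂ) * z))) n φ = φ c * Wg Ω (Gx Ω f) n φ := by
  have h2 := Wg_change hL hf hc (cop_of_e7 he) hn hφ
  rw [he, one_mul] at h2
  have e : (fun m => φ (c * m)) = fun m => φ c * φ m := funext fun m => hm c m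
  rw [e, Wg_smul _ hn.gd.ne] at h2
  rw [h2]
  linear_combination -(Wg Ω (Gx Ω (fun z => f ((c : ℂ) * z))) n φ) * h1

/-- the functional -/
noncomputable def D1 (L : PeriodPair) (Ω p q : ℂ) (n : RR) (φ : RR → ℂ) : ℂ :=
  Pool.Agent.J4.H67.AW.LE L Ω p q 1 n φ -
    κ * Wg Ω (Gx Ω (fun z => ek L p q 1 ((aR : ℂ) * z))) n φ -
    κ * Wg Ω (Gx Ω (ek L p q 1)) n (fun m => φ (bR * m)) +
    κ ^ 2 * Wg Ω (Gx Ω (fun z => ek L p q 1 ((aR : ℂ) * z))) n (fun m => φ (bR * m)) +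
    LV L Ω p q n φ

lemma D1_eq (hL : IsLat L RR Ω) (hpq : ∀ l ∈ L.lattice, eta L l = p * l + q * (starRingEnd ℂ) l)
    {n : RR} (hn : Go n) {φ : RR → ℂ} (hφ : Pe n φ) :
    D1 L Ω p q n φ = Wg Ω (Gx Ω (H1 L p q)) n (fun x => φ (bR * (bR * x))) := by
  have o1 := os_ek hL hpq one_pos
  have oa := o1.comp hL aR_dvd
  have o2 := os_V hL hpq
  have hb := cop_of_e7 e7_bR
  have hφ' := Pe.comp_mul hφ bR
  have t1 := Wg_change hL o1 bR_dvd hb hn hφ
  have t1' := Wg_change hL (o1.comp hL bR_dvd) bR_dvd hb hn hφ'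
  have t2 := Wg_change hL oa bR_dvd hb hn hφ
  have t2' := Wg_change hL (oa.comp hL bR_dvd) bR_dvd hb hn hφ'
  have t3 := Wg_change hL o1 bR_dvd hb hn hφ'
  have t4 := Wg_change hL oa bR_dvd hb hn hφ'
  have t5 := Wg_change hL o2 bR_dvd hb hn hφ'
  rw [e7_bR, one_mul] at t1 t1' t2 t2' t3 t4 t5
  have e1 : H1 L p q = fun z =>
      (((1 : ℂ) * ek L p q 1 ((bR : ℂ) * ((bR : ℂ) * z)) +
        (-κ) * ek L p q 1 ((aR : ℂ) * ((bR : ℂ) * ((bR : ℂ) * z)))) +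
      ((-κ) * ek L p q 1 ((bR : ℂ) * z) +
        κ ^ 2 * ek L p q 1 ((aR : ℂ) * ((bR : ℂ) * z)))) + 1 * Vv L p q ((bR : ℂ) * z) := by
    funext z
    have e2 : (2 : ℂ) * ((bR : ℂ) * z) = (aR : ℂ) * ((bR : ℂ) * ((bR : ℂ) * z)) := by
      linear_combination -((bR : ℂ) * z) * ab_C
    have e3 : (2 : ℂ) * z = (aR : ℂ) * ((bR : ℂ) * z) := by
      linear_combination -z * ab_C
    unfold H1 κ
    rw [e2, e3]
    ring
  rw [e1, Wx_add _ _ hn.gd.ne, Wx_add _ _ hn.gd.ne, Wx_add _ _ hn.gd.ne, Wx_add _ _ hn.gd.ne,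
    Wx_smul _ _ hn.gd.ne, Wx_smul _ _ hn.gd.ne, Wx_smul _ _ hn.gd.ne, Wx_smul _ _ hn.gd.ne,
    Wx_smul _ _ hn.gd.ne]
  unfold D1 Pool.Agent.J4.H67.AW.LE LV
  rw [t1, t1', t2, t2', t3, t4, t5]
  ring

lemma D1_mul (hL : IsLat L RR Ω) (hpq : ∀ l ∈ L.lattice, eta L l = p * l + q * (starRingEnd ℂ) l)
    {n : RR} (hn : Go n) {φ : RR → ℂ} (hφ : Pe n φ) (hm : ∀ x y, φ (x * y) = φ x * φ y)
    (ha : φ aR ^ 2 = 1) :
    D1 L Ω p q n φ = (1 - κ * φ aR) * (1 - κ * φ bR) *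
      Pool.Agent.J4.H67.AW.LE L Ω p q 1 n φ + LV L Ω p q n φ := by
  have o1 := os_ek hL hpq one_pos
  have w2 := W_mul' hL o1 hn hφ hm aR_dvd e7_aR ha
  have e : (fun m => φ (bR * m)) = fun m => φ bR * φ m := funext fun m => hm bR m
  unfold D1 Pool.Agent.J4.H67.AW.LE
  rw [e, Wg_smul _ hn.gd.ne, Wg_smul _ hn.gd.ne, w2]
  ring

end

end N2

section
variable [Fintype (RR ⧸ sp fR)]

/-- N2 -/
theorem v_LE1 (hrec : S_REC) (h : LD L Ω) (hv : v al < 1)
    (hpq : ∀ l ∈ L.lattice, eta L l = p * l + q * (starRingEnd ℂ) l) {T : ℂ}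
    (hT : Tendsto (fun δ : ℝ => GG Ω δ 1) (𝓝[>] 0) (𝓝 T)) (hvT : v T = 1)
    {ι : Type} [DecidableEq ι] {S : Finset ι} {π : ι → RR} {k : ι} (hF : Fi S π k) (hk : k ∈ S) :
    v (LE L Ω p q 1 (∏ i ∈ S, π i) (fun x => ∏ i ∈ S, sy (π i) x)) = v 2 ^ (S.card + 2) := by
  have hL := h.lat
  have t2 := v_two_lt hv
  have h20 : v 2 ≠ 0 := (Valuation.ne_zero_iff v).2 two_ne_zero
  have o1 := os_ek hL hpq one_pos
  have oa := o1.comp hL aR_dvd
  have o2 := os_V hL hpq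
  have c2 : ((2 : RR) : ℂ) = 2 := rfl
  have hper : ∀ z w : ℂ, Od L z → w - z ∈ L.lattice → H1 L p q w = H1 L p q z := by
    intro z w hz hzw
    have g1 := ((o1.comp hL bR_dvd).comp hL bR_dvd).per z w hz hzw
    have g2 := ((o1.comp hL (dvd_refl 2)).comp hL bR_dvd).per z w hz hzw
    have g3 := (o1.comp hL bR_dvd).per z w hz hzw
    have g4 := (o1.comp hL (dvd_refl 2)).per z w hz hzw
    have g5 := (o2.comp hL bR_dvd).per z w hz hzw
    beta_reduce at g1 g2 g3 g4 g5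
    rw [c2] at g2 g4
    unfold H1
    rw [g1, g2, g3, g4, g5]
  have hodd : ∀ z, Od L z → H1 L p q (-z) = -H1 L p q z := by
    intro z hz
    have hb := hz.mul_dvd hL bR_dvd
    have hc := hz.mul_dvd hL (dvd_refl 2)
    have hd := hb.mul_dvd hL (dvd_refl 2)
    rw [c2] at hc hd
    have g1 := ek_neg (p := p) (q := q) (hb.mul_dvd hL bR_dvd).ne one_pos
    have g2 := ek_neg (p := p) (q := q) hd.ne one_pos
    have g3 := ek_neg (p := p) (q := q) hb.ne one_pos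
    have g4 := ek_neg (p := p) (q := q) hc.ne one_pos
    have g5 : Vv L p q (-((bR : ℂ) * z)) = -Vv L p q ((bR : ℂ) * z) := by
      unfold Vv
      rw [mul_neg, mul_neg, mul_neg, E1_neg, E1_neg, E1_neg, E1_neg]
      ring
    unfold H1
    rw [mul_neg, mul_neg, mul_neg, mul_neg, g1, g2, g3, g4, g5]
    ring
  have hmod : ∀ z, Od L z → v (H1 L p q z - 2 * Jf L z) ≤ v 4 := fun z hz => H1_mod h hv hpq hz
  have key := ind_main (v := v) (H := H1 L p q) (D := N2.D1 L Ω p q) h hv hpq ?_ ?_ hF hk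
    (fun n hn φ hφ => N2.D1_eq hL hpq hn hφ) ?_
  · have h1 := LV_lt (v := v) hrec h hv hpq hT hvT hF hk
    have hS := hF.fam
    obtain ⟨f1, f2, f3⟩ := prod_sy_facts hS
    have hn : Go (∏ i ∈ S, π i) := Go.prod fun i hi => (hS.pd i hi).go
    have hD := N2.D1_mul (Ω := Ω) (p := p) (q := q) hL hpq hn f1 f2
      (sq_eq_one_iff.2 (f3 _ aR_dvd))
    rw [hD] at key
    have u1 := N2.v_unit hv (f3 _ aR_dvd)
    have u2 := N2.v_unit hv (f3 _ bR_dvd)
    set X := LE L Ω p q 1 (∏ i ∈ S, π i) (fun x => ∏ i ∈ S, sy (π i) x)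
    set Y := LV L Ω p q (∏ i ∈ S, π i) (fun x => ∏ i ∈ S, sy (π i) x)
    set u := (1 - N2.κ * ∏ i ∈ S, sy (π i) aR) * (1 - N2.κ * ∏ i ∈ S, sy (π i) bR)
    have hu : v u = 1 := by rw [map_mul, u1, u2, one_mul]
    have h3 : v ((u * X + Y - 2 ^ (S.card + 2)) - Y) < v ((2 : ℂ) ^ (S.card + 2)) := by
      rw [map_pow]
      refine (v.map_sub _ _).trans_lt (max_lt (lt_of_le_of_lt key ?_) h1)
      rw [pow_succ (v 2) (S.card + 2)]
      exact mul_lt_of_lt_one_right (zero_lt_iff.2 (pow_ne_zero _ h20)) t2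
    have h4 : v (u * X) = v 2 ^ (S.card + 2) := by
      have e : u * X = ((u * X + Y - 2 ^ (S.card + 2)) - Y) + 2 ^ (S.card + 2) := by ring
      rw [e, Valuation.map_add_eq_of_lt_right v h3, map_pow]
    rwa [map_mul, hu, one_mul] at h4
  · intro n hn φ hφ hφe hφb
    rw [iv_four, pow_two]
    refine pair_le hL hper hodd two_ne_zero ?_ hn hφ hφe hφb
    intro z hz
    have e : H1 L p q z = (H1 L p q z - 2 * Jf L z) + 2 * Jf L z := by ring
    rw [e]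
    refine v_add_le ((hmod z hz).trans ?_) ?_
    · rw [iv_four, pow_two]
      exact mul_le_of_le_one_right' t2.le
    · rw [map_mul]
      exact mul_le_of_le_one_right' (iv_Jf h hv hz)
  · intro n hn φ hφ hφe hφb
    exact H_J_gen h hv hper hodd hmod hn hφ hφe hφb
  · intro A hA
    have hfA := hF.fam.mono hA
    have l2 : Fl (ke 1) (Wg Ω (Gx Ω (fun z => ek L p q 1 ((aR : ℂ) * z)))) := (oa.gs hL).fl
    have l3 : Fl (ke 1) (fun n φ => Wg Ω (Gx Ω (ek L p q 1)) n (fun m => φ (bR * m))) :=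
      (o1.gs hL).flb bR_dvd
    have l4 : Fl (ke 1) (fun n φ => Wg Ω (Gx Ω (fun z => ek L p q 1 ((aR : ℂ) * z))) n
        (fun m => φ (bR * m))) := (oa.gs hL).flb bR_dvd
    have s1 := (fl_LE (Ω := Ω) (p := p) (q := q) hL hpq one_pos).subsets A hfA
    have s2 := l2.subsets A hfA
    have s3 := l3.subsets A hfA
    have s4 := l4.subsets A hfA
    have s5 := (fl_LV (Ω := Ω) (p := p) (q := q) hL hpq).subsets A hfA
    have hPk : ∀ B : Finset ι, Pk (ke 1) π A B = Pk k0 π A B := by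
      intro B
      unfold Pk
      refine Finset.prod_congr rfl fun i hi => ?_
      have hi' := (Finset.mem_sdiff.1 hi).1
      rw [ke_real (hF.real i (hA hi')) (hfA.pd i hi').pr.ne_zero]
    simp only [hPk] at s1 s2 s3 s4
    have e1 : ∑ B ∈ A.powerset, Pk k0 π A B *
        N2.D1 L Ω p q (∏ i ∈ B, π i) (fun x => ∏ i ∈ B, sy (π i) x) =
        ∑ B ∈ A.powerset, Pk k0 π A B *
          LE L Ω p q 1 (∏ i ∈ B, π i) (fun x => ∏ i ∈ B, sy (π i) x) -
        N2.κ * (∑ B ∈ A.powerset, Pk k0 π A B *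
          Wg Ω (Gx Ω (fun z => ek L p q 1 ((aR : ℂ) * z))) (∏ i ∈ B, π i)
            (fun x => ∏ i ∈ B, sy (π i) x)) -
        N2.κ * (∑ B ∈ A.powerset, Pk k0 π A B *
          Wg Ω (Gx Ω (ek L p q 1)) (∏ i ∈ B, π i)
            (fun m => ∏ i ∈ B, sy (π i) (bR * m))) +
        N2.κ ^ 2 * (∑ B ∈ A.powerset, Pk k0 π A B *
          Wg Ω (Gx Ω (fun z => ek L p q 1 ((aR : ℂ) * z))) (∏ i ∈ B, π i)
            (fun m => ∏ i ∈ B, sy (π i) (bR * m))) +
        ∑ B ∈ A.powerset, Pk k0 π A B *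
          LV L Ω p q (∏ i ∈ B, π i) (fun x => ∏ i ∈ B, sy (π i) x) := by
      rw [Finset.mul_sum, Finset.mul_sum, Finset.mul_sum, ← Finset.sum_sub_distrib,
        ← Finset.sum_sub_distrib, ← Finset.sum_add_distrib, ← Finset.sum_add_distrib]
      refine Finset.sum_congr rfl fun B _ => ?_
      unfold N2.D1
      ring
    rw [e1, s1, s2, s3, s4, s5]
    unfold N2.D1
    ring

end

end Pool.Agent.J4.H67.EW
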