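import Pool.Agent.J4.H67.EW.Tr
import Pool.Agent.J4.H67.EW.Tp
import Pool.Agent.J4.H67.EW.Fo
import Pool.Agent.J4.H67.EW.Di
import Pool.Agent.J4.H67.EW.Va

/-!
# Even weights: the sum over the points of order `√-7`
-/

set_option autoImplicit false
set_option linter.unusedSectionVars false

open Filter
open scoped Topology PeriodPair

namespace Pool.Agent.J4.H67.EW

open Pool.Agent.Y698 (al bl RR aR bR fR nR cj cX cY e7 e7_mul e7_neg e7_one e7_per e7_eq_zero e7_sq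
  fR_ne fin_quot nR_nonneg mul_cj irr_fR not_mem_of_cop LD v_two_lt v_bl bl_ne qch GG)
open Pool.Agent.Y698.SG
open H667R3 Pool.Agent.W192.HK Pool.Agent.TH936.CM Pool.Agent.TH936.PU
open Pool.Agent.TH936.CW (E1 ek)
open Pool.Agent.J4.H67.AW

variable {Γ : Type*} [LinearOrderedCommGroupWithZero Γ] {v : Valuation ℂ Γ}
variable {L : PeriodPair} {Ω p q : ℂ}

/-- **The sum over the points of order `√-7`.** -/
theorem trace_fR (h : LD L Ω) (hv : v al < 1)
    (hpq : ∀ l ∈ L.lattice, eta L l = p * l + q * (starRingEnd ℂ) l) [Fintype (RR ⧸ sp fR)]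
    {u : ℂ} (hu : Od L u) (hu' : Od L ((fR : ℂ) * u)) :
    v (∑ y : RR ⧸ sp fR, Jf L (Ω * y.out / fR + u) -
      (mf L ((fR : ℂ) * u) ^ 3 + mf L ((fR : ℂ) * u) ^ 4)) ≤ v 2 := by
  have hT := tT_fR h.lat
  have hpq' : ∀ l ∈ L.lattice, eta L l = 1 / 4 * l + q * (starRingEnd ℂ) l := by
    rw [← p_quarter h hpq]
    exact hpq
  have n := Od.ne_T h.lat hu'.tor
  exact Tr.trace_of h hv hu hu' (v_td h hv) (fun w h1 h2 => B1_eq h hpq h1 h2)
    (fun w h1 h2 => B2_eq h h1 h2) (fun w h1 h2 => B3_eq h h1 h2)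
    (B1_dist h.lat hpq fR_ne hT n.1 n.2) (B2_dist h.lat hpq' fR_ne hT n.1 n.2)
    (B3_dist h.lat fR_ne hT n.1 n.2) (fun z hz => (v_mf h hv hz).1)
    (fun z hz => Od.ne_T h.lat hz.tor)

end Pool.Agent.J4.H67.EW
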