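import Pool.Agent.J4.H67.EW.S1
import Pool.Agent.J4.H67.EW.TrF

/-!
# The reduction of the even function
-/

set_option autoImplicit false
set_option linter.unusedSectionVars false

open Filter
open scoped Topology PeriodPair

namespace Pool.Agent.J4.H67.EW

open Pool.Agent.Y698 (al bl RR aR bR fR nR cj cX cY e7 e7_mul e7_neg e7_one e7_per e7_eq_zero e7_sq
  fR_ne fin_quot nR_nonneg mul_cj irr_fR not_mem_of_cop LD v_two_lt v_bl bl_ne qch GG)
open Pool.Agent.Y698.SG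
open H667R3 Pool.Agent.W192.HK Pool.Agent.TH936.CM Pool.Agent.TH936.PU
open Pool.Agent.TH936.CW (E1 ek)
open Pool.Agent.J4.H67.AW

variable {Γ : Type*} [LinearOrderedCommGroupWithZero Γ] {v : Valuation ℂ Γ}
variable {L : PeriodPair} {Ω p q : ℂ}

namespace S2

lemma Wg_fadd (g g' : ℂ → ℂ) {n : RR} (hn : n ≠ 0) (φ : RR → ℂ) :
    Wg Ω (fun z => g z + g' z) n φ = Wg Ω g n φ + Wg Ω g' n φ := by
  have f1 := fin_quot hn
  let _ : Fintype (RR ⧸ sp n) := Fintype.ofFinite _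
  rw [Wg_eq, Wg_eq, Wg_eq, ← Finset.sum_add_distrib]
  exact Finset.sum_congr rfl fun x _ => by ring

lemma Wg_fsub (g g' : ℂ → ℂ) {n : RR} (hn : n ≠ 0) (φ : RR → ℂ) :
    Wg Ω (fun z => g z - g' z) n φ = Wg Ω g n φ - Wg Ω g' n φ := by
  have f1 := fin_quot hn
  let _ : Fintype (RR ⧸ sp n) := Fintype.ofFinite _
  rw [Wg_eq, Wg_eq, Wg_eq, ← Finset.sum_sub_distrib]
  exact Finset.sum_congr rfl fun x _ => by ring

lemma od_n (hL : IsLat L RR Ω) {n : RR} (hn : Go n) {x : RR} (hx : x ∉ sp n) :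
    Od L (Ω * x / n) := by
  have hn0 := coe_ne hn.gd.ne
  refine ⟨fun h => hx ((div_mem_iff hL hn.gd.ne x).1 h), ?_⟩
  obtain ⟨N, hN, d, hd⟩ := go_norm hn
  refine ⟨N, hN, ?_⟩
  have e : (N : ℂ) * (Ω * x / n) = Ω * ((x * d : RR) : ℂ) := by
    have h1 := congrArg (fun t : RR => (t : ℂ)) hd
    push_cast at h1 ⊢
    rw [← h1]
    field_simp
  rw [e]
  exact hL.mem_mul _

lemma od_fR (hL : IsLat L RR Ω) {n : RR} (hn : Go n) {x : RR} (hx : x ∉ sp n) :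
    Od L ((fR : ℂ) * (Ω * x / n)) := by
  have e : (fR : ℂ) * (Ω * x / n) = Ω * ((fR * x : RR) : ℂ) / n := by
    push_cast
    ring
  rw [e]
  refine od_n hL hn fun h => hx ?_
  rw [Ideal.mem_span_singleton] at h ⊢
  exact hn.gd.cop.symm.dvd_of_dvd_mul_left h

lemma cop_aR {n : RR} (hn : Go n) : IsCoprime aR n := by
  obtain ⟨u, hu⟩ := hn.m4
  refine ⟨-(2 * bR * u), 1, ?_⟩
  rw [hu]
  linear_combination (-2 * u) * Pool.Agent.Y698.aR_mul_bR

lemma pe_mul {n : RR} {φ : RR → ℂ} (hφ : Pe n φ) (c : RR) : Pe n (fun x => φ (c * x)) := by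
  intro x y h
  refine hφ _ _ ?_
  rw [← mul_sub]
  exact Ideal.mul_mem_left _ _ h

lemma sumJ_per [Fintype (RR ⧸ sp fR)] (L : PeriodPair) (Ω : ℂ) {z w : ℂ} (h : w - z ∈ L.lattice) :
    ∑ y : RR ⧸ sp fR, Jf L (Ω * y.out / fR + w) = ∑ y : RR ⧸ sp fR, Jf L (Ω * y.out / fR + z) := by
  refine Finset.sum_congr rfl fun y _ => Jf_per L ?_
  rwa [add_sub_add_left_eq_sub]

lemma sumJ_neg [Fintype (RR ⧸ sp fR)] (hL : IsLat L RR Ω) (z : ℂ) :
    ∑ y : RR ⧸ sp fR, Jf L (Ω * y.out / fR + -z) = ∑ y : RR ⧸ sp fR, Jf L (Ω * y.out / fR + z) := by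
  rw [← Equiv.sum_comp (Equiv.neg (RR ⧸ sp fR))]
  refine Finset.sum_congr rfl fun y _ => ?_
  rw [Equiv.neg_apply, ← Jf_neg L (Ω * y.out / fR + z)]
  refine Jf_per L ?_
  have n2 : (-y).out - -y.out ∈ sp fR := by
    rw [← Ideal.Quotient.mk_eq_mk_iff_sub_mem, Ideal.Quotient.mk_out, map_neg,
      Ideal.Quotient.mk_out]
  have m2 := (div_mem_iff hL fR_ne _).2 n2
  convert m2 using 1
  push_cast
  ring

lemma per_mul (hL : IsLat L RR Ω) (c : RR) {z w : ℂ} (h : w - z ∈ L.lattice) :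
    (c : ℂ) * w - c * z ∈ L.lattice := by
  rw [← mul_sub]
  exact hL.mul c _ h

/-- the change of variables for a weight of order two -/
lemma ch2 (hL : IsLat L RR Ω) {g : ℂ → ℂ} (hp : ∀ z w : ℂ, w - z ∈ L.lattice → g w = g z)
    {n c : RR} (hn : n ≠ 0) (hc : IsCoprime c n) {φ : RR → ℂ} (hφ : Pe n φ)
    (h2 : ∀ x, φ (c * (c * x)) = φ x) :
    Wg Ω g n (fun x => φ (c * x)) = Wg Ω (fun z => g ((c : ℂ) * z)) n φ := by
  rw [← Wg_ch hL hp hn hc (pe_mul hφ c)]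
  congr 1
  funext x
  exact h2 x

lemma ch4 (hL : IsLat L RR Ω) {g : ℂ → ℂ} (hp : ∀ z w : ℂ, w - z ∈ L.lattice → g w = g z)
    {n c : RR} (hn : n ≠ 0) (hc : IsCoprime c n) {φ : RR → ℂ} (hφ : Pe n φ)
    (h2 : ∀ x, φ (c * (c * x)) = φ x) :
    Wg Ω g n φ = Wg Ω (fun z => g ((c : ℂ) * ((c : ℂ) * z))) n φ := by
  have h1 := Wg_ch hL hp hn (hc.mul_left hc) hφ
  rw [← h1]
  have e1 : (fun x => φ (c * c * x)) = φ := by
    funext x
    rw [mul_assoc]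
    exact h2 x
  have e2 : (fun z => g (((c * c : RR) : ℂ) * z)) = fun z => g ((c : ℂ) * ((c : ℂ) * z)) := by
    funext z
    push_cast
    rw [mul_assoc]
  rw [e1, e2]

end S2

open S2

/-- **The reduction.** -/
theorem J_red [Fintype (RR ⧸ sp fR)] (h : LD L Ω) (hv : v al < 1)
    (hpq : ∀ l ∈ L.lattice, eta L l = p * l + q * (starRingEnd ℂ) l)
    {n : RR} (hn : Go n) {φ : RR → ℂ} (hφ : Pe n φ) (hφe : ∀ x, φ (-x) = φ x)
    (hφb : ∀ x, v (φ x) ≤ 1) (hφ0 : ∀ x ∈ sp n, φ x = 0)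
    (hφa : ∀ x, φ (aR * (aR * x)) = φ x) (hφf : ∀ x, φ (fR * (fR * x)) = φ x) :
    v (Wg Ω (fun u => ∑ y : RR ⧸ sp fR, Jf L (Ω * y.out / fR + u) - Jf L u) n φ -
      (Wg Ω (fun z => mf L z ^ 3) n φ + Wg Ω (fun z => mf L z ^ 3) n (fun x => φ (fR * x)) +
        Wg Ω (mf L) n (fun x => φ (fR * x)) + Wg Ω (mf L) n (fun x => φ (aR * x)))) ≤ v 4 := by
  have hL := h.lat
  have hn0 := hn.gd.ne
  have hca := cop_aR hn
  have p1 : ∀ z w : ℂ, w - z ∈ L.lattice → mf L w = mf L z := fun z w h => mf_per L h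
  have p3 : ∀ z w : ℂ, w - z ∈ L.lattice → mf L w ^ 3 = mf L z ^ 3 := fun z w h => by
    rw [mf_per L h]
  have pf : ∀ z w : ℂ, w - z ∈ L.lattice → mf L ((fR : ℂ) * w) = mf L ((fR : ℂ) * z) :=
    fun z w h => mf_per L (per_mul hL fR h)
  have c1 := ch2 hL p3 hn0 hn.gd.cop hφ hφf
  have c2 := ch2 hL p1 hn0 hn.gd.cop hφ hφf
  have c3 := ch2 hL p1 hn0 hca hφ hφa
  have c4 := ch4 hL pf hn0 hca hφ hφa
  have c5 := ch4 hL p1 hn0 hca hφ hφa
  beta_reduce at c1 c2 c3 c4 c5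
  have key : Wg Ω (fun u => ∑ y : RR ⧸ sp fR, Jf L (Ω * y.out / fR + u) - Jf L u) n φ -
      (Wg Ω (fun z => mf L z ^ 3) n φ + Wg Ω (fun z => mf L z ^ 3) n (fun x => φ (fR * x)) +
        Wg Ω (mf L) n (fun x => φ (fR * x)) + Wg Ω (mf L) n (fun x => φ (aR * x))) =
      Wg Ω (fun u => (∑ y : RR ⧸ sp fR, Jf L (Ω * y.out / fR + u) - Jf L u) - mf L u ^ 3 -
        mf L ((fR : ℂ) * u) ^ 3 - mf L ((fR : ℂ) * ((aR : ℂ) * ((aR : ℂ) * u))) -
        mf L ((aR : ℂ) * u) + mf L u + mf L ((aR : ℂ) * ((aR : ℂ) * u))) n φ -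
      2 * Wg Ω (mf L) n φ := by
    rw [Wg_fadd _ _ hn0, Wg_fadd _ _ hn0, Wg_fsub _ _ hn0, Wg_fsub _ _ hn0, Wg_fsub _ _ hn0,
      Wg_fsub _ _ hn0, Wg_fsub _ _ hn0, Wg_fsub _ _ hn0, c1, c2, c3, ← c4, ← c5]
    have e : Wg Ω (fun z => mf L z) n φ = Wg Ω (mf L) n φ := rfl
    rw [e]
    ring
  have v4 : v (4 : ℂ) = v 2 * v 2 := by
    rw [← map_mul]
    norm_num
  rw [key]
  refine v_sub_le ?_ ?_
  · rw [v4]
    refine Wg_even_le hL ?_ ?_ two_ne_zero hn ?_ hφ hφe hφb hφ0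
    · intro z w hzw
      have s1 := mf_per L hzw
      have s2 := mf_per L (per_mul hL fR hzw)
      have s3 := mf_per L (per_mul hL aR hzw)
      have s4 := mf_per L (per_mul hL aR (per_mul hL aR hzw))
      have s5 := mf_per L (per_mul hL fR (per_mul hL aR (per_mul hL aR hzw)))
      rw [sumJ_per L Ω hzw, Jf_per L hzw, s1, s2, s3, s4, s5]
    · intro z
      have s (c : RR) (w : ℂ) : (c : ℂ) * -w = -((c : ℂ) * w) := mul_neg _ _
      rw [sumJ_neg hL, Jf_neg, s, s, s, s, mf_neg, mf_neg, mf_neg, mf_neg, mf_neg]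
    · intro x hx
      set u : ℂ := Ω * x / n with hu
      have ou : Od L u := od_n hL hn hx
      have of : Od L ((fR : ℂ) * u) := od_fR hL hn hx
      have oa : Od L ((aR : ℂ) * u) := ou.mul_dvd hL aR_dvd
      have oaf : Od L ((aR : ℂ) * ((fR : ℂ) * u)) := of.mul_dvd hL aR_dvd
      have e1 : (fR : ℂ) * ((aR : ℂ) * ((aR : ℂ) * u)) = (aR : ℂ) * ((aR : ℂ) * ((fR : ℂ) * u)) := by
        ring
      have t1 := trace_fR h hv hpq ou of
      have t2 := mf_frob h hv oaf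
      have t3 := mf_frob h hv of
      have t4 := mf_frob h hv oa
      have t5 := mf_frob h hv ou
      have i1 := (v_mf h hv ou).1
      have i2 := (v_mf h hv of).1
      have i3 := (v_mf h hv oa).1
      have i4 := (v_mf h hv oaf).1
      rw [e1]
      unfold Jf at t1 ⊢
      generalize mf L ((aR : ℂ) * ((aR : ℂ) * ((fR : ℂ) * u))) = A at *
      generalize mf L ((aR : ℂ) * ((fR : ℂ) * u)) = B at *
      generalize mf L ((fR : ℂ) * u) = C at *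
      generalize mf L ((aR : ℂ) * ((aR : ℂ) * u)) = D at *
      generalize mf L ((aR : ℂ) * u) = E at *
      generalize mf L u = M at *
      have e2 : ∑ y : RR ⧸ sp fR, (mf L (Ω * y.out / fR + u) + mf L (Ω * y.out / fR + u) ^ 2 +
          mf L (Ω * y.out / fR + u) ^ 3 + mf L (Ω * y.out / fR + u) ^ 4) -
          (M + M ^ 2 + M ^ 3 + M ^ 4) - M ^ 3 - C ^ 3 - A - E + M + D =
          (∑ y : RR ⧸ sp fR, (mf L (Ω * y.out / fR + u) + mf L (Ω * y.out / fR + u) ^ 2 +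
          mf L (Ω * y.out / fR + u) ^ 3 + mf L (Ω * y.out / fR + u) ^ 4) - (C ^ 3 + C ^ 4)) -
          (A - B ^ 2) - (B - C ^ 2) * (B + C ^ 2) + (D - E ^ 2) + (E - M ^ 2) * (E + M ^ 2) -
          (E - M ^ 2) - 2 * (M ^ 2 + M ^ 3) := by
        ring
      rw [e2]
      have b1 : v (B + C ^ 2) ≤ 1 := v_add_le i4 (v_pow_le i2 2)
      have b2 : v (E + M ^ 2) ≤ 1 := v_add_le i3 (v_pow_le i1 2)
      have b3 : v (M ^ 2 + M ^ 3) ≤ 1 := v_add_le (v_pow_le i1 2) (v_pow_le i1 3)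
      exact v_sub_le (v_sub_le (v_add_le (v_add_le (v_sub_le (v_sub_le t1 t2)
        (Va.v_le_mul t3 b1)) t4) (Va.v_le_mul t5 b2)) t5) (Va.v_two_mul b3)
  · have h1 : v (Wg Ω (mf L) n φ) ≤ v 1 * v 2 := by
      refine Wg_even_le hL p1 (mf_neg L) one_ne_zero hn ?_ hφ hφe hφb hφ0
      intro x hx
      rw [map_one]
      exact (v_mf h hv (od_n hL hn hx)).1
    rw [map_one, one_mul] at h1
    rw [map_mul, v4]
    exact mul_le_mul' le_rfl h1

end Pool.Agent.J4.H67.EW
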