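import Pool.Agent.J4.H67.EW.Defs

/-!
# Even weights: the sum over the points of order `√-7`
-/

set_option autoImplicit false
set_option linter.unusedSectionVars false

open Filter
open scoped Topology PeriodPair

namespace Pool.Agent.J4.H67.EW

open Pool.Agent.Y698 (al bl RR aR bR fR nR cj cX cY e7 e7_mul e7_neg e7_one e7_per e7_eq_zero e7_sq
  fR_ne fin_quot nR_nonneg mul_cj irr_fR not_mem_of_cop LD v_two_lt v_bl bl_ne qch GG al_mul_bl)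
open Pool.Agent.Y698.SG
open H667R3 Pool.Agent.W192.HK Pool.Agent.TH936.CM Pool.Agent.TH936.PU
open Pool.Agent.TH936.CW (E1 ek)
open Pool.Agent.J4.H67.AW

namespace Tr


variable {Γ : Type*} [LinearOrderedCommGroupWithZero Γ]

/-- squares of sums modulo two -/
lemma sum_sq (O : Subring ℂ) {ι : Type*} (s : Finset ι) (μ : ι → ℂ) (hμ : ∀ i ∈ s, μ i ∈ O) :
    (∑ i ∈ s, μ i) ∈ O ∧ ∃ e ∈ O, (∑ i ∈ s, μ i) ^ 2 = ∑ i ∈ s, μ i ^ 2 + 2 * e := by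
  classical
  refine ⟨sum_mem hμ, ?_⟩
  induction s using Finset.induction_on with
  | empty => exact ⟨0, zero_mem _, by simp⟩
  | insert a s ha ih =>
    obtain ⟨e, he, h1⟩ := ih fun i hi => hμ i (Finset.mem_insert_of_mem hi)
    refine ⟨e + μ a * ∑ i ∈ s, μ i, add_mem he (mul_mem (hμ a (Finset.mem_insert_self _ _))
      (sum_mem fun i hi => hμ i (Finset.mem_insert_of_mem hi))), ?_⟩
    rw [Finset.sum_insert ha, Finset.sum_insert ha]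
    linear_combination h1

/-- the algebra of the trace -/
lemma core (O : Subring ℂ) {c t r s m : ℂ} (hc : c ∈ O) (hr : r ∈ O) (hs : s ∈ O) (hm : m ∈ O)
    (htr : t * r = 1) (hts : t = 1 + 2 * s) {ι : Type*} [Fintype ι] {μ : ι → ℂ}
    (hμ : ∀ i, μ i ∈ O)
    (h1 : t ^ 2 * ∑ i, μ i = (4 * c - 1) * t ^ 2 * m + 14 * (c - 2))
    (h2 : t ^ 2 * ∑ i, μ i ^ 2 = -28 * c - 49 * m - 7 * t ^ 2 * m ^ 2 - 7 * ∑ i, μ i)
    (h3 : 2 * t ^ 2 * ∑ i, μ i ^ 3 = 14 - (12 * c - 3) * ∑ i, μ i - 21 * ∑ i, μ i ^ 2 +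
      7 * (4 * c - 1) * (2 - (12 * c - 3) * m - 21 * m ^ 2 - 2 * t ^ 2 * m ^ 3)) :
    ∃ e ∈ O, ∑ i, (μ i + μ i ^ 2 + μ i ^ 3 + μ i ^ 4) = m ^ 3 + m ^ 4 + 2 * e := by
  have h2O : (2 : ℂ) ∈ O := ofNat_mem O 2
  have htO : t ∈ O := by
    rw [hts]
    exact add_mem (one_mem _) (mul_mem h2O hs)
  have nat : ∀ n : ℤ, (n : ℂ) ∈ O := fun n => intCast_mem O n
  obtain ⟨k1, e, he, hS2⟩ := sum_sq O Finset.univ μ fun i _ => hμ i
  obtain ⟨k2, e', he', hS4⟩ := sum_sq O Finset.univ (fun i => μ i ^ 2) fun i _ => pow_mem (hμ i) 2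
  set S1 := ∑ i, μ i with hS1
  have e4 : ∑ i, (μ i ^ 2) ^ 2 = ∑ i, μ i ^ 4 := Finset.sum_congr rfl fun i _ => by ring
  rw [e4] at hS4
  set S2 := ∑ i, μ i ^ 2 with hS2'
  set S3 := ∑ i, μ i ^ 3 with hS3'
  set S4 := ∑ i, μ i ^ 4 with hS4'
  have esum : ∑ i, (μ i + μ i ^ 2 + μ i ^ 3 + μ i ^ 4) = S1 + S2 + S3 + S4 := by
    rw [Finset.sum_add_distrib, Finset.sum_add_distrib, Finset.sum_add_distrib]
  have ht0 : t ≠ 0 := by
    rintro rfl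
    simp at htr
  -- the first sum
  set a1 : ℂ := (2 * c - 1) * m + 7 * (c - 2) * r ^ 2 with ha1
  have i7 : (7 : ℂ) ∈ O := ofNat_mem O 7
  have b1 : a1 ∈ O := add_mem (mul_mem (sub_mem (mul_mem h2O hc) (one_mem _)) hm)
    (mul_mem (mul_mem i7 (sub_mem hc h2O)) (pow_mem hr 2))
  have q1 : S1 = m + 2 * a1 := by
    have : t ^ 2 * (S1 - (m + 2 * a1)) = 0 := by
      rw [ha1]
      linear_combination h1 - 14 * (c - 2) * (t * r + 1) * htr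
    have h := (mul_eq_zero.1 this).resolve_left (pow_ne_zero 2 ht0)
    linear_combination h
  set a2 : ℂ := 2 * a1 * m + 2 * a1 ^ 2 - e with ha2
  have b2 : a2 ∈ O := sub_mem (add_mem (mul_mem (mul_mem h2O b1) hm)
    (mul_mem h2O (pow_mem b1 2))) he
  have q2 : S2 = m ^ 2 + 2 * a2 := by
    rw [ha2]
    linear_combination -hS2 + (S1 + m + 2 * a1) * q1
  set a4 : ℂ := 2 * a2 * m ^ 2 + 2 * a2 ^ 2 - e' with ha4
  have b4 : a4 ∈ O := sub_mem (add_mem (mul_mem (mul_mem h2O b2) (pow_mem hm 2))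
    (mul_mem h2O (pow_mem b2 2))) he'
  have q4 : S4 = m ^ 4 + 2 * a4 := by
    rw [ha4]
    linear_combination -hS4 + (S2 + m ^ 2 + 2 * a2) * q2
  set G : ℂ := (14 * c * t ^ 4 - 42 * c * (c - 2) * t ^ 2 + 147 * c * t ^ 2 +
      21 * (c - 2) * (25 + 2 * s + 2 * s ^ 2)) +
    (-2 * (4 * c - 1) * (12 * c - 3) * t ^ 4 + 147 * c * t ^ 2 +
      t ^ 2 * (220 - 4 * s - 12 * s ^ 2 - 16 * s ^ 3 - 8 * s ^ 4)) * m +
    (-147 * c * t ^ 4 + t ^ 4 * (73 - 2 * s - 2 * s ^ 2)) * m ^ 2 +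
    t ^ 6 * (3 - 14 * c) * m ^ 3 with hG
  have bG : G ∈ O := by
    rw [hG]
    repeat' first
      | exact hc
      | exact hs
      | exact hm
      | exact htO
      | exact one_mem _
      | exact ofNat_mem O _
      | apply neg_mem
      | apply add_mem
      | apply sub_mem
      | apply mul_mem
  set a3 : ℂ := r ^ 6 * G with ha3
  have b3 : a3 ∈ O := mul_mem (pow_mem hr 6) bG
  have q3 : S3 = m + m ^ 2 + m ^ 3 + 2 * a3 := by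
    have w1 : t ^ 6 * S3 = t ^ 6 * (m + m ^ 2 + m ^ 3) + 2 * G := by
      have w2 : 2 * (t ^ 6 * S3) = 2 * (t ^ 6 * (m + m ^ 2 + m ^ 3) + 2 * G) := by
        rw [hG]
        have w3 : 2 * (t ^ 6 * S3) = t ^ 4 * 14 - (12 * c - 3) * t ^ 2 * (t ^ 2 * S1) -
            21 * t ^ 2 * (t ^ 2 * S2) + t ^ 4 * (7 * (4 * c - 1) *
              (2 - (12 * c - 3) * m - 21 * m ^ 2 - 2 * t ^ 2 * m ^ 3)) := by
          linear_combination t ^ 4 * h3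
        rw [w3, h1]
        have w4 : 21 * t ^ 2 * (t ^ 2 * S2) = 21 * (t ^ 2 * (-28 * c - 49 * m - 7 * t ^ 2 * m ^ 2) -
            7 * (t ^ 2 * S1)) := by
          rw [h2]
          ring
        rw [w4, h1, hts]
        ring
      exact mul_left_cancel₀ two_ne_zero w2
    have w5 : t ^ 6 * (S3 - (m + m ^ 2 + m ^ 3 + 2 * a3)) = 0 := by
      have w6 : t ^ 6 * r ^ 6 = 1 := by rw [← mul_pow, htr, one_pow]
      rw [ha3]
      linear_combination w1 - 2 * G * w6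
    have h := (mul_eq_zero.1 w5).resolve_left (pow_ne_zero 6 ht0)
    linear_combination h
  refine ⟨a1 + a2 + a3 + a4 + m + m ^ 2, ?_, ?_⟩
  · exact add_mem (add_mem (add_mem (add_mem (add_mem b1 b2) b3) b4) hm) (pow_mem hm 2)
  · rw [esum]
    linear_combination q1 + q2 + q3 + q4


end Tr

variable {Γ : Type*} [LinearOrderedCommGroupWithZero Γ] {v : Valuation ℂ Γ}
variable {L : PeriodPair} {Ω p q : ℂ}

namespace Tr

lemma f_eq : (fR : ℂ) = 4 * bl⁻¹ - 1 := by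
  have h1 : al = 2 * bl⁻¹ := by
    rw [← al_mul_bl, mul_assoc, mul_inv_cancel₀ bl_ne, mul_one]
  have h2 : (fR : ℂ) = 2 * al - 1 := by
    rw [Pool.Agent.Y698.fR_coe]
    unfold al
    ring
  rw [h2, h1]
  ring

lemma f_sq : (fR : ℂ) ^ 2 = -7 := by
  rw [Pool.Agent.Y698.fR_coe]
  exact Pool.Agent.Y698.s7_sq

/-- the points of the trace -/
lemma od_y (hL : IsLat L RR Ω) {u : ℂ} (hu : Od L u) (hu' : Od L ((fR : ℂ) * u)) (r : RR) :
    Od L (u + Ω * r / fR) := by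
  have hf0 : (fR : ℂ) ≠ 0 := coe_ne fR_ne
  refine ⟨fun hz => hu'.ne ?_, ?_⟩
  · have h1 := hL.mul fR _ hz
    have h2 := sub_mem h1 (hL.mem_mul r)
    have e : (fR : ℂ) * (u + Ω * r / fR) - Ω * r = fR * u := by
      field_simp
      ring
    rwa [e] at h2
  · obtain ⟨N, hN, h2⟩ := hu.tor
    refine ⟨7 * N, (by decide : Odd 7).mul hN, ?_⟩
    have h3 := L.lattice.nsmul_mem h2 7
    have h4 := hL.mem_mul (-(fR * N * r))
    have h5 := add_mem h3 h4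
    have e : (7 : ℕ) • ((N : ℂ) * u) + Ω * ((-(fR * N * r) : RR) : ℂ) =
        ((7 * N : ℕ) : ℂ) * (u + Ω * r / fR) := by
      rw [nsmul_eq_mul]
      push_cast
      field_simp
      linear_combination (-(Ω * N * r)) * f_sq
    rwa [e] at h5

lemma card_f [Fintype (RR ⧸ sp fR)] : (Fintype.card (RR ⧸ sp fR) : ℂ) = 7 := by
  have hb := Pool.Agent.W287.HK.h_basic RR al Pool.Agent.Y698.qr
  have h6 := hb.2.2.2.2.1 fR
  unfold nm at h6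
  rw [Nat.card_eq_fintype_card] at h6
  have h7 : Complex.normSq (fR : ℂ) = 7 := by
    have h1 : Complex.normSq (fR : ℂ) ^ 2 = 7 ^ 2 := by
      rw [← map_pow, f_sq, Complex.normSq_neg]
      norm_num
    exact (pow_left_inj₀ (Complex.normSq_nonneg _) (by norm_num) two_ne_zero).1 h1
  rw [h7] at h6
  exact_mod_cast h6

theorem trace_of (h : LD L Ω) (hv : v al < 1) [Fintype (RR ⧸ sp fR)]
    {u : ℂ} (hu : Od L u) (hu' : Od L ((fR : ℂ) * u))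
    (C2 : v (td L Ω) = 1 ∧ v (td L Ω - 1) ≤ v 2)
    (D1 : ∀ w, w + tT Ω ∉ L.lattice → w - tT Ω ∉ L.lattice →
      B1 L Ω p q w = 7 / (2 * td L Ω) + td L Ω * mf L w)
    (D2 : ∀ w, w + tT Ω ∉ L.lattice → w - tT Ω ∉ L.lattice →
      B2 L Ω w = 2 * bl⁻¹ + 7 * mf L w + td L Ω ^ 2 * mf L w ^ 2)
    (D3 : ∀ w, w + tT Ω ∉ L.lattice → w - tT Ω ∉ L.lattice →
      B3 L Ω w = td L Ω * (2 - (12 * bl⁻¹ - 3) * mf L w - 21 * mf L w ^ 2 -
        2 * td L Ω ^ 2 * mf L w ^ 3))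
    (E1' : ∑ t : RR ⧸ sp fR, B1 L Ω p q (u + Ω * t.out / fR) = fR * B1 L Ω p q (fR * u))
    (E2' : ∑ t : RR ⧸ sp fR, B2 L Ω (u + Ω * t.out / fR) = fR ^ 2 * B2 L Ω (fR * u))
    (E3' : ∑ t : RR ⧸ sp fR, B3 L Ω (u + Ω * t.out / fR) = fR ^ 3 * B3 L Ω (fR * u))
    (F1 : ∀ z, Od L z → v (mf L z) ≤ 1)
    (F2 : ∀ z, Od L z → z + tT Ω ∉ L.lattice ∧ z - tT Ω ∉ L.lattice) :
    v (∑ y : RR ⧸ sp fR, Jf L (Ω * y.out / fR + u) -
      (mf L ((fR : ℂ) * u) ^ 3 + mf L ((fR : ℂ) * u) ^ 4)) ≤ v 2 := by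
  have hL := h.lat
  have hy := fun y : RR ⧸ sp fR => od_y hL hu hu' y.out
  have hs1 : ∑ y : RR ⧸ sp fR, Jf L (Ω * y.out / fR + u) =
      ∑ y : RR ⧸ sp fR, (mf L (u + Ω * y.out / fR) + mf L (u + Ω * y.out / fR) ^ 2 +
        mf L (u + Ω * y.out / fR) ^ 3 + mf L (u + Ω * y.out / fR) ^ 4) := by
    refine Finset.sum_congr rfl fun y _ => ?_
    rw [add_comm (Ω * (y.out : ℂ) / (fR : ℂ)) u]
    rfl
  rw [hs1]
  rw [Finset.sum_congr rfl fun y _ => D1 _ (F2 _ (hy y)).1 (F2 _ (hy y)).2,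
    D1 _ (F2 _ hu').1 (F2 _ hu').2] at E1'
  rw [Finset.sum_congr rfl fun y _ => D2 _ (F2 _ (hy y)).1 (F2 _ (hy y)).2,
    D2 _ (F2 _ hu').1 (F2 _ hu').2] at E2'
  rw [Finset.sum_congr rfl fun y _ => D3 _ (F2 _ (hy y)).1 (F2 _ (hy y)).2,
    D3 _ (F2 _ hu').1 (F2 _ hu').2] at E3'
  have hmu : ∀ y : RR ⧸ sp fR, mf L (u + Ω * y.out / fR) ∈ v.integer := fun y => F1 _ (hy y)
  have hm : mf L ((fR : ℂ) * u) ∈ v.integer := F1 _ hu'
  set t := td L Ω with ht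
  set m := mf L ((fR : ℂ) * u) with hmdef
  set μ : RR ⧸ sp fR → ℂ := fun y => mf L (u + Ω * y.out / fR) with hμ
  have ht0 : t ≠ 0 := by
    intro h0
    rw [h0, map_zero] at C2
    exact zero_ne_one C2.1
  have h2v : v 2 ≠ 0 := (Valuation.ne_zero_iff v).2 two_ne_zero
  have ec : ∀ a : ℂ, ∑ _y : RR ⧸ sp fR, a = a * 7 := fun a => by
    rw [Finset.sum_const, Finset.card_univ, nsmul_eq_mul, card_f, mul_comm]
  have e1 : t ^ 2 * ∑ y, μ y = (4 * bl⁻¹ - 1) * t ^ 2 * m + 14 * (bl⁻¹ - 2) := by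
    have w : ∑ y : RR ⧸ sp fR, (7 / (2 * t) + t * μ y) = 7 / (2 * t) * 7 + t * ∑ y, μ y := by
      rw [Finset.sum_add_distrib, ← Finset.mul_sum, ec]
    rw [w, f_eq] at E1'
    have w2 : t * (7 / (2 * t)) = 7 / 2 := by
      field_simp
    linear_combination t * E1' - (7 - (4 * bl⁻¹ - 1)) * w2
  have e2 : t ^ 2 * ∑ y, μ y ^ 2 = -28 * bl⁻¹ - 49 * m - 7 * t ^ 2 * m ^ 2 - 7 * ∑ y, μ y := by
    have w : ∑ y : RR ⧸ sp fR, (2 * bl⁻¹ + 7 * μ y + t ^ 2 * μ y ^ 2) =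
        2 * bl⁻¹ * 7 + 7 * ∑ y, μ y + t ^ 2 * ∑ y, μ y ^ 2 := by
      rw [Finset.sum_add_distrib, Finset.sum_add_distrib, ec, ← Finset.mul_sum, ← Finset.mul_sum]
    rw [w, f_sq] at E2'
    linear_combination E2'
  have e3 : 2 * t ^ 2 * ∑ y, μ y ^ 3 = 14 - (12 * bl⁻¹ - 3) * ∑ y, μ y - 21 * ∑ y, μ y ^ 2 +
      7 * (4 * bl⁻¹ - 1) * (2 - (12 * bl⁻¹ - 3) * m - 21 * m ^ 2 - 2 * t ^ 2 * m ^ 3) := by
    have w : ∑ y : RR ⧸ sp fR, t * (2 - (12 * bl⁻¹ - 3) * μ y - 21 * μ y ^ 2 -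
        2 * t ^ 2 * μ y ^ 3) = t * (2 * 7 - (12 * bl⁻¹ - 3) * ∑ y, μ y - 21 * ∑ y, μ y ^ 2 -
        2 * t ^ 2 * ∑ y, μ y ^ 3) := by
      rw [← Finset.mul_sum, Finset.sum_sub_distrib, Finset.sum_sub_distrib,
        Finset.sum_sub_distrib, ec, ← Finset.mul_sum, ← Finset.mul_sum, ← Finset.mul_sum]
    have f3 : (fR : ℂ) ^ 3 = -7 * (4 * bl⁻¹ - 1) := by
      rw [pow_succ, f_sq, f_eq]
    rw [w, f3] at E3'
    have w2 : t * (2 * t ^ 2 * ∑ y, μ y ^ 3) = t * (14 - (12 * bl⁻¹ - 3) * ∑ y, μ y -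
        21 * ∑ y, μ y ^ 2 + 7 * (4 * bl⁻¹ - 1) * (2 - (12 * bl⁻¹ - 3) * m - 21 * m ^ 2 -
          2 * t ^ 2 * m ^ 3)) := by
      linear_combination -E3'
    exact mul_left_cancel₀ ht0 w2
  have hc : bl⁻¹ ∈ v.integer := by
    rw [Valuation.mem_integer_iff, map_inv₀, v_bl hv, inv_one]
  have hr : t⁻¹ ∈ v.integer := by
    rw [Valuation.mem_integer_iff, map_inv₀, C2.1, inv_one]
  have hs : (t - 1) / 2 ∈ v.integer := by
    rw [Valuation.mem_integer_iff, map_div₀]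
    exact div_le_one_of_le₀ C2.2 zero_le
  obtain ⟨e, he, hsum⟩ := core v.integer hc hr hs hm (mul_inv_cancel₀ ht0) (by ring) hmu e1 e2 e3
  have hsum' : ∑ y : RR ⧸ sp fR, (mf L (u + Ω * y.out / fR) + mf L (u + Ω * y.out / fR) ^ 2 +
        mf L (u + Ω * y.out / fR) ^ 3 + mf L (u + Ω * y.out / fR) ^ 4) = m ^ 3 + m ^ 4 + 2 * e :=
    hsum
  rw [hsum', add_sub_cancel_left, map_mul]
  exact mul_le_of_le_one_right' he

end Tr

end Pool.Agent.J4.H67.EW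

/-
With the pieces C, D, E, F (imports Tp, Fo, Di, Va) the theorem is:

theorem trace_fR (h : LD L Ω) (hv : v al < 1)
    (hpq : ∀ l ∈ L.lattice, eta L l = p * l + q * (starRingEnd ℂ) l) [Fintype (RR ⧸ sp fR)]
    {u : ℂ} (hu : Od L u) (hu' : Od L ((fR : ℂ) * u)) :
    v (∑ y : RR ⧸ sp fR, Jf L (Ω * y.out / fR + u) -
      (mf L ((fR : ℂ) * u) ^ 3 + mf L ((fR : ℂ) * u) ^ 4)) ≤ v 2 := by
  have hT := tT_fR h.lat
  have hpq' : ∀ l ∈ L.lattice, eta L l = 1 / 4 * l + q * (starRingEnd ℂ) l := by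
    rw [← p_quarter h hpq]
    exact hpq
  have n := Od.ne_T h.lat hu'.tor
  exact Tr.trace_of h hv hu hu' (v_td h hv) (fun w h1 h2 => B1_eq h hpq h1 h2)
    (fun w h1 h2 => B2_eq h h1 h2) (fun w h1 h2 => B3_eq h h1 h2)
    (B1_dist h.lat hpq fR_ne hT n.1 n.2) (B2_dist h.lat hpq' fR_ne hT n.1 n.2)
    (B3_dist h.lat fR_ne hT n.1 n.2) (fun z hz => (v_mf h hv hz).1)
    (fun z hz => Od.ne_T h.lat hz.tor)
-/
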