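import Pool.Agent.J4.H67.EW.Defs

/-!
# The values of `mf` at the points of odd order, and the Frobenius congruence
-/

set_option autoImplicit false
set_option linter.unusedSectionVars false

open Filter
open scoped Topology PeriodPair

namespace Pool.Agent.J4.H67.EW

open Pool.Agent.Y698 (al bl RR aR bR fR nR cj cX cY e7 e7_mul e7_neg e7_one e7_per e7_eq_zero e7_sq
  fR_ne fin_quot nR_nonneg mul_cj irr_fR not_mem_of_cop LD v_two_lt v_bl bl_ne qch GG)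
open Pool.Agent.Y698.SG
open H667R3 Pool.Agent.W192.HK Pool.Agent.TH936.CM Pool.Agent.TH936.PU
open Pool.Agent.TH936.CW (E1 ek)
open Pool.Agent.J4.H67.AW

variable {Γ : Type*} [LinearOrderedCommGroupWithZero Γ] {v : Valuation ℂ Γ}
variable {L : PeriodPair} {Ω p q : ℂ}

theorem mf_per (L : PeriodPair) {z w : ℂ} (hw : w - z ∈ L.lattice) : mf L w = mf L z := by
  unfold mf
  rw [Pool.Agent.Y698.Xx_per hw]
  have h1 : w ∈ L.lattice ↔ z ∈ L.lattice := by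
    constructor
    · intro h
      have := sub_mem h hw
      rwa [sub_sub_cancel] at this
    · intro h
      have := add_mem h hw
      rwa [add_sub_cancel] at this
  by_cases h2 : z ∈ L.lattice
  · rw [if_pos h2, if_pos (h1.2 h2)]
  · rw [if_neg h2, if_neg fun h => h2 (h1.1 h)]

theorem mf_neg (L : PeriodPair) (z : ℂ) : mf L (-z) = mf L z := by
  unfold mf
  rw [Pool.Agent.Y698.Xx_neg]
  have h1 : -z ∈ L.lattice ↔ z ∈ L.lattice := neg_mem_iff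
  by_cases h2 : z ∈ L.lattice
  · rw [if_pos h2, if_pos (h1.2 h2)]
  · rw [if_neg h2, if_neg fun h => h2 (h1.1 h)]

namespace Va

/-- from the values at the point of order four -/
theorem ne_T_of (h2 : tT Ω ∉ L.lattice ∧ 2 * tT Ω ∉ L.lattice ∧ 4 * tT Ω ∈ L.lattice) {z : ℂ}
    (hz : ∃ N : ℕ, Odd N ∧ (N : ℂ) * z ∈ L.lattice) :
    z + tT Ω ∉ L.lattice ∧ z - tT Ω ∉ L.lattice := by
  obtain ⟨N, hN, hNz⟩ := hz
  -- an odd multiple of `T` is not in the lattice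
  have key : (N : ℂ) * tT Ω ∉ L.lattice := by
    intro h
    have h4 : ∃ k : ℤ, (N : ℤ) = 4 * k + 1 ∨ (N : ℤ) = 4 * k - 1 := by
      obtain ⟨j, hj⟩ := hN
      rcases Nat.even_or_odd j with ⟨i, hi⟩ | ⟨i, hi⟩
      · exact ⟨i, Or.inl (by omega)⟩
      · exact ⟨i + 1, Or.inr (by omega)⟩
    obtain ⟨k, hk⟩ := h4
    have h5 := intCast_mul_mem L h2.2.2 k
    rcases hk with hk | hk
    · apply h2.1
      have h6 := sub_mem h h5
      have e : (N : ℂ) * tT Ω - (k : ℂ) * (4 * tT Ω) = tT Ω := by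
        have : (N : ℂ) = 4 * k + 1 := by exact_mod_cast congrArg (fun t : ℤ => (t : ℂ)) hk
        rw [this]
        ring
      rwa [e] at h6
    · apply h2.1
      have h6 := sub_mem h5 h
      have e : (k : ℂ) * (4 * tT Ω) - (N : ℂ) * tT Ω = tT Ω := by
        have : (N : ℂ) = 4 * k - 1 := by exact_mod_cast congrArg (fun t : ℤ => (t : ℂ)) hk
        rw [this]
        ring
      rwa [e] at h6
  constructor
  · intro h
    apply key
    have h3 := intCast_mul_mem L h (N : ℤ)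
    have h4 := sub_mem h3 hNz
    have e : ((N : ℤ) : ℂ) * (z + tT Ω) - (N : ℂ) * z = (N : ℂ) * tT Ω := by push_cast; ring
    rwa [e] at h4
  · intro h
    apply key
    have h3 := intCast_mul_mem L h (N : ℤ)
    have h4 := sub_mem hNz h3
    have e : (N : ℂ) * z - ((N : ℤ) : ℂ) * (z - tT Ω) = (N : ℂ) * tT Ω := by push_cast; ring
    rwa [e] at h4

theorem Od_al (h : LD L Ω) (hv : v al < 1) {z : ℂ} (hz : Od L z) : Od L (al * z) := by
  refine ⟨?_, ?_⟩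
  · have := Pool.Agent.Y698.pow_notMem h hv (hz.tb hv) 1
    rwa [pow_one] at this
  · obtain ⟨N, hN, h2⟩ := hz.tor
    refine ⟨N, hN, ?_⟩
    have h3 := h.lat.mul aR _ h2
    rw [Pool.Agent.Y698.aR_coe] at h3
    have e : (N : ℂ) * (al * z) = al * ((N : ℂ) * z) := by ring
    rwa [e]

theorem Od_bl (h : LD L Ω) {z : ℂ} (hz : Od L z) : Od L (bl * z) := by
  refine ⟨?_, ?_⟩
  · intro h1
    apply hz.two.ne
    have h3 := h.lat.mul aR _ h1
    rw [Pool.Agent.Y698.aR_coe, ← mul_assoc, Pool.Agent.Y698.al_mul_bl] at h3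
    exact h3
  · obtain ⟨N, hN, h2⟩ := hz.tor
    refine ⟨N, hN, ?_⟩
    have h3 := h.lat.mul bR _ h2
    rw [Pool.Agent.Y698.bR_coe] at h3
    have e : (N : ℂ) * (bl * z) = bl * ((N : ℂ) * z) := by ring
    rwa [e]

lemma v_le_mul {a b c : ℂ} (ha : v a ≤ v c) (hb : v b ≤ 1) : v (a * b) ≤ v c := by
  rw [map_mul]
  calc v a * v b ≤ v c * 1 := mul_le_mul' ha hb
    _ = v c := mul_one _

lemma v_two_mul {a : ℂ} (ha : v a ≤ 1) : v (2 * a) ≤ v 2 := v_le_mul le_rfl ha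

lemma v_inv_sub {a b c : ℂ} (ha : v a = 1) (hb : v b = 1) (h : v (a - b) ≤ v c) :
    v (1 / a - 1 / b) ≤ v c := by
  have ha0 : a ≠ 0 := by
    rintro rfl
    simp at ha
  have hb0 : b ≠ 0 := by
    rintro rfl
    simp at hb
  have e : 1 / a - 1 / b = -(a - b) / (a * b) := by
    field_simp
    ring
  rw [e, map_div₀, map_mul, ha, hb, one_mul, div_one, Valuation.map_neg]
  exact h

lemma v_bl_one (hv : v al < 1) : v (bl⁻¹ + 1) ≤ v 2 := by
  have e : bl⁻¹ + 1 = -(al * (al * bl⁻¹)) := by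
    have h1 := Pool.Agent.Y698.al_sq
    have h2 := Pool.Agent.Y698.bl_ne
    have h3 : bl = 1 - al := rfl
    field_simp
    rw [h3]
    linear_combination h1
  rw [e, Valuation.map_neg, Pool.Agent.Y698.v_two hv]
  refine v_le_mul le_rfl ?_
  rw [map_mul, map_inv₀, v_bl hv, inv_one, mul_one]
  exact hv.le

/-- the values of `x` -/
theorem v_x (h : LD L Ω) (hv : v al < 1) {z : ℂ} (hz : Od L z) :
    v (Pool.Agent.Y698.Xx L z) = 1 ∧ v (Pool.Agent.Y698.Xx L z + 1) = 1 := by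
  have t2 := v_two_lt hv
  obtain ⟨d1, d2⟩ := (hz.tb hv).deriv h hv hz.two.ne
  obtain ⟨-, d3⟩ := (hz.two.tb hv).deriv h hv hz.two.two.ne
  have hd := h.dupl hz.two.ne
  refine ⟨d2, ?_⟩
  set x := Pool.Agent.Y698.Xx L z
  have h1 : v (x ^ 4 + 4 * x ^ 2 + 8 * x + 1) = 1 := by
    rw [← hd, map_mul, map_pow, d1, d3]
    simp
  have h2 : v (2 * (2 * x ^ 3 + x ^ 2 - 2 * x)) < 1 := by
    rw [map_mul]
    refine mul_lt_one_of_lt_of_le t2 ?_
    have i1 : v x ≤ 1 := d2.le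
    exact v_sub_le (v_add_le (v_mul_le t2.le (v_pow_le i1 3)) (v_pow_le i1 2)) (v_mul_le t2.le i1)
  have h3 : v ((x + 1) ^ 4) = 1 := by
    have e : (x + 1) ^ 4 = (x ^ 4 + 4 * x ^ 2 + 8 * x + 1) + 2 * (2 * x ^ 3 + x ^ 2 - 2 * x) := by
      ring
    rw [e, Valuation.map_add_eq_of_lt_left v (by rw [h1]; exact h2), h1]
  rw [map_pow] at h3
  exact (pow_eq_one_iff_of_nonneg zero_le (by norm_num)).1 h3

end Va

theorem v_mf (h : LD L Ω) (hv : v al < 1) {z : ℂ} (hz : Od L z) :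
    v (mf L z) ≤ 1 ∧ v (Pool.Agent.Y698.Xx L z + 1) = 1 ∧
      v (mf L z - 1 / (Pool.Agent.Y698.Xx L z + 1)) ≤ v 2 := by
  obtain ⟨d2, d4⟩ := Va.v_x h hv hz
  have t2 := v_two_lt hv
  have hb := Va.v_bl_one hv
  have hm : mf L z = 1 / (bl⁻¹ - Pool.Agent.Y698.Xx L z) := by
    unfold mf
    exact if_neg hz.ne
  rw [hm]
  set x := Pool.Agent.Y698.Xx L z
  have h5 : v (bl⁻¹ - x) = 1 := by
    have e : bl⁻¹ - x = -(x + 1) + (bl⁻¹ + 1) := by ring
    rw [e, Valuation.map_add_eq_of_lt_left v, Valuation.map_neg, d4]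
    rw [Valuation.map_neg, d4]
    exact hb.trans_lt t2
  refine ⟨?_, d4, ?_⟩
  · rw [map_div₀, map_one, h5, div_one]
  · refine Va.v_inv_sub h5 d4 ?_
    have e : bl⁻¹ - x - (x + 1) = (bl⁻¹ + 1) - 2 * (x + 1) := by ring
    rw [e]
    exact Valuation.map_sub_le v hb (Va.v_two_mul d4.le)

theorem mf_frob (h : LD L Ω) (hv : v al < 1) {z : ℂ} (hz : Od L z) :
    v (mf L ((aR : ℂ) * z) - mf L z ^ 2) ≤ v 2 := by
  rw [Pool.Agent.Y698.aR_coe]
  have hz2 := Va.Od_al h hv hz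
  have t2 := v_two_lt hv
  obtain ⟨d1, d2⟩ := Va.v_x h hv hz
  obtain ⟨d3, d4⟩ := Va.v_x h hv hz2
  obtain ⟨m1, -, m2⟩ := v_mf h hv hz
  obtain ⟨m3, -, m4⟩ := v_mf h hv hz2
  obtain ⟨e1, -⟩ := h.mul_al hz2.ne
  set x := Pool.Agent.Y698.Xx L z
  set x' := Pool.Agent.Y698.Xx L (al * z)
  have hal : v al = v 2 := (Pool.Agent.Y698.v_two hv).symm
  -- `x' = x²` modulo `2`
  have h1 : v (x' - x ^ 2) ≤ v 2 := by
    have e : x' - x ^ 2 = -al - (al * (al * (x * x')) + al * (al * x')) := by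
      have h2 : bl = 1 - al := rfl
      have h3 := Pool.Agent.Y698.al_sq
      rw [h2] at e1
      linear_combination e1 + x' * h3
    rw [e]
    refine Valuation.map_sub_le v ?_ (Valuation.map_add_le v ?_ ?_)
    · rw [Valuation.map_neg, hal]
    · exact Va.v_le_mul hal.le (v_mul_le hv.le (v_mul_le d1.le d3.le))
    · exact Va.v_le_mul hal.le (v_mul_le hv.le d3.le)
  have h2 : v (x' + 1 - (x + 1) ^ 2) ≤ v 2 := by
    have e : x' + 1 - (x + 1) ^ 2 = (x' - x ^ 2) - 2 * x := by ring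
    rw [e]
    exact Valuation.map_sub_le v h1 (Va.v_two_mul d1.le)
  have h3 : v (1 / (x' + 1) - 1 / (x + 1) ^ 2) ≤ v 2 :=
    Va.v_inv_sub d4 (by rw [map_pow, d2, one_pow]) h2
  have h4 : v (1 / (x + 1)) ≤ 1 := by
    rw [map_div₀, map_one, d2, div_one]
  have e : mf L (al * z) - mf L z ^ 2 = (mf L (al * z) - 1 / (x' + 1)) +
      (1 / (x' + 1) - 1 / (x + 1) ^ 2) - (mf L z - 1 / (x + 1)) * (mf L z + 1 / (x + 1)) := by
    have : (1 / (x + 1)) ^ 2 = 1 / (x + 1) ^ 2 := by rw [div_pow, one_pow]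
    linear_combination -this
  rw [e]
  exact Valuation.map_sub_le v (Valuation.map_add_le v m4 h3)
    (Va.v_le_mul m2 (v_add_le m1 h4))

namespace Va

/-- the numbers of odd order, from the congruences for them -/
theorem Hf_mod_of (h : LD L Ω) (hv : v al < 1) {w : ℂ} (hw : Od L w) (m : ℕ)
    (hA : ∀ z : ℂ, Od L z →
      v (((2 * m + 3).factorial : ℂ) * ek L p q (2 * m + 3) z - 6 * ek L p q 3 z) ≤ v 4)
    (hB : v (6 * ek L p q 3 (bl * (bl * w)) + Vv L p q (bl * w) -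
      2 * (Pool.Agent.Y698.Xx L w ^ 3 / (Pool.Agent.Y698.Xx L w + 1) ^ 4)) ≤ v 4) :
    v (Hf L p q (2 * m + 3) w - 2 * Jf L w) ≤ v 4 := by
  have t2 := v_two_lt hv
  obtain ⟨d1, d2⟩ := Va.v_x h hv hw
  obtain ⟨m1, -, m2⟩ := v_mf h hv hw
  have a1 := hA (bl * (bl * w)) (Od_bl h (Od_bl h hw))
  have h4 : v 4 = v 2 * v 2 := by
    rw [← map_mul]
    norm_num
  unfold Hf Jf
  rw [Pool.Agent.Y698.bR_coe]
  set x := Pool.Agent.Y698.Xx L w
  set μ := mf L w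
  have hx0 : x + 1 ≠ 0 := by
    intro h0
    rw [h0] at d2
    simp at d2
  obtain ⟨n, hn⟩ : ∃ n, n = 1 / (x + 1) := ⟨_, rfl⟩
  have hnx : n * (x + 1) = 1 := by
    rw [hn]
    field_simp
  have n1 : v n ≤ 1 := by
    rw [hn, map_div₀, map_one, d2, div_one]
  rw [← hn] at m2
  have i1 : v (4 * x ^ 2 + 6 * x + 4) ≤ v 2 := by
    have e : 4 * x ^ 2 + 6 * x + 4 = 2 * (2 * x ^ 2 + 3 * x + 2) := by ring
    rw [e]
    refine v_two_mul (v_add_le (v_add_le (v_mul_le t2.le (v_pow_le d1.le 2)) (v_mul_le ?_ d1.le)) t2.le)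
    have e : (3 : ℂ) = 1 + 2 := by norm_num
    rw [e]
    exact v_add_le (by rw [map_one]) t2.le
  have i2 : v (x ^ 3 / (x + 1) ^ 4 - (n + n ^ 2 + n ^ 3 + n ^ 4)) ≤ v 2 := by
    have e : x ^ 3 / (x + 1) ^ 4 - (n + n ^ 2 + n ^ 3 + n ^ 4) =
        -((4 * x ^ 2 + 6 * x + 4) * n ^ 4) := by
      rw [hn]
      field_simp
      ring
    rw [e, Valuation.map_neg]
    exact v_le_mul i1 (v_pow_le n1 4)
  have i3 : v ((μ + μ ^ 2 + μ ^ 3 + μ ^ 4) - (n + n ^ 2 + n ^ 3 + n ^ 4)) ≤ v 2 := by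
    have e : (μ + μ ^ 2 + μ ^ 3 + μ ^ 4) - (n + n ^ 2 + n ^ 3 + n ^ 4) =
        (μ - n) * (1 + (μ + n) + (μ ^ 2 + μ * n + n ^ 2) +
          (μ ^ 3 + μ ^ 2 * n + μ * n ^ 2 + n ^ 3)) := by ring
    rw [e]
    refine v_le_mul m2 ?_
    refine v_add_le (v_add_le (v_add_le (by rw [map_one]) (v_add_le m1 n1)) ?_) ?_
    · exact v_add_le (v_add_le (v_pow_le m1 2) (v_mul_le m1 n1)) (v_pow_le n1 2)
    · exact v_add_le (v_add_le (v_add_le (v_pow_le m1 3) (v_mul_le (v_pow_le m1 2) n1))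
        (v_mul_le m1 (v_pow_le n1 2))) (v_pow_le n1 3)
  have i4 : v (2 * (x ^ 3 / (x + 1) ^ 4 - (μ + μ ^ 2 + μ ^ 3 + μ ^ 4))) ≤ v 4 := by
    have e : x ^ 3 / (x + 1) ^ 4 - (μ + μ ^ 2 + μ ^ 3 + μ ^ 4) =
        (x ^ 3 / (x + 1) ^ 4 - (n + n ^ 2 + n ^ 3 + n ^ 4)) -
          ((μ + μ ^ 2 + μ ^ 3 + μ ^ 4) - (n + n ^ 2 + n ^ 3 + n ^ 4)) := by ring
    rw [map_mul, h4]
    refine mul_le_mul' le_rfl ?_
    rw [e]
    exact Valuation.map_sub_le v i2 i3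
  have e : (((2 * m + 3).factorial : ℕ) : ℂ) * ek L p q (2 * m + 3) (bl * (bl * w)) +
      Vv L p q (bl * w) - 2 * (μ + μ ^ 2 + μ ^ 3 + μ ^ 4) =
      ((((2 * m + 3).factorial : ℕ) : ℂ) * ek L p q (2 * m + 3) (bl * (bl * w)) -
        6 * ek L p q 3 (bl * (bl * w))) +
      (6 * ek L p q 3 (bl * (bl * w)) + Vv L p q (bl * w) - 2 * (x ^ 3 / (x + 1) ^ 4)) +
      2 * (x ^ 3 / (x + 1) ^ 4 - (μ + μ ^ 2 + μ ^ 3 + μ ^ 4)) := by ring
  rw [e]
  exact Valuation.map_add_le v (Valuation.map_add_le v a1 hB) i4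

end Va

end Pool.Agent.J4.H67.EW
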